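import Mathlib

open Polynomial

set_option linter.style.haveILetI false

noncomputable section

namespace Pool.Agent.H23

variable {K : Type*} [Field K] [Algebra ℂ K] (v : AddValuation K (WithTop ℤ))

/-! ### elementary facts on discrete valuations -/

omit [Algebra ℂ K] in
lemma val_inv {f : K} (h : v f = 0) : v f⁻¹ = 0 := by
  rw [AddValuation.map_inv, h, neg_zero]

omit [Algebra ℂ K] in
lemma exists_int {f : K} (h : f ≠ 0) : ∃ k : ℤ, v f = k := by
  have := (v.ne_top_iff).2 h
  exact ⟨(v f).untop this, by simp⟩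

lemma one_le_of_pos {a : WithTop ℤ} (h : 0 < a) : 1 ≤ a := by
  induction a using WithTop.recTopCoe with
  | top => exact le_top
  | coe a =>
    have : (0 : ℤ) < a := by exact_mod_cast h
    exact_mod_cast this

section poly

variable {σ : Type*} (s : σ → K) (t : K)

/-- evaluation `ℂ[s][t] → K` -/
def ev : (MvPolynomial σ ℂ)[X] →+* K :=
  Polynomial.eval₂RingHom (MvPolynomial.aeval s).toRingHom t

lemma ev_C (p : MvPolynomial σ ℂ) : ev s t (C p) = MvPolynomial.aeval s p := by
  simp [ev]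

lemma ev_X : ev s t X = t := by simp [ev]

lemma ev_decomp (q : (MvPolynomial σ ℂ)[X]) :
    ev s t q = ev s t q.divX * t + MvPolynomial.aeval s (q.coeff 0) := by
  conv_lhs => rw [← Polynomial.divX_mul_X_add q]
  rw [map_add, map_mul, ev_X, ev_C]

variable {s t} (hs : ∀ p : MvPolynomial σ ℂ, p ≠ 0 → v (MvPolynomial.aeval s p) = 0)
  (ht : v t = 1)

include hs in
lemma val_aeval_nonneg (p : MvPolynomial σ ℂ) : 0 ≤ v (MvPolynomial.aeval s p) := by
  by_cases h : p = 0
  · simp [h]
  · rw [hs p h]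

include hs ht in
lemma val_ev_nonneg (q : (MvPolynomial σ ℂ)[X]) : 0 ≤ v (ev s t q) := by
  induction q using Polynomial.induction_on' with
  | add p q hp hq =>
    rw [map_add]
    exact v.map_le_add hp hq
  | monomial n a =>
    rw [← Polynomial.C_mul_X_pow_eq_monomial, map_mul, map_pow, ev_X, ev_C, v.map_mul, v.map_pow, ht]
    have := val_aeval_nonneg v hs a
    exact add_nonneg this (by simp)

include hs ht in
lemma val_ev_sub (q : (MvPolynomial σ ℂ)[X]) :
    1 ≤ v (ev s t q - MvPolynomial.aeval s (q.coeff 0)) := by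
  rw [ev_decomp, add_sub_cancel_right, v.map_mul, ht]
  exact le_add_of_nonneg_left (val_ev_nonneg v hs ht _)

include hs ht in
lemma val_ev_eq_zero {q : (MvPolynomial σ ℂ)[X]} (hq : q.coeff 0 ≠ 0) : v (ev s t q) = 0 := by
  have h1 := val_ev_sub v hs ht q
  have h2 : ev s t q = MvPolynomial.aeval s (q.coeff 0) +
    (ev s t q - MvPolynomial.aeval s (q.coeff 0)) := by ring
  rw [h2, v.map_add_eq_of_lt_left, hs _ hq]
  rw [hs _ hq]
  exact lt_of_lt_of_le (by norm_num) h1

include hs ht in
lemma ev_injective : Function.Injective (ev s t) := by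
  rw [injective_iff_map_eq_zero]
  intro q hq
  by_contra hne
  obtain ⟨n, q', h1, h2⟩ := WfDvdMonoid.max_power_factor hne (Polynomial.prime_X (R := MvPolynomial σ ℂ)).irreducible
  have h3 : q'.coeff 0 ≠ 0 := fun h => h1 (Polynomial.X_dvd_iff.2 h)
  have h4 := val_ev_eq_zero v hs ht h3
  have ht0 : t ≠ 0 := by
    rintro rfl
    simp at ht
  rw [h2, map_mul, map_pow, ev_X] at hq
  rcases mul_eq_zero.1 hq with h | h
  · exact pow_ne_zero n ht0 h
  · rw [h] at h4; simp at h4

end poly

/-! ### algebraic elements -/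

section alg

variable {σ : Type*} {s : σ → K} {t : K}
  (hs : ∀ p : MvPolynomial σ ℂ, p ≠ 0 → v (MvPolynomial.aeval s p) = 0)
  (ht : v t = 1)

/-- an element which is algebraic over `ℂ[s,t]` satisfies an equation one of whose coefficients
is a unit at `v` -/
lemma exists_primitive {f : K} {F : (MvPolynomial σ ℂ)[X][X]} (hF : F ≠ 0)
    (hFf : F.eval₂ (ev s t) f = 0) (ht0 : t ≠ 0) :
    ∃ G : (MvPolynomial σ ℂ)[X][X], G.eval₂ (ev s t) f = 0 ∧ ∃ i, (G.coeff i).coeff 0 ≠ 0 := by
  obtain ⟨n, G, h1, h2⟩ := WfDvdMonoid.max_power_factor hF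
    (Polynomial.prime_C_iff.2 (Polynomial.prime_X (R := MvPolynomial σ ℂ))).irreducible
  refine ⟨G, ?_, ?_⟩
  · rw [h2, eval₂_mul, eval₂_pow, eval₂_C, ev_X] at hFf
    rcases mul_eq_zero.1 hFf with h | h
    · exact absurd h (pow_ne_zero n ht0)
    · exact h
  · by_contra hcon
    push Not at hcon
    apply h1
    rw [Polynomial.C_dvd_iff_dvd_coeff]
    intro i
    exact Polynomial.X_dvd_iff.2 (hcon i)

include hs ht in
/-- reduction of the equation modulo `t` -/
lemma exists_red {f : K} (hf : 0 ≤ v f) {F : (MvPolynomial σ ℂ)[X][X]} (hF : F ≠ 0)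
    (hFf : F.eval₂ (ev s t) f = 0) :
    ∃ G : (MvPolynomial σ ℂ)[X], G ≠ 0 ∧ 1 ≤ v (G.eval₂ (MvPolynomial.aeval s).toRingHom f) := by
  have ht0 : t ≠ 0 := by
    rintro rfl
    simp at ht
  obtain ⟨G, hG1, i, hG2⟩ := exists_primitive hF hFf ht0
  refine ⟨G.map (Polynomial.constantCoeff), ?_, ?_⟩
  · intro h
    apply hG2
    have := congrArg (fun q => q.coeff i) h
    simpa using this
  · have h3 : (G.map (Polynomial.constantCoeff)).eval₂ (MvPolynomial.aeval s).toRingHom f =
        - ∑ e ∈ G.support, (ev s t (G.coeff e) - MvPolynomial.aeval s ((G.coeff e).coeff 0)) * f ^ e := by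
      have h4 : G.eval₂ (ev s t) f = ∑ e ∈ G.support, (ev s t (G.coeff e)) * f ^ e := by
        rw [eval₂_eq_sum, Polynomial.sum_def]
      rw [Polynomial.eval₂_map, eval₂_eq_sum, Polynomial.sum_def]
      simp only [sub_mul, Finset.sum_sub_distrib]
      rw [← h4, hG1]
      simp
    rw [h3, v.map_neg]
    apply v.map_le_sum
    intro e _
    rw [v.map_mul, v.map_pow]
    exact le_trans (val_ev_sub v hs ht _) (le_add_of_nonneg_right (nsmul_nonneg hf _))

lemma eval2_nonneg (hs : ∀ p : MvPolynomial σ ℂ, 0 ≤ v (MvPolynomial.aeval s p))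
    {f : K} (hf : 0 ≤ v f) (G : (MvPolynomial σ ℂ)[X]) :
    0 ≤ v (G.eval₂ (MvPolynomial.aeval s).toRingHom f) := by
  rw [eval₂_eq_sum, Polynomial.sum_def]
  apply v.map_le_sum
  intro e _
  rw [v.map_mul, v.map_pow]
  exact add_nonneg (hs _) (nsmul_nonneg hf _)

include hs ht in
/-- a separable equation modulo `t` -/
lemma exists_sep {f : K} (hf : 0 ≤ v f) {F : (MvPolynomial σ ℂ)[X][X]} (hF : F ≠ 0)
    (hFf : F.eval₂ (ev s t) f = 0) :
    ∃ G : (MvPolynomial σ ℂ)[X], 1 ≤ v (G.eval₂ (MvPolynomial.aeval s).toRingHom f) ∧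
      v (G.derivative.eval₂ (MvPolynomial.aeval s).toRingHom f) = 0 := by
  classical
  have hex := exists_red v hs ht hf hF hFf
  have hex' : ∃ d : ℕ, ∃ G : (MvPolynomial σ ℂ)[X], G.natDegree = d ∧ G ≠ 0 ∧
      1 ≤ v (G.eval₂ (MvPolynomial.aeval s).toRingHom f) := by
    obtain ⟨G, h⟩ := hex
    exact ⟨_, G, rfl, h⟩
  obtain ⟨G, h1, h2, h3⟩ := Nat.find_spec hex'
  refine ⟨G, h3, ?_⟩
  have hdeg : G.natDegree ≠ 0 := by
    intro h0
    rw [Polynomial.eq_C_of_natDegree_eq_zero h0] at h3 h2
    rw [eval₂_C] at h3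
    have h4 : G.coeff 0 ≠ 0 := by
      intro h; apply h2; rw [h]; simp
    have h5 := hs _ h4
    change 1 ≤ v (MvPolynomial.aeval s (G.coeff 0)) at h3
    rw [h5] at h3
    exact absurd h3 (by norm_num)
  have hder : G.derivative ≠ 0 := by
    intro h
    exact hdeg (Polynomial.derivative_eq_zero.1 h)
  have hlt : G.derivative.natDegree < G.natDegree := Polynomial.natDegree_derivative_lt hdeg
  have hmin := Nat.find_min hex' (m := G.derivative.natDegree) (by rw [← h1]; exact hlt)
  have h6 : ¬ (1 ≤ v (G.derivative.eval₂ (MvPolynomial.aeval s).toRingHom f)) := fun h =>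
    hmin ⟨_, rfl, hder, h⟩
  have h7 := eval2_nonneg v (val_aeval_nonneg v hs) hf G.derivative
  rcases h7.lt_or_eq with h | h
  · exact absurd (one_le_of_pos h) h6
  · exact h.symm

end alg

/-! ### elements of the valuation ring are fractions of integral elements -/

section horner

variable {R : Type*} [CommRing R] [Algebra R K]

omit [Algebra ℂ K] in
lemma horner_aux (hB : ∀ b ∈ integralClosure R K, 0 ≤ v b) {f : K} (hf : 0 ≤ v f) :
    ∀ (d : ℕ) (G : (integralClosure R K)[X]), G.natDegree ≤ d → aeval f G = 0 →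
      (∃ i, v (G.coeff i : K) = 0) →
      ∃ b ∈ integralClosure R K, ∃ c ∈ integralClosure R K, v c = 0 ∧ f * c = b := by
  intro d
  induction d with
  | zero =>
    intro G hd h0 hi
    obtain ⟨i, hi⟩ := hi
    rw [Polynomial.eq_C_of_natDegree_eq_zero (Nat.le_zero.1 hd)] at h0 hi
    rw [aeval_C] at h0
    rcases Nat.eq_zero_or_pos i with rfl | hpos
    · rw [Polynomial.coeff_C_zero] at hi
      change ((G.coeff 0 : K)) = 0 at h0
      rw [h0] at hi
      simp at hi
    · rw [Polynomial.coeff_C_of_ne_zero (by omega)] at hi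
      simp at hi
  | succ d ih =>
    intro G hd' h0 hi
    rcases hd'.lt_or_eq with hd' | hd
    · exact ih G (by omega) h0 hi
    have hint : IsIntegral R (f * (G.leadingCoeff : K)) := by
      have h1 := isIntegral_leadingCoeff_smul G f h0
      have h2 := isIntegral_trans (R := R) _ h1
      rwa [Algebra.smul_def, mul_comm] at h2
    by_cases hlc : v (G.leadingCoeff : K) = 0
    · exact ⟨_, hint, G.leadingCoeff, G.leadingCoeff.2, hlc, rfl⟩
    · have hlc' : 0 < v (G.leadingCoeff : K) :=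
        lt_of_le_of_ne (hB _ G.leadingCoeff.2) (Ne.symm hlc)
      set a : integralClosure R K := ⟨f * (G.leadingCoeff : K), hint⟩ with ha
      set G' : (integralClosure R K)[X] := G.eraseLead + C a * X ^ d with hG'
      have hdeg : G'.natDegree ≤ d := by
        rw [hG']
        refine (Polynomial.natDegree_add_le _ _).trans (max_le ?_ ?_)
        · exact (eraseLead_natDegree_le G).trans (by omega)
        · exact natDegree_C_mul_X_pow_le _ _
      have h0' : aeval f G' = 0 := by
        have h1 : G = G.eraseLead + C G.leadingCoeff * X ^ (d + 1) := by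
          rw [← hd, Polynomial.eraseLead_add_C_mul_X_pow]
        have h2 := h0
        rw [h1, map_add, map_mul, aeval_C, map_pow, aeval_X] at h2
        rw [hG', map_add, map_mul, aeval_C, map_pow, aeval_X]
        rw [← h2]
        congr 1
        change (f * (G.leadingCoeff : K)) * f ^ d = (G.leadingCoeff : K) * f ^ (d + 1)
        ring
      have hi' : ∃ i, v (G'.coeff i : K) = 0 := by
        obtain ⟨i, hi⟩ := hi
        refine ⟨i, ?_⟩
        have hne : i ≠ G.natDegree := by
          rintro rfl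
          exact hlc hi
        rw [hG', coeff_add, eraseLead_coeff_of_ne i hne, coeff_C_mul, coeff_X_pow]
        by_cases hid : i = d
        · subst hid
          simp only [if_true, mul_one]
          push_cast
          rw [ha, v.map_add_eq_of_lt_left]
          · exact hi
          · rw [hi, v.map_mul]
            exact lt_of_lt_of_le hlc' (le_add_of_nonneg_left hf)
        · simpa [hid] using hi
      exact ih G' hdeg h0' hi'

omit [Algebra ℂ K] in
lemma val_nonneg_of_isIntegral (hR : ∀ r : R, 0 ≤ v (algebraMap R K r)) {b : K}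
    (hb : IsIntegral R b) : 0 ≤ v b := by
  obtain ⟨p, hp, hpb⟩ := hb
  by_contra hcon
  push Not at hcon
  have hb0 : b ≠ 0 := by
    rintro rfl
    simp at hcon
  obtain ⟨k, hk⟩ := exists_int v hb0
  rw [hk] at hcon
  have hk0 : k < 0 := by exact_mod_cast hcon
  rw [Polynomial.eval₂_eq_sum_range, Finset.sum_range_succ, hp.coeff_natDegree, map_one, one_mul,
    add_comm, add_eq_zero_iff_eq_neg] at hpb
  have hsm : ∀ i : ℕ, i • (k : WithTop ℤ) = ((i * k : ℤ) : WithTop ℤ) := by
    intro i
    rw [← WithTop.coe_nsmul, nsmul_eq_mul]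
  have h1 : v (b ^ p.natDegree) = ((p.natDegree * k : ℤ) : WithTop ℤ) := by
    rw [v.map_pow, hk, hsm]
  have h2 : (((p.natDegree - 1) * k : ℤ) : WithTop ℤ) ≤ v (b ^ p.natDegree) := by
    rw [hpb, v.map_neg]
    apply v.map_le_sum
    intro i hi
    rw [v.map_mul, v.map_pow, hk]
    have h3 : (((p.natDegree - 1) * k : ℤ) : WithTop ℤ) ≤ i • (k : WithTop ℤ) := by
      rw [hsm]
      have h5 : (i : ℤ) ≤ p.natDegree - 1 := by
        have := Finset.mem_range.1 hi
        omega
      exact WithTop.coe_le_coe.2 (by nlinarith)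
    exact le_trans h3 (le_add_of_nonneg_left (hR _))
  rw [h1] at h2
  have h6 : ((p.natDegree - 1) * k : ℤ) ≤ p.natDegree * k := WithTop.coe_le_coe.1 h2
  nlinarith

end horner

/-! ### the main result -/

section main

variable {σ : Type*} {s : σ → K} {t : K}

lemma der_ev_nonneg
    (hs : ∀ p : MvPolynomial σ ℂ, p ≠ 0 → v (MvPolynomial.aeval s p) = 0)
    (ht : v t = 1)
    (D : Derivation ℂ K K) (hDt : 0 ≤ v (D t)) (hDs : ∀ i, 0 ≤ v (D (s i)))
    (q : (MvPolynomial σ ℂ)[X]) : 0 ≤ v (D (ev s t q)) := by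
  have h0 : ∀ p : MvPolynomial σ ℂ, 0 ≤ v (D (MvPolynomial.aeval s p)) := by
    intro p
    induction p using MvPolynomial.induction_on with
    | C a =>
      rw [MvPolynomial.aeval_C, D.map_algebraMap]
      simp
    | add p q hp hq =>
      rw [map_add, map_add]
      exact v.map_le_add hp hq
    | mul_X p i hp =>
      rw [map_mul, MvPolynomial.aeval_X, D.leibniz, smul_eq_mul, smul_eq_mul]
      apply v.map_le_add
      · rw [v.map_mul]
        exact add_nonneg (val_aeval_nonneg v hs _) (hDs i)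
      · rw [v.map_mul]
        have : 0 ≤ v (s i) := by
          have := val_aeval_nonneg v hs (MvPolynomial.X i)
          rwa [MvPolynomial.aeval_X] at this
        exact add_nonneg this hp
  induction q using Polynomial.induction_on' with
  | add p q hp hq =>
    rw [map_add, map_add]
    exact v.map_le_add hp hq
  | monomial n a =>
    have hDtn : 0 ≤ v (D (t ^ n)) := by
      rw [D.leibniz_pow, nsmul_eq_mul, smul_eq_mul, v.map_mul, v.map_mul, v.map_pow, ht]
      have h1 : 0 ≤ v ((n : K)) := by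
        have := val_aeval_nonneg v hs (n : MvPolynomial σ ℂ)
        simpa using this
      exact add_nonneg h1 (add_nonneg (by simp) hDt)
    rw [← Polynomial.C_mul_X_pow_eq_monomial, map_mul, map_pow, ev_X, ev_C, D.leibniz,
      smul_eq_mul, smul_eq_mul]
    apply v.map_le_add
    · rw [v.map_mul]
      exact add_nonneg (val_aeval_nonneg v hs _) hDtn
    · rw [v.map_mul, v.map_pow, ht]
      exact add_nonneg (by simp) (h0 _)

/-- The loss of a derivation on the valuation ring is bounded. -/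
lemma exists_bound [Algebra.EssFiniteType ℂ K]
    (hs : ∀ p : MvPolynomial σ ℂ, p ≠ 0 → v (MvPolynomial.aeval s p) = 0)
    (ht : v t = 1)
    [Finite σ]
    (halg : ∀ f : K, ∃ F : (MvPolynomial σ ℂ)[X][X], F ≠ 0 ∧ F.eval₂ (ev s t) f = 0)
    (D : Derivation ℂ K K) (hDt : 0 ≤ v (D t)) (hDs : ∀ i, 0 ≤ v (D (s i))) :
    ∃ ℓ : ℕ, ∀ f, 0 ≤ v f → ((-(ℓ : ℤ) : ℤ) : WithTop ℤ) ≤ v (D f) := by
  classical
  letI alg1 : Algebra (MvPolynomial σ ℂ)[X] K := (ev s t).toAlgebra
  have hmap : ∀ r, algebraMap (MvPolynomial σ ℂ)[X] K r = ev s t r := fun _ => rfl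
  haveI : FaithfulSMul (MvPolynomial σ ℂ)[X] K := by
    rw [faithfulSMul_iff_algebraMap_injective]
    exact ev_injective v hs ht
  haveI : IsScalarTower ℂ (MvPolynomial σ ℂ)[X] K := by
    apply IsScalarTower.of_algebraMap_eq
    intro c
    rw [hmap, Polynomial.algebraMap_apply, ev_C, MvPolynomial.algebraMap_eq, MvPolynomial.aeval_C]
  letI alg2 : Algebra (FractionRing (MvPolynomial σ ℂ)[X]) K := FractionRing.liftAlgebra _ K
  haveI : IsScalarTower (MvPolynomial σ ℂ)[X] (FractionRing (MvPolynomial σ ℂ)[X]) K :=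
    inferInstance
  haveI : IsScalarTower ℂ (FractionRing (MvPolynomial σ ℂ)[X]) K := by
    apply IsScalarTower.of_algebraMap_eq
    intro c
    rw [IsScalarTower.algebraMap_apply ℂ (MvPolynomial σ ℂ)[X] K,
      IsScalarTower.algebraMap_apply ℂ (MvPolynomial σ ℂ)[X] (FractionRing (MvPolynomial σ ℂ)[X]),
      ← IsScalarTower.algebraMap_apply (MvPolynomial σ ℂ)[X]
        (FractionRing (MvPolynomial σ ℂ)[X]) K]
  haveI : Algebra.EssFiniteType (FractionRing (MvPolynomial σ ℂ)[X]) K :=
    Algebra.EssFiniteType.of_comp ℂ _ K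
  haveI : Algebra.IsAlgebraic (MvPolynomial σ ℂ)[X] K := ⟨fun f => by
    obtain ⟨F, h1, h2⟩ := halg f
    exact ⟨F, h1, h2⟩⟩
  haveI : Algebra.IsAlgebraic (FractionRing (MvPolynomial σ ℂ)[X]) K :=
    (IsFractionRing.comap_isAlgebraic_iff (A := (MvPolynomial σ ℂ)[X])).1 this
  haveI : Module.Finite (FractionRing (MvPolynomial σ ℂ)[X]) K :=
    Algebra.finite_of_essFiniteType_of_isAlgebraic
  haveI : CharZero (FractionRing (MvPolynomial σ ℂ)[X]) :=
    algebraRat.charZero _
  haveI : Algebra.IsSeparable (FractionRing (MvPolynomial σ ℂ)[X]) K := inferInstance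
  haveI : Module.Finite (MvPolynomial σ ℂ)[X] (integralClosure (MvPolynomial σ ℂ)[X] K) :=
    IsIntegralClosure.finite (A := (MvPolynomial σ ℂ)[X])
      (K := (FractionRing (MvPolynomial σ ℂ)[X])) (L := K)
      (C := (integralClosure (MvPolynomial σ ℂ)[X] K))
  obtain ⟨S, hS⟩ := Module.Finite.fg_top (R := (MvPolynomial σ ℂ)[X])
    (M := (integralClosure (MvPolynomial σ ℂ)[X] K))
  have hint : ∀ b ∈ integralClosure (MvPolynomial σ ℂ)[X] K, 0 ≤ v b := fun b hb =>
    val_nonneg_of_isIntegral v (fun r => val_ev_nonneg v hs ht r) hb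
  -- a bound on generators
  have hbd : ∀ x : K, ∃ ℓ : ℕ, ((-(ℓ : ℤ) : ℤ) : WithTop ℤ) ≤ v x := by
    intro x
    by_cases hx : x = 0
    · exact ⟨0, by simp [hx]⟩
    · obtain ⟨k, hk⟩ := exists_int v hx
      refine ⟨k.natAbs, ?_⟩
      rw [hk]
      exact WithTop.coe_le_coe.2 (by omega)
  choose! bd hbd using hbd
  set ℓ : ℕ := S.sup (fun x => bd (D (x : K))) with hℓ
  have hℓS : ∀ x ∈ S, ((-(ℓ : ℤ) : ℤ) : WithTop ℤ) ≤ v (D (x : K)) := by
    intro x hx
    refine le_trans ?_ (hbd _)
    have : bd (D (x : K)) ≤ ℓ := Finset.le_sup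
      (f := fun x : integralClosure (MvPolynomial σ ℂ)[X] K => bd (D (x : K))) hx
    exact WithTop.coe_le_coe.2 (by omega)
  have hℓ0 : ((-(ℓ : ℤ) : ℤ) : WithTop ℤ) ≤ 0 := by
    exact_mod_cast (show (-(ℓ : ℤ) : ℤ) ≤ 0 by omega)
  have hB : ∀ b : integralClosure (MvPolynomial σ ℂ)[X] K,
      ((-(ℓ : ℤ) : ℤ) : WithTop ℤ) ≤ v (D (b : K)) := by
    intro b
    have hb : b ∈ Submodule.span (MvPolynomial σ ℂ)[X] (S : Set (integralClosure (MvPolynomial σ ℂ)[X] K)) := by
      rw [hS]; trivial
    induction hb using Submodule.span_induction with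
    | mem x hx => exact hℓS x hx
    | zero => simp
    | add x y _ _ hx hy =>
      push_cast
      rw [map_add]
      exact v.map_le_add hx hy
    | smul r x _ hx =>
      have h1 : ((r • x : integralClosure (MvPolynomial σ ℂ)[X] K) : K) = ev s t r * (x : K) := by
        rw [Subalgebra.coe_smul, Algebra.smul_def]; rfl
      rw [h1, D.leibniz, smul_eq_mul, smul_eq_mul]
      apply v.map_le_add
      · rw [v.map_mul]
        exact le_trans hx (le_add_of_nonneg_left (val_ev_nonneg v hs ht r))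
      · rw [v.map_mul]
        exact le_trans hℓ0 (add_nonneg (hint _ x.2) (der_ev_nonneg v hs ht D hDt hDs r))
  refine ⟨ℓ, fun f hf => ?_⟩
  have ht0 : t ≠ 0 := by
    rintro rfl
    simp at ht
  obtain ⟨F, hF, hFf⟩ := halg f
  obtain ⟨G, hG1, i, hG2⟩ := exists_primitive hF hFf ht0
  obtain ⟨b, hb, c, hc, hvc, hfc⟩ := horner_aux (R := (MvPolynomial σ ℂ)[X]) v hint hf _
    (G.map (algebraMap (MvPolynomial σ ℂ)[X] (integralClosure (MvPolynomial σ ℂ)[X] K))) le_rfl
    (by
      rw [aeval_map_algebraMap]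
      exact hG1)
    ⟨i, by
      rw [coeff_map]
      exact val_ev_eq_zero v hs ht hG2⟩
  have hc0 : c ≠ 0 := by
    rintro rfl
    simp at hvc
  have h1 : D b = f * D c + c * D f := by
    rw [← hfc, D.leibniz, smul_eq_mul, smul_eq_mul]
  have h2 : c * D f = D b - f * D c := by rw [h1]; ring
  have h3 : v (D f) = v (D b - f * D c) := by
    rw [← h2, v.map_mul, hvc, zero_add]
  rw [h3]
  apply v.map_le_sub (hB ⟨b, hb⟩)
  rw [v.map_mul]
  exact le_trans (hB ⟨c, hc⟩) (le_add_of_nonneg_left hf)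

lemma der_eval2 (D : Derivation ℂ K K) (hD : ∀ p : MvPolynomial σ ℂ, 0 ≤ v (D (MvPolynomial.aeval s p)))
    {f : K} (hf : 0 ≤ v f) (G : (MvPolynomial σ ℂ)[X]) :
    ∃ r : K, 0 ≤ v r ∧ D (G.eval₂ (MvPolynomial.aeval s).toRingHom f) =
      r + G.derivative.eval₂ (MvPolynomial.aeval s).toRingHom f * D f := by
  induction G using Polynomial.induction_on' with
  | add p q hp hq =>
    obtain ⟨r, hr, h1⟩ := hp
    obtain ⟨r', hr', h2⟩ := hq
    refine ⟨r + r', v.map_le_add hr hr', ?_⟩
    rw [eval₂_add, map_add, h1, h2, derivative_add, eval₂_add]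
    ring
  | monomial n a =>
    refine ⟨f ^ n * D (MvPolynomial.aeval s a), ?_, ?_⟩
    · rw [v.map_mul, v.map_pow]
      exact add_nonneg (nsmul_nonneg hf _) (hD a)
    · rw [eval₂_monomial, derivative_monomial, eval₂_monomial, D.leibniz, D.leibniz_pow]
      change _ + _ = _ + (MvPolynomial.aeval s (a * (n : MvPolynomial σ ℂ))) * f ^ (n - 1) * D f
      rw [map_mul, map_natCast]
      change (MvPolynomial.aeval s a) • n • f ^ (n - 1) • D f + f ^ n • D (MvPolynomial.aeval s a) = _
      simp only [nsmul_eq_mul, smul_eq_mul]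
      ring

/-- **Derivations preserve divisorial valuation rings.** If the discrete valuation `v` of a
finitely generated field `K` over `ℂ` has uniformizer `t`, the elements `s` have algebraically
independent residues, and `K` is algebraic over `ℂ(s,t)`, then a derivation which sends `t` and
`s` into the valuation ring preserves the valuation ring. -/
theorem der_nonneg [Algebra.EssFiniteType ℂ K]
    (hs : ∀ p : MvPolynomial σ ℂ, p ≠ 0 → v (MvPolynomial.aeval s p) = 0)
    (ht : v t = 1) [Finite σ]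
    (halg : ∀ f : K, ∃ F : (MvPolynomial σ ℂ)[X][X], F ≠ 0 ∧ F.eval₂ (ev s t) f = 0)
    (D : Derivation ℂ K K) (hDt : 0 ≤ v (D t)) (hDs : ∀ i, 0 ≤ v (D (s i))) :
    ∀ f, 0 ≤ v f → 0 ≤ v (D f) := by
  classical
  have hex := exists_bound v hs ht halg D hDt hDs
  have hmin := fun m => Nat.find_min hex (m := m)
  obtain hspec := Nat.find_spec hex
  set ℓ := Nat.find hex with hℓ
  have ht0 : t ≠ 0 := by
    rintro rfl
    simp at ht
  have hDa : ∀ p : MvPolynomial σ ℂ, 0 ≤ v (D (MvPolynomial.aeval s p)) := by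
    intro p
    have := der_ev_nonneg v hs ht D hDt hDs (C p)
    rwa [ev_C] at this
  rcases Nat.eq_zero_or_pos ℓ with h0 | hpos
  · intro f hf
    have := hspec f hf
    rw [h0] at this
    simpa using this
  · exfalso
    refine hmin (ℓ - 1) (by omega) (fun f hf => ?_)
    have hle : ((-((ℓ - 1 : ℕ) : ℤ) : ℤ) : WithTop ℤ) ≤ 0 :=
      WithTop.coe_le_coe.2 (show (-((ℓ - 1 : ℕ) : ℤ) : ℤ) ≤ 0 by omega)
    obtain ⟨F, hF, hFf⟩ := halg f
    obtain ⟨G, hG1, hG2⟩ := exists_sep v hs ht hf hF hFf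
    obtain ⟨r, hr, hDG⟩ := der_eval2 v D hDa hf G
    set g := G.eval₂ (MvPolynomial.aeval s).toRingHom f with hg
    set g' := G.derivative.eval₂ (MvPolynomial.aeval s).toRingHom f with hg'
    have hh : 0 ≤ v (g / t) := by
      rw [v.map_div, ht]
      induction hx : v g using WithTop.recTopCoe with
      | top => simp
      | coe a =>
        rw [hx] at hG1
        have : (1 : ℤ) ≤ a := by exact_mod_cast hG1
        have h2 : ((a : WithTop ℤ) - 1) = ((a - 1 : ℤ) : WithTop ℤ) := by
          push_cast; rfl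
        rw [h2]
        exact_mod_cast (show (0 : ℤ) ≤ a - 1 by omega)
    have h1 : g = t * (g / t) := by field_simp
    have h2 : ((-((ℓ - 1 : ℕ) : ℤ) : ℤ) : WithTop ℤ) ≤ v (D g) := by
      rw [h1, D.leibniz, smul_eq_mul, smul_eq_mul]
      apply v.map_le_add
      · rw [v.map_mul, ht]
        have h3 := hspec _ hh
        have h4 : ((-((ℓ - 1 : ℕ) : ℤ) : ℤ) : WithTop ℤ) = 1 + ((-(ℓ : ℤ) : ℤ) : WithTop ℤ) := by
          have : (-((ℓ - 1 : ℕ) : ℤ) : ℤ) = 1 + (-(ℓ : ℤ)) := by omega
          rw [this]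
          push_cast
          rfl
        rw [h4]
        exact add_le_add le_rfl h3
      · rw [v.map_mul]
        exact le_trans hle (add_nonneg hh hDt)
    have h5 : g' * D f = D g - r := by rw [hDG]; ring
    have h6 : v (D f) = v (D g - r) := by
      rw [← h5, v.map_mul, hG2, zero_add]
    rw [h6]
    exact v.map_le_sub h2 (le_trans hle hr)

end main

end Pool.Agent.H23
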