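import Mathlib

/-!
# K-semistability of Fano varieties over the complex numbers: definitions

Smooth projective varieties with ample anticanonical divisor, pluri-anticanonical sections,
prime divisors over a variety, log discrepancies, the invariant `S`, and the valuative criterion
of Fujita and Li.
-/

open AlgebraicGeometry CategoryTheory MeasureTheory Filter
open scoped ENNReal

noncomputable section

namespace Pool.Agent.H23.Fano

/-! ## Rational differential forms of a function field -/

/-- The `n`-th exterior power of a vector space. -/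
def ExtPow (K V : Type) [Field K] [AddCommGroup V] [Module K V] (n : ℕ) : Type := ⋀[K]^n V

section ExtPow

variable (K V : Type) [Field K] [AddCommGroup V] [Module K V] (n : ℕ)

instance : AddCommGroup (ExtPow K V n) := (inferInstance : AddCommGroup (⋀[K]^n V))

instance : Module K (ExtPow K V n) := (inferInstance : Module K (⋀[K]^n V))

/-- The element `v₁ ∧ ⋯ ∧ vₙ` of the exterior power. -/
def ExtPow.wedge (v : Fin n → V) : ExtPow K V n := exteriorPower.ιMulti K n v

end ExtPow

section FunctionField

variable (K : Type) [Field K] [Algebra ℂ K]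

/-- The `K`-vector space `Ω_{K/ℂ}` of rational differentials. -/
def Diff : Type := Ω[K⁄ℂ]

instance : AddCommGroup (Diff K) := (inferInstance : AddCommGroup Ω[K⁄ℂ])

instance : Module K (Diff K) := (inferInstance : Module K Ω[K⁄ℂ])

variable {K} in
/-- The differential `d f`. -/
def d (f : K) : Diff K := KaehlerDifferential.D ℂ K f

variable (n : ℕ)

/-- Rational `n`-forms of the function field `K` over `ℂ`: the `K`-vector space `⋀ⁿ Ω_{K/ℂ}`. -/
def Form : Type := ExtPow K (Diff K) n

instance : AddCommGroup (Form K n) := (inferInstance : AddCommGroup (ExtPow K (Diff K) n))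

instance : Module K (Form K n) := (inferInstance : Module K (ExtPow K (Diff K) n))

variable {K n}

/-- The rational form `c • da₁ ∧ ⋯ ∧ daₙ`. -/
def Form.mk (c : K) (a : Fin n → K) : Form K n := c • ExtPow.wedge K (Diff K) n fun i => d (a i)

variable (n)

/-- The regular `n`-forms of a `ℂ`-subalgebra `A` of `K`, that is the image of
`⋀ⁿ Ω_{A/ℂ}` in `⋀ⁿ Ω_{K/ℂ}`: all finite sums of forms `c • da₁ ∧ ⋯ ∧ daₙ` with
`c, a₁, …, aₙ ∈ A`. -/
def regularForms (A : Set K) : AddSubgroup (Form K n) :=
  AddSubgroup.closure {ω | ∃ (c : K) (a : Fin n → K), c ∈ A ∧ (∀ i, a i ∈ A) ∧ ω = Form.mk c a}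

variable {ι : Type} (O : ι → Set K)

/-- Let `O x`, `x : ι`, be the local rings of a smooth variety `X` of dimension `n` with function
field `K`. A rational section of `-m K_X` is a function `φ` on rational `n`-forms with
`φ (g • ω) = g ^ m * φ ω`; it is regular at `x` if it takes the regular `n`-forms at `x` to
`O x`. This is the space `H⁰(X, -m K_X)` of everywhere regular sections. -/
def antiSections (m : ℕ) : Set (Form K n → K) :=
  {φ | (∀ (g : K) (ω : Form K n), φ (g • ω) = g ^ m * φ ω) ∧
    ∀ x, ∀ ω ∈ regularForms n (O x), φ ω ∈ O x}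

variable {n} in
/-- The complex dimension of a space of sections. -/
def dim (S : Set (Form K n → K)) : ℕ := Module.finrank ℂ (Submodule.span ℂ S)

/-- The anticanonical volume `vol(-K_X)`, the upper limit of `h⁰(-m K_X) / (mⁿ / n!)`. -/
def antiVolume : ℝ≥0∞ :=
  limsup (fun m : ℕ => (dim (antiSections n O m) : ℝ≥0∞) /
    ((m : ℝ≥0∞) ^ n / (n.factorial : ℝ≥0∞))) atTop

variable (K) in
/-- A prime divisor over a variety of dimension `n` with function field `K`, given by its order
function: a discrete valuation of `K`, normalised to have value group `ℤ`, trivial on `ℂ`, whose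
residue field has transcendence degree `n - 1` over `ℂ` (that is, there are `n - 1` elements of
the valuation ring whose residue classes are algebraically independent over `ℂ`). -/
structure PrimeDivisorOver where
  /-- the order of vanishing along the divisor -/
  ord : AddValuation K (WithTop ℤ)
  ord_const : ∀ c : ℂ, 0 ≤ ord (algebraMap ℂ K c)
  exists_uniformizer : ∃ t : K, ord t = 1
  residue_trdeg : ∃ s : Fin (n - 1) → K, (∀ i, 0 ≤ ord (s i)) ∧
    ∀ p : MvPolynomial (Fin (n - 1)) ℂ, p ≠ 0 → ord (MvPolynomial.aeval s p) = 0

variable {n}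

/-- The local ring of the generic point of a prime divisor over `X`. -/
def PrimeDivisorOver.localRing (E : PrimeDivisorOver K n) : Set K := {f | 0 ≤ E.ord f}

/-- `x` is the centre of the prime divisor `E` over `X`: the local ring of `E` dominates the
local ring of `x`. -/
def PrimeDivisorOver.HasCenter (E : PrimeDivisorOver K n) (x : ι) : Prop :=
  ∀ f ∈ O x, 0 ≤ E.ord f ∧ (E.ord f = 0 → f⁻¹ ∈ O x)

/-- The log discrepancy `A_X(E) = 1 + ord_E(K_{W/X})` of a prime divisor `E` over `X` with centre
`x`. Here `ord_E(K_{W/X})` is the largest `k` such that every regular `n`-form at `x` is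
a function of order `k` along `E` times a regular `n`-form at the generic point of `E`. -/
def logDiscrepancy (E : PrimeDivisorOver K n) (x : ι) : ℕ :=
  1 + sSup {k : ℕ | ∀ ω ∈ regularForms n (O x), ∃ t : K, ∃ η ∈ regularForms n E.localRing,
    E.ord t = k ∧ ω = t • η}

/-- The sections of `-m K_X` vanishing to order at least `k` along `E`, that is
`H⁰(X, -m K_X - k E)`, for a prime divisor `E` over `X` with centre `x`. -/
def antiSectionsGE (E : PrimeDivisorOver K n) (x : ι) (m k : ℕ) : Set (Form K n → K) :=
  {φ | φ ∈ antiSections n O m ∧ ∀ ω ∈ regularForms n (O x), (k : WithTop ℤ) ≤ E.ord (φ ω)}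

/-- The volume `vol(-K_X - t E)` for real `t ≥ 0`. -/
def volAlong (E : PrimeDivisorOver K n) (x : ι) (t : ℝ) : ℝ≥0∞ :=
  limsup (fun m : ℕ => (dim (antiSectionsGE O E x m ⌈(m : ℝ) * t⌉₊) : ℝ≥0∞) /
    ((m : ℝ≥0∞) ^ n / (n.factorial : ℝ≥0∞))) atTop

/-- The invariant `S_X(E) = (1 / vol(-K_X)) ∫₀^∞ vol(-K_X - t E) dt`. -/
def sInvariant (E : PrimeDivisorOver K n) (x : ι) : ℝ≥0∞ :=
  (∫⁻ t in Set.Ioi (0 : ℝ), volAlong O E x t) / antiVolume n O

variable (n)

/-- The valuative criterion for K-semistability (Fujita, Li): `A_X(E) ≥ S_X(E)` for every prime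
divisor `E` over `X`. -/
def ValuativelySemistable : Prop :=
  ∀ (E : PrimeDivisorOver K n) (x : ι), E.HasCenter O x →
    sInvariant O E x ≤ (logDiscrepancy O E x : ℝ≥0∞)

variable {n}

/-- The section `φ` of `-m K_X` generates the sheaf of sections at `x`. -/
def Generates (φ : Form K n → K) (x : ι) : Prop :=
  ∃ ω ∈ regularForms n (O x), φ ω ≠ 0 ∧ (φ ω)⁻¹ ∈ O x

end FunctionField

/-! ## Varieties -/

section Scheme

/-- The function field of an integral scheme. -/
def FunField (X : Scheme.{0}) [IsIntegral X] : Type := X.functionField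

instance (X : Scheme.{0}) [IsIntegral X] : Field (FunField X) :=
  (inferInstance : Field X.functionField)

variable {X : Scheme.{0}} (s : X ⟶ Spec (.of ℂ)) [IsIntegral X]

/-- The function field of a complex variety as a `ℂ`-algebra: a complex number is sent to the
germ at the generic point of the corresponding global function. -/
@[reducible]
def constAlgebra : Algebra ℂ (FunField X) :=
  RingHom.toAlgebra ((Scheme.ΓSpecIso (.of ℂ)).inv ≫ s.appTop ≫
    X.presheaf.germ ⊤ (genericPoint X) (TopologicalSpace.Opens.mem_top _)).hom

variable (X) in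
/-- The local ring of a complex variety at a point, as a subring of the function field. -/
def localRing (x : X) : Set (FunField X) :=
  Set.range (algebraMap (X.presheaf.stalk x) X.functionField)

/-- `-K_X` is ample: every point of `X` has an open affine neighbourhood of the form
`X_φ = {y | φ generates the sheaf of sections of -m K_X at y}` with `m ≥ 1` and
`φ ∈ H⁰(X, -m K_X)`. -/
def AntiAmple (n : ℕ) : Prop :=
  letI := constAlgebra s
  ∀ x : X, ∃ m : ℕ, 1 ≤ m ∧ ∃ φ ∈ antiSections n (localRing X) m, ∃ U : X.Opens,
    IsAffineOpen U ∧ x ∈ U ∧ ∀ y : X, y ∈ U ↔ Generates (localRing X) φ y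

end Scheme

/-- A Fano variety of dimension `n` over `ℂ`: a smooth projective variety of dimension `n` with
ample anticanonical divisor. -/
structure FanoVariety (n : ℕ) where
  /-- the underlying scheme -/
  X : Scheme.{0}
  /-- the structure morphism -/
  str : X ⟶ Spec (.of ℂ)
  [integral : IsIntegral X]
  proper : IsProper str
  smooth : SmoothOfRelativeDimension n str
  ample : AntiAmple str n

attribute [instance] FanoVariety.integral

/-- K-semistability of a Fano variety, by the valuative criterion of Fujita and Li. -/
def FanoVariety.KSemistable {n : ℕ} (V : FanoVariety n) : Prop :=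
  letI := constAlgebra V.str
  ValuativelySemistable n (localRing V.X)

end Pool.Agent.H23.Fano
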