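import Pool.Agent.H23.Defs
import Pool.Agent.H23.Fano

/-!
# Comparison of two forms of the definitions

The definitions in `Fano.lean` (with subsets of the function field) agree with those in
`Defs.lean` (with subalgebras of the function field).
-/

open AlgebraicGeometry CategoryTheory MeasureTheory Filter
open scoped ENNReal

set_option linter.style.haveILetI false

noncomputable section

namespace Pool.Agent.H23

section FunctionField

variable {K : Type} [Field K] [Algebra ℂ K] {n : ℕ} {ι : Type} (O : ι → Subalgebra ℂ K)

lemma fano_mem_regularForms {A : Subalgebra ℂ K} {S : Set K} (h : S = (A : Set K))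
    (ω : RatForm K n) :
    (show Fano.Form K n from ω) ∈ Fano.regularForms n S ↔ ω ∈ regularForms n A := by
  subst h
  exact Iff.rfl

variable {O' : ι → Set K} (hO : ∀ x, O' x = (O x : Set K))

include hO

lemma fano_antiSections (m : ℕ) :
    Fano.antiSections n O' m =
      ((antiSections n O m : Submodule ℂ (RatForm K n → K)) : Set (RatForm K n → K)) := by
  obtain rfl : O' = fun x => (O x : Set K) := funext hO
  rfl

lemma fano_dim_antiSections (m : ℕ) :
    Fano.dim (Fano.antiSections n O' m) = Module.finrank ℂ (antiSections n O m) := by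
  rw [fano_antiSections O hO]
  change Module.finrank ℂ (Submodule.span ℂ
    ((antiSections n O m : Submodule ℂ (RatForm K n → K)) : Set (RatForm K n → K))) = _
  rw [Submodule.span_eq]

lemma fano_antiVolume : Fano.antiVolume n O' = antiVolume n O := by
  unfold Fano.antiVolume antiVolume
  simp only [fano_dim_antiSections O hO]

omit hO in
/-- the same prime divisor, in the other form of the definition -/
def ofFano (E : Fano.PrimeDivisorOver K n) : PrimeDivisorOver K n :=
  ⟨E.ord, E.ord_const, E.exists_uniformizer, E.residue_trdeg⟩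

omit hO in
/-- the same prime divisor, in the other form of the definition -/
def toFano (E : PrimeDivisorOver K n) : Fano.PrimeDivisorOver K n :=
  ⟨E.ord, E.ord_const, E.exists_uniformizer, E.residue_trdeg⟩

omit hO in
lemma toFano_ofFano (E : Fano.PrimeDivisorOver K n) : toFano (ofFano E) = E := rfl

lemma fano_hasCenter (E : PrimeDivisorOver K n) (x : ι) :
    (toFano E).HasCenter O' x ↔ E.HasCenter O x := by
  obtain rfl : O' = fun x => (O x : Set K) := funext hO
  exact Iff.rfl

lemma fano_logDiscrepancy (E : PrimeDivisorOver K n) (x : ι) :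
    Fano.logDiscrepancy O' (toFano E) x = logDiscrepancy O E x := by
  obtain rfl : O' = fun x => (O x : Set K) := funext hO
  rfl

lemma fano_antiSectionsGE (E : PrimeDivisorOver K n) (x : ι) (m k : ℕ) :
    Fano.antiSectionsGE O' (toFano E) x m k =
      ((antiSectionsGE O E x m k : Submodule ℂ (RatForm K n → K)) : Set (RatForm K n → K)) := by
  obtain rfl : O' = fun x => (O x : Set K) := funext hO
  rfl

lemma fano_dim_antiSectionsGE (E : PrimeDivisorOver K n) (x : ι) (m k : ℕ) :
    Fano.dim (Fano.antiSectionsGE O' (toFano E) x m k) =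
      Module.finrank ℂ (antiSectionsGE O E x m k) := by
  rw [fano_antiSectionsGE O hO]
  change Module.finrank ℂ (Submodule.span ℂ
    ((antiSectionsGE O E x m k : Submodule ℂ (RatForm K n → K)) : Set (RatForm K n → K))) = _
  rw [Submodule.span_eq]

lemma fano_volAlong (E : PrimeDivisorOver K n) (x : ι) (t : ℝ) :
    Fano.volAlong O' (toFano E) x t = volAlong O E x t := by
  unfold Fano.volAlong volAlong
  simp only [fano_dim_antiSectionsGE O hO]

lemma fano_sInvariant (E : PrimeDivisorOver K n) (x : ι) :
    Fano.sInvariant O' (toFano E) x = sInvariant O E x := by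
  unfold Fano.sInvariant sInvariant
  simp only [fano_volAlong O hO, fano_antiVolume O hO]

lemma fano_valuativelySemistable :
    Fano.ValuativelySemistable n O' ↔ ValuativelySemistable n O := by
  constructor
  · intro h E x hE
    have := h (toFano E) x ((fano_hasCenter O hO E x).2 hE)
    rwa [fano_sInvariant O hO, fano_logDiscrepancy O hO] at this
  · intro h E x hE
    have := h (ofFano E) x ((fano_hasCenter O hO (ofFano E) x).1 hE)
    rwa [← fano_sInvariant O hO, ← fano_logDiscrepancy O hO] at this

lemma fano_generates (φ : RatForm K n → K) (x : ι) :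
    Fano.Generates O' φ x ↔ ∃ ω ∈ regularForms n (O x), φ ω ≠ 0 ∧ (φ ω)⁻¹ ∈ O x := by
  obtain rfl : O' = fun x => (O x : Set K) := funext hO
  exact Iff.rfl

end FunctionField

section Scheme

variable {X : Scheme.{0}} (s : X ⟶ Spec (.of ℂ)) [IsIntegral X]

lemma fano_localRing (x : X) :
    letI := functionFieldAlgebra s
    Fano.localRing X x = ((localRingAt s x : Subalgebra ℂ X.functionField) : Set X.functionField) :=
  rfl

/-- a general form of ampleness -/
def AmpleIn (K : Type) [Field K] [Algebra ℂ K] (n : ℕ) (X : Scheme.{0}) (O : X → Set K) : Prop :=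
  ∀ x : X, ∃ m : ℕ, 1 ≤ m ∧ ∃ φ ∈ Fano.antiSections n O m, ∃ U : X.Opens,
    IsAffineOpen U ∧ x ∈ U ∧ ∀ y : X, y ∈ U ↔ Fano.Generates O φ y

omit [IsIntegral X] in
lemma ampleIn_of {K : Type} [Field K] [Algebra ℂ K] {n : ℕ} (O : X → Subalgebra ℂ K)
    {O' : X → Set K} (hO : ∀ x, O' x = (O x : Set K))
    (h : ∀ x : X, ∃ m : ℕ, 1 ≤ m ∧ ∃ φ ∈ antiSections n O m, ∃ U : X.Opens,
      IsAffineOpen U ∧ x ∈ U ∧ ∀ y : X, y ∈ U ↔
        ∃ ω ∈ regularForms n (O y), φ ω ≠ 0 ∧ (φ ω)⁻¹ ∈ O y) :
    AmpleIn K n X O' := by
  intro x
  obtain ⟨m, hm, φ, hφ, U, hU, hxU, h⟩ := h x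
  refine ⟨m, hm, φ, ?_, U, hU, hxU, fun y => ?_⟩
  · rw [fano_antiSections O hO]
    exact hφ
  · exact (h y).trans (fano_generates O hO φ y).symm

lemma fano_antiAmple {n : ℕ} (h : AntiAmple s n) : Fano.AntiAmple s n := by
  letI := functionFieldAlgebra s
  exact ampleIn_of (K := X.functionField) (n := n) (localRingAt s) (fun x => fano_localRing s x) h

lemma fano_semistable {n : ℕ} (h : letI := functionFieldAlgebra s
      ValuativelySemistable n (localRingAt s)) :
    letI := Fano.constAlgebra s
    Fano.ValuativelySemistable n (Fano.localRing X) := by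
  letI := functionFieldAlgebra s
  exact (fano_valuativelySemistable (K := X.functionField) (n := n) (localRingAt s)
    (fun x => fano_localRing s x)).2 h

lemma fano_not_semistable {n : ℕ} (h : letI := functionFieldAlgebra s
      ¬ ValuativelySemistable n (localRingAt s)) :
    letI := Fano.constAlgebra s
    ¬ Fano.ValuativelySemistable n (Fano.localRing X) := by
  letI := functionFieldAlgebra s
  exact fun h' => h ((fano_valuativelySemistable (K := X.functionField) (n := n) (localRingAt s)
    (fun x => fano_localRing s x)).1 h')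

end Scheme

end Pool.Agent.H23
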