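import Mathlib

set_option linter.style.haveILetI false

noncomputable section

namespace Pool.Agent.H23

open scoped TensorProduct

variable {K : Type*} [Field K] [Algebra ℂ K]

lemma exists_poly_of_basis {σ : Type*} {g : σ → K} (hg : IsTranscendenceBasis ℂ g) (a : K) :
    ∃ F : Polynomial (MvPolynomial σ ℂ), F ≠ 0 ∧
      F.eval₂ (MvPolynomial.aeval g).toRingHom a = 0 := by
  have h1 := hg.isAlgebraic
  obtain ⟨p, hp, hpa⟩ := h1.isAlgebraic a
  let e : Algebra.adjoin ℂ (Set.range g) →+* MvPolynomial σ ℂ :=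
    (hg.1.aevalEquiv.symm : Algebra.adjoin ℂ (Set.range g) →+* MvPolynomial σ ℂ)
  have he : (MvPolynomial.aeval g).toRingHom.comp e =
      algebraMap (Algebra.adjoin ℂ (Set.range g)) K := by
    ext x
    have h2 := hg.1.algebraMap_aevalEquiv (hg.1.aevalEquiv.symm x)
    rw [AlgEquiv.apply_symm_apply] at h2
    exact h2.symm
  refine ⟨p.map e, ?_, ?_⟩
  · rwa [Ne, Polynomial.map_eq_zero_iff]
    exact hg.1.aevalEquiv.symm.injective
  · rw [Polynomial.eval₂_map, he]
    exact hpa

/-- For a transcendence basis `g` of `K/ℂ`, the differentials `dg i` form a basis of `Ω_{K/ℂ}`. -/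
theorem exists_basis_kaehler {σ : Type*} {g : σ → K} (hg : IsTranscendenceBasis ℂ g) :
    ∃ b : Module.Basis σ K Ω[K⁄ℂ], ∀ i, b i = KaehlerDifferential.D ℂ K (g i) := by
  classical
  letI alg1 : Algebra (MvPolynomial σ ℂ) K := (MvPolynomial.aeval g).toRingHom.toAlgebra
  have hmap : ∀ r, algebraMap (MvPolynomial σ ℂ) K r = MvPolynomial.aeval g r := fun _ => rfl
  haveI : FaithfulSMul (MvPolynomial σ ℂ) K := by
    rw [faithfulSMul_iff_algebraMap_injective]
    exact hg.1
  haveI : IsScalarTower ℂ (MvPolynomial σ ℂ) K := by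
    apply IsScalarTower.of_algebraMap_eq
    intro c
    rw [hmap, MvPolynomial.algebraMap_eq, MvPolynomial.aeval_C]
  letI alg2 : Algebra (FractionRing (MvPolynomial σ ℂ)) K := FractionRing.liftAlgebra _ K
  haveI : IsScalarTower (MvPolynomial σ ℂ) (FractionRing (MvPolynomial σ ℂ)) K :=
    inferInstance
  haveI : Algebra.IsAlgebraic (MvPolynomial σ ℂ) K := by
    refine ⟨fun a => ?_⟩
    obtain ⟨F, h1, h2⟩ := exists_poly_of_basis hg a
    exact ⟨F, h1, h2⟩
  haveI : Algebra.IsAlgebraic (FractionRing (MvPolynomial σ ℂ)) K :=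
    (IsFractionRing.comap_isAlgebraic_iff (A := (MvPolynomial σ ℂ))).1 this
  haveI : CharZero (FractionRing (MvPolynomial σ ℂ)) :=
    algebraRat.charZero _
  haveI : Algebra.IsSeparable (FractionRing (MvPolynomial σ ℂ)) K := inferInstance
  haveI : Algebra.FormallyEtale (MvPolynomial σ ℂ) (FractionRing (MvPolynomial σ ℂ)) :=
    Algebra.FormallyEtale.of_isLocalization (nonZeroDivisors _)
  haveI : Algebra.FormallyEtale (FractionRing (MvPolynomial σ ℂ)) K :=
    Algebra.FormallyEtale.of_isSeparable _ K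
  haveI : Algebra.FormallyEtale (MvPolynomial σ ℂ) K :=
    Algebra.FormallyEtale.comp _ (FractionRing (MvPolynomial σ ℂ)) _
  let e := KaehlerDifferential.tensorKaehlerEquivOfFormallyEtale ℂ (MvPolynomial σ ℂ) K
  let b := ((KaehlerDifferential.mvPolynomialBasis ℂ σ).baseChange K).map e
  refine ⟨b, fun i => ?_⟩
  simp only [b, Module.Basis.map_apply, Module.Basis.baseChange_apply,
    KaehlerDifferential.mvPolynomialBasis_apply]
  rw [KaehlerDifferential.tensorKaehlerEquivOfFormallyEtale_apply]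
  rw [KaehlerDifferential.mapBaseChange_tmul, one_smul, KaehlerDifferential.map_D, hmap,
    MvPolynomial.aeval_X]

end Pool.Agent.H23
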