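import Pool.Agent.H23.TData

/-!
# Toric atlases of complex schemes
-/

open AlgebraicGeometry CategoryTheory

noncomputable section

namespace Pool.Agent.H23

open TData

/-- Conditions which make the charts glue to a complete variety. -/
structure TData.Complete {n : ℕ} (T : TData n) : Prop where
  sep : ∀ i j : Fin n → Option Bool, ∃ m : Fin n → ℤ, ∀ k b,
    (i k = some b → j k = some b → T.ℓ k b m = 0) ∧
    (i k = some b → j k ≠ some b → 0 < T.ℓ k b m) ∧
    (j k = some b → i k ≠ some b → T.ℓ k b m ≤ 0)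
  w_dep : ∀ ε ε' j, (∀ i ≤ j, ε i = ε' i) → T.w ε j = T.w ε' j
  w_flip : ∀ ε j, T.w (Function.update ε j (!ε j)) j = - T.w ε j

/-- A toric atlas of a complex scheme. -/
structure TAtlas {n : ℕ} (T : TData n) (Z : Scheme.{0}) (str : Z ⟶ Spec (.of ℂ)) where
  /-- the charts -/
  ι : ∀ i : Fin n → Option Bool, Spec (.of (T.A i)) ⟶ Z
  isOpen : ∀ i, IsOpenImmersion (ι i)
  str_eq : ∀ i, ι i ≫ str = Spec.map (CommRingCat.ofHom (algebraMap ℂ (T.A i)))
  compat : ∀ i j (h : ∀ k b, i k = some b → j k = some b),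
    Spec.map (CommRingCat.ofHom (Subalgebra.inclusion (suppAlg_mono (T.cone_anti h))).toRingHom) ≫
      ι j = ι i
  surj : ∀ z : Z, ∃ ε : Fin n → Bool, ∃ y, ι (full ε) y = z

/-- Two charts meet only where they should. -/
def TAtlas.Overlap {n : ℕ} {T : TData n} {Z : Scheme.{0}} {str : Z ⟶ Spec (.of ℂ)}
    (a : TAtlas T Z str) : Prop :=
  ∀ (i j : Fin n → Option Bool) (x : Spec (.of (T.A i))) (y : Spec (.of (T.A j))),
    a.ι i x = a.ι j y →
      ∃ w : Spec (.of (T.A fun k => if i k = j k then i k else none)), a.ι _ w = a.ι i x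

end Pool.Agent.H23
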