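import Pool.Agent.H23.Defs

open AlgebraicGeometry CategoryTheory MeasureTheory Filter
open scoped ENNReal

noncomputable section

namespace Pool.Agent.H23

namespace Atlas

/-! ### Stalks through an affine chart -/

section chart

variable {B : Type} [CommRing B] {Z : Scheme.{0}} (f : Spec (.of B) ⟶ Z) [IsOpenImmersion f]

/-- The isomorphism of a localisation of the coordinate ring of a chart with the local ring. -/
def locTo (p : Spec (.of B)) :
    CommRingCat.of (Localization.AtPrime p.asIdeal) ⟶ Z.presheaf.stalk (f p) :=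
  (Spec.stalkIso (.of B) p).inv ≫ inv (f.stalkMap p)

instance (p : Spec (.of B)) : IsIso (locTo f p) := by
  unfold locTo
  infer_instance

/-- From the coordinate ring of a chart to a local ring. -/
def toSt (p : Spec (.of B)) : CommRingCat.of B ⟶ Z.presheaf.stalk (f p) :=
  CommRingCat.ofHom (algebraMap B (Localization.AtPrime p.asIdeal)) ≫ locTo f p

theorem toSt_eq (p : Spec (.of B)) :
    toSt f p = ((Scheme.ΓSpecIso (.of B)).inv ≫ (Spec (.of B)).presheaf.germ ⊤ p trivial) ≫
      inv (f.stalkMap p) := by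
  have := Spec.algebraMap_stalkIso_inv (R := .of B) p
  unfold toSt locTo
  rw [← this]
  rfl

theorem SpecMap_toSt (p : Spec (.of B)) :
    Spec.map (toSt f p) ≫ f = Z.fromSpecStalk (f p) := by
  rw [toSt_eq, Spec.map_comp, ← Spec.fromSpecStalk_eq, Category.assoc,
    ← Scheme.SpecMap_stalkMap_fromSpecStalk,
    ← Category.assoc, ← Spec.map_comp, IsIso.hom_inv_id, Spec.map_id, Category.id_comp]

/-- Elements of the local ring are fractions. -/
theorem exists_frac (p : Spec (.of B)) (s : Z.presheaf.stalk (f p)) :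
    ∃ a b : B, b ∉ p.asIdeal ∧ s * (toSt f p).hom b = (toSt f p).hom a := by
  obtain ⟨t, rfl⟩ : ∃ t, (locTo f p).hom t = s :=
    ⟨(inv (locTo f p)).hom s, by
      rw [← CommRingCat.comp_apply, IsIso.inv_hom_id, CommRingCat.id_apply]⟩
  obtain ⟨⟨a, b⟩, h⟩ := IsLocalization.surj p.asIdeal.primeCompl t
  refine ⟨a, b, b.2, ?_⟩
  unfold toSt
  simp only [CommRingCat.hom_comp, RingHom.comp_apply, CommRingCat.hom_ofHom]
  rw [← map_mul]
  exact congrArg _ h

theorem isUnit_toSt (p : Spec (.of B)) (b : B) (hb : b ∉ p.asIdeal) :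
    IsUnit ((toSt f p).hom b) := by
  have h : IsUnit (algebraMap B (Localization.AtPrime p.asIdeal) b) :=
    IsLocalization.map_units (M := p.asIdeal.primeCompl) _ ⟨b, hb⟩
  exact h.map (locTo f p).hom

end chart

/-! ### The scheme is integral -/

section integral

variable {R : Type} [CommRing R] [IsDomain R] [Algebra ℂ R] {I : Type} [Nonempty I]
    {A : I → Subalgebra ℂ R}
    {Z : Scheme.{0}}
    {ι : ∀ i, Spec (.of (A i)) ⟶ Z} [∀ i, IsOpenImmersion (ι i)]

omit [Nonempty I] in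
theorem isReduced_Z (hsurj : ∀ z : Z, ∃ i, ∃ y, ι i y = z) : IsReduced Z := by
  have : ∀ z : Z, _root_.IsReduced (Z.presheaf.stalk z) := by
    intro z
    obtain ⟨i, y, rfl⟩ := hsurj z
    have h1 : _root_.IsReduced ((Spec (.of (A i))).presheaf.stalk y) := inferInstance
    exact isReduced_of_injective ((ι i).stalkMap y).hom
      (ConcreteCategory.bijective_of_isIso ((ι i).stalkMap y)).1
  exact isReduced_of_isReduced_stalk Z

omit [Nonempty I] [∀ i, IsOpenImmersion (ι i)] in
theorem exists_generic (hsurj : ∀ z : Z, ∃ i, ∃ y, ι i y = z)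
    (hcompat : ∀ i j, Spec.map (CommRingCat.ofHom (A i).val.toRingHom) ≫ ι i =
      Spec.map (CommRingCat.ofHom (A j).val.toRingHom) ≫ ι j) (i₀ : I) (z : Z) :
    ι i₀ (⊥ : PrimeSpectrum (A i₀)) ⤳ z := by
  have hbot : ∀ i, Spec.map (CommRingCat.ofHom (A i).val.toRingHom) (⊥ : PrimeSpectrum R) =
      (⊥ : PrimeSpectrum (A i)) := by
    intro i
    apply PrimeSpectrum.ext
    change Ideal.comap (A i).val.toRingHom ⊥ = ⊥
    rw [← RingHom.ker_eq_comap_bot]
    exact (RingHom.injective_iff_ker_eq_bot _).1 Subtype.val_injective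
  have heq : ∀ i j, ι i (⊥ : PrimeSpectrum (A i)) = ι j (⊥ : PrimeSpectrum (A j)) := by
    intro i j
    rw [← hbot i, ← hbot j, ← Scheme.Hom.comp_apply, ← Scheme.Hom.comp_apply, hcompat i j]
  obtain ⟨i, y, rfl⟩ := hsurj z
  rw [heq i₀ i]
  have h1 : (⊥ : PrimeSpectrum (A i)) ⤳ y := by
    rw [← PrimeSpectrum.le_iff_specializes]
    exact bot_le
  exact h1.map (ι i).continuous

omit [∀ i, IsOpenImmersion (ι i)] in
theorem irreducible_Z (hsurj : ∀ z : Z, ∃ i, ∃ y, ι i y = z)
    (hcompat : ∀ i j, Spec.map (CommRingCat.ofHom (A i).val.toRingHom) ≫ ι i =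
      Spec.map (CommRingCat.ofHom (A j).val.toRingHom) ≫ ι j) : IrreducibleSpace Z := by
  obtain ⟨i₀⟩ := ‹Nonempty I›
  have h : closure {ι i₀ (⊥ : PrimeSpectrum (A i₀))} = (Set.univ : Set Z) := by
    rw [Set.eq_univ_iff_forall]
    intro z
    exact (exists_generic hsurj hcompat i₀ z).mem_closure
  have h2 : IsIrreducible (Set.univ : Set Z) := by
    rw [← h]
    exact isIrreducible_singleton.closure
  rw [irreducibleSpace_def]
  exact h2

theorem isIntegral_Z (hsurj : ∀ z : Z, ∃ i, ∃ y, ι i y = z)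
    (hcompat : ∀ i j, Spec.map (CommRingCat.ofHom (A i).val.toRingHom) ≫ ι i =
      Spec.map (CommRingCat.ofHom (A j).val.toRingHom) ≫ ι j) : IsIntegral Z := by
  have h1 := isReduced_Z hsurj
  have h2 := irreducible_Z hsurj hcompat
  exact isIntegral_of_irreducibleSpace_of_isReduced Z

end integral

/-! ### The function field -/

section ff

variable {B : Type} [CommRing B] {Z : Scheme.{0}} (f : Spec (.of B) ⟶ Z) [IsOpenImmersion f]

theorem SpecMap_toFF (p : Spec (.of B)) {x : Z} (h : x ⤳ f p) :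
    Spec.map (toSt f p ≫ Z.presheaf.stalkSpecializes h) ≫ f = Z.fromSpecStalk x := by
  rw [Spec.map_comp, Category.assoc, SpecMap_toSt, Scheme.SpecMap_stalkSpecializes_fromSpecStalk]

theorem eq_of_SpecMap {T : CommRingCat.{0}} {u v : CommRingCat.of B ⟶ T}
    (h : Spec.map u ≫ f = Spec.map v ≫ f) : u = v :=
  Spec.map_injective ((cancel_mono f).1 h)

theorem fromSpecStalk_str (str : Z ⟶ Spec (.of ℂ)) (x : Z) :
    Z.fromSpecStalk x ≫ str = Spec.map ((Scheme.ΓSpecIso (.of ℂ)).inv ≫ str.appTop ≫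
      Z.presheaf.germ ⊤ x (TopologicalSpace.Opens.mem_top _)) := by
  have h1 : str = Z.toSpecΓ ≫ Spec.map str.appTop ≫ Spec.map (Scheme.ΓSpecIso (.of ℂ)).inv := by
    rw [← Scheme.toSpecΓ_naturality_assoc, ← SpecMap_ΓSpecIso_hom, ← Spec.map_comp,
      Iso.inv_hom_id, Spec.map_id, Category.comp_id]
  conv_lhs => rw [h1]
  rw [Scheme.fromSpecStalk_toSpecΓ_assoc, ← Spec.map_comp, ← Spec.map_comp, Category.assoc]

end ff

section main

variable {R : Type} [CommRing R] [IsDomain R] [Algebra ℂ R] {I : Type} [Nonempty I]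
    {A : I → Subalgebra ℂ R}
    {Z : Scheme.{0}} [IsIntegral Z]
    {ι : ∀ i, Spec (.of (A i)) ⟶ Z} [∀ i, IsOpenImmersion (ι i)]

/-- From a coordinate ring to the function field. -/
def phi (i : I) : CommRingCat.of (A i) ⟶ Z.functionField :=
  toSt (ι i) (⊥ : PrimeSpectrum (A i)) ≫
    Z.presheaf.stalkSpecializes ((genericPoint_spec Z).specializes trivial)

omit [Nonempty I] in
theorem SpecMap_phi (i : I) :
    Spec.map (phi (ι := ι) i) ≫ ι i = Z.fromSpecStalk (genericPoint Z) :=
  SpecMap_toFF (ι i) _ _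

omit [Nonempty I] in
theorem phi_eq (i : I) (p : Spec (.of (A i))) :
    phi (ι := ι) i = toSt (ι i) p ≫
      Z.presheaf.stalkSpecializes ((genericPoint_spec Z).specializes trivial) := by
  apply eq_of_SpecMap (ι i)
  rw [SpecMap_phi, SpecMap_toFF]

theorem exists_S (hsurj : ∀ z : Z, ∃ i, ∃ y, ι i y = z)
    (hcompat : ∀ i j, Spec.map (CommRingCat.ofHom (A i).val.toRingHom) ≫ ι i =
      Spec.map (CommRingCat.ofHom (A j).val.toRingHom) ≫ ι j) :
    ∃ S : Z.functionField ⟶ .of (FractionRing R), ∀ i, phi (ι := ι) i ≫ S =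
      CommRingCat.ofHom (A i).val.toRingHom ≫ CommRingCat.ofHom (algebraMap R (FractionRing R)) := by
  obtain ⟨i₀⟩ := ‹Nonempty I›
  let g : Spec (.of (FractionRing R)) ⟶ Z :=
    Spec.map (CommRingCat.ofHom (algebraMap R (FractionRing R))) ≫
      Spec.map (CommRingCat.ofHom (A i₀).val.toRingHom) ≫ ι i₀
  have hg : ∀ i, g = Spec.map (CommRingCat.ofHom (algebraMap R (FractionRing R))) ≫
      Spec.map (CommRingCat.ofHom (A i).val.toRingHom) ≫ ι i := by
    intro i
    simp only [g]
    rw [hcompat i₀ i]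
  let c : Spec (.of (FractionRing R)) := IsLocalRing.closedPoint (FractionRing R)
  have hc : g c ⤳ genericPoint Z := by
    have h1 : g c = ι i₀ (⊥ : PrimeSpectrum (A i₀)) := by
      simp only [g]
      rw [Scheme.Hom.comp_apply, Scheme.Hom.comp_apply]
      congr 1
      apply PrimeSpectrum.ext
      change Ideal.comap (A i₀).val.toRingHom
        (Ideal.comap (algebraMap R (FractionRing R)) c.asIdeal) = ⊥
      have h2 : c.asIdeal = ⊥ := IsLocalRing.maximalIdeal_eq_bot
      rw [h2, ← RingHom.ker_eq_comap_bot,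
        (RingHom.injective_iff_ker_eq_bot _).1 (IsFractionRing.injective R (FractionRing R)),
        ← RingHom.ker_eq_comap_bot]
      exact (RingHom.injective_iff_ker_eq_bot _).1 Subtype.val_injective
    rw [h1]
    exact exists_generic hsurj hcompat i₀ _
  refine ⟨Z.presheaf.stalkSpecializes hc ≫ Scheme.stalkClosedPointTo g, ?_⟩
  intro i
  apply eq_of_SpecMap (ι i)
  rw [Spec.map_comp, Category.assoc, SpecMap_phi, Spec.map_comp, Category.assoc,
    Scheme.SpecMap_stalkSpecializes_fromSpecStalk]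
  have h3 : Spec.map (Scheme.stalkClosedPointTo g) ≫ Z.fromSpecStalk (g c) = g :=
    Scheme.Spec_stalkClosedPointTo_fromSpecStalk g
  rw [h3, hg i, Spec.map_comp, Category.assoc]

end main

end Atlas

open Atlas

theorem atlas_localRing {R : Type} [CommRing R] [IsDomain R] [Algebra ℂ R] {I : Type} [Nonempty I]
    (A : I → Subalgebra ℂ R) (hfrac : ∀ i, ∀ r : R, ∃ a ∈ A i, ∃ b ∈ A i, b ≠ 0 ∧ r * b = a)
    {Z : Scheme.{0}} (str : Z ⟶ Spec (.of ℂ))
    (ι : ∀ i, Spec (.of (A i)) ⟶ Z) [∀ i, IsOpenImmersion (ι i)]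
    (hstr : ∀ i, ι i ≫ str = Spec.map (CommRingCat.ofHom (algebraMap ℂ (A i))))
    (hsurj : ∀ z : Z, ∃ i, ∃ y, ι i y = z)
    (hcompat : ∀ i j, Spec.map (CommRingCat.ofHom (A i).val.toRingHom) ≫ ι i =
      Spec.map (CommRingCat.ofHom (A j).val.toRingHom) ≫ ι j) :
    ∃ _ : IsIntegral Z, letI := functionFieldAlgebra str
      ∃ ψ : R →ₐ[ℂ] Z.functionField, Function.Injective ψ ∧
        (∀ k : Z.functionField, ∃ a b : R, b ≠ 0 ∧ k * ψ b = ψ a) ∧
        ∀ (i : I) (p : Spec (.of (A i))) (k : Z.functionField),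
          k ∈ localRingAt str (ι i p) ↔ ∃ a b : A i, b ∉ p.asIdeal ∧ k * ψ b = ψ a := by
  have hint := isIntegral_Z hsurj hcompat
  refine ⟨hint, ?_⟩
  obtain ⟨i₀⟩ := ‹Nonempty I›
  have : Nonempty I := ⟨i₀⟩
  obtain ⟨S, hS⟩ := exists_S hsurj hcompat
  let K := FractionRing R
  let S' : Z.functionField →+* K := S.hom
  have hS' : ∀ (i : I) (a : A i), S' ((phi (ι := ι) i).hom a) = algebraMap R K (a : R) := by
    intro i a
    have := congrArg (fun u => u.hom a) (hS i)
    exact this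
  have hinj : Function.Injective S' := S'.injective
  have hsur : Function.Surjective S' := by
    intro x
    obtain ⟨⟨r, r'⟩, hr⟩ := IsLocalization.surj (nonZeroDivisors R) x
    have hr' : (r' : R) ≠ 0 := nonZeroDivisors.ne_zero r'.2
    obtain ⟨a, ha, b, hb, hb0, hab⟩ := hfrac i₀ r
    obtain ⟨a', ha', b', hb', hb0', hab'⟩ := hfrac i₀ r'
    have ha0' : a' ≠ 0 := by
      rw [← hab']
      exact mul_ne_zero hr' hb0'
    refine ⟨(phi (ι := ι) i₀).hom ⟨a * b', (A i₀).mul_mem ha hb'⟩ /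
      (phi (ι := ι) i₀).hom ⟨b * a', (A i₀).mul_mem hb ha'⟩, ?_⟩
    rw [map_div₀, hS', hS']
    have h1 : algebraMap R K (b * a') ≠ 0 := by
      rw [Ne, IsFractionRing.to_map_eq_zero_iff]
      exact mul_ne_zero hb0 ha0'
    rw [div_eq_iff h1]
    simp only
    simp only at hr
    have h2 : (algebraMap R K) r' ≠ 0 := by
      rw [Ne, IsFractionRing.to_map_eq_zero_iff]; exact hr'
    rw [← hab, ← hab', map_mul, map_mul, map_mul, map_mul, ← hr]
    ring
  let e : Z.functionField ≃+* K := RingEquiv.ofBijective S' ⟨hinj, hsur⟩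
  have he : ∀ x, e x = S' x := fun _ => rfl
  let ψ₀ : R →+* Z.functionField := (e.symm : K →+* Z.functionField).comp (algebraMap R K)
  have hψphi : ∀ (i : I) (a : A i), ψ₀ (a : R) = (phi (ι := ι) i).hom a := by
    intro i a
    change e.symm (algebraMap R K (a : R)) = _
    rw [RingEquiv.symm_apply_eq, he, hS']
  let _ := functionFieldAlgebra str
  have hC : ∀ c : ℂ, ψ₀ (algebraMap ℂ R c) = algebraMap ℂ Z.functionField c := by
    intro c
    have h1 : algebraMap ℂ R c = ((algebraMap ℂ (A i₀) c : A i₀) : R) := rfl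
    rw [h1, hψphi]
    have h2 : CommRingCat.ofHom (algebraMap ℂ (A i₀)) ≫ phi (ι := ι) i₀ =
        (Scheme.ΓSpecIso (.of ℂ)).inv ≫ str.appTop ≫
          Z.presheaf.germ ⊤ (genericPoint Z) (TopologicalSpace.Opens.mem_top _) := by
      apply Spec.map_injective
      rw [← fromSpecStalk_str, Spec.map_comp, ← hstr, ← Category.assoc, SpecMap_phi]
    exact congrArg (fun u => u.hom c) h2
  let ψ : R →ₐ[ℂ] Z.functionField := { ψ₀ with commutes' := hC }
  have hψ : ∀ r, ψ r = ψ₀ r := fun _ => rfl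
  have hψinj : Function.Injective ψ := by
    intro x y h
    rw [hψ, hψ] at h
    exact IsFractionRing.injective R K (e.symm.injective h)
  refine ⟨ψ, hψinj, ?_, ?_⟩
  · intro k
    obtain ⟨⟨r, r'⟩, hr⟩ := IsLocalization.surj (nonZeroDivisors R) (e k)
    refine ⟨r, r', nonZeroDivisors.ne_zero r'.2, ?_⟩
    apply e.injective
    rw [map_mul, hψ, hψ]
    change e k * e (e.symm (algebraMap R K r')) = e (e.symm (algebraMap R K r))
    rw [RingEquiv.apply_symm_apply, RingEquiv.apply_symm_apply]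
    exact hr
  · intro i p k
    have hsp : ∀ a : A i, algebraMap (Z.presheaf.stalk (ι i p)) Z.functionField
        ((toSt (ι i) p).hom a) = ψ (a : R) := by
      intro a
      rw [hψ, hψphi, phi_eq i p]
      rfl
    constructor
    · rintro ⟨s, rfl⟩
      obtain ⟨a, b, hb, h⟩ := exists_frac (ι i) p s
      refine ⟨a, b, hb, ?_⟩
      rw [← hsp, ← hsp, ← h, map_mul]
    · rintro ⟨a, b, hb, h⟩
      obtain ⟨u, hu⟩ := isUnit_toSt (ι i) p b hb
      refine ⟨(toSt (ι i) p).hom a * ↑u⁻¹, ?_⟩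
      have h1 : algebraMap (Z.presheaf.stalk (ι i p)) Z.functionField ↑u ≠ 0 :=
        (u.isUnit.map _).ne_zero
      apply mul_right_cancel₀ h1
      have h2 : algebraMap (Z.presheaf.stalk (ι i p)) Z.functionField
          ((toSt (ι i) p).hom a * ↑u⁻¹) * algebraMap (Z.presheaf.stalk (ι i p)) Z.functionField ↑u =
          algebraMap (Z.presheaf.stalk (ι i p)) Z.functionField ((toSt (ι i) p).hom a) := by
        rw [← map_mul, mul_assoc, Units.inv_mul, mul_one]
      refine h2.trans ?_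
      rw [hsp, ← h, hu, hsp]

end Pool.Agent.H23
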