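import Pool.Agent.H23.Model
import Pool.Agent.H23.ModS
import Pool.Agent.H23.ModAtlas

/-!
# The function field of a scheme with a toric atlas
-/

open AlgebraicGeometry CategoryTheory

set_option linter.style.haveILetI false

noncomputable section

namespace Pool.Agent.H23

open TData

variable {n : ℕ} {T : TData n} {Z : Scheme.{0}} {str : Z ⟶ Spec (.of ℂ)}

lemma A_none_eq_top (T : TData n) (f : LP n) : f ∈ T.A (fun _ => none) := by
  intro u _ k b hb
  simp at hb

lemma exists_frac_A (T : TData n) (i : Fin n → Option Bool) (r : LP n) :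
    ∃ a ∈ T.A i, ∃ b ∈ T.A i, b ≠ 0 ∧ r * b = a := by
  have hnone : ∀ (k : Fin n) (b : Bool), (fun _ => none : Fin n → Option Bool) k = some b →
      i k = some b := by simp
  obtain ⟨N, hN⟩ := T.exists_mul_mem (j := i) hnone (A_none_eq_top T r)
  exact ⟨_, hN, _, pow_mem (mono_mem_suppAlg.2 T.locExp_mem) N, pow_ne_zero _ (mono_ne_zero _), rfl⟩

lemma TAtlas.compat_val (a : TAtlas T Z str) (i : Fin n → Option Bool) :
    Spec.map (CommRingCat.ofHom (T.A i).val.toRingHom) ≫ a.ι i =
      Spec.map (CommRingCat.ofHom (T.A fun _ => none).val.toRingHom) ≫ a.ι (fun _ => none) := by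
  have hnone : ∀ (k : Fin n) (b : Bool), (fun _ => none : Fin n → Option Bool) k = some b →
      i k = some b := by simp
  rw [← a.compat (fun _ => none) i hnone, ← Category.assoc, ← Spec.map_comp]
  rfl

theorem TAtlas.exists_all (a : TAtlas T Z str) :
    ∃ _ : IsIntegral Z, letI := functionFieldAlgebra str
      ∃ P : TorusModel n Z.functionField, ∀ (ε : Fin n → Bool) (p : Spec (.of (T.A (full ε)))),
        P.IsLoc T ε p.asIdeal (localRingAt str (a.ι (full ε) p)) := by
  haveI := a.isOpen
  obtain ⟨hint, ψ, h1, h2, h3⟩ := atlas_localRing T.A (exists_frac_A T) str a.ι a.str_eq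
    (fun z => by
      obtain ⟨ε, y, hy⟩ := a.surj z
      exact ⟨full ε, y, hy⟩)
    (fun i j => by rw [a.compat_val i, a.compat_val j])
  letI := functionFieldAlgebra str
  exact ⟨hint, ⟨ψ, h1, h2⟩, fun ε p => ⟨p.isPrime, fun k => h3 (full ε) p k⟩⟩

theorem TAtlas.isIntegral (a : TAtlas T Z str) : IsIntegral Z := a.exists_all.choose

theorem TAtlas.exists_model (a : TAtlas T Z str) [IsIntegral Z] :
    letI := functionFieldAlgebra str
    ∃ P : TorusModel n Z.functionField, ∀ (ε : Fin n → Bool) (p : Spec (.of (T.A (full ε)))),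
      P.IsLoc T ε p.asIdeal (localRingAt str (a.ι (full ε) p)) := a.exists_all.choose_spec

end Pool.Agent.H23
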