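import Pool.Agent.H23.Sections
import Pool.Agent.H23.ModT9

/-!
# Ampleness of the anticanonical divisor of a toric Fano variety
-/

open AlgebraicGeometry CategoryTheory

set_option linter.style.haveILetI false

noncomputable section

namespace Pool.Agent.H23

open TData TorusModel

/-- The Fano condition for a toric datum: every vertex of the anticanonical polytope satisfies the
inequalities of the other facets strictly. -/
def TData.Fano {n : ℕ} (T : TData n) : Prop :=
  ∀ (ε : Fin n → Bool) (k : Fin n), 0 ≤ T.ℓ k (!ε k) (- ∑ j, T.w ε j)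

variable {n : ℕ} {T : TData n}

lemma isLocalization_away {i j : Fin n → Option Bool} (h : ∀ k b, i k = some b → j k = some b) :
    letI := (Subalgebra.inclusion (suppAlg_mono (T.cone_anti h))).toRingHom.toAlgebra
    IsLocalization.Away (⟨mono (T.locExp i j), mono_mem_suppAlg.2 T.locExp_mem⟩ : T.A j) (T.A i) := by
  letI := (Subalgebra.inclusion (suppAlg_mono (T.cone_anti h))).toRingHom.toAlgebra
  refine (isLocalization_iff _ _).2 ⟨?_, ?_, ?_⟩
  · rintro ⟨_, m, rfl⟩
    have h1 : (⟨mono (T.locExp i j), (suppAlg_mono (T.cone_anti h))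
        (mono_mem_suppAlg.2 T.locExp_mem)⟩ : T.A i) *
        ⟨mono (- T.locExp i j), mono_mem_suppAlg.2 (T.neg_locExp_mem h)⟩ = 1 :=
      Subtype.ext (mono_mul_neg _)
    have h2 : IsUnit (algebraMap (T.A j) (T.A i)
        (⟨mono (T.locExp i j), mono_mem_suppAlg.2 T.locExp_mem⟩ : T.A j)) :=
      IsUnit.of_mul_eq_one _ h1
    rw [map_pow]
    exact h2.pow m
  · rintro ⟨f, hf⟩
    obtain ⟨N, hN⟩ := T.exists_mul_mem h hf
    refine ⟨(⟨_, hN⟩, ⟨_, ⟨N, rfl⟩⟩), ?_⟩
    apply Subtype.ext
    change f * ((algebraMap (T.A j) (T.A i) (⟨mono (T.locExp i j),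
      mono_mem_suppAlg.2 T.locExp_mem⟩ ^ N) : T.A i) : LP n) = f * mono (T.locExp i j) ^ N
    rw [map_pow]
    rfl
  · intro a b hab
    refine ⟨1, ?_⟩
    have h1 : a = b := Subtype.ext (congrArg (fun z : T.A i => (z : LP n)) hab)
    rw [h1]

lemma exists_point {i j : Fin n → Option Bool} (h : ∀ k b, i k = some b → j k = some b)
    (q : Spec (.of (T.A j)))
    (hq : (⟨mono (T.locExp i j), mono_mem_suppAlg.2 T.locExp_mem⟩ : T.A j) ∉ q.asIdeal) :
    ∃ q' : Spec (.of (T.A i)), Spec.map (CommRingCat.ofHom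
      (Subalgebra.inclusion (suppAlg_mono (T.cone_anti h))).toRingHom) q' = q := by
  letI := (Subalgebra.inclusion (suppAlg_mono (T.cone_anti h))).toRingHom.toAlgebra
  haveI := isLocalization_away (T := T) h
  have h1 := PrimeSpectrum.localization_away_comap_range (T.A i)
    (⟨mono (T.locExp i j), mono_mem_suppAlg.2 T.locExp_mem⟩ : T.A j)
  have h2 : (q : PrimeSpectrum (T.A j)) ∈ ((PrimeSpectrum.basicOpen
      (⟨mono (T.locExp i j), mono_mem_suppAlg.2 T.locExp_mem⟩ : T.A j) :
        TopologicalSpace.Opens (PrimeSpectrum (T.A j))) : Set (PrimeSpectrum (T.A j))) := hq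
  rw [← h1] at h2
  exact h2

variable {Z : Scheme.{0}} {str : Z ⟶ Spec (.of ℂ)}

theorem TAtlas.isToric (a : TAtlas T Z str) [IsIntegral Z] :
    letI := functionFieldAlgebra str
    ∃ P : TorusModel n Z.functionField, P.IsToric T (localRingAt str) ∧
      ∀ (ε : Fin n → Bool) (p : Spec (.of (T.A (full ε)))),
        P.IsLoc T ε p.asIdeal (localRingAt str (a.ι (full ε) p)) := by
  letI := functionFieldAlgebra str
  obtain ⟨P, hP⟩ := a.exists_model
  refine ⟨P, ⟨?_, ?_⟩, hP⟩
  · intro x
    obtain ⟨ε, p, rfl⟩ := a.surj x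
    exact ⟨ε, p.asIdeal, hP ε p⟩
  · intro ε p hp
    exact ⟨a.ι (full ε) ⟨p, hp⟩, hP ε ⟨p, hp⟩⟩

lemma vertex_mem_sec (hF : T.Fano) (ε : Fin n → Bool) : mono (- T.W ε) ∈ T.sec 1 := by
  intro u hu k b
  have h5 : - T.W ε = u := by
    by_contra hne
    apply hu
    simp [mono, hne]
  rw [← h5]
  by_cases hb : b = ε k
  · subst hb
    rw [map_neg, T.ℓ_W]
    simp
  · have h1 : b = !ε k := by
      cases b <;> cases h : ε k <;> simp_all
    rw [h1]
    have := hF ε k
    change _ ≤ T.ℓ k (!ε k) (- ∑ j, T.w ε j)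
    push_cast
    omega

/-- The anticanonical divisor of a toric Fano variety is ample. -/
theorem TAtlas.antiAmple (a : TAtlas T Z str) [IsIntegral Z] (hF : T.Fano) : AntiAmple str n := by
  letI := functionFieldAlgebra str
  obtain ⟨P, hP, hloc⟩ := a.isToric
  haveI := a.isOpen
  intro x
  obtain ⟨ε, p₀, rfl⟩ := a.surj x
  refine ⟨1, le_rfl, P.secMap T 1 (mono (- T.W ε)), ?_, (a.ι (full ε)).opensRange,
    isAffineOpen_opensRange _, ⟨p₀, rfl⟩, ?_⟩
  · rw [antiSections_eq hP]
    exact ⟨_, vertex_mem_sec hF ε, rfl⟩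
  intro y
  constructor
  · rintro ⟨p, rfl⟩
    have hl := hloc ε p
    obtain ⟨s, hs1, hs2, hs⟩ := P.Lam_eq T ε
    have h1 : P.secMap T 1 (mono (- T.W ε))
        (exteriorPower.ιMulti _ n (fun i => P.bas T ε i)) = s := by
      rw [secMap_apply, hs, fc_self, one_mul, pow_one]
      change s * P.chi (T.W ε) * P.chi (- T.W ε) = s
      rw [mul_assoc, P.chi_mul_neg, mul_one]
    refine ⟨exteriorPower.ιMulti _ n (fun i => P.bas T ε i), ?_, ?_, ?_⟩
    · rw [hl.mem_regularForms, fc_self]
      exact one_mem _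
    · rw [h1]
      rcases hs2 with rfl | rfl <;> simp
    · rw [h1]
      rcases hs2 with rfl | rfl
      · rw [inv_one]; exact one_mem _
      · rw [inv_neg, inv_one]; exact neg_mem (one_mem _)
  · rintro ⟨ω, hω, hne, hinv⟩
    obtain ⟨δ, q, rfl⟩ := a.surj y
    have hl := hloc δ q
    obtain ⟨s, hs1, hs2, hs⟩ := P.Lam_eq T δ
    set O := localRingAt str (a.ι (full δ) q) with hO
    have hfc := (hl.mem_regularForms ω).1 hω
    have hrest : ∀ k, 0 ≤ T.ℓ k (δ k) (T.W δ - T.W ε) ∧
        (δ k ≠ ε k → 1 ≤ T.ℓ k (δ k) (T.W δ - T.W ε)) := by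
      intro k
      rw [map_sub, T.ℓ_W]
      by_cases hk : δ k = ε k
      · refine ⟨?_, fun h => absurd hk h⟩
        rw [hk, T.ℓ_W]
        simp
      · have h1 : δ k = !ε k := by
          cases h : δ k <;> cases h' : ε k <;> simp_all
        have h2 := hF ε k
        rw [map_neg, ← h1] at h2
        change 0 ≤ - T.ℓ k (δ k) (T.W ε) at h2
        exact ⟨by omega, fun _ => by omega⟩
    have hmem : T.W δ - T.W ε ∈ T.cone (full δ) := T.mem_cone_full.2 fun k => (hrest k).1
    have h1 : P.secMap T 1 (mono (- T.W ε)) ω =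
        s * fc (P.bas T δ) ω * P.chi (T.W δ - T.W ε) := by
      rw [secMap_apply, hs, pow_one, sub_eq_add_neg, P.chi_add]
      change _ * P.chi (- T.W ε) = _
      ring
    have hsO : s ∈ O := neg_one_pow_mem hs2
    -- the monomial is a unit at the point
    have h2 : (P.chi (T.W δ - T.W ε))⁻¹ ∈ O := by
      have h3 : (P.chi (T.W δ - T.W ε))⁻¹ =
          s * fc (P.bas T δ) ω * (P.secMap T 1 (mono (- T.W ε)) ω)⁻¹ := by
        rw [h1] at hne ⊢
        have h4 := left_ne_zero_of_mul hne
        rw [mul_inv, mul_inv_cancel_left₀ h4]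
      rw [h3]
      exact mul_mem (mul_mem hsO hfc) hinv
    have h3 : (⟨mono (T.W δ - T.W ε), mono_mem_suppAlg.2 hmem⟩ : T.A (full δ)) ∉ q.asIdeal := by
      intro hq
      obtain ⟨c, d, hd, hcd⟩ := (hl.2 _).1 h2
      apply hd
      have h4 : d = c * ⟨mono (T.W δ - T.W ε), mono_mem_suppAlg.2 hmem⟩ := by
        apply Subtype.ext
        apply P.inj
        change P.ψ d = P.ψ (c * mono (T.W δ - T.W ε))
        rw [map_mul, ← hcd]
        change _ = _ * P.chi (T.W δ - T.W ε)
        have h5 := P.chi_ne_zero (T.W δ - T.W ε)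
        field_simp
      rw [h4]
      exact q.asIdeal.mul_mem_left c hq
    -- hence the point lies in the intersection of the two charts
    set i : Fin n → Option Bool := fun k => if δ k = ε k then some (δ k) else none with hi
    have hiδ : ∀ k b, i k = some b → full δ k = some b := by
      intro k b hkb
      simp only [hi] at hkb
      split_ifs at hkb with h
      exact hkb
    have hiε : ∀ k b, i k = some b → full ε k = some b := by
      intro k b hkb
      simp only [hi] at hkb
      split_ifs at hkb with h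
      rw [h] at hkb
      exact hkb
    have hr : T.W δ - T.W ε - T.locExp i (full δ) ∈ T.cone (full δ) := by
      rw [T.mem_cone_full]
      intro k
      rw [map_sub, T.ℓ_locExp (i := i) (j := full δ) (k := k) rfl]
      by_cases hk : δ k = ε k
      · have : i k ≠ none := by simp [hi, hk]
        rw [if_neg this]
        have := (hrest k).1
        omega
      · have : i k = none := by simp [hi, hk]
        rw [if_pos this]
        have := (hrest k).2 hk
        omega
    have h4 : (⟨mono (T.locExp i (full δ)), mono_mem_suppAlg.2 T.locExp_mem⟩ : T.A (full δ)) ∉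
        q.asIdeal := by
      intro hq
      apply h3
      have h5 : (⟨mono (T.W δ - T.W ε), mono_mem_suppAlg.2 hmem⟩ : T.A (full δ)) =
          ⟨mono (T.W δ - T.W ε - T.locExp i (full δ)), mono_mem_suppAlg.2 hr⟩ *
          ⟨mono (T.locExp i (full δ)), mono_mem_suppAlg.2 T.locExp_mem⟩ := by
        apply Subtype.ext
        change mono (T.W δ - T.W ε) = mono (T.W δ - T.W ε - T.locExp i (full δ)) *
          mono (T.locExp i (full δ))
        rw [← mono_add, sub_add_cancel]
      rw [h5]
      exact q.asIdeal.mul_mem_left _ hq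
    obtain ⟨q', hq'⟩ := exists_point hiδ q h4
    have h5 : a.ι (full δ) q = a.ι i q' := by
      rw [← hq', ← a.compat i (full δ) hiδ]
      rfl
    have h6 : a.ι i q' = a.ι (full ε) (Spec.map (CommRingCat.ofHom
        (Subalgebra.inclusion (suppAlg_mono (T.cone_anti hiε))).toRingHom) q') := by
      rw [← a.compat i (full ε) hiε]
      rfl
    rw [h5, h6]
    exact ⟨_, rfl⟩

end Pool.Agent.H23
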