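import Pool.Agent.H23.ModG
import Pool.Agent.H23.ModAtlas

/-!
# Module T7: the variety of a complete toric datum
-/

open AlgebraicGeometry CategoryTheory

set_option linter.style.haveILetI false

noncomputable section

namespace Pool.Agent.H23

open TData

/-- polynomial rings are standard smooth -/
lemma isStandardSmooth_mvPolynomial (n : ℕ) :
    Algebra.IsStandardSmoothOfRelativeDimension n ℂ (MvPolynomial (Fin n) ℂ) := by
  have haev : ∀ p : MvPolynomial (Fin n) ℂ, MvPolynomial.aeval (MvPolynomial.X : Fin n → _) p = p :=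
    fun p => by rw [MvPolynomial.aeval_X_left]; rfl
  let G : Algebra.Generators ℂ (MvPolynomial (Fin n) ℂ) (Fin n) :=
    { val := MvPolynomial.X
      σ' := _root_.id
      aeval_val_σ' := haev
      algebraMap_eq := rfl }
  let P : Algebra.Presentation ℂ (MvPolynomial (Fin n) ℂ) (Fin n) PEmpty.{1} :=
    { G with
      relation := PEmpty.elim
      span_range_relation_eq_ker := by
        rw [Set.range_eq_empty, Ideal.span_empty]
        symm
        rw [Algebra.Generators.ker_eq_ker_aeval_val]
        refine (RingHom.injective_iff_ker_eq_bot _).1 ?_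
        intro a b h
        have h2 : MvPolynomial.aeval (MvPolynomial.X : Fin n → MvPolynomial (Fin n) ℂ) a =
          MvPolynomial.aeval (MvPolynomial.X : Fin n → MvPolynomial (Fin n) ℂ) b := h
        rwa [haev, haev] at h2 }
  let Q : Algebra.PreSubmersivePresentation ℂ (MvPolynomial (Fin n) ℂ) (Fin n) PEmpty.{1} :=
    { P with
      map := PEmpty.elim
      map_inj := fun a => a.elim }
  let S : Algebra.SubmersivePresentation ℂ (MvPolynomial (Fin n) ℂ) (Fin n) PEmpty.{1} :=
    { Q with
      jacobian_isUnit := by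
        rw [Algebra.PreSubmersivePresentation.jacobian_eq_jacobiMatrix_det,
          Matrix.det_isEmpty, map_one]
        exact isUnit_one }
  apply S.isStandardSmoothOfRelativeDimension
  rw [Algebra.Presentation.dimension]
  simp

/-! ### The index set -/

/-- chart indices, ordered by: a smaller index has fewer signs -/
def Idx (n : ℕ) : Type := Fin n → Option Bool

namespace Idx

variable {n : ℕ}

instance : Finite (Idx n) := inferInstanceAs (Finite (Fin n → Option Bool))

instance : Nonempty (Idx n) := inferInstanceAs (Nonempty (Fin n → Option Bool))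

/-- the infimum of two indices -/
def meet (i j : Fin n → Option Bool) : Fin n → Option Bool := fun k => if i k = j k then i k else none

lemma meet_eq_some {i j : Fin n → Option Bool} {k : Fin n} {b : Bool} :
    meet i j k = some b ↔ i k = some b ∧ j k = some b := by
  unfold meet
  split_ifs with h
  · rw [h]; simp
  · constructor
    · intro h'; exact absurd h' (by simp)
    · rintro ⟨h1, h2⟩; exact absurd (h1.trans h2.symm) h

instance : PartialOrder (Idx n) where
  le i j := ∀ k b, i k = some b → j k = some b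
  le_refl i := fun _ _ h => h
  le_trans _ _ _ h1 h2 := fun k b h => h2 k b (h1 k b h)
  le_antisymm i j h1 h2 := by
    funext k
    rcases h : i k with _ | b
    · rcases h' : j k with _ | b
      · rfl
      · exact absurd (h2 k b h') (by rw [h]; simp)
    · exact (h1 k b h).symm

lemma le_def {i j : Idx n} : i ≤ j ↔ ∀ k b, i k = some b → j k = some b := Iff.rfl

instance : SemilatticeInf (Idx n) where
  inf i j := meet i j
  inf_le_left _ _ := fun _ _ h => (meet_eq_some.1 h).1
  inf_le_right _ _ := fun _ _ h => (meet_eq_some.1 h).2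
  le_inf _ _ _ h1 h2 := fun k b h => meet_eq_some.2 ⟨h1 k b h, h2 k b h⟩

lemma inf_def (i j : Idx n) : i ⊓ j = meet i j := rfl

end Idx

/-! ### The chart system -/

variable {n : ℕ} (T : TData n)

lemma TData.cone_meet (hT : T.Complete) (i j : Fin n → Option Bool) :
    T.cone (Idx.meet i j) = T.cone i ⊔ T.cone j := by
  apply le_antisymm
  · intro u hu
    obtain ⟨m, hm⟩ := hT.sep i j
    -- a multiple of `m` large enough
    set N : ℕ := ∑ k, (|T.ℓ k true u| + |T.ℓ k false u|).toNat with hN
    have hbound : ∀ k b, |T.ℓ k b u| ≤ (N : ℤ) := by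
      intro k b
      have h1 : (|T.ℓ k true u| + |T.ℓ k false u|).toNat ≤ N :=
        Finset.single_le_sum (f := fun k => (|T.ℓ k true u| + |T.ℓ k false u|).toNat)
          (fun _ _ => Nat.zero_le _) (Finset.mem_univ k)
      have h2 : |T.ℓ k b u| ≤ |T.ℓ k true u| + |T.ℓ k false u| := by
        cases b
        · have := abs_nonneg (T.ℓ k true u); omega
        · have := abs_nonneg (T.ℓ k false u); omega
      have h4 : (|T.ℓ k true u| + |T.ℓ k false u|) ≤ N := Int.toNat_le.1 h1
      omega
    have hsum : u = (u + N • m) + (-(N • m)) := by abel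
    rw [hsum]
    refine AddSubmonoid.add_mem_sup (show u + N • m ∈ T.cone i from ?_)
      (show -(N • m) ∈ T.cone j from ?_)
    · intro k b hb
      rw [map_add, map_nsmul, nsmul_eq_mul]
      by_cases hj : j k = some b
      · rw [(hm k b).1 hb hj, mul_zero, add_zero]
        exact hu k b (Idx.meet_eq_some.2 ⟨hb, hj⟩)
      · have h1 := (hm k b).2.1 hb hj
        have h2 : (N : ℤ) * 1 ≤ N * T.ℓ k b m :=
          mul_le_mul_of_nonneg_left h1 (Int.natCast_nonneg N)
        have h3 := neg_abs_le (T.ℓ k b u)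
        have h4 := hbound k b
        omega
    · intro k b hb
      rw [map_neg, map_nsmul, nsmul_eq_mul]
      by_cases hi : i k = some b
      · rw [(hm k b).1 hi hb, mul_zero, neg_zero]
      · have h1 := (hm k b).2.2 hb hi
        have h2 : (N : ℤ) * T.ℓ k b m ≤ 0 :=
          mul_nonpos_of_nonneg_of_nonpos (Int.natCast_nonneg N) h1
        omega
  · exact sup_le (T.cone_anti fun k b h => (Idx.meet_eq_some.1 h).1)
      (T.cone_anti fun k b h => (Idx.meet_eq_some.1 h).2)

lemma TData.A_meet (hT : T.Complete) (i j : Fin n → Option Bool) :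
    T.A (Idx.meet i j) = T.A i ⊔ T.A j := by
  rw [A, T.cone_meet hT, suppAlg_sup]

lemma ChartSystem.ι_chartMap_apply (C : ChartSystem) {i j : C.J} (h : i ≤ j)
    (y : Spec (.of (C.A i))) : C.ι j (C.chartMap h y) = C.ι i y := by
  rw [← Scheme.Hom.comp_apply, ChartSystem.chartMap_ι]

lemma ChartSystem.isOpenImmersion_ι (C : ChartSystem) (i : C.J) : IsOpenImmersion (C.ι i) :=
  inferInstance

/-- the chart system of a complete toric datum -/
def chartSys (hT : T.Complete) : ChartSystem where
  J := Idx n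
  R := LP n
  A i := T.A i
  anti _ _ h := suppAlg_mono (T.cone_anti h)
  loc i j h := by
    refine ⟨mono (T.locExp i j), mono_mem_suppAlg.2 T.locExp_mem,
      ⟨mono (- T.locExp i j), mono_mem_suppAlg.2 (T.neg_locExp_mem h), mono_mul_neg _⟩, ?_⟩
    intro a ha
    exact T.exists_mul_mem h ha
  sup i j := T.A_meet hT i j

variable {T}

/-- the atlas of the glued scheme -/
def chartAtlas (hT : T.Complete) : TAtlas T (chartSys T hT).glued (chartSys T hT).str where
  ι i := (chartSys T hT).ι i
  isOpen i := (chartSys T hT).isOpenImmersion_ι i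
  str_eq i := (chartSys T hT).ι_str i
  compat i j h := (chartSys T hT).chartMap_ι (i := i) (j := j) h
  surj z := by
    obtain ⟨i, y, hy⟩ := (chartSys T hT).ι_jointly_surjective z
    have hle : ∀ k b, i k = some b → full (ext i) k = some b := by
      intro k b h
      rw [← ext_spec i k b h]
    exact ⟨ext i, (chartSys T hT).chartMap (i := i) (j := full (ext i)) hle y,
      ((chartSys T hT).ι_chartMap_apply _ _).trans hy⟩

theorem chartAtlas_overlap (hT : T.Complete) : (chartAtlas hT).Overlap := by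
  intro i j x y hxy
  obtain ⟨w, hw, -⟩ := ((chartSys T hT).ι_eq_ι_iff (i := i) (j := j) x y).1 hxy
  exact ⟨w, ((chartSys T hT).ι_chartMap_apply (i := Idx.meet i j) (j := i) _ w).symm.trans
    (congrArg _ hw)⟩

/-! ### Smoothness -/

lemma smooth_full_chart (ε : Fin n → Bool) :
    SmoothOfRelativeDimension n
      (Spec.map (CommRingCat.ofHom (algebraMap ℂ (T.A (full ε))))) := by
  have h1 := isStandardSmooth_mvPolynomial n
  have h2 : Algebra.IsStandardSmoothOfRelativeDimension n ℂ (T.A (full ε)) :=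
    Algebra.IsStandardSmoothOfRelativeDimension.of_algEquiv n (T.polyEquiv ε)
  have h3 : (algebraMap ℂ (T.A (full ε))).IsStandardSmoothOfRelativeDimension n :=
    (RingHom.isStandardSmoothOfRelativeDimension_algebraMap n).2 h2
  rw [HasRingHomProperty.Spec_iff (P := @SmoothOfRelativeDimension n)]
  exact RingHom.locally_of RingHom.isStandardSmoothOfRelativeDimension_respectsIso _ h3

lemma isZariskiLocalAtSource_smooth (n : ℕ) :
    IsZariskiLocalAtSource (@SmoothOfRelativeDimension.{0} n) :=
  HasRingHomProperty.instIsZariskiLocalAtSource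

theorem ChartSystem.smooth_of (C : ChartSystem) (n : ℕ) (M : Set C.J) (hM : ∀ i, ∃ j ∈ M, i ≤ j)
    (h : ∀ i ∈ M, SmoothOfRelativeDimension n
      (Spec.map (CommRingCat.ofHom (algebraMap ℂ (C.A i))))) :
    SmoothOfRelativeDimension n C.str := by
  have hloc := isZariskiLocalAtSource_smooth n
  refine IsZariskiLocalAtSource.of_openCover (P := @SmoothOfRelativeDimension n) C.cover ?_
  intro i
  obtain ⟨j, hj, hle⟩ := hM i
  change SmoothOfRelativeDimension n (C.ι i ≫ C.str)
  have h0 : C.ι i ≫ C.str = C.chartMap hle ≫ Spec.map (CommRingCat.ofHom (algebraMap ℂ (C.A j))) := by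
    rw [← C.chartMap_ι hle, Category.assoc, C.ι_str]
  rw [h0]
  have h1 : SmoothOfRelativeDimension 0 (C.chartMap hle) :=
    @instSmoothOfRelativeDimensionOfNatNatOfIsOpenImmersion _ _ _ (C.isOpenImmersion_chartMap hle)
  have h2 := smoothOfRelativeDimension_comp 0 n (C.chartMap hle) _ (hf := h1) (hg := h j hj)
  rwa [zero_add] at h2

/-- the maximal charts -/
def maxIdx (n : ℕ) : Set (Idx n) := Set.range full

lemma exists_maxIdx (i : Idx n) : ∃ j ∈ maxIdx n, i ≤ j :=
  ⟨full (ext i), ⟨_, rfl⟩, fun k b h => congrArg some (ext_spec i k b h)⟩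

theorem smooth_str (hT : T.Complete) : SmoothOfRelativeDimension n (chartSys T hT).str := by
  refine (chartSys T hT).smooth_of n (maxIdx n) exists_maxIdx ?_
  rintro _ ⟨ε, rfl⟩
  exact smooth_full_chart ε

/-! ### Properness -/

lemma mono_w_mem_meet (T : TData n) (ε δ : Fin n → Bool) (k : Fin n) :
    mono (T.w δ k) ∈ T.A (Idx.meet (full ε) (full δ)) :=
  mono_mem_suppAlg.2 (T.cone_anti (fun _ _ h => (Idx.meet_eq_some.1 h).2) (T.w_mem δ k))

lemma flip_spec {ε δ : Fin n → Bool} {j : Fin n} (hj : δ j = ε j) {k : Fin n} {b : Bool}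
    (h : Idx.meet (full ε) (full (Function.update δ j (!δ j))) k = some b) :
    k ≠ j ∧ ε k = b ∧ δ k = b := by
  obtain ⟨h1, h2⟩ := Idx.meet_eq_some.1 h
  simp only [full, Option.some.injEq] at h1 h2
  have hk : k ≠ j := by
    rintro rfl
    rw [Function.update_self] at h2
    rw [hj, h1] at h2
    cases b <;> simp at h2
  rw [Function.update_of_ne hk] at h2
  exact ⟨hk, h1, h2⟩

lemma flip_le {ε δ : Fin n → Bool} {j : Fin n} (hj : δ j = ε j) (k : Fin n) (b : Bool)
    (h : Idx.meet (full ε) (full (Function.update δ j (!δ j))) k = some b) :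
    Idx.meet (full ε) (full δ) k = some b := by
  obtain ⟨-, h1, h2⟩ := flip_spec hj h
  exact Idx.meet_eq_some.2 ⟨congrArg some h1, congrArg some h2⟩

lemma flip_neg_mem (T : TData n) {ε δ : Fin n → Bool} {j : Fin n} (hj : δ j = ε j) :
    mono (- T.w δ j) ∈ T.A (Idx.meet (full ε) (full (Function.update δ j (!δ j)))) := by
  refine mono_mem_suppAlg.2 ?_
  intro k b h
  obtain ⟨hk, -, h2⟩ := flip_spec hj h
  rw [map_neg, ← h2, T.dual, if_neg hk]
  simp

lemma flip_exists_add_mem (T : TData n) {ε δ : Fin n → Bool} {j : Fin n}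
    {u : Fin n → ℤ} (hu : u ∈ T.cone (Idx.meet (full ε) (full (Function.update δ j (!δ j))))) :
    ∃ N : ℕ, ∀ M, N ≤ M → u + M • T.w δ j ∈ T.cone (Idx.meet (full ε) (full δ)) := by
  refine ⟨(|T.ℓ j (δ j) u|).toNat, fun M hM => ?_⟩
  intro k b h
  obtain ⟨h1, h2⟩ := Idx.meet_eq_some.1 h
  simp only [full, Option.some.injEq] at h1 h2
  rw [map_add, map_nsmul, ← h2, T.dual]
  by_cases hk : k = j
  · subst hk
    rw [if_pos rfl]
    have h3 := neg_abs_le (T.ℓ k (δ k) u)
    have h4 : |T.ℓ k (δ k) u| ≤ M := Int.toNat_le.1 hM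
    simp only [nsmul_eq_mul, mul_one]
    omega
  · rw [if_neg hk, smul_zero, add_zero, h2]
    refine hu k b (Idx.meet_eq_some.2 ⟨congrArg some h1, ?_⟩)
    change some (Function.update δ j (!δ j) k) = some b
    rw [Function.update_of_ne hk, h2]

lemma flip_exists_mul_mem (T : TData n) {ε δ : Fin n → Bool} {j : Fin n} {f : LP n}
    (hf : f ∈ T.A (Idx.meet (full ε) (full (Function.update δ j (!δ j))))) :
    ∃ N : ℕ, f * mono (T.w δ j) ^ N ∈ T.A (Idx.meet (full ε) (full δ)) := by
  classical
  have h1 : ∀ u ∈ f.coeff.support, ∃ N : ℕ, ∀ M, N ≤ M →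
      u + M • T.w δ j ∈ T.cone (Idx.meet (full ε) (full δ)) :=
    fun u hu => flip_exists_add_mem T (hf u (Finsupp.mem_support_iff.1 hu))
  choose! N hN using h1
  refine ⟨∑ u ∈ f.coeff.support, N u, ?_⟩
  rw [← mono_nsmul]
  intro v hv
  rw [coeff_mul_mono] at hv
  have hv' := Finsupp.mem_support_iff.2 hv
  have := hN _ hv' (∑ u ∈ f.coeff.support, N u)
    (Finset.single_le_sum (f := N) (fun _ _ => Nat.zero_le _) hv')
  simpa using this

lemma exists_extension (T : TData n) (ε δ : Fin n → Bool) (j : Fin n) (hj : δ j = ε j)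
    {L : Type} [Field L] (ψ : T.A (Idx.meet (full ε) (full δ)) →+* L)
    (h0 : ψ ⟨mono (T.w δ j), mono_w_mem_meet T ε δ j⟩ ≠ 0) :
    ∃ ψ' : T.A (Idx.meet (full ε) (full (Function.update δ j (!δ j)))) →+* L,
      ∀ a (h : a ∈ T.A (Idx.meet (full ε) (full δ)))
        (h' : a ∈ T.A (Idx.meet (full ε) (full (Function.update δ j (!δ j))))),
        ψ' ⟨a, h'⟩ = ψ ⟨a, h⟩ := by
  have hle : T.A (Idx.meet (full ε) (full δ)) ≤
      T.A (Idx.meet (full ε) (full (Function.update δ j (!δ j)))) :=
    suppAlg_mono (T.cone_anti (flip_le hj))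
  let _ := (Subalgebra.inclusion hle).toRingHom.toAlgebra
  have hloc := ChartSystem.isLocalization_of
    (T.A (Idx.meet (full ε) (full (Function.update δ j (!δ j)))))
    (T.A (Idx.meet (full ε) (full δ))) hle (mono (T.w δ j)) (mono_w_mem_meet T ε δ j)
    ⟨mono (- T.w δ j), flip_neg_mem T hj, mono_mul_neg _⟩
    (fun a ha => flip_exists_mul_mem T ha)
  have hu : IsUnit (ψ ⟨mono (T.w δ j), mono_w_mem_meet T ε δ j⟩) := isUnit_iff_ne_zero.2 h0
  refine ⟨IsLocalization.Away.lift
    (⟨mono (T.w δ j), mono_w_mem_meet T ε δ j⟩ : T.A (Idx.meet (full ε) (full δ))) hu, ?_⟩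
  intro a h h'
  exact IsLocalization.Away.lift_eq _ hu ⟨a, h⟩

lemma exists_lift_aux (T : TData n) (hT : T.Complete) (O : Type) [CommRing O] [IsDomain O]
    [ValuationRing O] (L : Type) [Field L] [Algebra O L] [IsFractionRing O L] (ε : Fin n → Bool)
    (φ : T.A (full ε) →+* L) : ∀ t : ℕ, t ≤ n → ∃ δ : Fin n → Bool,
      (∀ k : Fin n, t ≤ k → δ k = ε k) ∧ ∃ ψ : T.A (Idx.meet (full ε) (full δ)) →+* L,
      (∀ a (h : a ∈ T.A (full ε)) (h' : a ∈ T.A (Idx.meet (full ε) (full δ))),
        ψ ⟨a, h'⟩ = φ ⟨a, h⟩) ∧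
      ∀ k : Fin n, (k : ℕ) < t → ψ ⟨mono (T.w δ k), mono_w_mem_meet T ε δ k⟩ ∈
        (algebraMap O L).range := by
  intro t
  induction t with
  | zero =>
    intro _
    refine ⟨ε, fun _ _ => rfl, ?_⟩
    have hmeet : Idx.meet (full ε) (full ε) = full ε := by
      funext k
      simp [Idx.meet]
    refine ⟨φ.comp (Subalgebra.inclusion (by rw [hmeet])).toRingHom, fun _ _ _ => rfl,
      fun k hk => absurd hk (Nat.not_lt_zero _)⟩
  | succ t ih =>
    intro ht
    obtain ⟨δ, hδ, ψ, hψ, hψ'⟩ := ih (by omega)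
    set j : Fin n := ⟨t, by omega⟩ with hj
    have hδj : δ j = ε j := hδ j (le_refl _)
    by_cases hin : ψ ⟨mono (T.w δ j), mono_w_mem_meet T ε δ j⟩ ∈ (algebraMap O L).range
    · refine ⟨δ, fun k hk => hδ k (by omega), ψ, hψ, fun k hk => ?_⟩
      rcases Nat.lt_succ_iff_lt_or_eq.1 hk with h | h
      · exact hψ' k h
      · have : k = j := Fin.ext h
        rw [this]
        exact hin
    · have h0 : ψ ⟨mono (T.w δ j), mono_w_mem_meet T ε δ j⟩ ≠ 0 := by
        intro h0
        apply hin
        rw [h0]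
        exact zero_mem _
      obtain ⟨ψ', hext⟩ := exists_extension T ε δ j hδj ψ h0
      have hle : T.A (Idx.meet (full ε) (full δ)) ≤
          T.A (Idx.meet (full ε) (full (Function.update δ j (!δ j)))) :=
        suppAlg_mono (T.cone_anti (flip_le hδj))
      have hle0 : T.A (full ε) ≤ T.A (Idx.meet (full ε) (full δ)) :=
        suppAlg_mono (T.cone_anti (fun _ _ h => (Idx.meet_eq_some.1 h).1))
      refine ⟨Function.update δ j (!δ j), fun k hk => ?_, ψ', fun a h h' => ?_, fun k hk => ?_⟩
      · have : k ≠ j := by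
          intro h
          rw [h] at hk
          exact absurd hk (by simp [hj])
        rw [Function.update_of_ne this]
        exact hδ k (by omega)
      · rw [hext a (hle0 h) h', hψ a h]
      · rcases Nat.lt_succ_iff_lt_or_eq.1 hk with h | h
        · have hw : T.w (Function.update δ j (!δ j)) k = T.w δ k := by
            apply hT.w_dep
            intro i hi
            rw [Function.update_of_ne]
            intro hij
            rw [hij] at hi
            have : (j : ℕ) ≤ k := hi
            simp only [hj] at this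
            omega
          have h1 : (⟨mono (T.w (Function.update δ j (!δ j)) k),
              mono_w_mem_meet T ε (Function.update δ j (!δ j)) k⟩ :
                T.A (Idx.meet (full ε) (full (Function.update δ j (!δ j))))) =
              ⟨mono (T.w δ k), hle (mono_w_mem_meet T ε δ k)⟩ := Subtype.ext (congrArg mono hw)
          rw [h1, hext _ (mono_w_mem_meet T ε δ k)]
          exact hψ' k h
        · have hkj : k = j := Fin.ext h
          rw [hkj]
          have h1 : (⟨mono (T.w (Function.update δ j (!δ j)) j),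
              mono_w_mem_meet T ε (Function.update δ j (!δ j)) j⟩ :
                T.A (Idx.meet (full ε) (full (Function.update δ j (!δ j))))) =
              ⟨mono (- T.w δ j), flip_neg_mem T hδj⟩ := Subtype.ext (congrArg mono (hT.w_flip δ j))
          have h2 : ψ' ⟨mono (- T.w δ j), flip_neg_mem T hδj⟩ *
              ψ ⟨mono (T.w δ j), mono_w_mem_meet T ε δ j⟩ = 1 := by
            rw [← hext _ (mono_w_mem_meet T ε δ j) (hle (mono_w_mem_meet T ε δ j)), ← map_mul,
              ← map_one ψ']
            congr 1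
            apply Subtype.ext
            change mono (- T.w δ j) * mono (T.w δ j) = 1
            rw [mul_comm, mono_mul_neg]
          rw [h1]
          have h3 := ValuationRing.isInteger_or_isInteger O
            (ψ ⟨mono (T.w δ j), mono_w_mem_meet T ε δ j⟩)
          rcases h3 with h3 | h3
          · exact absurd h3 hin
          · rw [eq_inv_of_mul_eq_one_left h2]
            exact h3

theorem exists_valuative_chart (T : TData n) (hT : T.Complete) (O : Type) [CommRing O] [IsDomain O]
    [ValuationRing O] (L : Type) [Field L] [Algebra O L] [IsFractionRing O L] (ε : Fin n → Bool)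
    (φ : T.A (full ε) →+* L)
    (hc : ∀ c : ℂ, φ (algebraMap ℂ (T.A (full ε)) c) ∈ (algebraMap O L).range) :
    ∃ δ : Fin n → Bool, ∃ ψ : T.A (Idx.meet (full ε) (full δ)) →+* L,
      (∀ a (h : a ∈ T.A (full ε)) (h' : a ∈ T.A (Idx.meet (full ε) (full δ))),
        ψ ⟨a, h'⟩ = φ ⟨a, h⟩) ∧
      ∀ a (_ : a ∈ T.A (full δ)) (h' : a ∈ T.A (Idx.meet (full ε) (full δ))),
        ψ ⟨a, h'⟩ ∈ (algebraMap O L).range := by
  obtain ⟨δ, -, ψ, hψ, hψ'⟩ := exists_lift_aux T hT O L ε φ n le_rfl
  refine ⟨δ, ψ, hψ, ?_⟩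
  have hle : T.A (full δ) ≤ T.A (Idx.meet (full ε) (full δ)) :=
    suppAlg_mono (T.cone_anti (fun _ _ h => (Idx.meet_eq_some.1 h).2))
  have hadj : T.A (full δ) = Algebra.adjoin ℂ (Set.range fun k => mono (T.w δ k)) := by
    rw [← T.polyHom_range δ, polyHom, Algebra.adjoin_range_eq_range_aeval]
  have key : ∀ a ∈ Algebra.adjoin ℂ (Set.range fun k => mono (T.w δ k)),
      ∀ h' : a ∈ T.A (Idx.meet (full ε) (full δ)), ψ ⟨a, h'⟩ ∈ (algebraMap O L).range := by
    intro a ha
    induction ha using Algebra.adjoin_induction with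
    | mem x hx =>
      obtain ⟨k, rfl⟩ := hx
      intro h'
      exact hψ' k k.2
    | algebraMap c =>
      intro h'
      rw [hψ _ ((T.A (full ε)).algebraMap_mem c)]
      exact hc c
    | add x y hx hy hx' hy' =>
      intro h'
      rw [← hadj] at hx hy
      have h1 : (⟨x + y, h'⟩ : T.A (Idx.meet (full ε) (full δ))) = ⟨x, hle hx⟩ + ⟨y, hle hy⟩ := rfl
      rw [h1, map_add]
      exact add_mem (hx' _) (hy' _)
    | mul x y hx hy hx' hy' =>
      intro h'
      rw [← hadj] at hx hy
      have h1 : (⟨x * y, h'⟩ : T.A (Idx.meet (full ε) (full δ))) = ⟨x, hle hx⟩ * ⟨y, hle hy⟩ := rfl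
      rw [h1, map_mul]
      exact mul_mem (hx' _) (hy' _)
  intro a ha h'
  rw [hadj] at ha
  exact key a ha h'

theorem proper_str (hT : T.Complete) : IsProper (chartSys T hT).str := by
  refine (chartSys T hT).isProper_str (fun i => T.finiteType_A i) (maxIdx n) exists_maxIdx ?_
  rintro O _ _ _ L _ _ _ _ ⟨ε, rfl⟩ φ hc
  obtain ⟨δ, ψ, h1, h2⟩ := exists_valuative_chart T hT O L ε φ hc
  exact ⟨full δ, ψ, fun a => h1 a.1 a.2 _, fun a => h2 a.1 a.2 _⟩

/-! ### The main statement -/

/-- The variety of a complete toric datum, with its atlas; overlaps are as expected. -/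
theorem exists_variety {n : ℕ} (T : TData n) (hT : T.Complete) :
    ∃ (Z : Scheme.{0}) (str : Z ⟶ Spec (.of ℂ)) (a : TAtlas T Z str),
      IsProper str ∧ SmoothOfRelativeDimension n str ∧ a.Overlap ∧
      (∀ (W : Scheme.{0}) (f : ∀ i, Spec (.of (T.A i)) ⟶ W),
        (∀ i j (h : ∀ k b, i k = some b → j k = some b),
          Spec.map (CommRingCat.ofHom
            (Subalgebra.inclusion (suppAlg_mono (T.cone_anti h))).toRingHom) ≫ f j = f i) →
        ∃ g : Z ⟶ W, ∀ i, a.ι i ≫ g = f i) ∧
      (∀ (W : Scheme.{0}) (f g : Z ⟶ W), (∀ i, a.ι i ≫ f = a.ι i ≫ g) → f = g) := by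
  refine ⟨(chartSys T hT).glued, (chartSys T hT).str, chartAtlas hT, proper_str hT, smooth_str hT,
    chartAtlas_overlap hT, ?_, ?_⟩
  · intro W f hf
    exact ⟨(chartSys T hT).desc f hf, fun i => (chartSys T hT).ι_desc f hf i⟩
  · intro W f g h
    exact (chartSys T hT).hom_ext h

end Pool.Agent.H23
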