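import Pool.Agent.H23.ModAtlas

noncomputable section

namespace Pool.Agent.H23

open TData

/-! ## Module T6: the toric data of `P(O + O(c))` over `(P¹)ʳ` -/

/-- functionals of the fan of `P(O + O(c))` over `(P¹)ʳ`; the last exponent is the fibre one -/
def bottℓ (r : ℕ) (c : Fin r → ℤ) (k : Fin (r + 1)) (b : Bool) : (Fin (r + 1) → ℤ) →+ ℤ where
  toFun u := (if b then u k else - u k) +
    (if b then 0 else Fin.snoc (α := fun _ => ℤ) c 0 k * u (Fin.last r))
  map_zero' := by simp
  map_add' u v := by
    simp only [Pi.add_apply]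
    split_ifs <;> ring

/-- coordinates of the charts of `P(O + O(c))` over `(P¹)ʳ` -/
def bottw (r : ℕ) (c : Fin r → ℤ) (ε : Fin (r + 1) → Bool) (k : Fin (r + 1)) : Fin (r + 1) → ℤ :=
  (if ε k then 1 else -1 : ℤ) • (Pi.single k 1 +
    if k = Fin.last r then ∑ j : Fin r, (if ε j.castSucc then 0 else c j) • Pi.single j.castSucc 1
    else 0)

lemma bottℓ_true (r : ℕ) (c : Fin r → ℤ) (k : Fin (r + 1)) (u : Fin (r + 1) → ℤ) :
    bottℓ r c k true u = u k := by
  simp [bottℓ]

lemma bottℓ_false_castSucc (r : ℕ) (c : Fin r → ℤ) (k : Fin r) (u : Fin (r + 1) → ℤ) :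
    bottℓ r c k.castSucc false u = - u k.castSucc + c k * u (Fin.last r) := by
  simp [bottℓ]

lemma bottℓ_false_last (r : ℕ) (c : Fin r → ℤ) (u : Fin (r + 1) → ℤ) :
    bottℓ r c (Fin.last r) false u = - u (Fin.last r) := by
  simp [bottℓ]

lemma bottw_castSucc_castSucc (r : ℕ) (c : Fin r → ℤ) (ε : Fin (r + 1) → Bool) (k j : Fin r) :
    bottw r c ε k.castSucc j.castSucc = if k = j then (if ε k.castSucc then 1 else -1) else 0 := by
  have h : ¬ (k.castSucc = Fin.last r) := (Fin.castSucc_lt_last k).ne
  simp only [bottw, if_neg h, add_zero, Pi.smul_apply, smul_eq_mul, Pi.single_apply,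
    Fin.castSucc_inj]
  by_cases hkj : k = j
  · subst hkj; simp
  · simp [hkj, Ne.symm hkj]

lemma bottw_castSucc_last (r : ℕ) (c : Fin r → ℤ) (ε : Fin (r + 1) → Bool) (k : Fin r) :
    bottw r c ε k.castSucc (Fin.last r) = 0 := by
  have h : ¬ (k.castSucc = Fin.last r) := (Fin.castSucc_lt_last k).ne
  have h' : ¬ (Fin.last r = k.castSucc) := fun h'' => h h''.symm
  simp [bottw, h, h']

lemma bottw_last_last (r : ℕ) (c : Fin r → ℤ) (ε : Fin (r + 1) → Bool) :
    bottw r c ε (Fin.last r) (Fin.last r) = if ε (Fin.last r) then 1 else -1 := by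
  have h' : ∀ j : Fin r, ¬ (Fin.last r = j.castSucc) := fun j h'' =>
    (Fin.castSucc_lt_last j).ne h''.symm
  unfold bottw
  rw [if_pos (rfl : Fin.last r = Fin.last r), Pi.smul_apply, Pi.add_apply, Finset.sum_apply,
    Pi.single_eq_same, Finset.sum_eq_zero]
  · rw [add_zero, smul_eq_mul, mul_one]
  · intro j _
    rw [Pi.smul_apply, Pi.single_eq_of_ne (h' j), smul_zero]

lemma bottw_last_castSucc (r : ℕ) (c : Fin r → ℤ) (ε : Fin (r + 1) → Bool) (j : Fin r) :
    bottw r c ε (Fin.last r) j.castSucc =
      (if ε (Fin.last r) then 1 else -1) * (if ε j.castSucc then 0 else c j) := by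
  have h : ¬ (j.castSucc = Fin.last r) := (Fin.castSucc_lt_last j).ne
  unfold bottw
  rw [if_pos (rfl : Fin.last r = Fin.last r), Pi.smul_apply, Pi.add_apply, Finset.sum_apply,
    Pi.single_eq_of_ne h, zero_add, smul_eq_mul]
  congr 1
  rw [Finset.sum_eq_single j]
  · rw [Pi.smul_apply, Pi.single_eq_same, smul_eq_mul, mul_one]
  · intro k _ hk
    rw [Pi.smul_apply, Pi.single_eq_of_ne, smul_zero]
    exact fun h => hk (Fin.castSucc_injective _ h.symm)
  · intro h
    exact absurd (Finset.mem_univ _) h

/-- the toric data of `P(O + O(c))` over `(P¹)ʳ` -/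
def bott (r : ℕ) (c : Fin r → ℤ) : TData (r + 1) where
  ℓ := bottℓ r c
  w := bottw r c
  dual := by
    intro ε j k
    refine Fin.lastCases ?_ (fun k => ?_) k
    · refine Fin.lastCases ?_ (fun j => ?_) j
      · cases h : ε (Fin.last r)
        · rw [bottℓ_false_last, bottw_last_last, h]; simp
        · rw [bottℓ_true, bottw_last_last, h]; simp
      · have hne : ¬ (Fin.last r = j.castSucc) := fun h'' => (Fin.castSucc_lt_last j).ne h''.symm
        rw [if_neg hne]
        cases h : ε (Fin.last r)
        · rw [bottℓ_false_last, bottw_castSucc_last]; simp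
        · rw [bottℓ_true, bottw_castSucc_last]
    · refine Fin.lastCases ?_ (fun j => ?_) j
      · have hne : ¬ (k.castSucc = Fin.last r) := (Fin.castSucc_lt_last k).ne
        rw [if_neg hne]
        cases h : ε k.castSucc
        · rw [bottℓ_false_castSucc, bottw_last_castSucc, bottw_last_last, h]
          simp
        · rw [bottℓ_true, bottw_last_castSucc, h]; simp
      · cases h : ε k.castSucc
        · rw [bottℓ_false_castSucc, bottw_castSucc_castSucc, bottw_castSucc_last]
          by_cases hkj : k = j
          · subst hkj; simp [h]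
          · simp [hkj, Ne.symm hkj]
        · rw [bottℓ_true, bottw_castSucc_castSucc]
          by_cases hkj : k = j
          · subst hkj; simp [h]
          · simp [hkj, Ne.symm hkj]
  span := by
    intro ε u
    ext i
    rw [Finset.sum_apply, Fin.sum_univ_castSucc]
    simp only [Pi.smul_apply, smul_eq_mul]
    refine Fin.lastCases ?_ (fun i => ?_) i
    · simp only [bottw_castSucc_last, mul_zero, Finset.sum_const_zero, zero_add]
      rw [bottw_last_last]
      cases h : ε (Fin.last r)
      · rw [bottℓ_false_last]; simp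
      · rw [bottℓ_true]; simp
    · simp only [bottw_castSucc_castSucc, mul_ite, mul_zero]
      rw [Finset.sum_ite_eq' Finset.univ i, if_pos (Finset.mem_univ _), bottw_last_castSucc]
      have hlast : bottℓ r c (Fin.last r) (ε (Fin.last r)) u *
          (if ε (Fin.last r) then 1 else -1) = u (Fin.last r) := by
        cases h : ε (Fin.last r)
        · rw [bottℓ_false_last]; simp
        · rw [bottℓ_true]; simp
      rw [← mul_assoc, hlast]
      cases h : ε i.castSucc
      · rw [bottℓ_false_castSucc]
        simp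
        ring
      · rw [bottℓ_true]; simp

lemma bott_ℓ_true (r : ℕ) (c : Fin r → ℤ) (k : Fin (r + 1)) (u : Fin (r + 1) → ℤ) :
    (bott r c).ℓ k true u = u k := bottℓ_true r c k u

lemma bott_ℓ_false_castSucc (r : ℕ) (c : Fin r → ℤ) (k : Fin r) (u : Fin (r + 1) → ℤ) :
    (bott r c).ℓ k.castSucc false u = - u k.castSucc + c k * u (Fin.last r) :=
  bottℓ_false_castSucc r c k u

lemma bott_ℓ_false_last (r : ℕ) (c : Fin r → ℤ) (u : Fin (r + 1) → ℤ) :
    (bott r c).ℓ (Fin.last r) false u = - u (Fin.last r) := bottℓ_false_last r c u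

/-- the separating exponent in one coordinate, for given values of the sign vectors and given
value `s` of `c` times the last coordinate -/
def sepm (a b : Option Bool) (s : ℤ) : ℤ :=
  match a, b with
  | some true, some true => 0
  | some false, some false => s
  | some true, _ => 1 + |s|
  | some false, _ => -1 - |s|
  | none, some true => 0
  | none, some false => s
  | none, none => 0

lemma sepm_spec (a b : Option Bool) (s : ℤ) :
    (a = some true → b = some true → sepm a b s = 0) ∧
    (a = some true → b ≠ some true → 0 < sepm a b s) ∧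
    (b = some true → a ≠ some true → sepm a b s ≤ 0) ∧
    (a = some false → b = some false → - sepm a b s + s = 0) ∧
    (a = some false → b ≠ some false → 0 < - sepm a b s + s) ∧
    (b = some false → a ≠ some false → - sepm a b s + s ≤ 0) := by
  have h1 := neg_abs_le s
  have h2 := le_abs_self s
  have h3 := abs_nonneg s
  rcases a with _ | (_ | _) <;> rcases b with _ | (_ | _) <;> simp [sepm] <;> omega

theorem bott_complete (r : ℕ) (c : Fin r → ℤ) : (bott r c).Complete where
  sep := by
    intro i j
    set s : ℤ := sepm (i (Fin.last r)) (j (Fin.last r)) 0 with hs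
    refine ⟨Fin.snoc (α := fun _ => ℤ)
      (fun k : Fin r => sepm (i k.castSucc) (j k.castSucc) (c k * s)) s, ?_⟩
    intro k b
    refine Fin.lastCases ?_ (fun k => ?_) k
    · obtain ⟨h1, h2, h3, h4, h5, h6⟩ := sepm_spec (i (Fin.last r)) (j (Fin.last r)) 0
      rw [← hs] at h1 h2 h3 h4 h5 h6
      cases b
      · rw [bott_ℓ_false_last, Fin.snoc_last]
        simp only [add_zero] at h4 h5 h6
        exact ⟨h4, h5, h6⟩
      · rw [bott_ℓ_true, Fin.snoc_last]
        exact ⟨h1, h2, h3⟩
    · obtain ⟨h1, h2, h3, h4, h5, h6⟩ := sepm_spec (i k.castSucc) (j k.castSucc) (c k * s)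
      cases b
      · rw [bott_ℓ_false_castSucc, Fin.snoc_last, Fin.snoc_castSucc]
        exact ⟨h4, h5, h6⟩
      · rw [bott_ℓ_true, Fin.snoc_castSucc]
        exact ⟨h1, h2, h3⟩
  w_dep := by
    intro ε ε' j h
    change bottw r c ε j = bottw r c ε' j
    unfold bottw
    rw [h j le_rfl]
    by_cases hj : j = Fin.last r
    · have h' : ∀ k : Fin r, ε k.castSucc = ε' k.castSucc := fun k =>
        h _ (by rw [hj]; exact Fin.le_last _)
      simp only [h']
    · rw [if_neg hj, if_neg hj]
  w_flip := by
    intro ε j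
    change bottw r c (Function.update ε j (!ε j)) j = - bottw r c ε j
    unfold bottw
    rw [Function.update_self]
    have h1 : (if (!ε j) = true then 1 else -1 : ℤ) = - (if ε j = true then 1 else -1) := by
      cases ε j <;> simp
    rw [h1, neg_smul]
    congr 2
    by_cases hj : j = Fin.last r
    · subst hj
      simp only [if_true]
      congr 1
      refine Finset.sum_congr rfl fun k _ => ?_
      rw [Function.update_of_ne (Fin.castSucc_lt_last k).ne]
    · rw [if_neg hj, if_neg hj]

/-- the Fano condition -/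
theorem bott_fano (r : ℕ) (c : Fin r → ℤ) (hc : ∀ k, |c k| ≤ 1) (ε : Fin (r + 1) → Bool)
    (k : Fin (r + 1)) : 0 ≤ (bott r c).ℓ k (!ε k) (- ∑ j, (bott r c).w ε j) := by
  have hlast : (∑ j, (bott r c).w ε j) (Fin.last r) = if ε (Fin.last r) then 1 else -1 := by
    rw [Finset.sum_apply, Fin.sum_univ_castSucc]
    change ∑ j : Fin r, bottw r c ε j.castSucc (Fin.last r) + bottw r c ε (Fin.last r) (Fin.last r)
      = _
    simp only [bottw_castSucc_last, bottw_last_last, Finset.sum_const_zero, zero_add]
  have hcs : ∀ i : Fin r, (∑ j, (bott r c).w ε j) i.castSucc = (if ε i.castSucc then 1 else -1)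
      + (if ε (Fin.last r) then 1 else -1) * (if ε i.castSucc then 0 else c i) := by
    intro i
    rw [Finset.sum_apply, Fin.sum_univ_castSucc]
    change ∑ j : Fin r, bottw r c ε j.castSucc i.castSucc + bottw r c ε (Fin.last r) i.castSucc = _
    simp only [bottw_castSucc_castSucc]
    rw [Finset.sum_ite_eq' Finset.univ i, if_pos (Finset.mem_univ _), bottw_last_castSucc]
  refine Fin.lastCases ?_ (fun k => ?_) k
  · cases h : ε (Fin.last r)
    · simp only [Bool.not_false]
      rw [bott_ℓ_true, Pi.neg_apply, hlast, h]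
      simp
    · simp only [Bool.not_true]
      rw [bott_ℓ_false_last, Pi.neg_apply, hlast, h]
      simp
  · have h1 := abs_le.1 (hc k)
    cases h : ε k.castSucc
    · simp only [Bool.not_false]
      rw [bott_ℓ_true, Pi.neg_apply, hcs, h]
      cases h' : ε (Fin.last r) <;> simp <;> omega
    · simp only [Bool.not_true]
      rw [bott_ℓ_false_castSucc, Pi.neg_apply, Pi.neg_apply, hcs, hlast, h]
      cases h' : ε (Fin.last r) <;> simp <;> omega

theorem bott_w_true (r : ℕ) (c : Fin r → ℤ) (k : Fin (r + 1)) :
    (bott r c).w (fun _ => true) k = Pi.single k 1 := by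
  change bottw r c (fun _ => true) k = Pi.single k 1
  simp [bottw]

end Pool.Agent.H23
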