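import Pool.Agent.H23.ModAtlas
import Pool.Agent.H23.ModT6

/-!
# The projection of `P(O + O(c))` over `(P¹)^(r+1)` to the first factor

Smoothness of the projection, and toric atlases of its fibres: the fibre over a point of the line
with coordinate `y0` is obtained by evaluating the coordinate of the base at `y0`.
-/

open AlgebraicGeometry CategoryTheory

noncomputable section

namespace Pool.Agent.H23

open TData

lemma mvPoly_stdSmooth (R : Type) [CommRing R] (n : ℕ) :
    Algebra.IsStandardSmoothOfRelativeDimension n R (MvPolynomial (Fin n) R) := by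
  let v : Empty → MvPolynomial (Fin n) R := Empty.elim
  let P0 := Algebra.PreSubmersivePresentation.naive (v := v) (a := Empty.elim)
    (ha := fun x => x.elim)
  let P : Algebra.SubmersivePresentation R
      (MvPolynomial (Fin n) R ⧸ (Ideal.span <| Set.range v)) (Fin n) Empty :=
    { P0 with
      jacobian_isUnit := by
        rw [Algebra.PreSubmersivePresentation.jacobian_eq_jacobiMatrix_det]
        simp }
  have hP : P.dimension = n := by
    simp [Algebra.Presentation.dimension]
  have h1 := P.isStandardSmoothOfRelativeDimension hP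
  have hbot : Ideal.span (Set.range v) = ⊥ := by
    rw [Set.range_eq_empty]; simp
  let e : (MvPolynomial (Fin n) R ⧸ (Ideal.span <| Set.range v)) ≃ₐ[R] MvPolynomial (Fin n) R :=
    (Ideal.quotientEquivAlgOfEq R hbot).trans (AlgEquiv.quotientBot R _)
  exact Algebra.IsStandardSmoothOfRelativeDimension.of_algEquiv n e

lemma C_stdSmooth (R : Type) [CommRing R] (n : ℕ) :
    RingHom.IsStandardSmoothOfRelativeDimension n (MvPolynomial.C : R →+* MvPolynomial (Fin n) R) := by
  have h := mvPoly_stdSmooth R n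
  have h2 : (MvPolynomial.C : R →+* MvPolynomial (Fin n) R) = algebraMap R _ := rfl
  rw [h2]
  exact (RingHom.isStandardSmoothOfRelativeDimension_algebraMap n).2 h




/-! ### Functionals and coordinates -/

lemma snoc_zero_castB (r : ℕ) (c : Fin (r + 1) → ℤ) :
    (Fin.snoc (α := fun _ => ℤ) c 0 : Fin (r + 2) → ℤ) 0 = c 0 := by
  have h : (0 : Fin (r + 2)) = Fin.castSucc 0 := rfl
  rw [h, Fin.snoc_castSucc]

lemma snoc_succB (r : ℕ) (c : Fin (r + 1) → ℤ) (k : Fin (r + 1)) :
    (Fin.snoc (α := fun _ => ℤ) c 0 : Fin (r + 2) → ℤ) k.succ =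
      (Fin.snoc (α := fun _ => ℤ) (c ∘ Fin.succ) 0 : Fin (r + 1) → ℤ) k := by
  refine Fin.lastCases ?_ (fun j => ?_) k
  · rw [Fin.succ_last, Fin.snoc_last, Fin.snoc_last]
  · rw [Fin.succ_castSucc, Fin.snoc_castSucc, Fin.snoc_castSucc]
    rfl

lemma bott_ℓ_apply (r : ℕ) (c : Fin r → ℤ) (k : Fin (r + 1)) (b : Bool) (u : Fin (r + 1) → ℤ) :
    (bott r c).ℓ k b u = (if b then u k else - u k) +
      (if b then 0 else (Fin.snoc (α := fun _ => ℤ) c 0 : Fin (r + 1) → ℤ) k * u (Fin.last r)) := rfl

lemma bott_ℓ_zero (r : ℕ) (c : Fin (r + 1) → ℤ) (b : Bool) (u : Fin (r + 2) → ℤ) :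
    (bott (r + 1) c).ℓ 0 b u = if b then u 0 else - u 0 + c 0 * u (Fin.last (r + 1)) := by
  rw [bott_ℓ_apply, snoc_zero_castB]
  cases b <;> simp

lemma bott_ℓ_succ (r : ℕ) (c : Fin (r + 1) → ℤ) (k : Fin (r + 1)) (b : Bool)
    (u : Fin (r + 2) → ℤ) :
    (bott (r + 1) c).ℓ k.succ b u = (bott r (c ∘ Fin.succ)).ℓ k b (fun j => u j.succ) := by
  rw [bott_ℓ_apply, bott_ℓ_apply, snoc_succB, Fin.succ_last]

lemma bott_ℓ_P1 (k : Fin 1) (b : Bool) (u : Fin 1 → ℤ) :
    (bott 0 Fin.elim0).ℓ k b u = if b then u 0 else - u 0 := by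
  have hk : k = 0 := Subsingleton.elim _ _
  subst hk
  rw [bott_ℓ_apply]
  have h : (Fin.snoc (α := fun _ => ℤ) (Fin.elim0 : Fin 0 → ℤ) 0 : Fin 1 → ℤ) 0 = 0 := by
    have h' : (0 : Fin 1) = Fin.last 0 := rfl
    rw [h', Fin.snoc_last]
  rw [h]
  cases b <;> simp

/-- the sign of a chart of the line -/
def sgB (b : Bool) : ℤ := if b then 1 else -1

lemma bott_w_zero (r : ℕ) (c : Fin (r + 1) → ℤ) (ε : Fin (r + 2) → Bool) :
    (bott (r + 1) c).w ε 0 = Pi.single 0 (sgB (ε 0)) := by
  change bottw (r + 1) c ε 0 = _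
  unfold bottw
  have h : (0 : Fin (r + 2)) ≠ Fin.last (r + 1) := by
    intro h
    have := congrArg Fin.val h
    simp at this
  rw [if_neg h, add_zero, sgB]
  funext j
  by_cases hj : j = 0
  · subst hj; simp
  · simp [hj]

lemma bott_w_P1 (ε : Fin 1 → Bool) (k : Fin 1) :
    (bott 0 Fin.elim0).w ε k = Pi.single 0 (sgB (ε 0)) := by
  have hk : k = 0 := Subsingleton.elim (α := Fin 1) _ _
  subst hk
  change bottw 0 Fin.elim0 ε 0 = _
  unfold bottw
  rw [sgB]
  funext j
  have hj : j = 0 := Subsingleton.elim (α := Fin 1) _ _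
  subst hj
  simp

/-- The cone of a chart over a chart of the line. -/
lemma mem_cone_cons (r : ℕ) (c : Fin (r + 1) → ℤ) (o : Option Bool)
    (i' : Fin (r + 1) → Option Bool) (u : Fin (r + 2) → ℤ) :
    u ∈ (bott (r + 1) c).cone (Fin.cons o i') ↔
      (∀ b, o = some b → 0 ≤ (bott (r + 1) c).ℓ 0 b u) ∧
      (fun j => u (Fin.succ j)) ∈ (bott r (c ∘ Fin.succ)).cone i' := by
  rw [mem_cone, mem_cone]
  constructor
  · intro h
    refine ⟨fun b hb => h 0 b (by simpa using hb), fun k b hb => ?_⟩
    have := h k.succ b (by simpa using hb)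
    rwa [bott_ℓ_succ] at this
  · rintro ⟨h1, h2⟩ k b
    refine Fin.cases (fun hb => ?_) (fun k' hb => ?_) k
    · exact h1 b (by simpa using hb)
    · rw [bott_ℓ_succ]
      exact h2 k' b (by simpa using hb)

/-! ### Homomorphisms from the coordinate ring of a chart -/

/-- the algebra of a monoid of exponents is a monoid algebra -/
def suppAlgEquiv {n : ℕ} (S : AddSubmonoid (Fin n → ℤ)) :
    AddMonoidAlgebra ℂ S ≃ₐ[ℂ] suppAlg S := by
  let F : AddMonoidAlgebra ℂ S →ₐ[ℂ] LP n := AddMonoidAlgebra.mapDomainAlgHom ℂ ℂ S.subtype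
  have hF : Function.Injective F := AddMonoidAlgebra.mapDomain_injective Subtype.val_injective
  have hmono : ∀ u : S, F (AddMonoidAlgebra.single u 1) = mono u.1 := by
    intro u
    change AddMonoidAlgebra.mapDomain _ _ = _
    rw [AddMonoidAlgebra.mapDomain_single]
    rfl
  have hr : F.range = suppAlg S := by
    apply le_antisymm
    · rintro _ ⟨f, rfl⟩
      change F f ∈ suppAlg S
      induction f using AddMonoidAlgebra.induction_on with
      | of u =>
        rw [AddMonoidAlgebra.of_apply]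
        have h2 := hmono u
        change F (AddMonoidAlgebra.single u 1) ∈ _
        rw [h2]
        exact mono_mem_suppAlg.2 u.2
      | add f g hf hg =>
        rw [map_add]
        exact add_mem hf hg
      | smul c f hf =>
        rw [map_smul]
        exact Subalgebra.smul_mem _ hf c
    · intro f hf
      rw [sum_mono f]
      refine sum_mem fun u hu => ?_
      refine Subalgebra.smul_mem _ ?_ _
      exact ⟨_, hmono ⟨u, hf u (Finsupp.mem_support_iff.1 hu)⟩⟩
  exact (AlgEquiv.ofInjective F hF).trans (Subalgebra.equivOfEq _ _ hr)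




lemma suppAlgEquiv_single {n : ℕ} (S : AddSubmonoid (Fin n → ℤ)) (u : S) :
    suppAlgEquiv S (AddMonoidAlgebra.single u 1) = ⟨mono u.1, mono_mem_suppAlg.2 u.2⟩ := by
  apply Subtype.ext
  change AddMonoidAlgebra.mapDomain _ _ = _
  rw [AddMonoidAlgebra.mapDomain_single]
  rfl

/-- homomorphisms from the algebra of a monoid of exponents -/
def suppLift {n : ℕ} (S : AddSubmonoid (Fin n → ℤ)) {B : Type} [CommRing B] [Algebra ℂ B]
    (φ : Multiplicative S →* B) : suppAlg S →ₐ[ℂ] B :=
  (AddMonoidAlgebra.lift ℂ B S φ).comp (suppAlgEquiv S).symm.toAlgHom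

lemma suppLift_mono {n : ℕ} (S : AddSubmonoid (Fin n → ℤ)) {B : Type} [CommRing B] [Algebra ℂ B]
    (φ : Multiplicative S →* B) (u : Fin n → ℤ) (hu : u ∈ S) :
    suppLift S φ ⟨mono u, mono_mem_suppAlg.2 hu⟩ = φ (Multiplicative.ofAdd ⟨u, hu⟩) := by
  have h1 : (suppAlgEquiv S).symm ⟨mono u, mono_mem_suppAlg.2 hu⟩ =
      AddMonoidAlgebra.single ⟨u, hu⟩ 1 := by
    rw [AlgEquiv.symm_apply_eq, suppAlgEquiv_single]
  change AddMonoidAlgebra.lift ℂ B S φ ((suppAlgEquiv S).symm _) = _
  rw [h1, AddMonoidAlgebra.lift_single, one_smul]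

/-- homomorphisms agree when they agree on constants and monomials -/
lemma suppAlg_ringHom_ext {n : ℕ} {S : AddSubmonoid (Fin n → ℤ)} {B : Type} [CommRing B]
    {f g : suppAlg S →+* B} (hc : ∀ c : ℂ, f (algebraMap ℂ _ c) = g (algebraMap ℂ _ c))
    (hm : ∀ u (hu : u ∈ S), f ⟨mono u, mono_mem_suppAlg.2 hu⟩ = g ⟨mono u, mono_mem_suppAlg.2 hu⟩) :
    f = g := by
  ext x
  refine suppAlg_induction (P := fun x => f x = g x) ?_ ?_ ?_ ?_ x
  · intro a b ha hb
    rw [map_add, map_add, ha, hb]
  · intro c a ha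
    rw [Algebra.smul_def, map_mul, map_mul, ha, hc]
  · rw [map_zero, map_zero]
  · exact hm

section chart

variable (r : ℕ) (c : Fin (r + 1) → ℤ) (b : Bool) (i' : Fin (r + 1) → Option Bool)

/-- the chart of the total space over a chart of the base -/
abbrev overB : Fin (r + 2) → Option Bool := Fin.cons (some b) i'

/-- the exponents constant along the base -/
def liftExp : (Fin (r + 1) → ℤ) →+ (Fin (r + 2) → ℤ) where
  toFun v := Fin.cons (if b then 0 else c 0 * v (Fin.last r)) v
  map_zero' := by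
    funext k
    refine Fin.cases ?_ (fun _ => ?_) k
    · rw [Fin.cons_zero]; cases b <;> simp
    · rw [Fin.cons_succ]; simp
  map_add' u v := by
    funext k
    refine Fin.cases ?_ (fun _ => ?_) k
    · change (if b = true then 0 else c 0 * (u (Fin.last r) + v (Fin.last r))) =
        (if b = true then 0 else c 0 * u (Fin.last r)) +
          (if b = true then 0 else c 0 * v (Fin.last r))
      cases b <;> simp [mul_add]
    · rw [Fin.cons_succ, Pi.add_apply, Pi.add_apply, Fin.cons_succ, Fin.cons_succ]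

lemma liftExp_succ (v : Fin (r + 1) → ℤ) : (fun j => liftExp r c b v (Fin.succ j)) = v := by
  funext k
  rfl

lemma ℓ_liftExp (v : Fin (r + 1) → ℤ) : (bott (r + 1) c).ℓ 0 b (liftExp r c b v) = 0 := by
  rw [bott_ℓ_zero]
  have h1 : liftExp r c b v 0 = if b then 0 else c 0 * v (Fin.last r) := rfl
  have h2 : liftExp r c b v (Fin.last (r + 1)) = v (Fin.last r) := by
    rw [← Fin.succ_last]; rfl
  rw [h1, h2]
  cases b <;> simp

lemma liftExp_mem {v : Fin (r + 1) → ℤ} (hv : v ∈ (bott r (c ∘ Fin.succ)).cone i') :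
    liftExp r c b v ∈ (bott (r + 1) c).cone (overB r b i') := by
  rw [mem_cone_cons]
  refine ⟨fun b' hb' => ?_, ?_⟩
  · have : b = b' := by simpa using hb'
    subst this
    rw [ℓ_liftExp]
  · rw [liftExp_succ]; exact hv

lemma tail_mem {u : Fin (r + 2) → ℤ} (hu : u ∈ (bott (r + 1) c).cone (overB r b i')) :
    (fun j => u (Fin.succ j)) ∈ (bott r (c ∘ Fin.succ)).cone i' :=
  ((mem_cone_cons r c _ i' u).1 hu).2

lemma ℓ_nonneg {u : Fin (r + 2) → ℤ} (hu : u ∈ (bott (r + 1) c).cone (overB r b i')) :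
    0 ≤ (bott (r + 1) c).ℓ 0 b u := ((mem_cone_cons r c _ i' u).1 hu).1 b rfl

/-- the exponent of the coordinate of the base -/
def tExp : Fin (r + 2) → ℤ := Pi.single 0 (sgB b)

lemma ℓ_tExp : (bott (r + 1) c).ℓ 0 b (tExp r b) = 1 := by
  rw [bott_ℓ_zero]
  have h : (Fin.last (r + 1)) ≠ 0 := by
    intro h
    have := congrArg Fin.val h
    simp at this
  simp only [tExp, Pi.single_eq_same, Pi.single_eq_of_ne h, sgB]
  cases b <;> simp

lemma tExp_tail : (fun j => tExp r b (Fin.succ j)) = 0 := by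
  funext k
  simp [tExp]

lemma tExp_mem : tExp r b ∈ (bott (r + 1) c).cone (overB r b i') := by
  rw [mem_cone_cons]
  refine ⟨fun b' hb' => ?_, ?_⟩
  · have : b = b' := by simpa using hb'
    subst this
    rw [ℓ_tExp]; norm_num
  · rw [tExp_tail]; exact zero_mem _

lemma exp_eq (u : Fin (r + 2) → ℤ) :
    u = (bott (r + 1) c).ℓ 0 b u • tExp r b + liftExp r c b (fun j => u j.succ) := by
  funext k
  refine Fin.cases ?_ (fun k' => ?_) k
  · rw [Pi.add_apply, Pi.smul_apply]
    have h1 : liftExp r c b (fun j => u (Fin.succ j)) 0 =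
        if b then 0 else c 0 * u (Fin.last r).succ := rfl
    rw [h1, bott_ℓ_zero, tExp, Pi.single_eq_same, sgB, Fin.succ_last]
    cases b <;> simp
  · rw [Pi.add_apply, Pi.smul_apply]
    have h1 : liftExp r c b (fun j => u (Fin.succ j)) k'.succ = u k'.succ := rfl
    rw [h1, tExp, Pi.single_eq_of_ne (Fin.succ_ne_zero k')]
    simp

/-- evaluation at the point with coordinate `y0` -/
def evB (y0 : ℂ) : (bott (r + 1) c).A (overB r b i') →ₐ[ℂ] (bott r (c ∘ Fin.succ)).A i' :=
  suppLift _
    { toFun := fun u => algebraMap ℂ _ (y0 ^ ((bott (r + 1) c).ℓ 0 b u.toAdd.1).toNat) *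
        ⟨mono (fun j => u.toAdd.1 (Fin.succ j)), mono_mem_suppAlg.2 (tail_mem r c b i' u.toAdd.2)⟩
      map_one' := by
        have h1 : (bott (r + 1) c).ℓ 0 b (0 : Fin (r + 2) → ℤ) = 0 := map_zero _
        apply Subtype.ext
        change algebraMap ℂ _ (y0 ^ ((bott (r + 1) c).ℓ 0 b (0 : Fin (r + 2) → ℤ)).toNat) *
          mono (fun j => (0 : Fin (r + 2) → ℤ) (Fin.succ j)) = 1
        rw [h1]
        have h2 : mono (fun j : Fin (r + 1) => (0 : Fin (r + 2) → ℤ) (Fin.succ j)) = 1 := mono_zero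
        rw [h2, Int.toNat_zero, pow_zero, map_one, mul_one]
      map_mul' := by
        intro u v
        apply Subtype.ext
        have hu := ℓ_nonneg r c b i' u.toAdd.2
        have hv := ℓ_nonneg r c b i' v.toAdd.2
        have h1 : ((bott (r + 1) c).ℓ 0 b (u.toAdd.1 + v.toAdd.1)).toNat =
            ((bott (r + 1) c).ℓ 0 b u.toAdd.1).toNat + ((bott (r + 1) c).ℓ 0 b v.toAdd.1).toNat := by
          rw [map_add, Int.toNat_add hu hv]
        change algebraMap ℂ _ (y0 ^ ((bott (r + 1) c).ℓ 0 b (u.toAdd.1 + v.toAdd.1)).toNat) *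
          mono (fun j => (u.toAdd.1 + v.toAdd.1) (Fin.succ j)) =
          (algebraMap ℂ _ (y0 ^ ((bott (r + 1) c).ℓ 0 b u.toAdd.1).toNat) *
            mono (fun j => u.toAdd.1 (Fin.succ j))) *
          (algebraMap ℂ _ (y0 ^ ((bott (r + 1) c).ℓ 0 b v.toAdd.1).toNat) *
            mono (fun j => v.toAdd.1 (Fin.succ j)))
        have h2 : mono (fun j : Fin (r + 1) => (u.toAdd.1 + v.toAdd.1) (Fin.succ j)) =
            mono (fun j => u.toAdd.1 (Fin.succ j)) * mono (fun j => v.toAdd.1 (Fin.succ j)) :=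
          mono_add _ _
        rw [h1, h2, pow_add, map_mul]
        ring }

lemma evB_mono (y0 : ℂ) {u : Fin (r + 2) → ℤ} (hu : u ∈ (bott (r + 1) c).cone (overB r b i')) :
    evB r c b i' y0 ⟨mono u, mono_mem_suppAlg.2 hu⟩ =
      algebraMap ℂ _ (y0 ^ ((bott (r + 1) c).ℓ 0 b u).toNat) *
        ⟨mono (fun j => u (Fin.succ j)), mono_mem_suppAlg.2 (tail_mem r c b i' hu)⟩ :=
  suppLift_mono _ _ u hu

/-- the section of evaluation -/
def secB : (bott r (c ∘ Fin.succ)).A i' →ₐ[ℂ] (bott (r + 1) c).A (overB r b i') :=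
  suppLift _
    { toFun := fun v => ⟨mono (liftExp r c b v.toAdd.1),
        mono_mem_suppAlg.2 (liftExp_mem r c b i' v.toAdd.2)⟩
      map_one' := by
        apply Subtype.ext
        change mono (liftExp r c b (0 : Fin (r + 1) → ℤ)) = 1
        rw [map_zero, mono_zero]
      map_mul' := by
        intro u v
        apply Subtype.ext
        change mono (liftExp r c b (u.toAdd.1 + v.toAdd.1)) =
          mono (liftExp r c b u.toAdd.1) * mono (liftExp r c b v.toAdd.1)
        rw [map_add, mono_add] }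

lemma secB_mono {v : Fin (r + 1) → ℤ} (hv : v ∈ (bott r (c ∘ Fin.succ)).cone i') :
    secB r c b i' ⟨mono v, mono_mem_suppAlg.2 hv⟩ =
      ⟨mono (liftExp r c b v), mono_mem_suppAlg.2 (liftExp_mem r c b i' hv)⟩ :=
  suppLift_mono _ _ v hv

/-- the coordinate of the base -/
def tB : (bott (r + 1) c).A (overB r b i') := ⟨mono (tExp r b), mono_mem_suppAlg.2 (tExp_mem r c b i')⟩

lemma mono_eq_tB {u : Fin (r + 2) → ℤ} (hu : u ∈ (bott (r + 1) c).cone (overB r b i')) :
    (⟨mono u, mono_mem_suppAlg.2 hu⟩ : (bott (r + 1) c).A (overB r b i')) =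
      tB r c b i' ^ ((bott (r + 1) c).ℓ 0 b u).toNat *
        secB r c b i' ⟨mono (fun j => u (Fin.succ j)), mono_mem_suppAlg.2 (tail_mem r c b i' hu)⟩ := by
  rw [secB_mono _ _ _ _ (tail_mem r c b i' hu)]
  apply Subtype.ext
  change mono u = mono (tExp r b) ^ ((bott (r + 1) c).ℓ 0 b u).toNat *
    mono (liftExp r c b (fun j => u (Fin.succ j)))
  rw [← mono_nsmul, ← mono_add]
  congr 1
  have h := ℓ_nonneg r c b i' hu
  rw [← natCast_zsmul, Int.toNat_of_nonneg h]
  exact exp_eq r c b u

lemma evB_secB (y0 : ℂ) (g : (bott r (c ∘ Fin.succ)).A i') : evB r c b i' y0 (secB r c b i' g) = g := by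
  have h : ((evB r c b i' y0).comp (secB r c b i')).toRingHom = RingHom.id _ := by
    apply suppAlg_ringHom_ext
    · intro a
      change evB r c b i' y0 (secB r c b i' (algebraMap ℂ _ a)) = algebraMap ℂ _ a
      rw [AlgHom.commutes, AlgHom.commutes]
    · intro v hv
      change evB r c b i' y0 (secB r c b i' _) = _
      rw [secB_mono _ _ _ _ hv, evB_mono _ _ _ _ _ (liftExp_mem r c b i' hv)]
      apply Subtype.ext
      change algebraMap ℂ _ (y0 ^ ((bott (r + 1) c).ℓ 0 b (liftExp r c b v)).toNat) *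
        mono (fun j => liftExp r c b v (Fin.succ j)) = mono v
      rw [ℓ_liftExp, liftExp_succ, Int.toNat_zero, pow_zero, map_one, one_mul]
  exact RingHom.congr_fun h g

end chart




/-! ### The map of charts to the line -/

/-- Laurent polynomials in the first coordinate -/
def firstHom (n : ℕ) : LP 1 →ₐ[ℂ] LP (n + 1) :=
  AddMonoidAlgebra.mapDomainAlgHom ℂ ℂ
    ({ toFun := fun u => Pi.single 0 (u 0)
       map_zero' := by simp
       map_add' := by intro u v; simp [Pi.single_add] } : (Fin 1 → ℤ) →+ (Fin (n + 1) → ℤ))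

lemma firstHom_mono (n : ℕ) (v : Fin 1 → ℤ) : firstHom n (mono v) = mono (Pi.single 0 (v 0)) := by
  change AddMonoidAlgebra.mapDomain _ (AddMonoidAlgebra.single v 1) = _
  rw [AddMonoidAlgebra.mapDomain_single]
  rfl

lemma single_mem_cone (r : ℕ) (c : Fin (r + 1) → ℤ) (i : Fin (r + 2) → Option Bool)
    {v : Fin 1 → ℤ} (hv : v ∈ (bott 0 Fin.elim0).cone (fun _ => i 0)) :
    (Pi.single 0 (v 0) : Fin (r + 2) → ℤ) ∈ (bott (r + 1) c).cone i := by
  have hlast : (Fin.last (r + 1)) ≠ 0 := by
    intro h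
    have := congrArg Fin.val h
    simp at this
  intro k b
  refine Fin.cases (fun hb => ?_) (fun k' _ => ?_) k
  · have h1 := hv 0 b hb
    rw [bott_ℓ_P1] at h1
    rw [bott_ℓ_zero, Pi.single_eq_same, Pi.single_eq_of_ne hlast]
    simpa using h1
  · rw [bott_ℓ_succ]
    have h1 : (fun j : Fin (r + 1) => (Pi.single 0 (v 0) : Fin (r + 2) → ℤ) j.succ) = 0 := by
      funext j
      simp
    rw [h1, map_zero]

lemma firstHom_mem (r : ℕ) (c : Fin (r + 1) → ℤ) (i : Fin (r + 2) → Option Bool) (f : LP 1)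
    (hf : f ∈ (bott 0 Fin.elim0).A (fun _ => i 0)) : firstHom (r + 1) f ∈ (bott (r + 1) c).A i := by
  rw [sum_mono f, map_sum]
  refine sum_mem fun v hv => ?_
  rw [map_smul, firstHom_mono]
  refine Subalgebra.smul_mem _ ?_ _
  exact mono_mem_suppAlg.2 (single_mem_cone r c i (hf v (Finsupp.mem_support_iff.1 hv)))

/-- the coordinate ring of a chart of the base maps to that of a chart of the total space -/
def firstMap (r : ℕ) (c : Fin (r + 1) → ℤ) (i : Fin (r + 2) → Option Bool) :
    (bott 0 Fin.elim0).A (fun _ => i 0) →+* (bott (r + 1) c).A i :=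
  ((firstHom (r + 1)).toRingHom.comp ((bott 0 Fin.elim0).A (fun _ => i 0)).val.toRingHom).codRestrict
    ((bott (r + 1) c).A i) (fun f => firstHom_mem r c i f f.2)

lemma firstMap_algebraMap (r : ℕ) (c : Fin (r + 1) → ℤ) (i : Fin (r + 2) → Option Bool) (a : ℂ) :
    firstMap r c i (algebraMap ℂ _ a) = algebraMap ℂ _ a := by
  apply Subtype.ext
  change firstHom (r + 1) (algebraMap ℂ (LP 1) a) = algebraMap ℂ _ a
  rw [AlgHom.commutes]

lemma firstMap_mono (r : ℕ) (c : Fin (r + 1) → ℤ) (i : Fin (r + 2) → Option Bool)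
    {v : Fin 1 → ℤ} (hv : v ∈ (bott 0 Fin.elim0).cone (fun _ => i 0)) :
    firstMap r c i ⟨mono v, mono_mem_suppAlg.2 hv⟩ =
      ⟨mono (Pi.single 0 (v 0)), mono_mem_suppAlg.2 (single_mem_cone r c i hv)⟩ := by
  apply Subtype.ext
  change firstHom (r + 1) (mono v) = _
  rw [firstHom_mono]

/-- the coordinate of a chart of the line -/
lemma yB_mem (b : Bool) : (Pi.single 0 (sgB b) : Fin 1 → ℤ) ∈ (bott 0 Fin.elim0).cone (fun _ => some b) := by
  intro k b' hb'
  have : b = b' := by simpa using hb'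
  subst this
  rw [bott_ℓ_P1, Pi.single_eq_same, sgB]
  cases b <;> simp

/-- the coordinate of a chart of the line -/
def yB (b : Bool) : (bott 0 Fin.elim0).A (fun _ => some b) :=
  ⟨mono (Pi.single 0 (sgB b)), mono_mem_suppAlg.2 (yB_mem b)⟩

lemma P1_mono (b : Bool) {v : Fin 1 → ℤ} (hv : v ∈ (bott 0 Fin.elim0).cone (fun _ => some b)) :
    (⟨mono v, mono_mem_suppAlg.2 hv⟩ : (bott 0 Fin.elim0).A (fun _ => some b)) =
      yB b ^ ((bott 0 Fin.elim0).ℓ 0 b v).toNat := by
  apply Subtype.ext
  change mono v = mono (Pi.single 0 (sgB b)) ^ ((bott 0 Fin.elim0).ℓ 0 b v).toNat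
  rw [← mono_nsmul]
  congr 1
  have h := hv 0 b rfl
  rw [← natCast_zsmul, Int.toNat_of_nonneg h, bott_ℓ_P1]
  funext k
  have hk : k = 0 := Subsingleton.elim (α := Fin 1) _ _
  subst hk
  rw [Pi.smul_apply, Pi.single_eq_same, sgB]
  cases b <;> simp

section square

variable (r : ℕ) (c : Fin (r + 1) → ℤ) (b : Bool) (i' : Fin (r + 1) → Option Bool)

/-- the coordinate ring of a chart of the base maps to that of a chart over it -/
def baseB : (bott 0 Fin.elim0).A (fun _ => some b) →+* (bott (r + 1) c).A (overB r b i') :=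
  firstMap r c (overB r b i')

lemma baseB_algebraMap (a : ℂ) : baseB r c b i' (algebraMap ℂ _ a) = algebraMap ℂ _ a :=
  firstMap_algebraMap r c (overB r b i') a

lemma baseB_yB : baseB r c b i' (yB b) = tB r c b i' := by
  have h := firstMap_mono r c (overB r b i') (v := Pi.single 0 (sgB b)) (yB_mem b)
  refine Eq.trans h ?_
  apply Subtype.ext
  change mono _ = mono _
  congr 1

lemma evB_tB (y0 : ℂ) : evB r c b i' y0 (tB r c b i') = algebraMap ℂ _ y0 := by
  have h := evB_mono r c b i' y0 (tExp_mem r c b i')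
  refine h.trans ?_
  apply Subtype.ext
  change algebraMap ℂ _ (y0 ^ ((bott (r + 1) c).ℓ 0 b (tExp r b)).toNat) *
    mono (fun j => tExp r b (Fin.succ j)) = algebraMap ℂ _ y0
  rw [ℓ_tExp, tExp_tail, mono_zero, mul_one]
  simp

variable (φ : (bott 0 Fin.elim0).A (fun _ => some b) →+* ℂ)

lemma evB_baseB (hφ : ∀ a, φ (algebraMap ℂ _ a) = a)
    (g : (bott 0 Fin.elim0).A (fun _ => some b)) :
    evB r c b i' (φ (yB b)) (baseB r c b i' g) = algebraMap ℂ _ (φ g) := by
  have h : (evB r c b i' (φ (yB b))).toRingHom.comp (baseB r c b i') =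
      (algebraMap ℂ ((bott r (c ∘ Fin.succ)).A i')).comp φ := by
    apply suppAlg_ringHom_ext
    · intro a
      rw [RingHom.comp_apply, RingHom.comp_apply, hφ, baseB_algebraMap]
      exact AlgHom.commutes _ _
    · intro v hv
      rw [RingHom.comp_apply, RingHom.comp_apply, P1_mono b hv, map_pow, map_pow, map_pow, map_pow,
        baseB_yB]
      congr 1
      exact evB_tB r c b i' _
  exact RingHom.congr_fun h g

lemma isPushout_chart (hφ : ∀ a, φ (algebraMap ℂ _ a) = a) :
    IsPushout (CommRingCat.ofHom (baseB r c b i'))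
      (CommRingCat.ofHom φ)
      (CommRingCat.ofHom (evB r c b i' (φ (yB b))).toRingHom)
      (CommRingCat.ofHom (algebraMap ℂ ((bott r (c ∘ Fin.succ)).A i'))) := by
  have w : CommRingCat.ofHom (baseB r c b i') ≫
      CommRingCat.ofHom (evB r c b i' (φ (yB b))).toRingHom =
      CommRingCat.ofHom φ ≫ CommRingCat.ofHom (algebraMap ℂ ((bott r (c ∘ Fin.succ)).A i')) := by
    apply CommRingCat.hom_ext
    apply RingHom.ext
    intro g
    exact evB_baseB r c b i' φ hφ g
  refine ⟨⟨w⟩, ⟨Limits.PushoutCocone.IsColimit.mk _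
    (fun s => CommRingCat.ofHom (s.inl.hom.comp (secB r c b i').toRingHom)) ?_ ?_ ?_⟩⟩
  · intro s
    have hs : ∀ g, s.inl.hom (baseB r c b i' g) = s.inr.hom (φ g) := fun g =>
      ConcreteCategory.congr_hom s.condition g
    have hc : ∀ a : ℂ, s.inl.hom (algebraMap ℂ ((bott (r + 1) c).A (overB r b i')) a) =
        s.inr.hom a := by
      intro a
      have := hs (algebraMap ℂ _ a)
      rw [baseB_algebraMap, hφ] at this
      exact this
    have ht : s.inl.hom (tB r c b i') = s.inr.hom (φ (yB b)) := by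
      rw [← baseB_yB]
      exact hs _
    have h : (s.inl.hom.comp (secB r c b i').toRingHom).comp (evB r c b i' (φ (yB b))).toRingHom =
        s.inl.hom := by
      apply suppAlg_ringHom_ext
      · intro a
        change s.inl.hom (secB r c b i' (evB r c b i' (φ (yB b)) (algebraMap ℂ _ a))) =
          s.inl.hom (algebraMap ℂ _ a)
        rw [AlgHom.commutes, AlgHom.commutes]
      · intro u hu
        change s.inl.hom (secB r c b i' (evB r c b i' (φ (yB b)) ⟨mono u, _⟩)) =
          s.inl.hom ⟨mono u, _⟩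
        rw [evB_mono _ _ _ _ _ hu, mono_eq_tB r c b i' hu]
        erw [map_mul, map_mul, map_mul]
        rw [AlgHom.commutes]
        erw [hc, map_pow, map_pow, ht]
    apply CommRingCat.hom_ext
    exact h
  · intro s
    have hs : ∀ g, s.inl.hom (baseB r c b i' g) = s.inr.hom (φ g) := fun g =>
      ConcreteCategory.congr_hom s.condition g
    apply CommRingCat.hom_ext
    apply RingHom.ext
    intro a
    change s.inl.hom (secB r c b i' (algebraMap ℂ _ a)) = s.inr.hom a
    rw [AlgHom.commutes]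
    have := hs (algebraMap ℂ _ a)
    rw [baseB_algebraMap, hφ] at this
    exact this
  · intro s m hm1 _
    apply CommRingCat.hom_ext
    apply RingHom.ext
    intro g
    change m.hom g = s.inl.hom (secB r c b i' g)
    rw [← hm1]
    change m.hom g = m.hom (evB r c b i' (φ (yB b)) (secB r c b i' g))
    rw [evB_secB]

end square




/-! ### Localisation -/

/-- the exponent of a difference of charts, as an element of the coordinate ring -/
def locElt {n : ℕ} (T : TData n) (i j : Fin n → Option Bool) : T.A j :=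
  ⟨mono (T.locExp i j), mono_mem_suppAlg.2 T.locExp_mem⟩

/-- the restriction map between charts -/
def inclB {n : ℕ} (T : TData n) {i j : Fin n → Option Bool}
    (h : ∀ k b, i k = some b → j k = some b) : T.A j →+* T.A i :=
  (Subalgebra.inclusion (suppAlg_mono (T.cone_anti h))).toRingHom

lemma isLocalization_inclB {n : ℕ} (T : TData n) {i j : Fin n → Option Bool}
    (h : ∀ k b, i k = some b → j k = some b) :
    letI := (inclB T h).toAlgebra
    IsLocalization.Away (locElt T i j) (T.A i) := by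
  let _ := (inclB T h).toAlgebra
  have hinj : Function.Injective (inclB T h) := by
    intro a b hab
    have h1 : (inclB T h a).1 = (inclB T h b).1 := by rw [hab]
    exact Subtype.ext h1
  have hunit : ∀ N : ℕ, IsUnit (inclB T h (locElt T i j ^ N)) := by
    intro N
    rw [map_pow]
    apply IsUnit.pow
    refine IsUnit.of_mul_eq_one ⟨mono (- T.locExp i j), mono_mem_suppAlg.2 (T.neg_locExp_mem h)⟩ ?_
    apply Subtype.ext
    exact mono_mul_neg _
  refine ⟨?_, ?_, ?_⟩
  · rintro ⟨_, N, rfl⟩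
    exact hunit N
  · intro z
    obtain ⟨N, hN⟩ := T.exists_mul_mem h z.2
    refine ⟨(⟨z.1 * mono (T.locExp i j) ^ N, hN⟩, ⟨locElt T i j ^ N, N, rfl⟩), ?_⟩
    apply Subtype.ext
    change z.1 * (inclB T h (locElt T i j ^ N)).1 = z.1 * mono (T.locExp i j) ^ N
    congr 1
  · intro x y hxy
    refine ⟨1, ?_⟩
    have := hinj hxy
    rw [this]

lemma exists_of_not_mem {n : ℕ} (T : TData n) {i j : Fin n → Option Bool}
    (h : ∀ k b, i k = some b → j k = some b) (p : Spec (.of (T.A j)))
    (hp : locElt T i j ∉ p.asIdeal) :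
    ∃ q : Spec (.of (T.A i)), Spec.map (CommRingCat.ofHom (inclB T h)) q = p := by
  let _ := (inclB T h).toAlgebra
  have hloc := isLocalization_inclB T h
  have h1 := PrimeSpectrum.localization_away_comap_range (T.A i) (locElt T i j)
  have h2 : (p : PrimeSpectrum (T.A j)) ∈ Set.range (PrimeSpectrum.comap (algebraMap (T.A j) (T.A i))) := by
    rw [h1]
    exact hp
  obtain ⟨q, hq⟩ := h2
  exact ⟨q, hq⟩

lemma locExp_overB (r : ℕ) (c : Fin (r + 1) → ℤ) (b : Bool) (e : Fin (r + 1) → Bool) :
    (bott (r + 1) c).locExp (Fin.cons none (full e)) (overB r b (full e)) = tExp r b := by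
  rw [locExp]
  have h1 : (Finset.univ.filter fun k : Fin (r + 2) =>
      (Fin.cons none (full e) : Fin (r + 2) → Option Bool) k = none) = {0} := by
    ext k
    simp only [Finset.mem_filter, Finset.mem_univ, true_and, Finset.mem_singleton]
    refine Fin.cases ?_ (fun k' => ?_) k
    · simp
    · simp [full, Fin.succ_ne_zero]
  rw [h1, Finset.sum_singleton, bott_w_zero, tExp]
  rfl

/-! ### Pullbacks along open immersions -/

lemma isPullback_comp_monoB {X Y W P Z : Scheme.{0}} {p : P ⟶ X} {q : P ⟶ Y} {f : X ⟶ W}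
    {g : Y ⟶ W} (h : IsPullback p q f g) (i : W ⟶ Z) [Mono i] :
    IsPullback p q (f ≫ i) (g ≫ i) :=
  ⟨⟨by rw [← Category.assoc, h.w, Category.assoc]⟩,
    ⟨Limits.PullbackCone.isLimitOfCompMono f g i _ h.isLimit⟩⟩




/-! ### The charts of a fibre -/

section fibre

variable (r : ℕ) (c : Fin (r + 1) → ℤ) {X Y : Scheme.{0}}
    {sX : X ⟶ Spec (.of ℂ)} {sY : Y ⟶ Spec (.of ℂ)} (aX : TAtlas (bott (r + 1) c) X sX)
    (aY : TAtlas (bott 0 Fin.elim0) Y sY) (f : X ⟶ Y) (b : Bool)
    (hb : ∀ i' : Fin (r + 1) → Option Bool, aX.ι (overB r b i') ≫ f =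
      Spec.map (CommRingCat.ofHom (baseB r c b i')) ≫ aY.ι (fun _ => some b))
    (φ : (bott 0 Fin.elim0).A (fun _ => some b) →+* ℂ)
    (hφ : ∀ a, φ (algebraMap ℂ _ a) = a)
    (y : Spec (.of ℂ) ⟶ Y)
    (hy : Spec.map (CommRingCat.ofHom φ) ≫ aY.ι (fun _ => some b) = y)

include hb hφ hy in
lemma fib_comm (i' : Fin (r + 1) → Option Bool) :
    (Spec.map (CommRingCat.ofHom (evB r c b i' (φ (yB b))).toRingHom) ≫ aX.ι (overB r b i')) ≫ f =
      Spec.map (CommRingCat.ofHom (algebraMap ℂ ((bott r (c ∘ Fin.succ)).A i'))) ≫ y := by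
  have h1 := (isPullback_SpecMap_of_isPushout _ _ _ _ (isPushout_chart r c b i' φ hφ)).w
  rw [Category.assoc, hb, ← Category.assoc, h1, Category.assoc, hy]

/-- the charts of the fibre -/
def fibChart (i' : Fin (r + 1) → Option Bool) :
    Spec (.of ((bott r (c ∘ Fin.succ)).A i')) ⟶ Limits.pullback f y :=
  Limits.pullback.lift
    (Spec.map (CommRingCat.ofHom (evB r c b i' (φ (yB b))).toRingHom) ≫ aX.ι (overB r b i'))
    (Spec.map (CommRingCat.ofHom (algebraMap ℂ ((bott r (c ∘ Fin.succ)).A i'))))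
    (fib_comm r c aX aY f b hb φ hφ y hy i')

lemma fibChart_fst (i' : Fin (r + 1) → Option Bool) :
    fibChart r c aX aY f b hb φ hφ y hy i' ≫ Limits.pullback.fst f y =
      Spec.map (CommRingCat.ofHom (evB r c b i' (φ (yB b))).toRingHom) ≫ aX.ι (overB r b i') :=
  Limits.pullback.lift_fst _ _ _

lemma fibChart_snd (i' : Fin (r + 1) → Option Bool) :
    fibChart r c aX aY f b hb φ hφ y hy i' ≫ Limits.pullback.snd f y =
      Spec.map (CommRingCat.ofHom (algebraMap ℂ ((bott r (c ∘ Fin.succ)).A i'))) :=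
  Limits.pullback.lift_snd _ _ _

lemma fib_isPullback (i' : Fin (r + 1) → Option Bool) :
    IsPullback (fibChart r c aX aY f b hb φ hφ y hy i')
      (Spec.map (CommRingCat.ofHom (evB r c b i' (φ (yB b))).toRingHom))
      (Limits.pullback.fst f y) (aX.ι (overB r b i')) := by
  have hopen := aY.isOpen (fun _ => some b)
  have h1 := isPullback_comp_monoB (isPullback_SpecMap_of_isPushout _ _ _ _
    (isPushout_chart r c b i' φ hφ)) (aY.ι (fun _ => some b))
  rw [← hb, hy] at h1
  have h2 : IsPullback (fibChart r c aX aY f b hb φ hφ y hy i' ≫ Limits.pullback.snd f y)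
      (Spec.map (CommRingCat.ofHom (evB r c b i' (φ (yB b))).toRingHom)) y
      (aX.ι (overB r b i') ≫ f) := by
    rw [fibChart_snd]
    exact h1.flip
  exact IsPullback.of_right h2 (fibChart_fst r c aX aY f b hb φ hφ y hy i')
    (IsPullback.of_hasPullback f y).flip

lemma fib_isOpen (i' : Fin (r + 1) → Option Bool) :
    IsOpenImmersion (fibChart r c aX aY f b hb φ hφ y hy i') := by
  have hopen := aX.isOpen (overB r b i')
  exact MorphismProperty.of_isPullback (P := @IsOpenImmersion)
    (fib_isPullback r c aX aY f b hb φ hφ y hy i').flip hopen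

lemma fib_range (i' : Fin (r + 1) → Option Bool) (z : ↥(Limits.pullback f y))
    (p : Spec (.of ((bott (r + 1) c).A (overB r b i'))))
    (h : Limits.pullback.fst f y z = aX.ι (overB r b i') p) :
    ∃ w, fibChart r c aX aY f b hb φ hφ y hy i' w = z := by
  obtain ⟨z', hz', _⟩ := Scheme.Pullback.exists_preimage_pullback z p h
  refine ⟨(fib_isPullback r c aX aY f b hb φ hφ y hy i').isoPullback.inv z', ?_⟩
  rw [← Scheme.Hom.comp_apply, IsPullback.isoPullback_inv_fst]
  exact hz'

lemma noneB_le (b : Bool) (e : Fin (r + 1) → Bool) (k : Fin (r + 2)) (b' : Bool)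
    (h : (Fin.cons none (full e) : Fin (r + 2) → Option Bool) k = some b') :
    overB r b (full e) k = some b' := by
  revert h
  refine Fin.cases ?_ (fun k' => ?_) k
  · intro h
    rw [Fin.cons_zero] at h
    exact absurd h (by simp)
  · intro h
    rw [Fin.cons_succ] at h
    exact h

/-- points of the line in two different charts are in the torus -/
lemma yB_not_mem (hY : aY.Overlap) {b b' : Bool} (hbb : b' ≠ b)
    (p1 : Spec (.of ((bott 0 Fin.elim0).A (fun _ => some b'))))
    (p2 : Spec (.of ((bott 0 Fin.elim0).A (fun _ => some b))))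
    (h : aY.ι (fun _ => some b') p1 = aY.ι (fun _ => some b) p2) : yB b' ∉ p1.asIdeal := by
  obtain ⟨w, hw⟩ := hY (fun _ => some b') (fun _ => some b) p1 p2 h
  have hle : ∀ (k : Fin 1) (b'' : Bool),
      (fun k : Fin 1 => if (some b' : Option Bool) = some b then (some b' : Option Bool) else none) k =
        some b'' → (fun _ : Fin 1 => some b') k = some b'' := by
    intro k b'' hk
    dsimp only at hk
    rw [if_neg (by simpa using hbb)] at hk
    exact absurd hk (by simp)
  have h1 := aY.compat _ _ hle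
  have h2 : aY.ι (fun _ => some b') (Spec.map (CommRingCat.ofHom (inclB _ hle)) w) =
      aY.ι (fun _ => some b') p1 := by
    rw [← hw, ← Scheme.Hom.comp_apply]
    exact congrArg (fun g => g.base w) h1
  have hopen := aY.isOpen (fun _ => some b')
  have h3 : Spec.map (CommRingCat.ofHom (inclB _ hle)) w = p1 :=
    (aY.ι (fun _ => some b')).isOpenEmbedding.injective h2
  intro hmem
  rw [← h3] at hmem
  have h4 : inclB _ hle (yB b') ∈ w.asIdeal := hmem
  have h5 : IsUnit (inclB _ hle (yB b')) := by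
    refine IsUnit.of_mul_eq_one ⟨mono (- Pi.single 0 (sgB b')), mono_mem_suppAlg.2 ?_⟩ ?_
    · intro k b'' hk
      rw [if_neg (by simpa using hbb)] at hk
      exact absurd hk (by simp)
    · apply Subtype.ext
      exact mono_mul_neg _
  exact w.isPrime.ne_top (Ideal.eq_top_of_isUnit_mem _ h4 h5)

include hφ hy in
/-- a point of the fibre lies over the chart of the base -/
lemma fib_over (hball : ∀ (b : Bool) (i' : Fin (r + 1) → Option Bool), aX.ι (overB r b i') ≫ f =
      Spec.map (CommRingCat.ofHom (baseB r c b i')) ≫ aY.ι (fun _ => some b))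
    (hY : aY.Overlap) (z : ↥(Limits.pullback f y)) :
    ∃ (e : Fin (r + 1) → Bool) (p : Spec (.of ((bott (r + 1) c).A (overB r b (full e))))),
      Limits.pullback.fst f y z = aX.ι (overB r b (full e)) p := by
  obtain ⟨ε, p, hp⟩ := aX.surj (Limits.pullback.fst f y z)
  -- rewrite the chart
  obtain ⟨b', e, hε⟩ : ∃ (b' : Bool) (e : Fin (r + 1) → Bool),
      (full ε : Fin (r + 2) → Option Bool) = overB r b' (full e) := by
    refine ⟨ε 0, fun k => ε k.succ, ?_⟩
    funext k
    refine Fin.cases ?_ (fun k' => ?_) k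
    · rfl
    · rfl
  obtain ⟨p', hp'⟩ : ∃ p' : Spec (.of ((bott (r + 1) c).A (overB r b' (full e)))),
      aX.ι (overB r b' (full e)) p' = Limits.pullback.fst f y z := by
    rw [← hε]
    exact ⟨p, hp⟩
  by_cases hbb : b' = b
  · subst hbb
    exact ⟨e, p', hp'.symm⟩
  · have h1 : f (Limits.pullback.fst f y z) =
        aY.ι (fun _ => some b') (Spec.map (CommRingCat.ofHom (baseB r c b' (full e))) p') := by
      rw [← hp', ← Scheme.Hom.comp_apply, ← Scheme.Hom.comp_apply, hball b' (full e)]
    have h2 : f (Limits.pullback.fst f y z) =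
        aY.ι (fun _ => some b) (Spec.map (CommRingCat.ofHom φ) (Limits.pullback.snd f y z)) := by
      rw [← Scheme.Hom.comp_apply, ← Scheme.Hom.comp_apply, hy, Limits.pullback.condition,
        Scheme.Hom.comp_apply]
    have h3 := yB_not_mem aY hY hbb _ _ (h1.symm.trans h2)
    have h4 : locElt (bott (r + 1) c) (Fin.cons none (full e)) (overB r b' (full e)) ∉
        p'.asIdeal := by
      intro h5
      apply h3
      have h6 : locElt (bott (r + 1) c) (Fin.cons none (full e)) (overB r b' (full e)) =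
          baseB r c b' (full e) (yB b') := by
        rw [baseB_yB]
        apply Subtype.ext
        change mono _ = mono _
        rw [locExp_overB]
      rw [h6] at h5
      exact h5
    obtain ⟨q, hq⟩ := exists_of_not_mem _ (noneB_le r b' e) p' h4
    refine ⟨e, Spec.map (CommRingCat.ofHom (inclB _ (noneB_le r b e))) q, ?_⟩
    have h7 := aX.compat _ _ (noneB_le r b e)
    have h8 := aX.compat _ _ (noneB_le r b' e)
    have h9 : aX.ι (overB r b' (full e)) p' = aX.ι (Fin.cons none (full e)) q := by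
      rw [← hq, ← Scheme.Hom.comp_apply]
      exact congrArg (fun g => g.base q) h8
    rw [← hp', h9, ← Scheme.Hom.comp_apply]
    exact (congrArg (fun g => g.base q) h7).symm

end fibre




/-! ### Smoothness -/

/-- polynomials in one variable inside polynomials in `r + 2` variables -/
lemma rename_stdSmooth (r : ℕ) :
    RingHom.IsStandardSmoothOfRelativeDimension (r + 1)
      (MvPolynomial.rename (R := ℂ) (fun _ : Fin 1 => (0 : Fin (r + 2)))).toRingHom := by
  let σ : Fin (r + 1) ⊕ Fin 1 → Fin (r + 2) := Sum.elim Fin.succ (fun _ => 0)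
  have hσ : Function.Bijective σ := by
    constructor
    · rintro (a | a) (b | b) h
      · exact congrArg Sum.inl (Fin.succ_injective _ h)
      · exact absurd h (Fin.succ_ne_zero a)
      · exact absurd h.symm (Fin.succ_ne_zero b)
      · exact congrArg Sum.inr (Subsingleton.elim _ _)
    · intro k
      refine Fin.cases ?_ (fun k' => ?_) k
      · exact ⟨Sum.inr 0, rfl⟩
      · exact ⟨Sum.inl k', rfl⟩
  let e1 := (MvPolynomial.sumAlgEquiv ℂ (Fin (r + 1)) (Fin 1)).symm
  let e2 := MvPolynomial.renameEquiv ℂ (Equiv.ofBijective σ hσ)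
  let e := (e1.trans e2).toRingEquiv
  have h1 : (MvPolynomial.rename (R := ℂ) (fun _ : Fin 1 => (0 : Fin (r + 2)))).toRingHom =
      e.toRingHom.comp (MvPolynomial.C : MvPolynomial (Fin 1) ℂ →+* _) := by
    apply MvPolynomial.ringHom_ext
    · intro a
      change MvPolynomial.rename _ (MvPolynomial.C a) = e2 (e1 (MvPolynomial.C (MvPolynomial.C a)))
      rw [MvPolynomial.rename_C]
      simp [e1, e2]
    · intro k
      change MvPolynomial.rename _ (MvPolynomial.X k) = e2 (e1 (MvPolynomial.C (MvPolynomial.X k)))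
      rw [MvPolynomial.rename_X]
      simp [e1, e2, σ]
  rw [h1]
  exact RingHom.isStandardSmoothOfRelativeDimension_respectsIso.left _ e
    (C_stdSmooth (MvPolynomial (Fin 1) ℂ) (r + 1))

/-- the coordinate ring of a maximal chart of the base maps to that of a maximal chart over it -/
def baseF (r : ℕ) (c : Fin (r + 1) → ℤ) (ε : Fin (r + 2) → Bool) :
    (bott 0 Fin.elim0).A (full (fun _ => ε 0)) →+* (bott (r + 1) c).A (full ε) :=
  firstMap r c (full ε)

lemma baseF_algebraMap (r : ℕ) (c : Fin (r + 1) → ℤ) (ε : Fin (r + 2) → Bool) (a : ℂ) :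
    baseF r c ε (algebraMap ℂ _ a) = algebraMap ℂ _ a := firstMap_algebraMap r c (full ε) a

lemma baseF_poly (r : ℕ) (c : Fin (r + 1) → ℤ) (ε : Fin (r + 2) → Bool)
    (g : MvPolynomial (Fin 1) ℂ) :
    baseF r c ε ((bott 0 Fin.elim0).polyEquiv (fun _ => ε 0) g) =
      (bott (r + 1) c).polyEquiv ε (MvPolynomial.rename (fun _ : Fin 1 => (0 : Fin (r + 2))) g) := by
  have h : (baseF r c ε).comp ((bott 0 Fin.elim0).polyEquiv (fun _ => ε 0)).toRingEquiv.toRingHom =
      ((bott (r + 1) c).polyEquiv ε).toRingEquiv.toRingHom.comp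
        (MvPolynomial.rename (fun _ : Fin 1 => (0 : Fin (r + 2)))).toRingHom := by
    apply MvPolynomial.ringHom_ext
    · intro a
      change baseF r c ε ((bott 0 Fin.elim0).polyEquiv (fun _ => ε 0) (algebraMap ℂ _ a)) =
        (bott (r + 1) c).polyEquiv ε (MvPolynomial.rename (fun _ : Fin 1 => (0 : Fin (r + 2)))
          (algebraMap ℂ _ a))
      rw [AlgEquiv.commutes, AlgHom.commutes, AlgEquiv.commutes, baseF_algebraMap]
    · intro k
      change baseF r c ε ((bott 0 Fin.elim0).polyEquiv (fun _ => ε 0) (MvPolynomial.X k)) =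
        (bott (r + 1) c).polyEquiv ε (MvPolynomial.rename (fun _ : Fin 1 => (0 : Fin (r + 2)))
          (MvPolynomial.X k))
      rw [MvPolynomial.rename_X]
      apply Subtype.ext
      change firstHom (r + 1) ((bott 0 Fin.elim0).polyEquiv (fun _ => ε 0) (MvPolynomial.X k) : LP 1) = _
      rw [polyEquiv_X, polyEquiv_X, bott_w_P1, firstHom_mono, bott_w_zero, Pi.single_eq_same]
  exact RingHom.congr_fun h g

lemma baseF_stdSmooth (r : ℕ) (c : Fin (r + 1) → ℤ) (ε : Fin (r + 2) → Bool) :
    RingHom.IsStandardSmoothOfRelativeDimension (r + 1) (baseF r c ε) := by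
  have h : baseF r c ε = (((bott (r + 1) c).polyEquiv ε).toRingEquiv.toRingHom.comp
        (MvPolynomial.rename (fun _ : Fin 1 => (0 : Fin (r + 2)))).toRingHom).comp
        ((bott 0 Fin.elim0).polyEquiv (fun _ => ε 0)).symm.toRingEquiv.toRingHom := by
    apply RingHom.ext
    intro g
    obtain ⟨g', rfl⟩ := ((bott 0 Fin.elim0).polyEquiv (fun _ => ε 0)).surjective g
    rw [baseF_poly]
    change _ = (bott (r + 1) c).polyEquiv ε (MvPolynomial.rename (fun _ : Fin 1 => (0 : Fin (r + 2)))
      (((bott 0 Fin.elim0).polyEquiv (fun _ => ε 0)).symm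
        ((bott 0 Fin.elim0).polyEquiv (fun _ => ε 0) g')))
    rw [AlgEquiv.symm_apply_apply]
  rw [h]
  exact RingHom.isStandardSmoothOfRelativeDimension_respectsIso.right _ _
    (RingHom.isStandardSmoothOfRelativeDimension_respectsIso.left _ _ (rename_stdSmooth r))

lemma smooth_Spec_map {R S : Type} [CommRing R] [CommRing S] (n : ℕ) (g : R →+* S)
    (hg : g.IsStandardSmoothOfRelativeDimension n) :
    SmoothOfRelativeDimension n (Spec.map (CommRingCat.ofHom g)) := by
  rw [HasRingHomProperty.Spec_iff (P := @SmoothOfRelativeDimension n)]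
  exact RingHom.locally_of RingHom.isStandardSmoothOfRelativeDimension_respectsIso _ hg




/-! ### The fibration -/

lemma overB_le (r : ℕ) (b : Bool) {i' j' : Fin (r + 1) → Option Bool}
    (h : ∀ k b', i' k = some b' → j' k = some b') (k : Fin (r + 2)) (b' : Bool)
    (hk : overB r b i' k = some b') : overB r b j' k = some b' := by
  revert hk
  refine Fin.cases ?_ (fun k' => ?_) k
  · exact id
  · exact h k' b'

lemma evB_inclB (r : ℕ) (c : Fin (r + 1) → ℤ) (b : Bool) {i' j' : Fin (r + 1) → Option Bool}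
    (h : ∀ k b', i' k = some b' → j' k = some b') (y0 : ℂ) :
    (inclB (bott r (c ∘ Fin.succ)) h).comp (evB r c b j' y0).toRingHom =
      (evB r c b i' y0).toRingHom.comp (inclB (bott (r + 1) c) (overB_le r b h)) := by
  apply suppAlg_ringHom_ext
  · intro a
    change inclB (bott r (c ∘ Fin.succ)) h (evB r c b j' y0 (algebraMap ℂ _ a)) =
      evB r c b i' y0 (algebraMap ℂ _ a)
    rw [AlgHom.commutes, AlgHom.commutes]
    rfl
  · intro u hu
    have hu' : u ∈ (bott (r + 1) c).cone (overB r b i') :=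
      (bott (r + 1) c).cone_anti (overB_le r b h) hu
    change inclB (bott r (c ∘ Fin.succ)) h (evB r c b j' y0 ⟨mono u, mono_mem_suppAlg.2 hu⟩) =
      evB r c b i' y0 ⟨mono u, mono_mem_suppAlg.2 hu'⟩
    rw [evB_mono _ _ _ _ _ hu, evB_mono _ _ _ _ _ hu']
    rfl

/-- the cover of the total space by its maximal charts -/
def chartCover {n : ℕ} {T : TData n} {Z : Scheme.{0}} {str : Z ⟶ Spec (.of ℂ)}
    (a : TAtlas T Z str) : Z.OpenCover :=
  Scheme.Cover.mkOfCovers (Fin n → Bool) (fun ε => Spec (.of (T.A (full ε))))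
    (fun ε => a.ι (full ε)) (fun z => a.surj z) (fun ε => a.isOpen (full ε))

theorem exists_fibration (r : ℕ) (c : Fin (r + 1) → ℤ) {X Y : Scheme.{0}}
    {sX : X ⟶ Spec (.of ℂ)} {sY : Y ⟶ Spec (.of ℂ)} (aX : TAtlas (bott (r + 1) c) X sX)
    (aY : TAtlas (bott 0 Fin.elim0) Y sY) (hY : aY.Overlap) (f : X ⟶ Y)
    (hf : ∀ i, aX.ι i ≫ f = Spec.map (CommRingCat.ofHom (firstMap r c i)) ≫ aY.ι (fun _ => i 0)) :
    SmoothOfRelativeDimension (r + 1) f ∧ f ≫ sY = sX ∧
    ∀ y : Spec (.of ℂ) ⟶ Y, y ≫ sY = 𝟙 _ →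
      Nonempty (TAtlas (bott r (c ∘ Fin.succ)) (Limits.pullback f y) (Limits.pullback.snd f y)) := by
  have hbase : ∀ ε : Fin (r + 2) → Bool, aX.ι (full ε) ≫ f =
      Spec.map (CommRingCat.ofHom (baseF r c ε)) ≫ aY.ι (full (fun _ => ε 0)) := fun ε => hf (full ε)
  refine ⟨?_, ?_, ?_⟩
  · have hloc : IsZariskiLocalAtSource (@SmoothOfRelativeDimension (r + 1)) :=
      HasRingHomProperty.instIsZariskiLocalAtSource
    refine IsZariskiLocalAtSource.of_openCover (P := @SmoothOfRelativeDimension (r + 1))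
      (chartCover aX) ?_
    have key : ∀ ε : Fin (r + 2) → Bool, SmoothOfRelativeDimension (r + 1) (aX.ι (full ε) ≫ f) := by
      intro ε
      rw [hbase ε]
      have h2 := smooth_Spec_map (r + 1) _ (baseF_stdSmooth r c ε)
      have h3 := aY.isOpen (full (fun _ => ε 0))
      have h4 : SmoothOfRelativeDimension 0 (aY.ι (full (fun _ => ε 0))) := inferInstance
      exact smoothOfRelativeDimension_comp (n := r + 1) (m := 0) _ _
    exact fun ε => key ε
  · have key : ∀ ε : Fin (r + 2) → Bool, aX.ι (full ε) ≫ f ≫ sY = aX.ι (full ε) ≫ sX := by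
      intro ε
      rw [← Category.assoc, hbase ε, Category.assoc, aY.str_eq, aX.str_eq, ← Spec.map_comp]
      congr 1
      apply CommRingCat.hom_ext
      apply RingHom.ext
      intro a
      exact baseF_algebraMap r c ε a
    exact (chartCover aX).hom_ext _ _ (fun ε => key ε)
  · intro y hysec
    have hball : ∀ (b : Bool) (i' : Fin (r + 1) → Option Bool), aX.ι (overB r b i') ≫ f =
      Spec.map (CommRingCat.ofHom (baseB r c b i')) ≫ aY.ι (fun _ => some b) := fun b i' =>
        hf (overB r b i')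
    -- the chart of the base containing the point
    obtain ⟨b, q, hq⟩ : ∃ (b : Bool) (q : Spec (.of ((bott 0 Fin.elim0).A (fun _ => some b)))),
        aY.ι (fun _ => some b) q = y (⊥ : PrimeSpectrum ℂ) := by
      obtain ⟨ε, q, hq⟩ := aY.surj (y (⊥ : PrimeSpectrum ℂ))
      have hε : (full ε : Fin 1 → Option Bool) = fun _ => some (ε 0) := by
        funext k
        have hk : k = 0 := Subsingleton.elim (α := Fin 1) _ _
        subst hk
        rfl
      refine ⟨ε 0, ?_⟩
      rw [← hε]
      exact ⟨q, hq⟩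
    have hopen := aY.isOpen (fun _ => some b)
    have hrange : Set.range y ⊆ Set.range (aY.ι (fun _ => some b)) := by
      rintro _ ⟨x, rfl⟩
      have hx : x = (⊥ : PrimeSpectrum ℂ) := Subsingleton.elim (α := PrimeSpectrum ℂ) _ _
      rw [hx]
      exact ⟨q, hq⟩
    obtain ⟨φ, hy⟩ : ∃ φ : (bott 0 Fin.elim0).A (fun _ => some b) →+* ℂ,
        Spec.map (CommRingCat.ofHom φ) ≫ aY.ι (fun _ => some b) = y := by
      refine ⟨(Spec.preimage (IsOpenImmersion.lift (aY.ι (fun _ => some b)) y hrange)).hom, ?_⟩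
      rw [CommRingCat.ofHom_hom, Spec.map_preimage, IsOpenImmersion.lift_fac]
    have hφ : ∀ a, φ (algebraMap ℂ _ a) = a := by
      intro a
      have h1 : Spec.map (CommRingCat.ofHom φ) ≫ Spec.map (CommRingCat.ofHom
          (algebraMap ℂ ((bott 0 Fin.elim0).A (fun _ => some b)))) = 𝟙 _ := by
        rw [← aY.str_eq, ← Category.assoc, hy, hysec]
      rw [← Spec.map_comp, ← Spec.map_id] at h1
      have h2 := Spec.map_injective h1
      exact ConcreteCategory.congr_hom h2 a
    refine ⟨{ ι := fibChart r c aX aY f b (hball b) φ hφ y hy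
              isOpen := fib_isOpen r c aX aY f b (hball b) φ hφ y hy
              str_eq := fibChart_snd r c aX aY f b (hball b) φ hφ y hy
              compat := ?_
              surj := ?_ }⟩
    · intro i' j' h
      apply Limits.pullback.hom_ext
      · rw [Category.assoc, fibChart_fst, fibChart_fst, ← aX.compat _ _ (overB_le r b h),
          ← Category.assoc, ← Category.assoc, ← Spec.map_comp, ← Spec.map_comp]
        congr 2
        apply CommRingCat.hom_ext
        exact evB_inclB r c b h _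
      · rw [Category.assoc, fibChart_snd, fibChart_snd, ← Spec.map_comp]
        rfl
    · intro z
      obtain ⟨e, p, hp⟩ := fib_over r c aX aY f b φ hφ y hy hball hY z
      obtain ⟨w, hw⟩ := fib_range r c aX aY f b (hball b) φ hφ y hy (full e) z p hp
      exact ⟨e, w, hw⟩

end Pool.Agent.H23
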