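import Mathlib

open MeasureTheory Filter
open scoped ENNReal Topology

noncomputable section

namespace Pool.Agent.H23

/-! ## Module C: numerics for the Hirzebruch surface -/

/-- `dim H⁰(F, -m K_F - k E)` for `F` the blow-up of the plane in a point, `E` its (-1)-curve -/
def dimF (m k : ℕ) : ℕ := ∑ s ∈ Finset.Icc ((k : ℤ) - m) m, (2 * (m : ℤ) + s + 1).toNat

theorem dimF_eq_range (m k : ℕ) (h : k ≤ 2 * m) :
    (dimF m k : ℤ) = ∑ i ∈ Finset.range (2 * m + 1 - k), (3 * (m : ℤ) + 1 - i) := by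
  unfold dimF
  rw [Nat.cast_sum]
  refine Finset.sum_nbij' (fun s => ((m : ℤ) - s).toNat) (fun i => (m : ℤ) - i) ?_ ?_ ?_ ?_ ?_
  · intro s hs
    rw [Finset.mem_Icc] at hs
    rw [Finset.mem_range]
    omega
  · intro i hi
    rw [Finset.mem_range] at hi
    rw [Finset.mem_Icc]
    omega
  · intro s hs
    rw [Finset.mem_Icc] at hs
    rw [Int.toNat_of_nonneg (by omega)]
    ring
  · intro i hi
    simp
  · intro s hs
    rw [Finset.mem_Icc] at hs
    rw [Int.toNat_of_nonneg (by omega), Int.toNat_of_nonneg (by omega)]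
    ring

theorem two_mul_sum_range (m N : ℕ) :
    2 * ∑ i ∈ Finset.range N, (3 * (m : ℤ) + 1 - i) = N * (6 * m + 3 - N) := by
  induction N with
  | zero => simp
  | succ N ih =>
    rw [Finset.sum_range_succ, mul_add, ih]
    push_cast
    ring

theorem two_mul_dimF (m k : ℕ) (h : k ≤ 2 * m) :
    (dimF m k : ℝ) = (2 * m + 1 - k) * (4 * m + 2 + k) / 2 := by
  have h1 := dimF_eq_range m k h
  have h2 := two_mul_sum_range m (2 * m + 1 - k)
  rw [← h1] at h2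
  have h3 : ((2 * m + 1 - k : ℕ) : ℤ) = 2 * m + 1 - k := by omega
  rw [h3] at h2
  have h4 : ((2 * (dimF m k : ℤ) : ℤ) : ℝ) =
      (((2 * m + 1 - k) * (6 * m + 3 - (2 * m + 1 - k)) : ℤ) : ℝ) := by rw [h2]
  push_cast at h4
  rw [eq_div_iff two_ne_zero, mul_comm, h4]
  ring

/-- The real sequence. -/
theorem tendsto_dimF_real (t : ℝ) (ht0 : 0 ≤ t) (ht2 : t ≤ 2) :
    Tendsto (fun m : ℕ => (dimF m ⌈(m : ℝ) * t⌉₊ : ℝ) / ((m : ℝ) ^ 2 / 2)) atTop
      (𝓝 (8 - 2 * t - t ^ 2)) := by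
  have hk : ∀ m : ℕ, ⌈(m : ℝ) * t⌉₊ ≤ 2 * m := by
    intro m
    apply Nat.ceil_le.2
    push_cast
    nlinarith [(Nat.cast_nonneg m : (0 : ℝ) ≤ m)]
  have hlim : Tendsto (fun m : ℕ => (⌈(m : ℝ) * t⌉₊ : ℝ) / m) atTop (𝓝 t) := by
    have h1 := tendsto_nat_ceil_mul_div_atTop (R := ℝ) ht0
    have h2 := h1.comp (tendsto_natCast_atTop_atTop (R := ℝ))
    refine h2.congr fun m => ?_
    simp [Function.comp, mul_comm]
  have h1m : Tendsto (fun m : ℕ => (1 : ℝ) / m) atTop (𝓝 0) := tendsto_one_div_atTop_nhds_zero_nat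
  have hmain : Tendsto (fun m : ℕ => (2 + 1 / (m : ℝ) - (⌈(m : ℝ) * t⌉₊ : ℝ) / m) *
      (4 + 2 * (1 / (m : ℝ)) + (⌈(m : ℝ) * t⌉₊ : ℝ) / m)) atTop
      (𝓝 ((2 + 0 - t) * (4 + 2 * 0 + t))) :=
    ((tendsto_const_nhds.add h1m).sub hlim).mul
      ((tendsto_const_nhds.add (h1m.const_mul 2)).add hlim)
  have e : (2 + 0 - t) * (4 + 2 * 0 + t) = 8 - 2 * t - t ^ 2 := by ring
  rw [e] at hmain
  refine hmain.congr' ?_
  filter_upwards [eventually_gt_atTop 0] with m hm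
  have hm' : (m : ℝ) ≠ 0 := by positivity
  rw [two_mul_dimF m _ (hk m)]
  field_simp

theorem tendsto_dimF (t : ℝ) (ht0 : 0 ≤ t) (ht2 : t ≤ 2) :
    Tendsto (fun m : ℕ => (dimF m ⌈(m : ℝ) * t⌉₊ : ℝ≥0∞) /
      ((m : ℝ≥0∞) ^ 2 / ((2 : ℕ).factorial : ℝ≥0∞))) atTop
      (𝓝 (ENNReal.ofReal (8 - 2 * t - t ^ 2))) := by
  refine (ENNReal.tendsto_ofReal (tendsto_dimF_real t ht0 ht2)).congr' ?_
  filter_upwards [eventually_gt_atTop 0] with m hm
  have hm' : (0 : ℝ) < m := by positivity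
  rw [ENNReal.ofReal_div_of_pos (by positivity), ENNReal.ofReal_div_of_pos (by norm_num),
    ENNReal.ofReal_pow hm'.le, ENNReal.ofReal_natCast, ENNReal.ofReal_natCast]
  norm_num

theorem surface_numerics :
    (1 : ℝ≥0∞) < (∫⁻ t in Set.Ioi (0 : ℝ), limsup (fun m : ℕ =>
        (dimF m ⌈(m : ℝ) * t⌉₊ : ℝ≥0∞) / ((m : ℝ≥0∞) ^ 2 / ((2 : ℕ).factorial : ℝ≥0∞))) atTop) /
      limsup (fun m : ℕ => (dimF m 0 : ℝ≥0∞) /
        ((m : ℝ≥0∞) ^ 2 / ((2 : ℕ).factorial : ℝ≥0∞))) atTop := by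
  have h0 : limsup (fun m : ℕ => (dimF m 0 : ℝ≥0∞) /
        ((m : ℝ≥0∞) ^ 2 / ((2 : ℕ).factorial : ℝ≥0∞))) atTop = 8 := by
    have h := (tendsto_dimF 0 le_rfl zero_le_two).limsup_eq
    simp only [mul_zero, Nat.ceil_zero] at h
    rw [h]
    norm_num
  rw [h0]
  have hint : ENNReal.ofReal (28 / 3) ≤ ∫⁻ t in Set.Ioi (0 : ℝ), limsup (fun m : ℕ =>
        (dimF m ⌈(m : ℝ) * t⌉₊ : ℝ≥0∞) /
          ((m : ℝ≥0∞) ^ 2 / ((2 : ℕ).factorial : ℝ≥0∞))) atTop := by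
    have hcont : Continuous fun t : ℝ => 8 - 2 * t - t ^ 2 := by fun_prop
    have h1 : ∫ t in Set.Ioc (0 : ℝ) 2, (8 - 2 * t - t ^ 2) = 28 / 3 := by
      rw [← intervalIntegral.integral_of_le zero_le_two]
      have : ∀ t : ℝ, 8 - 2 * t - t ^ 2 = 8 - (2 * t + t ^ 2) := fun t => by ring
      simp_rw [this]
      rw [intervalIntegral.integral_sub (by simp) (Continuous.intervalIntegrable (by fun_prop) _ _),
        intervalIntegral.integral_add (Continuous.intervalIntegrable (by fun_prop) _ _)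
          (Continuous.intervalIntegrable (by fun_prop) _ _),
        intervalIntegral.integral_const_mul, integral_id, integral_pow,
        intervalIntegral.integral_const]
      norm_num
    rw [← h1, ofReal_integral_eq_lintegral_ofReal]
    · calc ∫⁻ t in Set.Ioc (0 : ℝ) 2, ENNReal.ofReal (8 - 2 * t - t ^ 2)
          = ∫⁻ t in Set.Ioc (0 : ℝ) 2, limsup (fun m : ℕ =>
            (dimF m ⌈(m : ℝ) * t⌉₊ : ℝ≥0∞) /
              ((m : ℝ≥0∞) ^ 2 / ((2 : ℕ).factorial : ℝ≥0∞))) atTop := by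
            refine setLIntegral_congr_fun measurableSet_Ioc fun t ht => ?_
            exact ((tendsto_dimF t ht.1.le ht.2).limsup_eq).symm
        _ ≤ _ := lintegral_mono_set Set.Ioc_subset_Ioi_self
    · exact (hcont.integrableOn_Icc (a := 0) (b := 2)).mono_set Set.Ioc_subset_Icc_self
    · rw [EventuallyLE, ae_restrict_iff' measurableSet_Ioc]
      refine Eventually.of_forall fun t ht => ?_
      change (0 : ℝ) ≤ 8 - 2 * t - t ^ 2
      nlinarith [ht.1, ht.2]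
  rw [ENNReal.lt_div_iff_mul_lt (Or.inl (by norm_num)) (Or.inl (by norm_num)), one_mul]
  refine lt_of_lt_of_le ?_ hint
  rw [show (8 : ℝ≥0∞) = ENNReal.ofReal 8 by norm_num]
  exact (ENNReal.ofReal_lt_ofReal_iff (by norm_num)).2 (by norm_num)

end Pool.Agent.H23
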