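import Pool.Agent.H23.Model

/-!
# Module T5: the divisor given by the last coordinate
-/

set_option linter.style.haveILetI false

noncomputable section

namespace Pool.Agent.H23

open AddMonoidAlgebra

attribute [-instance] HahnSeries.powerSeriesAlgebra

namespace T5

/-- the field of rational functions in one variable -/
abbrev L : Type := FractionRing (LP 1)

/-- the powers of the first variable -/
def χ (k : ℤ) : L := algebraMap (LP 1) L (mono fun _ => k)

lemma χ_zero : χ 0 = 1 := by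
  unfold χ
  have : (fun _ => 0 : Fin 1 → ℤ) = 0 := rfl
  rw [this, mono_zero, map_one]

lemma χ_add (k l : ℤ) : χ (k + l) = χ k * χ l := by
  unfold χ
  rw [← map_mul, ← mono_add]
  rfl

/-- monomials as Hahn series in the last variable -/
def F : Multiplicative (Fin 2 → ℤ) →* HahnSeries ℤ L where
  toFun u := HahnSeries.single (u.toAdd 1) (χ (u.toAdd 0))
  map_one' := by
    simp only [toAdd_one, Pi.zero_apply, χ_zero]
    rfl
  map_mul' u w := by
    simp only [toAdd_mul, Pi.add_apply, χ_add]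
    rw [HahnSeries.single_mul_single]

/-- Laurent polynomials as Hahn series in the last variable -/
def Φ : LP 2 →ₐ[ℂ] HahnSeries ℤ L := AddMonoidAlgebra.lift ℂ (HahnSeries ℤ L) (Fin 2 → ℤ) F

lemma Φ_mono (u : Fin 2 → ℤ) : Φ (mono u) = HahnSeries.single (u 1) (χ (u 0)) := by
  unfold Φ mono
  rw [AddMonoidAlgebra.lift_single, one_smul]
  rfl

/-- the coefficient of a power of the last variable -/
def slice (f : LP 2) (k : ℤ) : LP 1 :=
  ∑ u ∈ f.coeff.support.filter (fun u => u 1 = k), f.coeff u • mono (fun _ => u 0)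

lemma coeff_Φ (f : LP 2) (k : ℤ) : (Φ f).coeff k = algebraMap (LP 1) L (slice f k) := by
  conv_lhs => rw [sum_mono f, map_sum]
  rw [HahnSeries.coeff_sum, slice, map_sum, Finset.sum_filter]
  refine Finset.sum_congr rfl fun u _ => ?_
  have h1 : Φ (f.coeff u • mono u) = HahnSeries.C (algebraMap ℂ L (f.coeff u)) * Φ (mono u) := by
    rw [Algebra.smul_def, map_mul, AlgHom.commutes, HahnSeries.algebraMap_apply]
  rw [h1, Φ_mono, HahnSeries.C_mul_eq_smul, HahnSeries.coeff_smul]
  split_ifs with h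
  · rw [← h, HahnSeries.coeff_single_same, smul_eq_mul, Algebra.smul_def, map_mul, χ,
      ← IsScalarTower.algebraMap_apply]
  · rw [HahnSeries.coeff_single_of_ne (fun h' => h h'.symm), smul_zero]

lemma slice_eq_zero (f : LP 2) (k : ℤ) (h : ∀ u, f.coeff u ≠ 0 → u 1 ≠ k) : slice f k = 0 := by
  unfold slice
  rw [Finset.filter_eq_empty_iff.2, Finset.sum_empty]
  intro u hu
  exact h u (Finsupp.mem_support_iff.1 hu)

lemma slice_ne_zero (f : LP 2) (u : Fin 2 → ℤ) (hu : f.coeff u ≠ 0) : slice f (u 1) ≠ 0 := by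
  classical
  intro h0
  apply hu
  have h1 := congrArg (fun g : LP 1 => g.coeff (fun _ => u 0)) h0
  simp only [slice, coeff_sum, Finsupp.coe_finsetSum, Finset.sum_apply, coeff_zero,
    Finsupp.coe_zero, Pi.zero_apply] at h1
  rw [Finset.sum_eq_single u] at h1
  · simpa [mono, coeff_smul] using h1
  · intro w hw hwu
    rw [Finset.mem_filter] at hw
    rw [mono, coeff_smul, coeff_single, Finsupp.smul_apply, Finsupp.single_apply, if_neg, smul_zero]
    intro h2
    apply hwu
    ext i
    fin_cases i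
    · exact congrFun h2 0
    · exact hw.2
  · intro h3
    exfalso
    apply h3
    rw [Finset.mem_filter]
    exact ⟨Finsupp.mem_support_iff.2 hu, rfl⟩

lemma exists_coeff_ne_zero {f : LP 2} (hf : f ≠ 0) : ∃ u, f.coeff u ≠ 0 := by
  by_contra h
  push Not at h
  apply hf
  rw [sum_mono f]
  exact Finset.sum_eq_zero fun u _ => by rw [h u, zero_smul]

lemma coeff_Φ_ne_zero {f : LP 2} {u : Fin 2 → ℤ} (hu : f.coeff u ≠ 0) :
    (Φ f).coeff (u 1) ≠ 0 := by
  rw [coeff_Φ]
  intro h
  exact slice_ne_zero f u hu ((map_eq_zero_iff _ (IsFractionRing.injective (LP 1) L)).1 h)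

lemma Φ_injective : Function.Injective Φ := by
  rw [injective_iff_map_eq_zero]
  intro f hf
  by_contra h0
  obtain ⟨u, hu⟩ := exists_coeff_ne_zero h0
  apply coeff_Φ_ne_zero hu
  rw [hf, HahnSeries.coeff_zero]

/-- the order of a Laurent polynomial -/
lemma exists_order {f : LP 2} (hf : f ≠ 0) : ∃ k : ℤ, (Φ f).orderTop = k ∧
    (∀ u, f.coeff u ≠ 0 → k ≤ u 1) ∧ ∃ u, f.coeff u ≠ 0 ∧ u 1 = k := by
  classical
  obtain ⟨u0, hu0⟩ := exists_coeff_ne_zero hf
  obtain ⟨u, hu, hmin⟩ := f.coeff.support.exists_min_image (fun u => u 1)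
    ⟨u0, Finsupp.mem_support_iff.2 hu0⟩
  rw [Finsupp.mem_support_iff] at hu
  refine ⟨u 1, ?_, fun w hw => hmin w (Finsupp.mem_support_iff.2 hw), u, hu, rfl⟩
  apply HahnSeries.orderTop_eq_of_le
  · exact coeff_Φ_ne_zero hu
  · intro g hg
    rw [HahnSeries.mem_support, coeff_Φ] at hg
    by_contra hlt
    apply hg
    rw [slice_eq_zero, map_zero]
    intro w hw hwg
    exact hlt (hwg ▸ hmin w (Finsupp.mem_support_iff.2 hw))

end T5

theorem exists_orderDivisor {K : Type} [Field K] [Algebra ℂ K] (P : TorusModel 2 K) :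
    ∃ E : PrimeDivisorOver K 2, ∀ f : LP 2, f ≠ 0 → ∃ k : ℤ, E.ord (P.ψ f) = k ∧
      (∀ u, f.coeff u ≠ 0 → k ≤ u 1) ∧ ∃ u, f.coeff u ≠ 0 ∧ u 1 = k := by
  classical
  letI : Algebra (LP 2) K := P.ψ.toRingHom.toAlgebra
  have halg : ∀ f : LP 2, algebraMap (LP 2) K f = P.ψ f := fun _ => rfl
  haveI : IsFractionRing (LP 2) K := by
    refine (isLocalization_iff _ _).2 ⟨?_, ?_, ?_⟩
    · rintro ⟨b, hb⟩
      have hb' : b ≠ 0 := nonZeroDivisors.ne_zero hb
      change IsUnit (P.ψ b)
      exact isUnit_iff_ne_zero.2 (P.ψ_ne_zero hb')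
    · intro k
      obtain ⟨a, b, hb, h⟩ := P.frac k
      exact ⟨(a, ⟨b, mem_nonZeroDivisors_of_ne_zero hb⟩), h⟩
    · intro a b h
      exact ⟨1, by rw [P.inj h]⟩
  have hinj : Function.Injective (T5.Φ : LP 2 →+* HahnSeries ℤ T5.L) := T5.Φ_injective
  let Ψ : K →+* HahnSeries ℤ T5.L := IsFractionRing.lift hinj
  have hΨ : ∀ f : LP 2, Ψ (P.ψ f) = T5.Φ f := by
    intro f
    rw [← halg]
    exact IsFractionRing.lift_algebraMap hinj f
  let w : AddValuation K (WithTop ℤ) := (HahnSeries.addVal ℤ T5.L).comap Ψ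
  have hw : ∀ f : LP 2, w (P.ψ f) = (T5.Φ f).orderTop := by
    intro f
    change HahnSeries.addVal ℤ T5.L (Ψ (P.ψ f)) = _
    rw [hΨ, HahnSeries.addVal_apply]
  have hmono : ∀ u : Fin 2 → ℤ, w (P.ψ (mono u)) = (u 1 : ℤ) := by
    intro u
    rw [hw, T5.Φ_mono, HahnSeries.orderTop_single]
    rw [T5.χ]
    intro h
    exact mono_ne_zero _ ((map_eq_zero_iff _ (IsFractionRing.injective (LP 1) T5.L)).1 h)
  refine ⟨⟨w, ?_, ?_, ?_⟩, fun f hf => ?_⟩
  · intro c
    by_cases hc : c = 0
    · rw [hc, map_zero, w.map_zero]; exact le_top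
    · have h1 : algebraMap ℂ K c = P.ψ (algebraMap ℂ (LP 2) c) := (P.ψ.commutes c).symm
      have hne : algebraMap ℂ (LP 2) c ≠ 0 := by
        rw [Ne, map_eq_zero]; exact hc
      obtain ⟨k, hk1, hk2, u, hu1, hu2⟩ := T5.exists_order hne
      rw [h1, hw, hk1]
      have h3 : u = 0 := by
        by_contra hu0
        apply hu1
        rw [coe_algebraMap, Function.comp_apply, coeff_single, Finsupp.single_apply,
          if_neg (fun h => hu0 h.symm)]
      rw [← hu2, h3]
      simp
  · exact ⟨P.ψ (mono (Pi.single 1 1)), by rw [hmono]; simp⟩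
  · refine ⟨fun _ => P.ψ (mono (Pi.single 0 1)), fun _ => by rw [hmono]; simp, fun p hp => ?_⟩
    haveI : Subsingleton (Fin (2 - 1)) := inferInstanceAs (Subsingleton (Fin 1))
    -- the polynomial in `x`
    let G : MvPolynomial (Fin (2 - 1)) ℂ →ₐ[ℂ] LP 2 :=
      MvPolynomial.aeval (fun _ => mono (Pi.single 0 1))
    have hG : MvPolynomial.aeval (fun _ : Fin (2 - 1) => P.ψ (mono (Pi.single 0 1))) p
        = P.ψ (G p) := by
      have : (MvPolynomial.aeval (fun _ : Fin (2 - 1) => P.ψ (mono (Pi.single 0 1))) :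
          MvPolynomial (Fin (2 - 1)) ℂ →ₐ[ℂ] K) = P.ψ.comp G := by
        apply MvPolynomial.algHom_ext
        intro i
        simp [G]
      rw [this]; rfl
    have hsum : G p = ∑ m ∈ p.support, p.coeff m • mono (Pi.single 0 (m 0 : ℤ) : Fin 2 → ℤ) := by
      simp only [G]
      rw [MvPolynomial.aeval_def, MvPolynomial.eval₂_eq']
      refine Finset.sum_congr rfl fun m _ => ?_
      rw [Algebra.smul_def]
      congr 1
      have h4 : ∏ i : Fin (2 - 1), (mono (Pi.single 0 1 : Fin 2 → ℤ) : LP 2) ^ m i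
          = (mono (Pi.single 0 1 : Fin 2 → ℤ) : LP 2) ^ m 0 := by
        rw [Fintype.prod_subsingleton _ (0 : Fin (2 - 1))]
      rw [h4, ← mono_nsmul]
      congr 1
      ext i
      fin_cases i <;> simp
    have hcoef : ∀ u : Fin 2 → ℤ, (G p).coeff u ≠ 0 → u 1 = 0 := by
      intro u hu
      rw [hsum] at hu
      simp only [coeff_sum, Finsupp.coe_finsetSum, Finset.sum_apply] at hu
      obtain ⟨m, -, hm⟩ := Finset.exists_ne_zero_of_sum_ne_zero hu
      rw [mono, coeff_smul, coeff_single, Finsupp.smul_apply, Finsupp.single_apply] at hm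
      split_ifs at hm with h5
      · rw [← h5]; simp
      · simp at hm
    have hGp : G p ≠ 0 := by
      obtain ⟨m, hm⟩ := MvPolynomial.ne_zero_iff.1 hp
      intro h0
      apply hm
      have h6 := congrArg (fun g : LP 2 => g.coeff (Pi.single 0 (m 0 : ℤ) : Fin 2 → ℤ)) h0
      simp only [hsum, coeff_sum, Finsupp.coe_finsetSum, Finset.sum_apply, coeff_zero,
        Finsupp.coe_zero, Pi.zero_apply] at h6
      rw [Finset.sum_eq_single m] at h6
      · simpa [mono, coeff_smul] using h6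
      · intro m' _ hmm
        rw [mono, coeff_smul, coeff_single, Finsupp.smul_apply, Finsupp.single_apply, if_neg,
          smul_zero]
        intro h7
        apply hmm
        have h8 := congrFun h7 0
        simp only [Pi.single_eq_same] at h8
        ext i
        have hi : i = 0 := Subsingleton.elim _ _
        rw [hi]
        exact_mod_cast h8
      · intro h9
        rw [MvPolynomial.notMem_support_iff.1 h9, zero_smul]
        simp
    obtain ⟨k, hk1, hk2, u, hu1, hu2⟩ := T5.exists_order hGp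
    rw [hG, hw, hk1, ← hu2, hcoef u hu1]
    rfl
  · obtain ⟨k, hk1, hk2⟩ := T5.exists_order hf
    exact ⟨k, by rw [← hk1]; exact hw f, hk2⟩

end Pool.Agent.H23
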