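import Pool.Agent.H23.MonoBasis
import Pool.Agent.H23.ModC
import Pool.Agent.H23.ModT5
import Pool.Agent.H23.ModT6

/-!
# The blow-up of the plane in a point is not K-semistable
-/

open Filter MeasureTheory
open scoped ENNReal

set_option linter.style.haveILetI false

noncomputable section

namespace Pool.Agent.H23

open AddMonoidAlgebra TData TorusModel

/-- the toric data of the blow-up of the plane in a point -/
def TF : TData 2 := bott 1 (![-1, 1] ∘ Fin.succ)

lemma TF_ℓ0t (u : Fin 2 → ℤ) : TF.ℓ 0 true u = u 0 := by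
  change (if true then u 0 else -u 0) + (if true then 0 else _) = _
  simp

lemma TF_ℓ0f (u : Fin 2 → ℤ) : TF.ℓ 0 false u = - u 0 + u 1 := by
  change (if false then u 0 else -u 0) +
    (if false then 0 else Fin.snoc (α := fun _ => ℤ) (![-1, 1] ∘ Fin.succ) 0 (0 : Fin 2) *
      u (Fin.last 1)) = _
  have : Fin.snoc (α := fun _ => ℤ) (![-1, 1] ∘ Fin.succ) 0 (0 : Fin 2) = 1 := rfl
  rw [this]
  simp

lemma TF_ℓ1t (u : Fin 2 → ℤ) : TF.ℓ 1 true u = u 1 := by
  change (if true then u 1 else -u 1) + (if true then 0 else _) = _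
  simp

lemma TF_ℓ1f (u : Fin 2 → ℤ) : TF.ℓ 1 false u = - u 1 := by
  change (if false then u 1 else -u 1) +
    (if false then 0 else Fin.snoc (α := fun _ => ℤ) (![-1, 1] ∘ Fin.succ) 0 (1 : Fin 2) *
      u (Fin.last 1)) = _
  have : Fin.snoc (α := fun _ => ℤ) (![-1, 1] ∘ Fin.succ) 0 (1 : Fin 2) = 0 := rfl
  rw [this]
  simp

lemma TF_ℓ (u : Fin 2 → ℤ) (m : ℕ) : (∀ k b, -(m : ℤ) ≤ TF.ℓ k b u) ↔
    (-(m : ℤ) ≤ u 0 ∧ u 0 ≤ m + u 1) ∧ (-(m : ℤ) ≤ u 1 ∧ u 1 ≤ m) := by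
  constructor
  · intro h
    have a1 := h 0 true
    have a2 := h 0 false
    have a5 := h 1 true
    have a6 := h 1 false
    rw [TF_ℓ0t] at a1
    rw [TF_ℓ0f] at a2
    rw [TF_ℓ1t] at a5
    rw [TF_ℓ1f] at a6
    omega
  · rintro ⟨⟨a1, a2⟩, a5, a6⟩ k b
    fin_cases k <;> cases b
    · change -(m : ℤ) ≤ TF.ℓ 0 false u
      rw [TF_ℓ0f]; omega
    · change -(m : ℤ) ≤ TF.ℓ 0 true u
      rw [TF_ℓ0t]; omega
    · change -(m : ℤ) ≤ TF.ℓ 1 false u
      rw [TF_ℓ1f]; omega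
    · change -(m : ℤ) ≤ TF.ℓ 1 true u
      rw [TF_ℓ1t]; omega

/-- index set of exponents of sections vanishing along the exceptional curve -/
abbrev IdxF (m k : ℕ) : Type :=
  (s : Finset.Icc ((k : ℤ) - m) m) × Fin (2 * (m : ℤ) + s.1 + 1).toNat

/-- exponents of sections vanishing along the exceptional curve -/
def expF (m k : ℕ) (q : IdxF m k) : Fin 2 → ℤ := ![((q.2 : ℕ) : ℤ) - m, q.1.1]

lemma expF_injective (m k : ℕ) : Function.Injective (expF m k) := by
  rintro ⟨⟨s, hs⟩, ⟨a, ha⟩⟩ ⟨⟨s', hs'⟩, ⟨a', ha'⟩⟩ h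
  have h0 := congrFun h 0
  have h1 := congrFun h 1
  simp [expF] at h0 h1
  subst h0
  subst h1
  rfl

lemma card_IdxF (m k : ℕ) : Fintype.card (IdxF m k) = dimF m k := by
  rw [Fintype.card_sigma, dimF]
  simp only [Fintype.card_fin]
  exact Finset.sum_coe_sort (Finset.Icc ((k : ℤ) - m) m) fun s => (2 * (m : ℤ) + s + 1).toNat

/-- A valuation given by the lowest exponent of the last variable. -/
def IsOrder {K : Type} [Field K] [Algebra ℂ K] (P : TorusModel 2 K)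
    (E : PrimeDivisorOver K 2) : Prop := ∀ f : LP 2, f ≠ 0 → ∃ k : ℤ, E.ord (P.ψ f) = k ∧
      (∀ u, f.coeff u ≠ 0 → k ≤ u 1) ∧ ∃ u, f.coeff u ≠ 0 ∧ u 1 = k

section order

variable {K : Type} [Field K] [Algebra ℂ K] {P : TorusModel 2 K} {E : PrimeDivisorOver K 2}
  (hE : IsOrder P E)

include hE in
lemma le_ord_iff (k : ℤ) (f : LP 2) :
    (k : WithTop ℤ) ≤ E.ord (P.ψ f) ↔ ∀ u, f.coeff u ≠ 0 → k ≤ u 1 := by
  by_cases hf : f = 0
  · subst hf
    simp
  · obtain ⟨k', h1, h2, u₀, h3, h4⟩ := hE f hf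
    rw [h1, WithTop.coe_le_coe]
    constructor
    · intro h u hu
      exact le_trans h (h2 u hu)
    · intro h
      rw [← h4]
      exact h u₀ h3

include hE in
lemma ord_chi (u : Fin 2 → ℤ) : E.ord (P.chi u) = (u 1 : ℤ) := by
  obtain ⟨k, h1, h2, v, h3, h4⟩ := hE (mono u) (mono_ne_zero u)
  have h5 : v = u := by
    by_contra hne
    apply h3
    simp [mono, Ne.symm hne]
  subst h5
  rw [h4]
  exact h1

include hE in
lemma mem_filt_iff_F (m k : ℕ) (f : LP 2) :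
    f ∈ P.filt TF E.ord E.ord_const 1 m k ↔ ∀ u, f.coeff u ≠ 0 → ∃ i, expF m k i = u := by
  rw [mem_filt, le_ord_iff hE]
  constructor
  · rintro ⟨h1, h2⟩ u hu
    have h3 := (TF_ℓ u m).1 (h1 u hu)
    have h4 := h2 u hu
    have h5 : u 1 ∈ Finset.Icc ((k : ℤ) - m) m := by
      rw [Finset.mem_Icc]
      omega
    refine ⟨⟨⟨u 1, h5⟩, ⟨(u 0 + m).toNat, ?_⟩⟩, ?_⟩
    · simp only; omega
    · ext j
      fin_cases j
      · simp [expF]; omega
      · simp [expF]
  · intro h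
    have h1 : ∀ u, f.coeff u ≠ 0 → ((k : ℤ) - m * 1 ≤ u 1) ∧
        (-(m : ℤ) ≤ u 0 ∧ u 0 ≤ m + u 1) ∧ (-(m : ℤ) ≤ u 1 ∧ u 1 ≤ m) := by
      intro u hu
      obtain ⟨⟨⟨s, hs⟩, ⟨a, ha⟩⟩, rfl⟩ := h u hu
      rw [Finset.mem_Icc] at hs
      simp only at ha
      simp [expF]
      omega
    exact ⟨fun u hu => (TF_ℓ u m).2 (h1 u hu).2, fun u hu => (h1 u hu).1⟩

include hE in
lemma finrank_filt_F (m k : ℕ) :
    Module.finrank ℂ (P.filt TF E.ord E.ord_const 1 m k) = dimF m k := by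
  rw [finrank_eq_card _ (expF m k) (expF_injective m k) (mem_filt_iff_F hE m k), card_IdxF]

/-- the chart of all positive signs -/
abbrev eps : Fin 2 → Bool := fun _ => true

lemma TF_w (k : Fin 2) : TF.w eps k = Pi.single k 1 := bott_w_true 1 _ k

lemma TF_W : TF.W eps 1 = 1 := by
  rw [W, Fin.sum_univ_two, TF_w, TF_w]
  simp

include hE in
lemma ord_A_nonneg (f : TF.A (full eps)) : 0 ≤ E.ord (P.ψ f) := by
  have h1 := (le_ord_iff hE 0 (f : LP 2)).2 (fun u hu => by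
    have h2 := (TF.mem_cone_full).1 (f.2 u hu) 1
    change 0 ≤ TF.ℓ 1 true u at h2
    rwa [TF_ℓ1t] at h2)
  exact_mod_cast h1

/-- the prime ideal of the exceptional curve -/
def idealE (hE : IsOrder P E) : Ideal (TF.A (full eps)) where
  carrier := {f | 1 ≤ E.ord (P.ψ f)}
  add_mem' := by
    intro f g hf hg
    change 1 ≤ E.ord (P.ψ ((f + g : TF.A (full eps)) : LP 2))
    have h1 : ((f + g : TF.A (full eps)) : LP 2) = f + g := rfl
    rw [h1, map_add]
    exact E.ord.map_le_add hf hg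
  zero_mem' := by simp
  smul_mem' := by
    intro c f hf
    change 1 ≤ E.ord (P.ψ ((c • f : TF.A (full eps)) : LP 2))
    have h1 : ((c • f : TF.A (full eps)) : LP 2) = c * f := rfl
    rw [h1, map_mul, E.ord.map_mul]
    exact le_add_of_nonneg_of_le (ord_A_nonneg hE c) hf

lemma mem_idealE (f : TF.A (full eps)) : f ∈ idealE hE ↔ 1 ≤ E.ord (P.ψ f) := Iff.rfl

lemma notMem_idealE (f : TF.A (full eps)) : f ∉ idealE hE ↔ E.ord (P.ψ f) = 0 := by
  rw [mem_idealE]
  constructor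
  · intro h
    by_contra h0
    exact h (one_le_of_pos (lt_of_le_of_ne (ord_A_nonneg hE f) (Ne.symm h0)))
  · intro h
    rw [h]
    norm_num

lemma idealE_isPrime : (idealE hE).IsPrime := by
  refine ⟨?_, ?_⟩
  · rw [Ideal.ne_top_iff_one, notMem_idealE]
    simp
  · intro f g hfg
    by_contra hcon
    push Not at hcon
    rw [notMem_idealE, notMem_idealE] at hcon
    have h1 : E.ord (P.ψ ((f * g : TF.A (full eps)) : LP 2)) = 0 := by
      have h2 : ((f * g : TF.A (full eps)) : LP 2) = f * g := rfl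
      rw [h2, map_mul, E.ord.map_mul, hcon.1, hcon.2, add_zero]
    exact (notMem_idealE hE _).2 h1 hfg

lemma hasCenter_of_isLoc {ι : Type} {O : ι → Subalgebra ℂ K} {x : ι}
    (hx : P.IsLoc TF eps (idealE hE) (O x)) : E.HasCenter O x := by
  intro f hf
  obtain ⟨a, b, hb, hab⟩ := (hx.2 f).1 hf
  have hb0 := (notMem_idealE hE b).1 hb
  have h1 : E.ord f = E.ord (P.ψ a) := by
    rw [← hab, E.ord.map_mul, hb0, add_zero]
  refine ⟨by rw [h1]; exact ord_A_nonneg hE a, fun h0 => ?_⟩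
  rw [h1] at h0
  refine (hx.2 _).2 ⟨b, a, (notMem_idealE hE a).2 h0, ?_⟩
  rw [← hab]
  have hf0 : f ≠ 0 := by
    rintro rfl
    rw [h0] at h1
    exact absurd h1 (by simp)
  rw [inv_mul_cancel_left₀ hf0]

include hE in
lemma ord_dualDer_nonneg (j : Fin 2) (f : LP 2) (hf : 0 ≤ E.ord (P.ψ f)) :
    0 ≤ E.ord (dualDer (P.bas TF eps) j (P.ψ f)) := by
  have h1 := (le_ord_iff hE 0 f).1 (by exact_mod_cast hf)
  rw [sum_mono f, map_sum, map_sum]
  apply E.ord.map_le_sum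
  intro u hu
  have h2 := h1 u (Finsupp.mem_support_iff.1 hu)
  rw [map_smul, Derivation.map_smul, Algebra.smul_def, E.ord.map_mul]
  apply add_nonneg (E.ord_const _)
  change 0 ≤ E.ord (dualDer (P.bas TF eps) j (P.chi u))
  rw [P.dualDer_chi, E.ord.map_mul, ord_chi hE]
  by_cases hj : TF.ℓ j (eps j) u = 0
  · rw [hj]; simp
  · apply add_nonneg (val_intCast_nonneg E.ord _)
    rw [TF_w]
    have h3 : 0 ≤ (u - Pi.single j 1 : Fin 2 → ℤ) 1 := by
      fin_cases j
      · simp [h2]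
      · change ¬ TF.ℓ 1 true u = 0 at hj
        rw [TF_ℓ1t] at hj
        simp
        omega
    exact_mod_cast h3

include hE in
lemma dualDer_nonneg_F (j : Fin 2) (f : K) (hf : 0 ≤ E.ord f) :
    0 ≤ E.ord (dualDer (P.bas TF eps) j f) := by
  obtain ⟨a, b, hb, hab⟩ := P.frac f
  obtain ⟨k, hk, -, -⟩ := hE b hb
  set b' : LP 2 := b * mono (-k • Pi.single 1 1) with hb'
  set a' : LP 2 := a * mono (-k • Pi.single 1 1) with ha'
  have h1 : f * P.ψ b' = P.ψ a' := by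
    rw [hb', ha', map_mul, map_mul, ← mul_assoc, hab]
  have h2 : E.ord (P.ψ b') = 0 := by
    rw [hb', map_mul, E.ord.map_mul, hk]
    change (k : WithTop ℤ) + E.ord (P.chi _) = 0
    rw [ord_chi hE, ← WithTop.coe_add]
    simp
  have h3 : 0 ≤ E.ord (P.ψ a') := by
    rw [← h1, E.ord.map_mul, h2, add_zero]
    exact hf
  have hb0 : P.ψ b' ≠ 0 := by
    intro h0
    rw [h0] at h2
    simp at h2
  have h4 := congrArg (dualDer (P.bas TF eps) j) h1
  rw [Derivation.leibniz, smul_eq_mul, smul_eq_mul] at h4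
  have h5 : dualDer (P.bas TF eps) j f * P.ψ b' =
      dualDer (P.bas TF eps) j (P.ψ a') + -(f * dualDer (P.bas TF eps) j (P.ψ b')) := by
    linear_combination h4
  have h6 : E.ord (dualDer (P.bas TF eps) j f) = E.ord (dualDer (P.bas TF eps) j f * P.ψ b') := by
    rw [E.ord.map_mul, h2, add_zero]
  rw [h6, h5]
  apply E.ord.map_le_add (ord_dualDer_nonneg hE j a' h3)
  rw [E.ord.map_neg, E.ord.map_mul]
  exact add_nonneg hf (ord_dualDer_nonneg hE j b' (by rw [h2]))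

end order

/-- The valuative criterion fails for every surface whose local rings are those of `TF`. -/
theorem not_valuativelySemistable_TF {K : Type} [Field K] [Algebra ℂ K] (P : TorusModel 2 K)
    {ι : Type} {O : ι → Subalgebra ℂ K} (hO : P.IsToric TF O) : ¬ ValuativelySemistable 2 O := by
  intro hss
  obtain ⟨E, hE'⟩ := exists_orderDivisor P
  have hE : IsOrder P E := hE'
  obtain ⟨x, hx⟩ := hO.surj eps (idealE hE) (idealE_isPrime hE)
  have hc := hasCenter_of_isLoc hE hx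
  have h1 := hss E x hc
  have hh : E.ord (P.chi (TF.W eps)) = (1 : ℤ) := by rw [ord_chi hE, TF_W]
  have hg : ∀ i : Fin 2, 0 ≤ E.ord (P.chi (TF.w eps i)) := fun i =>
    (hc _ (hx.ψ_mem ⟨mono (TF.w eps i), mono_mem_suppAlg.2 (TF.w_mem eps i)⟩)).1
  obtain ⟨κ, hκ, -, hA⟩ := logDiscrepancy_eq (T := TF) E x hc hx hh (P.bas_apply TF eps) hg
    (fun j f hf => dualDer_nonneg_F hE j f hf)
  have h2 : fc (P.bas TF eps) (P.Om TF) = (P.chi (TF.W eps))⁻¹ := by
    rw [Om, map_smul, fc_self, smul_eq_mul, mul_one]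
  have h3 : κ = -1 := by
    rw [h2, E.ord.map_inv, hh] at hκ
    have h4 : ((-1 : ℤ) : WithTop ℤ) = κ := hκ
    exact (WithTop.coe_inj.1 h4).symm
  have h4 : logDiscrepancy O E x = 1 := by
    rw [h3] at hA
    norm_num at hA
    exact_mod_cast hA
  rw [h4] at h1
  have hvol : antiVolume 2 O = limsup (fun m : ℕ => (dimF m 0 : ℝ≥0∞) /
      ((m : ℝ≥0∞) ^ 2 / ((2 : ℕ).factorial : ℝ≥0∞))) atTop := by
    rw [antiVolume]
    congr 1
    funext m
    rw [antiSections_eq hO, finrank_map_secMap, ← finrank_filt_F hE m 0]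
    congr 2
    exact (LinearEquiv.finrank_eq (LinearEquiv.ofEq _ _ (filt_zero E x hc hx hh m))).symm
  have hvolE : ∀ t : ℝ, volAlong O E x t = limsup (fun m : ℕ =>
      (dimF m ⌈(m : ℝ) * t⌉₊ : ℝ≥0∞) /
        ((m : ℝ≥0∞) ^ 2 / ((2 : ℕ).factorial : ℝ≥0∞))) atTop := by
    intro t
    rw [volAlong]
    congr 1
    funext m
    rw [antiSectionsGE_eq hO E x hc hx hh, finrank_map_secMap, finrank_filt_F hE]
  have h5 := surface_numerics
  rw [← hvol] at h5
  simp only [← hvolE] at h5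
  rw [sInvariant] at h1
  exact absurd h5 (not_lt.2 (by exact_mod_cast h1))

end Pool.Agent.H23
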