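import Pool.Agent.H23.SemistableX
import Pool.Agent.H23.UnstableF
import Pool.Agent.H23.Ample
import Pool.Agent.H23.ModT7
import Pool.Agent.H23.ModT8
import Pool.Agent.H23.Bridge

/-!
# A smooth Fano fibration with K-semistable total space and unstable fibres
-/

open AlgebraicGeometry CategoryTheory

set_option linter.style.haveILetI false

noncomputable section

namespace Pool.Agent.H23

open TData TorusModel

section fano

variable {n : ℕ} {T : TData n} {Z : Scheme.{0}} {str : Z ⟶ Spec (.of ℂ)}

/-- the Fano variety of a toric atlas -/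
def TAtlas.fano (a : TAtlas T Z str) (hF : T.Fano) (hp : IsProper str)
    (hs : SmoothOfRelativeDimension n str) : Fano.FanoVariety n :=
  letI := a.isIntegral
  { X := Z
    str := str
    proper := hp
    smooth := hs
    ample := fano_antiAmple str (a.antiAmple hF) }

end fano

lemma fano_TX : TX.Fano := fun ε k => bott_fano 2 ![-1, 1] (by intro k; fin_cases k <;> simp) ε k

lemma fano_TF : TF.Fano := fun ε k =>
  bott_fano 1 (![-1, 1] ∘ Fin.succ) (by intro k; fin_cases k; simp) ε k

lemma fano_TY : (bott 0 Fin.elim0).Fano := fun ε k =>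
  bott_fano 0 Fin.elim0 (fun k => k.elim0) ε k

/-- There are Fano varieties `X` of dimension three and `Y` of dimension one over `ℂ` and
a smooth morphism `f : X ⟶ Y` over `ℂ` such that `X` is K-semistable and every fibre of `f` over a
closed point is a Fano surface which is not K-semistable. -/
theorem exists_counterexample :
    ∃ (X : Fano.FanoVariety 3) (Y : Fano.FanoVariety 1) (f : X.X ⟶ Y.X),
      f ≫ Y.str = X.str ∧ Smooth f ∧ X.KSemistable ∧
      ∀ y : Spec (.of ℂ) ⟶ Y.X, y ≫ Y.str = 𝟙 _ →
        ∃ (F : Fano.FanoVariety 2) (i : F.X ⟶ X.X),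
          IsPullback i F.str f y ∧ ¬ F.KSemistable := by
  obtain ⟨X, sX, aX, hXp, hXs, -, hXd, -⟩ := exists_variety (bott 2 ![-1, 1]) (bott_complete _ _)
  obtain ⟨Y, sY, aY, hYp, hYs, hYo, -, -⟩ := exists_variety (bott 0 Fin.elim0) (bott_complete _ _)
  obtain ⟨f, hf⟩ := hXd Y (fun i => Spec.map (CommRingCat.ofHom (firstMap 1 ![-1, 1] i)) ≫
    aY.ι (fun _ => i 0)) (by
      intro i j h
      have h0 : ∀ (k : Fin 1) (b : Bool), (fun _ => i 0 : Fin 1 → Option Bool) k = some b →
          (fun _ => j 0 : Fin 1 → Option Bool) k = some b := fun _ b hb => h 0 b hb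
      rw [← aY.compat _ _ h0, ← Category.assoc, ← Category.assoc, ← Spec.map_comp,
        ← Spec.map_comp]
      rfl)
  obtain ⟨hfs, hfstr, hfib⟩ := exists_fibration 1 ![-1, 1] aX aY hYo f hf
  haveI := hXp
  haveI := hYp
  haveI := hfs
  refine ⟨TAtlas.fano (T := TX) aX fano_TX hXp hXs, aY.fano fano_TY hYp hYs, f, hfstr, ?_, ?_, ?_⟩
  · exact SmoothOfRelativeDimension.smooth 2 f
  · haveI : IsIntegral X := TAtlas.isIntegral aX
    letI := functionFieldAlgebra sX
    obtain ⟨P, hP, -⟩ := TAtlas.isToric (T := TX) aX
    exact fano_semistable sX (valuativelySemistable_TX P hP)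
  · intro y hy
    obtain ⟨aF⟩ := hfib y hy
    haveI : IsProper f := by
      have h1 : IsProper (f ≫ sY) := by rw [hfstr]; exact hXp
      exact IsProper.of_comp f sY
    have hFp : IsProper (Limits.pullback.snd f y) :=
      MorphismProperty.of_isPullback (P := @IsProper) (IsPullback.of_hasPullback f y) inferInstance
    haveI := smoothOfRelativeDimension_isStableUnderBaseChange.{0} (n := 2)
    have hFs : SmoothOfRelativeDimension 2 (Limits.pullback.snd f y) :=
      MorphismProperty.of_isPullback (P := @SmoothOfRelativeDimension 2)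
        (IsPullback.of_hasPullback f y) hfs
    refine ⟨TAtlas.fano (T := TF) aF fano_TF hFp hFs, Limits.pullback.fst f y,
      IsPullback.of_hasPullback f y, ?_⟩
    haveI : IsIntegral (Limits.pullback f y) := TAtlas.isIntegral aF
    letI := functionFieldAlgebra (Limits.pullback.snd f y)
    obtain ⟨P, hP, -⟩ := TAtlas.isToric (T := TF) aF
    exact fano_not_semistable _ (not_valuativelySemistable_TF P hP)

end Pool.Agent.H23
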