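import Mathlib

/-!
The Baer-Suzuki theorem for finite groups (proof of Alperin and Lyons).
-/

namespace Pool.Agent.H23.BS

open scoped Pointwise

variable {M : Type*} [Group M] [Finite M] {p : ℕ} [Fact p.Prime]

/-- the step: `S` is a subset of a normal set `K` which consists of the elements of `K` in a subgroup
`D` of the `p`-group `P`; if `P` has further elements of `K`, one of them normalises `S`. -/
theorem step {K S : Set M} (hK : ∀ x ∈ K, ∀ g : M, g * x * g⁻¹ ∈ K) {P : Subgroup M}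
    (hP : IsPGroup p P) {D : Subgroup M} (hD : D ≤ P) (hSD : S ⊆ D)
    (hKD : ∀ x ∈ K, x ∈ D → x ∈ S) (hSK : S ⊆ K) (hne : ∃ x ∈ K, x ∈ P ∧ x ∉ S) :
    ∃ u ∈ K, u ∈ P ∧ u ∉ S ∧ (∀ s ∈ S, u * s * u⁻¹ ∈ S) ∧ (∀ s ∈ S, u⁻¹ * s * u ∈ S) := by
  classical
  obtain ⟨A, ⟨⟨hAP, hDA, hKA⟩, hmax⟩⟩ :=
    (Set.toFinite {A : Subgroup M | A ≤ P ∧ D ≤ A ∧ ∀ x ∈ K, x ∈ A → x ∈ S}).exists_maximal
      ⟨D, hD, le_rfl, hKD⟩
  have hlt : A.subgroupOf P < ⊤ := by
    rw [lt_top_iff_ne_top]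
    intro h
    rw [Subgroup.subgroupOf_eq_top] at h
    obtain ⟨x, hx1, hx2, hx3⟩ := hne
    exact hx3 (hKA x hx1 (h hx2))
  have hnil : Group.IsNilpotent P := hP.isNilpotent
  have hnc := Group.normalizerCondition_of_isNilpotent (G := P) _ hlt
  obtain ⟨w, hw1, hw2⟩ := SetLike.exists_of_lt hnc
  set B : Subgroup M := (Subgroup.normalizer (A.subgroupOf P : Set P)).map P.subtype with hB
  have hAB : A ≤ B := by
    intro a ha
    exact ⟨⟨a, hAP ha⟩, hnc.le (Subgroup.mem_subgroupOf.2 ha), rfl⟩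
  have hBP : B ≤ P := by
    rintro _ ⟨y, _, rfl⟩
    exact y.2
  have hnot : ¬ ∀ x ∈ K, x ∈ B → x ∈ S := by
    intro h
    have h1 : B ≤ A := hmax ⟨hBP, hDA.trans hAB, h⟩ hAB
    exact hw2 (Subgroup.mem_subgroupOf.2 (h1 ⟨w, hw1, rfl⟩))
  push Not at hnot
  obtain ⟨u, huK, ⟨y, hy, rfl⟩, huS⟩ := hnot
  have hAS : ∀ s ∈ S, s ∈ A := fun s hs => hDA (hSD hs)
  refine ⟨_, huK, y.2, huS, fun s hs => ?_, fun s hs => ?_⟩
  · refine hKA _ (hK s (hSK hs) _) ?_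
    have h1 := (Subgroup.mem_normalizer_iff.1 hy ⟨s, hAP (hAS s hs)⟩).1
      (Subgroup.mem_subgroupOf.2 (hAS s hs))
    exact Subgroup.mem_subgroupOf.1 h1
  · have h0 := hK s (hSK hs) ((P.subtype y)⁻¹)
    rw [inv_inv] at h0
    refine hKA _ h0 ?_
    have h1 := (Subgroup.mem_normalizer_iff''.1 hy ⟨s, hAP (hAS s hs)⟩).1
      (Subgroup.mem_subgroupOf.2 (hAS s hs))
    exact Subgroup.mem_subgroupOf.1 h1

omit [Finite M] in
theorem norm_closure {S : Set M} {u : M} (h1 : ∀ s ∈ S, u * s * u⁻¹ ∈ S)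
    (h2 : ∀ s ∈ S, u⁻¹ * s * u ∈ S) : u ∈ Subgroup.normalizer (Subgroup.closure S : Set M) := by
  have key : ∀ v : M, (∀ s ∈ S, v * s * v⁻¹ ∈ S) → ∀ x ∈ Subgroup.closure S,
      v * x * v⁻¹ ∈ Subgroup.closure S := by
    intro v hv x hx
    have : Subgroup.closure S ≤ (Subgroup.closure S).comap (MulAut.conj v).toMonoidHom := by
      rw [Subgroup.closure_le]
      intro s hs
      exact Subgroup.subset_closure (hv s hs)
    exact this hx
  rw [Subgroup.mem_normalizer_iff]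
  intro x
  refine ⟨key u h1 x, fun hx => ?_⟩
  have h3 := key u⁻¹ (fun s hs => by rw [inv_inv]; exact h2 s hs) _ hx
  rw [inv_inv] at h3
  have e : u⁻¹ * (u * x * u⁻¹) * u = x := by group
  rwa [e] at h3

theorem pair {K : Set M} (hK : ∀ x ∈ K, ∀ g : M, g * x * g⁻¹ ∈ K)
    (hp : ∀ x ∈ K, ∀ y ∈ K, IsPGroup p (Subgroup.closure {x, y})) (P Q : Sylow p M) :
    ∀ x ∈ K, x ∈ P → x ∈ Q := by
  classical
  have hcard : ∀ P Q : Sylow p M, (K ∩ (P : Set M)).ncard = (K ∩ (Q : Set M)).ncard := by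
    intro P Q
    obtain ⟨g, hg⟩ := MulAction.exists_smul_eq M P Q
    have hinj : Function.Injective (fun x : M => g * x * g⁻¹) := fun x y h => by
      simpa using h
    have himg : (K ∩ (Q : Set M)) = (fun x : M => g * x * g⁻¹) '' (K ∩ (P : Set M)) := by
      ext x
      constructor
      · rintro ⟨hx1, hx2⟩
        rw [← hg] at hx2
        obtain ⟨y, hy, hyx⟩ : x ∈ ((MulAut.conj g • (P : Subgroup M) : Subgroup M) : Set M) := hx2
        refine ⟨y, ⟨?_, hy⟩, hyx⟩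
        have h5 := hK x hx1 g⁻¹
        have h6 : g⁻¹ * x * g⁻¹⁻¹ = y := by
          rw [← hyx]
          simp [mul_assoc]
        rwa [h6] at h5
      · rintro ⟨y, ⟨hy1, hy2⟩, rfl⟩
        refine ⟨hK y hy1 g, ?_⟩
        rw [← hg]
        show g * y * g⁻¹ ∈ (g • P : Sylow p M)
        rw [Sylow.smul_def]
        exact ⟨y, hy2, rfl⟩
    rw [himg, Set.ncard_image_of_injective _ hinj]
  have hsub : ∀ P Q : Sylow p M, (K ∩ (P : Set M)) ≠ K ∩ (Q : Set M) →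
      ∃ x ∈ K, x ∈ P ∧ x ∉ K ∩ (P : Set M) ∩ (Q : Set M) := by
    intro P Q hne
    by_contra hcon
    push Not at hcon
    refine hne (Set.eq_of_subset_of_ncard_le (fun x hx => ⟨hx.1, ?_⟩) (hcard Q P).le)
    exact (hcon x hx.1 hx.2).2
  suffices hall : ∀ P Q : Sylow p M, (K ∩ (P : Set M)) = K ∩ (Q : Set M) by
    intro x hx hxP
    have h1 : x ∈ K ∩ (P : Set M) := ⟨hx, hxP⟩
    rw [hall P Q] at h1
    exact h1.2
  by_contra hcon
  push Not at hcon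
  obtain ⟨P1, Q1, hPQ1⟩ := hcon
  obtain ⟨⟨P, Q⟩, hPQ, hmax⟩ := Set.exists_max_image
    {r : Sylow p M × Sylow p M | (K ∩ (r.1 : Set M)) ≠ K ∩ (r.2 : Set M)}
    (fun r => (K ∩ (r.1 : Set M) ∩ (r.2 : Set M)).ncard) (Set.toFinite _) ⟨(P1, Q1), hPQ1⟩
  dsimp only at hmax hPQ
  have hPQ' : (K ∩ (P : Set M)) ≠ K ∩ (Q : Set M) := hPQ
  set S : Set M := K ∩ (P : Set M) ∩ (Q : Set M) with hS
  have hDP : Subgroup.closure S ≤ (P : Subgroup M) := by
    rw [Subgroup.closure_le]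
    exact fun x hx => hx.1.2
  have hDQ : Subgroup.closure S ≤ (Q : Subgroup M) := by
    rw [Subgroup.closure_le]
    exact fun x hx => hx.2
  have hKD : ∀ x ∈ K, x ∈ Subgroup.closure S → x ∈ S := fun x hx h =>
    ⟨⟨hx, hDP h⟩, hDQ h⟩
  have hSK : S ⊆ K := fun x hx => hx.1.1
  obtain ⟨x0, hx01, hx02, hx03⟩ := hsub P Q hPQ'
  obtain ⟨y0, hy01, hy02, hy03⟩ := hsub Q P hPQ'.symm
  have hy04 : y0 ∉ S := by
    rintro ⟨⟨h1, h2⟩, h3⟩
    exact hy03 ⟨⟨h1, h3⟩, h2⟩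
  obtain ⟨u, huK, huP, huS, hu1, hu2⟩ := step hK P.isPGroup' hDP Subgroup.subset_closure hKD hSK
    ⟨x0, hx01, hx02, hx03⟩
  obtain ⟨v, hvK, hvQ, hvS, hv1, hv2⟩ := step hK Q.isPGroup' hDQ Subgroup.subset_closure hKD hSK
    ⟨y0, hy01, hy02, hy04⟩
  have hle : Subgroup.closure {u, v} ≤ Subgroup.normalizer (Subgroup.closure S : Set M) := by
    rw [Subgroup.closure_le]
    rintro w (rfl | rfl)
    · exact norm_closure hu1 hu2
    · exact norm_closure hv1 hv2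
  have hDp : IsPGroup p (Subgroup.closure S) := P.isPGroup'.to_le hDP
  obtain ⟨R, hR⟩ := ((hp u huK v hvK).to_sup_of_normal_right' hDp hle).exists_le_sylow
  have huR : u ∈ R := hR (Subgroup.mem_sup_left (Subgroup.subset_closure (by simp)))
  have hvR : v ∈ R := hR (Subgroup.mem_sup_left (Subgroup.subset_closure (by simp)))
  have hSR : ∀ s ∈ S, s ∈ R := fun s hs => hR (Subgroup.mem_sup_right (Subgroup.subset_closure hs))
  have hPR : (K ∩ (P : Set M)) = K ∩ (R : Set M) := by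
    by_contra hne
    have h1 := hmax (P, R) hne
    dsimp only at h1
    refine absurd h1 (not_le.2 (Set.ncard_lt_ncard ?_ (Set.toFinite _)))
    have h2 : S ⊆ K ∩ (P : Set M) ∩ (R : Set M) := fun s hs => ⟨hs.1, hSR s hs⟩
    exact (Set.ssubset_iff_of_subset h2).2 ⟨u, ⟨⟨huK, huP⟩, huR⟩, huS⟩
  have hQR : (K ∩ (Q : Set M)) = K ∩ (R : Set M) := by
    by_contra hne
    have h1 := hmax (Q, R) hne
    dsimp only at h1
    refine absurd h1 (not_le.2 (Set.ncard_lt_ncard ?_ (Set.toFinite _)))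
    have h2 : S ⊆ K ∩ (Q : Set M) ∩ (R : Set M) := fun s hs => ⟨⟨hs.1.1, hs.2⟩, hSR s hs⟩
    exact (Set.ssubset_iff_of_subset h2).2 ⟨v, ⟨⟨hvK, hvQ⟩, hvR⟩, hvS⟩
  exact hPQ' (hPR.trans hQR.symm)

/-- **Baer-Suzuki.** -/
theorem baer_suzuki {b : M} (h : ∀ g : M, IsPGroup p (Subgroup.closure {b, g * b * g⁻¹})) :
    IsPGroup p (Subgroup.normalClosure {b}) := by
  set K : Set M := {x | ∃ g : M, g * b * g⁻¹ = x} with hKdef
  have hK : ∀ x ∈ K, ∀ g : M, g * x * g⁻¹ ∈ K := by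
    rintro _ ⟨k, rfl⟩ g
    exact ⟨g * k, by group⟩
  have hp : ∀ x ∈ K, ∀ y ∈ K, IsPGroup p (Subgroup.closure {x, y}) := by
    rintro _ ⟨k, rfl⟩ _ ⟨l, rfl⟩
    have h1 := (h (k⁻¹ * l)).map (MulAut.conj k).toMonoidHom
    rw [MonoidHom.map_closure] at h1
    have h2 : (MulAut.conj k).toMonoidHom '' {b, k⁻¹ * l * b * (k⁻¹ * l)⁻¹} =
        {k * b * k⁻¹, l * b * l⁻¹} := by
      rw [Set.image_pair]
      congr 1
      simp only [MulEquiv.toMonoidHom_eq_coe, MonoidHom.coe_coe, MulAut.conj_apply]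
      congr 1
      group
    rwa [h2] at h1
  have hb : b ∈ K := ⟨1, by simp⟩
  have hbp : IsPGroup p (Subgroup.closure {b}) := (h 1).to_le (Subgroup.closure_mono (by simp))
  obtain ⟨P, hP⟩ := hbp.exists_le_sylow
  have hbP : b ∈ P := hP (Subgroup.subset_closure (by simp))
  refine P.isPGroup'.to_le ?_
  rw [Subgroup.normalClosure, Subgroup.closure_le]
  intro x hx
  rw [Group.mem_conjugatesOfSet_iff] at hx
  obtain ⟨a, ha, hax⟩ := hx
  rw [Set.mem_singleton_iff] at ha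
  subst ha
  obtain ⟨g, hg⟩ := isConj_iff.1 hax
  have h1 : x ∈ (g • P : Sylow p M) := by
    rw [Sylow.smul_def]
    exact ⟨a, hbP, hg⟩
  exact pair hK hp (g • P) P x ⟨g, hg⟩ h1

end Pool.Agent.H23.BS
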