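import Mathlib

/-!
# K-semistability of Fano varieties over the complex numbers: definitions

Smooth projective varieties with ample anticanonical divisor, pluri-anticanonical sections,
prime divisors over a variety, log discrepancies, the invariant `S`, and the valuative criterion
of Fujita and Li.
-/

open AlgebraicGeometry CategoryTheory MeasureTheory Filter
open scoped ENNReal

noncomputable section

namespace Pool.Agent.H23

/-! ## Birational algebra in a function field -/

section FunctionField

variable (K : Type) [Field K] [Algebra ℂ K] (n : ℕ)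

/-- Rational `n`-forms of the function field `K` over `ℂ`: the `K`-vector space `⋀ⁿ Ω_{K/ℂ}`. -/
abbrev RatForm : Type := ⋀[K]^n Ω[K⁄ℂ]

variable {K}

/-- The regular `n`-forms of a `ℂ`-subalgebra `A` of `K`, that is the image of
`⋀ⁿ Ω_{A/ℂ}` in `⋀ⁿ Ω_{K/ℂ}`: all finite sums of forms `c da₁ ∧ ⋯ ∧ daₙ` with
`c, a₁, …, aₙ ∈ A`. -/
def regularForms (A : Subalgebra ℂ K) : AddSubgroup (RatForm K n) :=
  AddSubgroup.closure {ω | ∃ (c : K) (a : Fin n → K), c ∈ A ∧ (∀ i, a i ∈ A) ∧
    ω = c • exteriorPower.ιMulti K n (fun i => KaehlerDifferential.D ℂ K (a i))}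

variable {ι : Type} (O : ι → Subalgebra ℂ K)

/-- Let `O x`, `x : ι`, be the local rings of a smooth variety `X` of dimension `n` with function
field `K`. A rational section of `-m K_X` is a function `φ` on rational `n`-forms with
`φ (g • ω) = g ^ m * φ ω`; it is regular at `x` if it takes the regular `n`-forms at `x` to
`O x`. This is the space `H⁰(X, -m K_X)` of everywhere regular sections. -/
def antiSections (m : ℕ) : Submodule ℂ (RatForm K n → K) where
  carrier := {φ | (∀ (g : K) (ω : RatForm K n), φ (g • ω) = g ^ m * φ ω) ∧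
    ∀ x, ∀ ω ∈ regularForms n (O x), φ ω ∈ O x}
  add_mem' := by
    rintro φ ψ ⟨h1, h2⟩ ⟨h3, h4⟩
    refine ⟨fun g ω => ?_, fun x ω hω => ?_⟩
    · simp only [Pi.add_apply, h1, h3, mul_add]
    · exact (O x).add_mem (h2 x ω hω) (h4 x ω hω)
  zero_mem' := ⟨fun g ω => by simp, fun x ω _ => (O x).zero_mem⟩
  smul_mem' := by
    rintro c φ ⟨h1, h2⟩
    refine ⟨fun g ω => ?_, fun x ω hω => ?_⟩
    · simp only [Pi.smul_apply, h1, mul_smul_comm]
    · exact (O x).smul_mem (h2 x ω hω) c

/-- The anticanonical volume `vol(-K_X)`. -/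
def antiVolume : ℝ≥0∞ :=
  limsup (fun m : ℕ => (Module.finrank ℂ (antiSections n O m) : ℝ≥0∞) /
    ((m : ℝ≥0∞) ^ n / (n.factorial : ℝ≥0∞))) atTop

/-- The valuation ring of a valuation which is trivial on `ℂ`. -/
def valRing (v : AddValuation K (WithTop ℤ)) (hv : ∀ c : ℂ, 0 ≤ v (algebraMap ℂ K c)) :
    Subalgebra ℂ K where
  carrier := {f | 0 ≤ v f}
  mul_mem' := fun {a b} ha hb => by
    simp only [Set.mem_ofPred_eq, AddValuation.map_mul] at *
    exact add_nonneg ha hb
  add_mem' := fun {a b} ha hb => by
    simp only [Set.mem_ofPred_eq] at *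
    exact le_trans (le_min ha hb) (v.map_add a b)
  algebraMap_mem' := hv

variable (K) in
/-- A prime divisor over a variety of dimension `n` with function field `K`, given by its order
function: a discrete valuation of `K`, normalised to have value group `ℤ`, trivial on `ℂ`, whose
residue field has transcendence degree `n - 1` over `ℂ` (that is, there are `n - 1` elements of
the valuation ring whose residue classes are algebraically independent over `ℂ`). -/
structure PrimeDivisorOver where
  /-- the order of vanishing along the divisor -/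
  ord : AddValuation K (WithTop ℤ)
  ord_const : ∀ c : ℂ, 0 ≤ ord (algebraMap ℂ K c)
  exists_uniformizer : ∃ t : K, ord t = 1
  residue_trdeg : ∃ s : Fin (n - 1) → K, (∀ i, 0 ≤ ord (s i)) ∧
    ∀ p : MvPolynomial (Fin (n - 1)) ℂ, p ≠ 0 → ord (MvPolynomial.aeval s p) = 0

variable {n}

/-- The local ring of the generic point of a prime divisor over `X`. -/
def PrimeDivisorOver.localRing (E : PrimeDivisorOver K n) : Subalgebra ℂ K :=
  valRing E.ord E.ord_const

/-- `x` is the centre of the prime divisor `E` over `X`: the local ring of `E` dominates the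
local ring of `x`. -/
def PrimeDivisorOver.HasCenter (E : PrimeDivisorOver K n) (x : ι) : Prop :=
  ∀ f ∈ O x, 0 ≤ E.ord f ∧ (E.ord f = 0 → f⁻¹ ∈ O x)

/-- The log discrepancy `A_X(E) = 1 + ord_E(K_{W/X})` of a prime divisor `E` over `X` with centre
`x`. Here `ord_E(K_{W/X})` is the largest `k` such that every regular `n`-form at `x` is
a function of order `k` along `E` times a regular `n`-form at the generic point of `E`. -/
def logDiscrepancy (E : PrimeDivisorOver K n) (x : ι) : ℕ :=
  1 + sSup {k : ℕ | ∀ ω ∈ regularForms n (O x), ∃ t : K, ∃ η ∈ regularForms n E.localRing,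
    E.ord t = k ∧ ω = t • η}

/-- The sections of `-m K_X` vanishing to order at least `k` along `E`, that is
`H⁰(X, -m K_X - k E)`, for a prime divisor `E` over `X` with centre `x`. -/
def antiSectionsGE (E : PrimeDivisorOver K n) (x : ι) (m k : ℕ) :
    Submodule ℂ (RatForm K n → K) where
  carrier := {φ | φ ∈ antiSections n O m ∧ ∀ ω ∈ regularForms n (O x), (k : WithTop ℤ) ≤ E.ord (φ ω)}
  add_mem' := by
    rintro φ ψ ⟨h1, h2⟩ ⟨h3, h4⟩
    exact ⟨add_mem h1 h3, fun ω hω => le_trans (le_min (h2 ω hω) (h4 ω hω)) (E.ord.map_add _ _)⟩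
  zero_mem' := ⟨zero_mem _, fun ω _ => by simp⟩
  smul_mem' := by
    rintro c φ ⟨h1, h2⟩
    refine ⟨Submodule.smul_mem _ c h1, fun ω hω => ?_⟩
    simp only [Pi.smul_apply, Algebra.smul_def, AddValuation.map_mul]
    exact le_trans (by simpa using h2 ω hω) (add_le_add (E.ord_const c) le_rfl)

/-- The volume `vol(-K_X - t E)` for real `t ≥ 0`. -/
def volAlong (E : PrimeDivisorOver K n) (x : ι) (t : ℝ) : ℝ≥0∞ :=
  limsup (fun m : ℕ => (Module.finrank ℂ (antiSectionsGE O E x m ⌈(m : ℝ) * t⌉₊) : ℝ≥0∞) /
    ((m : ℝ≥0∞) ^ n / (n.factorial : ℝ≥0∞))) atTop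

/-- The invariant `S_X(E) = (1 / vol(-K_X)) ∫₀^∞ vol(-K_X - t E) dt`. -/
def sInvariant (E : PrimeDivisorOver K n) (x : ι) : ℝ≥0∞ :=
  (∫⁻ t in Set.Ioi (0 : ℝ), volAlong O E x t) / antiVolume n O

variable (n)

/-- The valuative criterion for K-semistability (Fujita, Li): `A_X(E) ≥ S_X(E)` for every prime
divisor `E` over `X`. -/
def ValuativelySemistable : Prop :=
  ∀ (E : PrimeDivisorOver K n) (x : ι), E.HasCenter O x →
    sInvariant O E x ≤ (logDiscrepancy O E x : ℝ≥0∞)

end FunctionField

/-! ## Varieties -/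

section Scheme

variable {X : Scheme.{0}} (s : X ⟶ Spec (.of ℂ)) [IsIntegral X]

/-- The function field of a complex variety is a `ℂ`-algebra. -/
@[reducible]
def functionFieldAlgebra : Algebra ℂ X.functionField :=
  RingHom.toAlgebra ((Scheme.ΓSpecIso (.of ℂ)).inv ≫ s.appTop ≫
    X.presheaf.germ ⊤ (genericPoint X) (TopologicalSpace.Opens.mem_top _)).hom

/-- The local ring of a complex variety at a point, as a subalgebra of the function field. -/
def localRingAt (x : X) :
    letI := functionFieldAlgebra s
    Subalgebra ℂ X.functionField :=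
  letI := functionFieldAlgebra s
  { (algebraMap (X.presheaf.stalk x) X.functionField).range with
    algebraMap_mem' := fun c => by
      refine ⟨((Scheme.ΓSpecIso (.of ℂ)).inv ≫ s.appTop ≫
        X.presheaf.germ ⊤ x (TopologicalSpace.Opens.mem_top _)).hom c, ?_⟩
      change (((Scheme.ΓSpecIso (.of ℂ)).inv ≫ s.appTop ≫
        X.presheaf.germ ⊤ x (TopologicalSpace.Opens.mem_top _)) ≫
          X.presheaf.stalkSpecializes ((genericPoint_spec X).specializes trivial)).hom c =
        ((Scheme.ΓSpecIso (.of ℂ)).inv ≫ s.appTop ≫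
          X.presheaf.germ ⊤ (genericPoint X) (TopologicalSpace.Opens.mem_top _)).hom c
      rw [Category.assoc, Category.assoc, X.presheaf.germ_stalkSpecializes] }

/-- `-K_X` is ample: every point of `X` has an open affine neighbourhood of the form
`X_φ = {y | φ generates the sheaf of sections of -m K_X at y}` with `m ≥ 1` and
`φ ∈ H⁰(X, -m K_X)`. -/
def AntiAmple (n : ℕ) : Prop :=
  letI := functionFieldAlgebra s
  ∀ x : X, ∃ m : ℕ, 1 ≤ m ∧ ∃ φ ∈ antiSections n (localRingAt s) m, ∃ U : X.Opens,
    IsAffineOpen U ∧ x ∈ U ∧ ∀ y : X, y ∈ U ↔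
      ∃ ω ∈ regularForms n (localRingAt s y), φ ω ≠ 0 ∧ (φ ω)⁻¹ ∈ localRingAt s y

end Scheme

/-- A Fano variety of dimension `n` over `ℂ`: a smooth projective variety of dimension `n` with
ample anticanonical divisor. -/
structure FanoVariety (n : ℕ) where
  /-- the underlying scheme -/
  X : Scheme.{0}
  /-- the structure morphism -/
  str : X ⟶ Spec (.of ℂ)
  [integral : IsIntegral X]
  proper : IsProper str
  smooth : SmoothOfRelativeDimension n str
  ample : AntiAmple str n

attribute [instance] FanoVariety.integral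

/-- K-semistability of a Fano variety, by the valuative criterion of Fujita and Li. -/
def FanoVariety.KSemistable {n : ℕ} (V : FanoVariety n) : Prop :=
  letI := functionFieldAlgebra V.str
  ValuativelySemistable n (localRingAt V.str)

end Pool.Agent.H23
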