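import Mathlib

/-!
# Subalgebras of Laurent polynomial rings spanned by monomials
-/

noncomputable section

namespace Pool.Agent.H23

open AddMonoidAlgebra

/-- Laurent polynomials in `n` variables -/
abbrev LP (n : ℕ) : Type := AddMonoidAlgebra ℂ (Fin n → ℤ)

variable {n : ℕ}

/-- the monomial with exponent `u` -/
def mono (u : Fin n → ℤ) : LP n := single u 1

@[simp] lemma mono_zero : mono (0 : Fin n → ℤ) = 1 := rfl

lemma mono_add (u v : Fin n → ℤ) : mono (u + v) = mono u * mono v := by
  simp [mono, single_mul_single]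

lemma mono_nsmul (k : ℕ) (u : Fin n → ℤ) : mono (k • u) = mono u ^ k := by
  simp [mono, single_pow]

lemma mono_ne_zero (u : Fin n → ℤ) : mono u ≠ 0 := by
  simp [mono]

lemma mono_mul_neg (u : Fin n → ℤ) : mono u * mono (-u) = 1 := by
  rw [← mono_add, add_neg_cancel, mono_zero]

lemma mono_injective : Function.Injective (mono : (Fin n → ℤ) → LP n) := fun u v h => by
  simpa [mono, single_left_inj (R := ℂ) (one_ne_zero)] using h

lemma isUnit_mono (u : Fin n → ℤ) : IsUnit (mono u) :=
  IsUnit.of_mul_eq_one _ (mono_mul_neg u)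

instance : IsDomain (LP n) := inferInstance

lemma coeff_mul_mono (f : LP n) (u v : Fin n → ℤ) : (f * mono u).coeff v = f.coeff (v - u) := by
  rw [mono, coeff_mul_single_apply]
  simp [sub_eq_add_neg]

lemma sum_mono (f : LP n) : f = ∑ u ∈ f.coeff.support, f.coeff u • mono u := by
  conv_lhs => rw [← sum_coeff_single f]
  rw [Finsupp.sum]
  apply Finset.sum_congr rfl
  intro u _
  simp [mono, smul_single]

/-- Laurent polynomials with exponents in a monoid `S` -/
def suppAlg (S : AddSubmonoid (Fin n → ℤ)) : Subalgebra ℂ (LP n) where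
  carrier := {f | ∀ u, f.coeff u ≠ 0 → u ∈ S}
  mul_mem' := by
    classical
    intro f g hf hg u hu
    by_contra hne
    apply hu
    rw [coeff_mul]
    apply Finset.sum_eq_zero
    intro a ha
    apply Finset.sum_eq_zero
    intro b hb
    dsimp only
    split_ifs with hab
    · exfalso
      apply hne
      rw [← hab]
      exact S.add_mem (hf a (Finsupp.mem_support_iff.1 ha)) (hg b (Finsupp.mem_support_iff.1 hb))
    · rfl
  add_mem' := by
    intro f g hf hg u hu
    by_cases h : f.coeff u = 0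
    · exact hg u (fun h' => hu (by simp [coeff_add, h, h']))
    · exact hf u h
  algebraMap_mem' := by
    classical
    intro c u hu
    rw [coe_algebraMap, Function.comp_apply, coeff_single, Finsupp.single_apply] at hu
    split_ifs at hu with h
    · rw [← h]; exact S.zero_mem
    · exact absurd rfl hu

lemma mem_suppAlg {S : AddSubmonoid (Fin n → ℤ)} {f : LP n} :
    f ∈ suppAlg S ↔ ∀ u, f.coeff u ≠ 0 → u ∈ S := Iff.rfl

lemma mono_mem_suppAlg {S : AddSubmonoid (Fin n → ℤ)} {u : Fin n → ℤ} :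
    mono u ∈ suppAlg S ↔ u ∈ S := by
  classical
  rw [mem_suppAlg]
  constructor
  · intro h
    exact h u (by simp [mono])
  · intro h v hv
    rw [mono, coeff_single, Finsupp.single_apply] at hv
    split_ifs at hv with h'
    · rwa [← h']
    · exact absurd rfl hv

lemma suppAlg_mono {S T : AddSubmonoid (Fin n → ℤ)} (h : S ≤ T) : suppAlg S ≤ suppAlg T :=
  fun _ hf u hu => h (hf u hu)

lemma suppAlg_closure (G : Set (Fin n → ℤ)) :
    suppAlg (AddSubmonoid.closure G) = Algebra.adjoin ℂ (mono '' G) := by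
  apply le_antisymm
  · intro f hf
    rw [sum_mono f]
    apply sum_mem
    intro u hu
    apply Subalgebra.smul_mem
    have hu' := hf u (Finsupp.mem_support_iff.1 hu)
    clear hu hf
    induction hu' using AddSubmonoid.closure_induction with
    | mem x hx => exact Algebra.subset_adjoin ⟨x, hx, rfl⟩
    | zero => rw [mono_zero]; exact one_mem _
    | add x y _ _ hx hy => rw [mono_add]; exact mul_mem hx hy
  · rw [Algebra.adjoin_le_iff]
    rintro _ ⟨u, hu, rfl⟩
    exact mono_mem_suppAlg.2 (AddSubmonoid.subset_closure hu)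

lemma suppAlg_sup (S T : AddSubmonoid (Fin n → ℤ)) :
    suppAlg (S ⊔ T) = suppAlg S ⊔ suppAlg T := by
  have h1 : S ⊔ T = AddSubmonoid.closure ((S : Set _) ∪ T) := by
    rw [AddSubmonoid.closure_union, AddSubmonoid.closure_eq, AddSubmonoid.closure_eq]
  apply le_antisymm
  · rw [h1, suppAlg_closure, Algebra.adjoin_le_iff]
    rintro _ ⟨u, hu | hu, rfl⟩
    · exact (le_sup_left : suppAlg S ≤ _) (mono_mem_suppAlg.2 hu)
    · exact (le_sup_right : suppAlg T ≤ _) (mono_mem_suppAlg.2 hu)
  · exact sup_le (suppAlg_mono le_sup_left) (suppAlg_mono le_sup_right)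

lemma suppAlg_top : suppAlg (⊤ : AddSubmonoid (Fin n → ℤ)) = ⊤ := by
  ext f; simp [mem_suppAlg]

/-- induction for elements of `suppAlg S` -/
lemma suppAlg_induction {S : AddSubmonoid (Fin n → ℤ)} {P : suppAlg S → Prop}
    (hadd : ∀ f g, P f → P g → P (f + g)) (hsmul : ∀ (c : ℂ) f, P f → P (c • f)) (h0 : P 0)
    (hm : ∀ u (hu : u ∈ S), P ⟨mono u, mono_mem_suppAlg.2 hu⟩) (f : suppAlg S) : P f := by
  classical
  obtain ⟨f, hf⟩ := f
  have key : ∀ s : Finset (Fin n → ℤ), (∀ u ∈ s, u ∈ S) →
      ∀ h : ∑ u ∈ s, f.coeff u • mono u ∈ suppAlg S, P ⟨∑ u ∈ s, f.coeff u • mono u, h⟩ := by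
    intro s
    induction s using Finset.induction_on with
    | empty =>
      intro _ h
      have h3 : (⟨∑ u ∈ ∅, f.coeff u • mono u, h⟩ : suppAlg S) = 0 := Subtype.ext (by simp)
      rw [h3]
      exact h0
    | insert a s ha ih =>
      intro hs h
      have h1 : ∑ u ∈ s, f.coeff u • mono u ∈ suppAlg S :=
        sum_mem fun u hu => Subalgebra.smul_mem _
          (mono_mem_suppAlg.2 (hs u (Finset.mem_insert_of_mem hu))) _
      have ha' : a ∈ S := hs a (Finset.mem_insert_self a s)
      have h2 := ih (fun u hu => hs u (Finset.mem_insert_of_mem hu)) h1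
      have h3 : (⟨∑ u ∈ insert a s, f.coeff u • mono u, h⟩ : suppAlg S) =
          f.coeff a • ⟨mono a, mono_mem_suppAlg.2 ha'⟩ + ⟨∑ u ∈ s, f.coeff u • mono u, h1⟩ :=
        Subtype.ext (Finset.sum_insert ha)
      rw [h3]
      exact hadd _ _ (hsmul _ _ (hm a ha')) h2
  have h3 : f ∈ suppAlg S := hf
  have h1 := key f.coeff.support fun u hu => hf u (Finsupp.mem_support_iff.1 hu)
  rw [← sum_mono f] at h1
  exact h1 hf

/-- Two ring homomorphisms from a monomial algebra agree if they agree on constants and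
monomials. -/
lemma suppAlg_hom_ext {S : AddSubmonoid (Fin n → ℤ)} {B : Type*} [Semiring B]
    {f g : suppAlg S →+* B}
    (h1 : ∀ c : ℂ, f (algebraMap ℂ _ c) = g (algebraMap ℂ _ c))
    (h2 : ∀ u (hu : u ∈ S), f ⟨mono u, mono_mem_suppAlg.2 hu⟩ = g ⟨mono u, mono_mem_suppAlg.2 hu⟩) :
    f = g := by
  ext a
  induction a using suppAlg_induction with
  | hadd a b ha hb => rw [map_add, map_add, ha, hb]
  | hsmul c a ha => rw [Algebra.smul_def, map_mul, map_mul, h1, ha]
  | h0 => rw [map_zero, map_zero]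
  | hm u hu => exact h2 u hu

lemma suppAlg_algHom_ext {S : AddSubmonoid (Fin n → ℤ)} {B : Type*} [Semiring B] [Algebra ℂ B]
    {f g : suppAlg S →ₐ[ℂ] B}
    (h2 : ∀ u (hu : u ∈ S), f ⟨mono u, mono_mem_suppAlg.2 hu⟩ = g ⟨mono u, mono_mem_suppAlg.2 hu⟩) :
    f = g := by
  apply AlgHom.coe_ringHom_injective
  apply suppAlg_hom_ext
  · intro c
    simp
  · exact h2

end Pool.Agent.H23
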