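import Mathlib
import Pool.Agent.H23.Defs

/-!
# Volumes of filtered toric linear series

`volume_integral_le`: for a decreasing multiplicative filtration `F` of the ring of sections of a
toric variety (`F m 0` spanned by the Laurent monomials in the `m`-th dilate of a polytope),
the integral of the volume function is at most `a` times the volume, when the corresponding
inequality of finite sums holds.  The proof compares limsup and liminf through leading exponents.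
-/

open AlgebraicGeometry CategoryTheory MeasureTheory Filter
open scoped ENNReal

noncomputable section

namespace Pool.Agent.H23

section ModuleB

section PartB1


/-! ### Leading exponents -/

/-- `u` is the leading exponent of `f` for the lexicographic order. -/
def LeadB {n : ℕ} (f : AddMonoidAlgebra ℂ (Fin n → ℤ)) (u : Fin n → ℤ) : Prop :=
  f.coeff u ≠ 0 ∧ ∀ v, f.coeff v ≠ 0 → toLex v ≤ toLex u

lemma exists_leadB {n : ℕ} {f : AddMonoidAlgebra ℂ (Fin n → ℤ)} (hf : f ≠ 0) : ∃ u, LeadB f u := by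
  have hne : f.coeff.support.Nonempty := by
    rw [Finsupp.support_nonempty_iff]
    exact fun h => hf (AddMonoidAlgebra.coeff_eq_zero.1 h)
  obtain ⟨u, hu, hmax⟩ := Finset.exists_max_image f.coeff.support (fun v => toLex v) hne
  exact ⟨u, Finsupp.mem_support_iff.1 hu, fun v hv => hmax v (Finsupp.mem_support_iff.2 hv)⟩

lemma leadB_mul {n : ℕ} {f g : AddMonoidAlgebra ℂ (Fin n → ℤ)} {u v : Fin n → ℤ}
    (hf : LeadB f u) (hg : LeadB g v) : LeadB (f * g) (u + v) := by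
  classical
  constructor
  · rw [AddMonoidAlgebra.coeff_mul_apply_left, Finsupp.sum,
      Finset.sum_eq_single_of_mem u (Finsupp.mem_support_iff.2 hf.1)]
    · rw [neg_add_cancel_left]
      exact mul_ne_zero hf.1 hg.1
    · intro h hh hne
      by_contra h0
      have h1 : g.coeff (-h + (u + v)) ≠ 0 := fun h2 => h0 (by rw [h2, mul_zero])
      have h2 := hg.2 _ h1
      have h3 := hf.2 h (Finsupp.mem_support_iff.1 hh)
      apply hne
      have h4 : toLex u ≤ toLex h := by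
        have h5 : toLex (-h + (u + v)) = - toLex h + toLex u + toLex v := by
          rw [← add_assoc]; rfl
        rw [h5] at h2
        have h6 : - toLex h + toLex u ≤ 0 := by
          simpa using h2
        rw [neg_add_nonpos_iff] at h6
        exact h6
      exact toLex.injective (le_antisymm h3 h4)
  · intro w hw
    rw [AddMonoidAlgebra.coeff_mul_apply_left, Finsupp.sum] at hw
    obtain ⟨h, hh, hne⟩ := Finset.exists_ne_zero_of_sum_ne_zero hw
    have h1 : g.coeff (-h + w) ≠ 0 := fun h2 => hne (by rw [h2, mul_zero])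
    have h2 := hg.2 _ h1
    have h3 := hf.2 h (Finsupp.mem_support_iff.1 hh)
    have h4 : toLex w = toLex h + toLex (-h + w) := by
      rw [← toLex_add, add_neg_cancel_left]
    rw [h4, toLex_add]
    exact add_le_add h3 h2

lemma leadB_single {n : ℕ} (u : Fin n → ℤ) :
    LeadB (AddMonoidAlgebra.single u (1 : ℂ)) u := by
  constructor
  · simp [AddMonoidAlgebra.coeff_single]
  · intro v hv
    rw [AddMonoidAlgebra.coeff_single] at hv
    by_cases h : u = v
    · rw [h]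
    · exact absurd (Finsupp.single_eq_of_ne (fun h' => h h'.symm)) hv

lemma leadB_one {n : ℕ} : LeadB (1 : AddMonoidAlgebra ℂ (Fin n → ℤ)) 0 := by
  rw [AddMonoidAlgebra.one_def]
  exact leadB_single 0

lemma leadB_pow {n : ℕ} {f : AddMonoidAlgebra ℂ (Fin n → ℤ)} {u : Fin n → ℤ}
    (hf : LeadB f u) (N : ℕ) : LeadB (f ^ N) (N • u) := by
  induction N with
  | zero => simpa using leadB_one
  | succ N ih =>
    rw [pow_succ, add_smul, one_smul]
    exact leadB_mul ih hf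

lemma leadB_prod {n : ℕ} (A : Finset (Fin n → ℤ))
    (f : (Fin n → ℤ) → AddMonoidAlgebra ℂ (Fin n → ℤ)) (N : (Fin n → ℤ) → ℕ)
    (hf : ∀ a ∈ A, LeadB (f a) a) :
    LeadB (∏ a ∈ A, f a ^ N a) (∑ a ∈ A, N a • a) := by
  classical
  induction A using Finset.induction_on with
  | empty => simpa using leadB_one
  | insert a s ha ih =>
    rw [Finset.prod_insert ha, Finset.sum_insert ha]
    exact leadB_mul (leadB_pow (hf a (Finset.mem_insert_self _ _)) _)
      (ih (fun b hb => hf b (Finset.mem_insert_of_mem hb)))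

/-- the dimension of a space is at most the number of leading exponents -/
lemma finrank_le_of_leadB {n : ℕ} (W : Submodule ℂ (AddMonoidAlgebra ℂ (Fin n → ℤ)))
    (A : Finset (Fin n → ℤ)) (hA : ∀ f ∈ W, f ≠ 0 → ∃ u ∈ A, LeadB f u) :
    Module.finrank ℂ W ≤ A.card := by
  classical
  let φ : W →ₗ[ℂ] (A → ℂ) :=
    { toFun := fun f a => f.1.coeff a.1
      map_add' := by
        intro f g; funext a; simp [AddMonoidAlgebra.coeff_add]
      map_smul' := by
        intro c f; funext a; simp [AddMonoidAlgebra.coeff_smul] }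
  have hφ : Function.Injective φ := by
    rw [← LinearMap.ker_eq_bot, LinearMap.ker_eq_bot']
    intro f hf
    by_contra hne
    obtain ⟨u, hu, hlead⟩ := hA f.1 f.2 (fun h => hne (Subtype.ext h))
    exact hlead.1 (congrFun hf ⟨u, hu⟩)
  have := LinearMap.finrank_le_finrank_of_injective hφ
  simpa using this

lemma finite_of_supp {n : ℕ} (W : Submodule ℂ (AddMonoidAlgebra ℂ (Fin n → ℤ)))
    (A : Finset (Fin n → ℤ)) (hA : ∀ f ∈ W, ∀ u, f.coeff u ≠ 0 → u ∈ A) :
    Module.Finite ℂ W := by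
  classical
  let φ : W →ₗ[ℂ] (A → ℂ) :=
    { toFun := fun f a => f.1.coeff a.1
      map_add' := by
        intro f g; funext a; simp [AddMonoidAlgebra.coeff_add]
      map_smul' := by
        intro c f; funext a; simp [AddMonoidAlgebra.coeff_smul] }
  have hφ : Function.Injective φ := by
    rw [← LinearMap.ker_eq_bot, LinearMap.ker_eq_bot']
    intro f hf
    by_contra hne
    obtain ⟨u, hlead⟩ := exists_leadB (f := f.1) (fun h => hne (Subtype.ext h))
    exact hlead.1 (congrFun hf ⟨u, hA f.1 f.2 u hlead.1⟩)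
  exact Module.Finite.of_injective φ hφ

/-- elements with distinct leading exponents are independent -/
lemma card_le_of_leadB {n : ℕ} (V : Submodule ℂ (AddMonoidAlgebra ℂ (Fin n → ℤ)))
    [Module.Finite ℂ V] (B : Finset (Fin n → ℤ)) (hB : ∀ u ∈ B, ∃ f ∈ V, LeadB f u) :
    B.card ≤ Module.finrank ℂ V := by
  classical
  choose f hfV hf using hB
  have hli : LinearIndependent ℂ (fun u : B => (⟨f u.1 u.2, hfV u.1 u.2⟩ : V)) := by
    rw [linearIndependent_iff']
    intro s c hsum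
    by_contra hcon
    push Not at hcon
    obtain ⟨u1, hu1, hcu1⟩ := hcon
    obtain ⟨u0, hu0, hmax⟩ := Finset.exists_max_image (s.filter (fun u => c u ≠ 0))
      (fun u => toLex u.1) ⟨u1, Finset.mem_filter.2 ⟨hu1, hcu1⟩⟩
    rw [Finset.mem_filter] at hu0
    have h1 : (∑ u ∈ s, c u • (⟨f u.1 u.2, hfV u.1 u.2⟩ : V)).1.coeff u0.1 = 0 := by
      rw [hsum]; simp
    have h2 : (∑ u ∈ s, c u • (⟨f u.1 u.2, hfV u.1 u.2⟩ : V)).1.coeff u0.1 =
        ∑ u ∈ s, c u * (f u.1 u.2).coeff u0.1 := by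
      rw [Submodule.coe_sum, AddMonoidAlgebra.coeff_sum, Finsupp.finsetSum_apply]
      rfl
    rw [h2, Finset.sum_eq_single_of_mem u0 hu0.1] at h1
    · rcases mul_eq_zero.1 h1 with h | h
      · exact hu0.2 h
      · exact (hf u0.1 u0.2).1 h
    · intro u hu hne
      by_cases hcu : c u = 0
      · rw [hcu, zero_mul]
      · have h3 := hmax u (Finset.mem_filter.2 ⟨hu, hcu⟩)
        by_contra h4
        have h5 : (f u.1 u.2).coeff u0.1 ≠ 0 := fun h => h4 (by rw [h, mul_zero])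
        have h6 := (hf u.1 u.2).2 _ h5
        exact hne (Subtype.ext (toLex.injective (le_antisymm h3 h6)))
  have := hli.fintype_card_le_finrank
  simpa using this

end PartB1

section PartB2


/-! ### Lattice points in convex hulls -/

/-- integer vectors as real vectors -/
def toRB {n : ℕ} (u : Fin n → ℤ) : Fin n → ℝ := fun i => (u i : ℝ)

lemma toRB_add {n : ℕ} (u v : Fin n → ℤ) : toRB (u + v) = toRB u + toRB v := by
  funext i; simp [toRB]

lemma toRB_injective {n : ℕ} : Function.Injective (toRB (n := n)) := by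
  intro u v h
  funext i
  have := congrFun h i
  simpa [toRB] using this

/-- the convex hull of a finite set of integer vectors -/
def hullB {n : ℕ} (A : Finset (Fin n → ℤ)) : Set (Fin n → ℝ) :=
  convexHull ℝ ((A.image toRB : Finset (Fin n → ℝ)) : Set (Fin n → ℝ))

lemma convex_hullB {n : ℕ} (A : Finset (Fin n → ℤ)) : Convex ℝ (hullB A) := convex_convexHull ℝ _

lemma mem_hullB {n : ℕ} {A : Finset (Fin n → ℤ)} {a : Fin n → ℤ} (ha : a ∈ A) :
    toRB a ∈ hullB A :=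
  subset_convexHull ℝ _ (Finset.mem_coe.2 (Finset.mem_image_of_mem _ ha))

lemma weightsB {n : ℕ} {A : Finset (Fin n → ℤ)} {x : Fin n → ℝ} (hx : x ∈ hullB A) :
    ∃ w : (Fin n → ℤ) → ℝ, (∀ a ∈ A, 0 ≤ w a) ∧ ∑ a ∈ A, w a = 1 ∧
      ∑ a ∈ A, w a • toRB a = x := by
  classical
  rw [hullB, Finset.mem_convexHull'] at hx
  obtain ⟨w, hw0, hw1, hwx⟩ := hx
  refine ⟨fun a => w (toRB a), fun a ha => hw0 _ (Finset.mem_image_of_mem _ ha), ?_, ?_⟩
  · rw [Finset.sum_image (fun a _ b _ h => toRB_injective h)] at hw1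
    exact hw1
  · rw [Finset.sum_image (fun a _ b _ h => toRB_injective h)] at hwx
    exact hwx

/-- the integer vectors with entries in `[-N, N]` -/
def boxB (n N : ℕ) : Finset (Fin n → ℤ) :=
  Fintype.piFinset fun _ => Finset.Icc (-(N : ℤ)) (N : ℤ)

/-- the vertices of the unit cube -/
def cubeB (n : ℕ) : Finset (Fin n → ℤ) := Fintype.piFinset fun _ => ({0, 1} : Finset ℤ)

lemma card_cubeB (n : ℕ) : (cubeB n).card = 2 ^ n := by
  simp [cubeB, Fintype.card_piFinset]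

open scoped Classical in
lemma bad_cardB {n N : ℕ} {A : Finset (Fin n → ℤ)} (hA : A ⊆ boxB n N) {ε : Fin n → ℤ}
    (hε : ε ∈ cubeB n) (hε0 : ε ≠ 0) :
    (A.filter (fun a => toRB (a + ε) ∉ hullB A)).card ≤ (4 * N + 1) ^ (n - 1) := by
  have hε' : ∀ i, ε i = 0 ∨ ε i = 1 := by
    intro i
    have := Fintype.mem_piFinset.1 hε i
    simpa using this
  obtain ⟨j, hj⟩ : ∃ j, ε j = 1 := by
    by_contra hcon
    push Not at hcon
    exact hε0 (funext fun i => (hε' i).resolve_right (hcon i))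
  have hcard : (Fintype.piFinset (fun i : Fin n => if i = j then ({0} : Finset ℤ) else
      Finset.Icc (-(2 * N : ℤ)) (2 * N : ℤ))).card = (4 * N + 1) ^ (n - 1) := by
    rw [Fintype.card_piFinset, ← Finset.mul_prod_erase Finset.univ _ (Finset.mem_univ j)]
    rw [if_pos rfl, Finset.card_singleton, one_mul]
    rw [Finset.prod_congr rfl (g := fun _ => 4 * N + 1)]
    · rw [Finset.prod_const, Finset.card_erase_of_mem (Finset.mem_univ j), Finset.card_univ,
        Fintype.card_fin]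
    · intro i hi
      rw [if_neg (Finset.ne_of_mem_erase hi), Int.card_Icc]
      omega
  rw [← hcard]
  refine Finset.card_le_card_of_injOn (fun a => a - a j • ε) ?_ ?_
  · intro a ha
    have ha' := Finset.mem_filter.1 (Finset.mem_coe.1 ha)
    have hbox := fun i => Finset.mem_Icc.1 (Fintype.mem_piFinset.1 (hA ha'.1) i)
    refine Finset.mem_coe.2 (Fintype.mem_piFinset.2 fun i => ?_)
    by_cases hi : i = j
    · subst hi
      simp [hj]
    · rw [if_neg hi, Finset.mem_Icc]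
      have h1 := hbox i
      have h2 := hbox j
      simp only [Pi.sub_apply, Pi.smul_apply, smul_eq_mul]
      rcases hε' i with h | h
      · rw [h]; constructor <;> simp <;> omega
      · rw [h]; constructor <;> simp <;> omega
  · -- injectivity
    have key : ∀ a b : Fin n → ℤ, a ∈ A → toRB (a + ε) ∉ hullB A → b ∈ A →
        a - a j • ε = b - b j • ε → a j ≤ b j → a = b := by
      intro a b ha hbad hb heq hle
      rcases eq_or_lt_of_le hle with h | h
      · rw [h] at heq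
        simpa using heq
      · exfalso
        apply hbad
        have hb' : b = a + (b j - a j) • ε := by
          have : b = (a - a j • ε) + b j • ε := by rw [heq]; abel
          rw [this]
          funext i
          simp only [Pi.add_apply, Pi.sub_apply, Pi.smul_apply, smul_eq_mul, hj]
          ring
        have hs : (1 : ℝ) ≤ ((b j - a j : ℤ) : ℝ) := by
          exact_mod_cast (by omega : (1 : ℤ) ≤ b j - a j)
        set s : ℝ := ((b j - a j : ℤ) : ℝ) with hsdef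
        have hconv := (convex_hullB A) (mem_hullB ha) (mem_hullB hb)
          (show (0 : ℝ) ≤ 1 - s⁻¹ by
            have : s⁻¹ ≤ 1 := inv_le_one_of_one_le₀ hs
            linarith)
          (show (0 : ℝ) ≤ s⁻¹ by positivity) (by ring)
        have hval : (1 - s⁻¹) • toRB a + s⁻¹ • toRB b = toRB (a + ε) := by
          have hs0 : s ≠ 0 := by positivity
          funext i
          have hbi : (b i : ℝ) = a i + s * ε i := by
            have := congrFun hb' i
            simp only [Pi.add_apply, Pi.smul_apply, smul_eq_mul] at this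
            rw [this, hsdef]
            push_cast
            ring
          simp only [toRB, Pi.add_apply, Pi.smul_apply, smul_eq_mul, hbi]
          field_simp
          push_cast
          ring
        rw [hval] at hconv
        exact hconv
    intro a ha b hb heq
    have ha' := Finset.mem_filter.1 (Finset.mem_coe.1 ha)
    have hb' := Finset.mem_filter.1 (Finset.mem_coe.1 hb)
    rcases le_total (a j) (b j) with h | h
    · exact key a b ha'.1 ha'.2 hb'.1 heq h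
    · exact (key b a hb'.1 hb'.2 ha'.1 heq.symm h).symm

/-- the points `a` of `A` with `a + {0,1}ⁿ` in the hull of `A` -/
def goodB {n : ℕ} (A : Finset (Fin n → ℤ)) : Finset (Fin n → ℤ) := by
  classical
  exact A.filter (fun a => ∀ ε ∈ cubeB n, toRB (a + ε) ∈ hullB A)

lemma mem_goodB {n : ℕ} {A : Finset (Fin n → ℤ)} {a : Fin n → ℤ} :
    a ∈ goodB A ↔ a ∈ A ∧ ∀ ε ∈ cubeB n, toRB (a + ε) ∈ hullB A := by
  classical
  unfold goodB
  rw [Finset.mem_filter]

lemma card_le_goodB {n N : ℕ} {A : Finset (Fin n → ℤ)} (hA : A ⊆ boxB n N) :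
    A.card ≤ (goodB A).card + 2 ^ n * (4 * N + 1) ^ (n - 1) := by
  classical
  have hsub : A ⊆ goodB A ∪ ((cubeB n).erase 0).biUnion
      (fun ε => A.filter (fun a => toRB (a + ε) ∉ hullB A)) := by
    intro a ha
    rw [Finset.mem_union, mem_goodB, Finset.mem_biUnion]
    by_cases h : ∀ ε ∈ cubeB n, toRB (a + ε) ∈ hullB A
    · exact Or.inl ⟨ha, h⟩
    · push Not at h
      obtain ⟨ε, hε, hbad⟩ := h
      refine Or.inr ⟨ε, Finset.mem_erase.2 ⟨?_, hε⟩, Finset.mem_filter.2 ⟨ha, hbad⟩⟩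
      rintro rfl
      apply hbad
      rw [add_zero]
      exact mem_hullB ha
  refine (Finset.card_le_card hsub).trans ((Finset.card_union_le _ _).trans ?_)
  refine Nat.add_le_add_left ?_ _
  refine (Finset.card_biUnion_le_card_mul _ _ ((4 * N + 1) ^ (n - 1)) ?_).trans ?_
  · intro ε hε
    exact bad_cardB hA (Finset.mem_of_mem_erase hε) (Finset.ne_of_mem_erase hε)
  · refine Nat.mul_le_mul_right _ ?_
    refine (Finset.card_le_card (Finset.erase_subset _ _)).trans (card_cubeB n).le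

lemma cell_mem_hullB {n : ℕ} {A : Finset (Fin n → ℤ)} {a : Fin n → ℤ} (ha : a ∈ goodB A)
    {k : ℕ} (hk : 0 < k) {c : Fin n → ℤ} (hc : ∀ i, 0 ≤ c i ∧ c i < k) :
    (k : ℝ)⁻¹ • toRB ((k : ℤ) • a + c) ∈ hullB A := by
  classical
  have hk' : (0 : ℝ) < k := by exact_mod_cast hk
  have hx : (k : ℝ)⁻¹ • toRB c ∈ convexHull ℝ (Set.pi Set.univ (fun _ : Fin n => ({0, 1} : Set ℝ))) := by
    rw [convexHull_pi]
    intro i _
    rw [convexHull_pair, segment_eq_Icc zero_le_one]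
    simp only [Pi.smul_apply, smul_eq_mul, toRB]
    constructor
    · have : (0 : ℝ) ≤ c i := by exact_mod_cast (hc i).1
      positivity
    · rw [inv_mul_le_iff₀ hk', mul_one]
      exact_mod_cast (hc i).2.le
  have hsub : convexHull ℝ (Set.pi Set.univ (fun _ : Fin n => ({0, 1} : Set ℝ))) ⊆
      (fun x => toRB a + x) ⁻¹' hullB A := by
    refine convexHull_min ?_ ((convex_hullB A).translate_preimage_right _)
    intro x hx
    have hx' : ∀ i, x i = 0 ∨ x i = 1 := by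
      intro i
      have := hx i (Set.mem_univ i)
      simpa using this
    have hε : (fun i => if x i = 0 then (0 : ℤ) else 1) ∈ cubeB n := by
      refine Fintype.mem_piFinset.2 fun i => ?_
      by_cases h : x i = 0 <;> simp [h]
    have h1 := (mem_goodB.1 ha).2 _ hε
    rw [toRB_add] at h1
    have h2 : toRB (fun i => if x i = 0 then (0 : ℤ) else 1) = x := by
      funext i
      rcases hx' i with h | h
      · simp [toRB, h]
      · simp [toRB, h]
    rw [h2] at h1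
    exact h1
  have h3 := hsub hx
  have h4 : (k : ℝ)⁻¹ • toRB ((k : ℤ) • a + c) = toRB a + (k : ℝ)⁻¹ • toRB c := by
    funext i
    simp only [toRB, Pi.add_apply, Pi.smul_apply, smul_eq_mul]
    push_cast
    field_simp
  rw [h4]
  exact h3

end PartB2

section PartB3


variable {n r : ℕ} (ℓ : Fin r → ((Fin n → ℤ) →+ ℤ))

/-- Laurent polynomials with exponents in the `m`-th dilate of the polytope `ℓ i ≥ -1` -/
def polyV (m : ℕ) : Submodule ℂ (AddMonoidAlgebra ℂ (Fin n → ℤ)) where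
  carrier := {f | ∀ u, f.coeff u ≠ 0 → ∀ i, -(m : ℤ) ≤ ℓ i u}
  add_mem' := by
    intro f g hf hg u hu
    by_cases h : f.coeff u = 0
    · exact hg u (fun h' => hu (by simp [AddMonoidAlgebra.coeff_add, h, h']))
    · exact hf u h
  zero_mem' := by intro u hu; simp at hu
  smul_mem' := by
    intro c f hf u hu
    exact hf u (fun h' => hu (by simp [AddMonoidAlgebra.coeff_smul, h']))

/-! ### The count -/

/-- the real extension of an integral linear form -/
def extB (φ : (Fin n → ℤ) →+ ℤ) : (Fin n → ℝ) →ₗ[ℝ] ℝ :=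
  ∑ j, (φ (Pi.single j 1) : ℝ) • LinearMap.proj j

lemma extB_toRB (φ : (Fin n → ℤ) →+ ℤ) (u : Fin n → ℤ) : extB φ (toRB u) = φ u := by
  classical
  have h1 : u = ∑ j, u j • (Pi.single j 1 : Fin n → ℤ) := by
    funext i
    rw [Finset.sum_apply, Finset.sum_eq_single_of_mem i (Finset.mem_univ i)]
    · simp
    · intro j _ hj
      simp [hj.symm]
  have h2 : (φ u : ℝ) = ∑ j, (u j : ℝ) * (φ (Pi.single j 1) : ℝ) := by
    conv_lhs => rw [h1]
    rw [map_sum]
    push_cast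
    refine Finset.sum_congr rfl fun j _ => ?_
    rw [map_zsmul]
    simp
  rw [h2]
  simp only [extB, LinearMap.coe_sum, Finset.sum_apply, LinearMap.smul_apply, LinearMap.proj_apply,
    smul_eq_mul, toRB]
  exact Finset.sum_congr rfl fun j _ => mul_comm _ _

variable {ℓ}

lemma one_mem_polyV (m : ℕ) : (1 : AddMonoidAlgebra ℂ (Fin n → ℤ)) ∈ polyV ℓ m := by
  intro u hu i
  rw [AddMonoidAlgebra.one_def, AddMonoidAlgebra.coeff_single] at hu
  have h : u = 0 := by
    by_contra h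
    exact hu (Finsupp.single_eq_of_ne h)
  rw [h, map_zero]
  omega

lemma single_mem_polyV {m : ℕ} {ρ : Fin n → ℤ} (h : ∀ i, -(m : ℤ) ≤ ℓ i ρ) :
    AddMonoidAlgebra.single ρ (1 : ℂ) ∈ polyV ℓ m := by
  intro u hu i
  rw [AddMonoidAlgebra.coeff_single] at hu
  have h' : u = ρ := by
    by_contra h'
    exact hu (Finsupp.single_eq_of_ne h')
  rw [h']
  exact h i

variable {F : ℕ → ℕ → Submodule ℂ (AddMonoidAlgebra ℂ (Fin n → ℤ))}

lemma pow_mem_FB (hF0 : ∀ m, F m 0 = polyV ℓ m)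
    (hmul : ∀ m m' k k' f g, f ∈ F m k → g ∈ F m' k' → f * g ∈ F (m + m') (k + k'))
    {m K : ℕ} {f : AddMonoidAlgebra ℂ (Fin n → ℤ)} (hf : f ∈ F m K) (N : ℕ) :
    f ^ N ∈ F (N * m) (N * K) := by
  induction N with
  | zero =>
    rw [pow_zero, zero_mul, zero_mul, hF0]
    exact one_mem_polyV 0
  | succ N ih =>
    rw [pow_succ, Nat.succ_mul, Nat.succ_mul]
    exact hmul _ _ _ _ _ _ ih hf

lemma prod_mem_FB (hF0 : ∀ m, F m 0 = polyV ℓ m)
    (hmul : ∀ m m' k k' f g, f ∈ F m k → g ∈ F m' k' → f * g ∈ F (m + m') (k + k'))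
    {m K : ℕ} (A : Finset (Fin n → ℤ)) (f : (Fin n → ℤ) → AddMonoidAlgebra ℂ (Fin n → ℤ))
    (N : (Fin n → ℤ) → ℕ) (hf : ∀ a ∈ A, f a ∈ F m K) :
    ∏ a ∈ A, f a ^ N a ∈ F ((∑ a ∈ A, N a) * m) ((∑ a ∈ A, N a) * K) := by
  classical
  induction A using Finset.induction_on with
  | empty =>
    rw [Finset.prod_empty, Finset.sum_empty, zero_mul, zero_mul, hF0]
    exact one_mem_polyV 0
  | insert a s ha ih =>
    rw [Finset.prod_insert ha, Finset.sum_insert ha, add_mul, add_mul]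
    exact hmul _ _ _ _ _ _ (pow_mem_FB hF0 hmul (hf a (Finset.mem_insert_self _ _)) _)
      (ih (fun b hb => hf b (Finset.mem_insert_of_mem hb)))

lemma exists_elementB (hF0 : ∀ m, F m 0 = polyV ℓ m)
    (hanti : ∀ m k k', k ≤ k' → F m k' ≤ F m k)
    (hmul : ∀ m m' k k' f g, f ∈ F m k → g ∈ F m' k' → f * g ∈ F (m + m') (k + k'))
    {m K : ℕ} (A : Finset (Fin n → ℤ)) (f : (Fin n → ℤ) → AddMonoidAlgebra ℂ (Fin n → ℤ))
    (hfm : ∀ a ∈ A, f a ∈ F m K) (hfl : ∀ a ∈ A, LeadB (f a) a)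
    {k : ℕ} (hk : 0 < k) {q : Fin n → ℤ} (hq : (k : ℝ)⁻¹ • toRB q ∈ hullB A)
    {M L : ℕ} (hM : k * m ≤ M) (hL : L + A.card * K ≤ k * K) :
    ∃ g ∈ F M L, LeadB g q := by
  classical
  obtain ⟨w, hw0, hw1, hwq⟩ := weightsB hq
  have hk' : (0 : ℝ) < k := by exact_mod_cast hk
  set lam : (Fin n → ℤ) → ℝ := fun a => k * w a with hlam
  have hlam0 : ∀ a ∈ A, 0 ≤ lam a := fun a ha => mul_nonneg hk'.le (hw0 a ha)
  have hlam1 : ∑ a ∈ A, lam a = k := by
    rw [hlam, ← Finset.mul_sum, hw1, mul_one]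
  have hlamq : ∑ a ∈ A, lam a • toRB a = toRB q := by
    have h1 : ∑ a ∈ A, lam a • toRB a = (k : ℝ) • ∑ a ∈ A, w a • toRB a := by
      rw [Finset.smul_sum]
      exact Finset.sum_congr rfl fun a _ => by rw [smul_smul]
    rw [h1, hwq, smul_smul, mul_inv_cancel₀ hk'.ne', one_smul]
  set N : (Fin n → ℤ) → ℕ := fun a => ⌊lam a⌋₊ with hN
  have hNle : ∀ a ∈ A, (N a : ℝ) ≤ lam a := fun a ha => Nat.floor_le (hlam0 a ha)
  have hNlt : ∀ a ∈ A, lam a ≤ N a + 1 := fun a _ => (Nat.lt_floor_add_one (lam a)).le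
  have hsumle : ∑ a ∈ A, N a ≤ k := by
    have h1 : ((∑ a ∈ A, N a : ℕ) : ℝ) ≤ k := by
      rw [← hlam1]
      push_cast
      exact Finset.sum_le_sum hNle
    exact_mod_cast h1
  obtain ⟨r', hr'⟩ : ∃ r', ∑ a ∈ A, N a + r' = k := ⟨k - ∑ a ∈ A, N a, by omega⟩
  have hr1 : (r' : ℝ) = ∑ a ∈ A, (lam a - N a) := by
    rw [Finset.sum_sub_distrib, hlam1, ← hr']
    push_cast
    ring
  have hrA : r' ≤ A.card := by
    have h1 : (r' : ℝ) ≤ A.card := by
      rw [hr1]
      refine (Finset.sum_le_card_nsmul A _ 1 fun a ha => ?_).trans (by simp)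
      linarith [hNlt a ha]
    exact_mod_cast h1
  set ρ : Fin n → ℤ := q - ∑ a ∈ A, N a • a with hρ
  have hρR : toRB ρ = ∑ a ∈ A, (lam a - N a) • toRB a := by
    have h1 : toRB (∑ a ∈ A, N a • a) = ∑ a ∈ A, (N a : ℝ) • toRB a := by
      funext i
      simp [toRB, Finset.sum_apply]
    have h2 : toRB q = toRB ρ + toRB (∑ a ∈ A, N a • a) := by
      rw [← toRB_add, hρ, sub_add_cancel]
    have h3 : ∑ a ∈ A, (lam a - N a) • toRB a =
        ∑ a ∈ A, lam a • toRB a - ∑ a ∈ A, (N a : ℝ) • toRB a := by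
      rw [← Finset.sum_sub_distrib]
      exact Finset.sum_congr rfl fun a _ => sub_smul _ _ _
    rw [h3, hlamq, h2, h1]
    abel
  have hℓA : ∀ a ∈ A, ∀ i, -(m : ℤ) ≤ ℓ i a := by
    intro a ha i
    have h1 : f a ∈ polyV ℓ m := by
      rw [← hF0]
      exact hanti m 0 K (Nat.zero_le _) (hfm a ha)
    exact h1 a (hfl a ha).1 i
  have hℓρ : ∀ i, -((r' * m : ℕ) : ℤ) ≤ ℓ i ρ := by
    intro i
    have h1 : (-((r' * m : ℕ) : ℤ) : ℝ) ≤ (ℓ i ρ : ℝ) := by
      rw [← extB_toRB, hρR, map_sum]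
      have h2 : (-((r' * m : ℕ) : ℤ) : ℝ) = ∑ a ∈ A, (lam a - N a) * (-(m : ℝ)) := by
        rw [← Finset.sum_mul, ← hr1]
        push_cast
        ring
      rw [h2]
      refine Finset.sum_le_sum fun a ha => ?_
      rw [map_smul, smul_eq_mul, extB_toRB]
      refine mul_le_mul_of_nonneg_left ?_ (by linarith [hNle a ha])
      exact_mod_cast hℓA a ha i
    exact_mod_cast h1
  refine ⟨(∏ a ∈ A, f a ^ N a) * AddMonoidAlgebra.single ρ (1 : ℂ) * 1, ?_, ?_⟩
  · have h1 := prod_mem_FB hF0 hmul A f N hfm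
    have h2 : AddMonoidAlgebra.single ρ (1 : ℂ) ∈ F (r' * m) 0 := by
      rw [hF0]
      exact single_mem_polyV hℓρ
    have h3 : (1 : AddMonoidAlgebra ℂ (Fin n → ℤ)) ∈ F (M - k * m) 0 := by
      rw [hF0]
      exact one_mem_polyV _
    have h4 := hmul _ _ _ _ _ _ (hmul _ _ _ _ _ _ h1 h2) h3
    have h5 : (∑ a ∈ A, N a) * m + r' * m + (M - k * m) = M := by
      rw [← add_mul, hr']
      omega
    rw [h5] at h4
    refine hanti M L _ ?_ h4
    have h6 : k * K = (∑ a ∈ A, N a) * K + r' * K := by rw [← add_mul, hr']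
    have h7 : r' * K ≤ A.card * K := Nat.mul_le_mul_right _ hrA
    omega
  · have h1 := leadB_mul (leadB_mul (leadB_prod A f N hfl) (leadB_single ρ)) leadB_one
    have h2 : ∑ a ∈ A, N a • a + ρ + 0 = q := by
      rw [hρ]
      abel
    rw [h2] at h1
    exact h1

theorem core_countB (C : ℕ)
    (hbox : ∀ (m : ℕ) (u : Fin n → ℤ), (∀ i, -(m : ℤ) ≤ ℓ i u) → ∀ j, |u j| ≤ C * m)
    (hF0 : ∀ m, F m 0 = polyV ℓ m)
    (hanti : ∀ m k k', k ≤ k' → F m k' ≤ F m k)
    (hmul : ∀ m m' k k' f g, f ∈ F m k → g ∈ F m' k' → f * g ∈ F (m + m') (k + k'))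
    (m K : ℕ) :
    ∃ R : ℕ, ∀ k M L : ℕ, 0 < k → k * m ≤ M → L + R * K ≤ k * K →
      k ^ n * Module.finrank ℂ (F m K) ≤ Module.finrank ℂ (F M L) +
        k ^ n * (2 ^ n * (4 * (C * m) + 1) ^ (n - 1)) := by
  classical
  have hsupp : ∀ m k, ∀ f ∈ F m k, ∀ u, f.coeff u ≠ 0 → u ∈ boxB n (C * m) := by
    intro m k f hf u hu
    have h1 : f ∈ polyV ℓ m := by
      rw [← hF0]
      exact hanti m 0 k (Nat.zero_le _) hf
    have h2 := hbox m u (h1 u hu)
    refine Fintype.mem_piFinset.2 fun j => ?_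
    rw [Finset.mem_Icc]
    have h3 := abs_le.1 (h2 j)
    push_cast
    exact h3
  set A : Finset (Fin n → ℤ) := (boxB n (C * m)).filter (fun u => ∃ f ∈ F m K, LeadB f u) with hA
  have hAbox : A ⊆ boxB n (C * m) := Finset.filter_subset _ _
  have hAex : ∀ u : Fin n → ℤ, ∃ f : AddMonoidAlgebra ℂ (Fin n → ℤ), u ∈ A → (f ∈ F m K ∧ LeadB f u) := by
    intro u
    by_cases h : u ∈ A
    · obtain ⟨f, hf1, hf2⟩ := (Finset.mem_filter.1 h).2
      exact ⟨f, fun _ => ⟨hf1, hf2⟩⟩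
    · exact ⟨0, fun h' => absurd h' h⟩
  choose f hf using hAex
  have hdim : Module.finrank ℂ (F m K) ≤ A.card := by
    refine finrank_le_of_leadB _ A ?_
    intro g hg hg0
    obtain ⟨u, hu⟩ := exists_leadB hg0
    exact ⟨u, Finset.mem_filter.2 ⟨hsupp m K g hg u hu.1, g, hg, hu⟩, hu⟩
  refine ⟨A.card, fun k M L hk hM hL => ?_⟩
  have : Module.Finite ℂ (F M L) := finite_of_supp (F M L) (boxB n (C * M)) (hsupp M L)
  -- the points
  set Q : Finset (Fin n → ℤ) := ((goodB A) ×ˢ (Fintype.piFinset fun _ : Fin n =>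
    Finset.Ico (0 : ℤ) (k : ℤ))).image (fun p => (k : ℤ) • p.1 + p.2) with hQ
  have hkZ : (0 : ℤ) < k := by exact_mod_cast hk
  have hQcard : Q.card = (goodB A).card * k ^ n := by
    rw [hQ, Finset.card_image_of_injOn]
    · rw [Finset.card_product, Fintype.card_piFinset]
      simp
    · rintro ⟨a, c⟩ hac ⟨b, d⟩ hbd heq
      have h1 := Finset.mem_product.1 (Finset.mem_coe.1 hac)
      have h2 := Finset.mem_product.1 (Finset.mem_coe.1 hbd)
      have h3 : ∀ i, a i = b i ∧ c i = d i := by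
        intro i
        have hc := Finset.mem_Ico.1 (Fintype.mem_piFinset.1 h1.2 i)
        have hd := Finset.mem_Ico.1 (Fintype.mem_piFinset.1 h2.2 i)
        have he := congrFun heq i
        simp only [Pi.add_apply, Pi.smul_apply, smul_eq_mul] at he
        have e1 : (k : ℤ) * (a i - b i) = d i - c i := by linarith
        have e2 : a i - b i = 0 := by
          by_contra hne
          have : (1 : ℤ) ≤ |a i - b i| := Int.one_le_abs hne
          have h4 : |(k : ℤ) * (a i - b i)| = k * |a i - b i| := by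
            rw [abs_mul, abs_of_pos hkZ]
          have h5 : |d i - c i| < k := by
            rw [abs_lt]
            constructor <;> simp only at hc hd <;> omega
          rw [← e1, h4] at h5
          nlinarith
        rw [e2, mul_zero] at e1
        constructor <;> omega
      have h4 : a = b := funext fun i => (h3 i).1
      have h5 : c = d := funext fun i => (h3 i).2
      rw [h4, h5]
  have hQlead : ∀ q ∈ Q, ∃ g ∈ F M L, LeadB g q := by
    intro q hq
    obtain ⟨⟨a, c⟩, hac, rfl⟩ := Finset.mem_image.1 hq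
    have h1 := Finset.mem_product.1 hac
    refine exists_elementB hF0 hanti hmul A f (fun a ha => (hf a ha).1) (fun a ha => (hf a ha).2)
      hk ?_ hM hL
    refine cell_mem_hullB h1.1 hk fun i => ?_
    exact Finset.mem_Ico.1 (Fintype.mem_piFinset.1 h1.2 i)
  have hcard := card_le_of_leadB (F M L) Q hQlead
  rw [hQcard] at hcard
  have hgood := card_le_goodB hAbox
  calc k ^ n * Module.finrank ℂ (F m K) ≤ k ^ n * ((goodB A).card +
        2 ^ n * (4 * (C * m) + 1) ^ (n - 1)) := Nat.mul_le_mul_left _ (hdim.trans hgood)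
    _ = (goodB A).card * k ^ n + k ^ n * (2 ^ n * (4 * (C * m) + 1) ^ (n - 1)) := by ring
    _ ≤ _ := Nat.add_le_add_right hcard _

end PartB3

section PartB4


/-! ### Limits -/

lemma quotB_eq (n x : ℕ) {m : ℕ} (hm : 0 < m) :
    (x : ℝ≥0∞) / ((m : ℝ≥0∞) ^ n / (n.factorial : ℝ≥0∞)) =
      ENNReal.ofReal ((x : ℝ) * n.factorial / (m : ℝ) ^ n) := by
  have hm' : (0 : ℝ) < m := by exact_mod_cast hm
  have hf : (0 : ℝ) < n.factorial := by exact_mod_cast n.factorial_pos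
  rw [← ENNReal.ofReal_natCast x, ← ENNReal.ofReal_natCast m, ← ENNReal.ofReal_natCast n.factorial,
    ← ENNReal.ofReal_pow hm'.le, ← ENNReal.ofReal_div_of_pos hf,
    ← ENNReal.ofReal_div_of_pos (by positivity)]
  congr 1
  field_simp

lemma tendsto_divB {m : ℕ} :
    Tendsto (fun M : ℕ => ((M / m : ℕ) : ℝ) / M) atTop (nhds ((m : ℝ)⁻¹)) := by
  have h1 := (tendsto_nat_floor_mul_div_atTop (R := ℝ) (a := (m : ℝ)⁻¹) (by positivity)).comp
    tendsto_natCast_atTop_atTop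
  refine h1.congr fun M => ?_
  simp only [Function.comp]
  rw [← Nat.floor_div_eq_div (K := ℝ) M m, div_eq_inv_mul (M : ℝ) (m : ℝ)]

theorem limsup_le_liminfB {n : ℕ} (hn : 0 < n) (C : ℕ) (D : ℕ → ℕ → ℕ)
    (hD : ∀ m K : ℕ, ∃ R : ℕ, ∀ k M L : ℕ, 0 < k → k * m ≤ M → L + R * K ≤ k * K →
      k ^ n * D m K ≤ D M L + k ^ n * (2 ^ n * (4 * (C * m) + 1) ^ (n - 1)))
    {t t' : ℝ} (ht : 0 ≤ t) (htt : t < t') :
    limsup (fun m : ℕ => (D m ⌈(m : ℝ) * t'⌉₊ : ℝ≥0∞) / ((m : ℝ≥0∞) ^ n / (n.factorial : ℝ≥0∞)))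
      atTop ≤
    liminf (fun m : ℕ => (D m ⌈(m : ℝ) * t⌉₊ : ℝ≥0∞) / ((m : ℝ≥0∞) ^ n / (n.factorial : ℝ≥0∞)))
      atTop := by
  set Λ : ℝ≥0∞ := liminf (fun m : ℕ => (D m ⌈(m : ℝ) * t⌉₊ : ℝ≥0∞) /
    ((m : ℝ≥0∞) ^ n / (n.factorial : ℝ≥0∞))) atTop with hΛ
  have hfac : (0 : ℝ) < n.factorial := by exact_mod_cast n.factorial_pos
  have key : ∀ m : ℕ, 0 < m → (D m ⌈(m : ℝ) * t'⌉₊ : ℝ≥0∞) /
      ((m : ℝ≥0∞) ^ n / (n.factorial : ℝ≥0∞)) ≤
      Λ + ENNReal.ofReal ((2 ^ n * (4 * C + 1) ^ (n - 1) * n.factorial : ℝ) / m) := by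
    intro m hm
    have hm' : (0 : ℝ) < m := by exact_mod_cast hm
    set K := ⌈(m : ℝ) * t'⌉₊ with hK
    set c := 2 ^ n * (4 * (C * m) + 1) ^ (n - 1) with hc
    obtain ⟨R, hR⟩ := hD m K
    set B := D m K - c with hB
    have hKt : (m : ℝ) * t' ≤ K := Nat.le_ceil _
    have hgap : (0 : ℝ) < m * (t' - t) := mul_pos hm' (sub_pos.2 htt)
    -- eventually
    have hev : ∀ᶠ M : ℕ in atTop, ENNReal.ofReal ((((M / m : ℕ) : ℝ) / M) ^ n * (B * n.factorial)) ≤
        (D M ⌈(M : ℝ) * t⌉₊ : ℝ≥0∞) / ((M : ℝ≥0∞) ^ n / (n.factorial : ℝ≥0∞)) := by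
      have h1 : Tendsto (fun M : ℕ => M / m) atTop atTop := Nat.tendsto_div_const_atTop hm.ne'
      filter_upwards [eventually_gt_atTop 0, h1.eventually_ge_atTop
        (⌈(m * t + 1 + R * K) / (m * (t' - t))⌉₊ + 1)] with M hM hkM
      set k := M / m with hk
      have hk0 : 0 < k := by omega
      have hkm : k * m ≤ M := Nat.div_mul_le_self M m
      have hMk : M < (k + 1) * m := by
        rw [hk]
        have := Nat.lt_mul_div_succ M hm
        rw [mul_comm] at this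
        exact this
      have hL : ⌈(M : ℝ) * t⌉₊ + R * K ≤ k * K := by
        have h2 : ((⌈(M : ℝ) * t⌉₊ : ℕ) : ℝ) ≤ M * t + 1 :=
          (Nat.ceil_lt_add_one (by positivity)).le
        have h3 : (M : ℝ) * t ≤ (k + 1) * m * t := by
          refine mul_le_mul_of_nonneg_right ?_ ht
          exact_mod_cast hMk.le
        have h4 : (m * t + 1 + R * K) / (m * (t' - t)) ≤ (k : ℝ) := by
          refine (Nat.le_ceil _).trans ?_
          exact_mod_cast (by omega : ⌈(m * t + 1 + R * K) / (m * (t' - t))⌉₊ ≤ k)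
        rw [div_le_iff₀ hgap] at h4
        have h5 : (k : ℝ) * (m * t') ≤ k * K := mul_le_mul_of_nonneg_left hKt (by positivity)
        have h6 : ((⌈(M : ℝ) * t⌉₊ + R * K : ℕ) : ℝ) ≤ ((k * K : ℕ) : ℝ) := by
          push_cast
          nlinarith
        exact_mod_cast h6
      have h7 := hR k M _ hk0 hkm hL
      have h8 : k ^ n * B ≤ D M ⌈(M : ℝ) * t⌉₊ := by
        rw [← hc] at h7
        rw [hB, Nat.mul_sub]
        omega
      rw [quotB_eq n _ hM]
      refine ENNReal.ofReal_le_ofReal ?_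
      have hM' : (0 : ℝ) < M := by exact_mod_cast hM
      have h9 : ((k : ℝ)) ^ n * B ≤ (D M ⌈(M : ℝ) * t⌉₊ : ℝ) := by exact_mod_cast h8
      rw [div_pow, le_div_iff₀ (by positivity)]
      calc (k : ℝ) ^ n / (M : ℝ) ^ n * (B * n.factorial) * (M : ℝ) ^ n =
          ((k : ℝ) ^ n * B) * n.factorial := by field_simp
        _ ≤ _ := mul_le_mul_of_nonneg_right h9 hfac.le
    have htend : Tendsto (fun M : ℕ => ENNReal.ofReal ((((M / m : ℕ) : ℝ) / M) ^ n *
        (B * n.factorial))) atTop (nhds (ENNReal.ofReal ((m : ℝ)⁻¹ ^ n * (B * n.factorial)))) :=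
      ENNReal.tendsto_ofReal ((tendsto_divB.pow n).mul_const _)
    have hlow : ENNReal.ofReal ((m : ℝ)⁻¹ ^ n * (B * n.factorial)) ≤ Λ := by
      rw [← htend.liminf_eq, hΛ]
      exact liminf_le_liminf hev
    rw [quotB_eq n _ hm]
    have h10 : (D m K : ℝ) * n.factorial / (m : ℝ) ^ n ≤
        (m : ℝ)⁻¹ ^ n * (B * n.factorial) +
          (2 ^ n * (4 * C + 1) ^ (n - 1) * n.factorial : ℝ) / m := by
      have h11 : (D m K : ℝ) ≤ B + c := by
        have : D m K ≤ B + c := by omega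
        exact_mod_cast this
      have h12 : (c : ℝ) ≤ 2 ^ n * ((4 * C + 1) * m) ^ (n - 1) := by
        have : c ≤ 2 ^ n * ((4 * C + 1) * m) ^ (n - 1) := by
          rw [hc]
          refine Nat.mul_le_mul_left _ (Nat.pow_le_pow_left ?_ _)
          nlinarith
        exact_mod_cast this
      obtain ⟨n', rfl⟩ : ∃ n', n = n' + 1 := ⟨n - 1, by omega⟩
      rw [Nat.add_sub_cancel] at *
      rw [div_le_iff₀ (by positivity)]
      have h13 : ((m : ℝ)⁻¹ ^ (n' + 1) * (B * (n' + 1).factorial) +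
          (2 ^ (n' + 1) * (4 * C + 1) ^ n' * (n' + 1).factorial : ℝ) / m) * (m : ℝ) ^ (n' + 1) =
          (B + 2 ^ (n' + 1) * ((4 * C + 1) * m) ^ n') * (n' + 1).factorial := by
        rw [mul_pow, inv_pow]
        field_simp
        ring
      rw [h13]
      refine mul_le_mul_of_nonneg_right ?_ hfac.le
      linarith
    calc ENNReal.ofReal ((D m K : ℝ) * n.factorial / (m : ℝ) ^ n) ≤
        ENNReal.ofReal ((m : ℝ)⁻¹ ^ n * (B * n.factorial) +
          (2 ^ n * (4 * C + 1) ^ (n - 1) * n.factorial : ℝ) / m) := ENNReal.ofReal_le_ofReal h10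
      _ ≤ ENNReal.ofReal ((m : ℝ)⁻¹ ^ n * (B * n.factorial)) + ENNReal.ofReal
          ((2 ^ n * (4 * C + 1) ^ (n - 1) * n.factorial : ℝ) / m) := ENNReal.ofReal_add_le
      _ ≤ _ := by gcongr
  have htend2 : Tendsto (fun m : ℕ => Λ + ENNReal.ofReal
      ((2 ^ n * (4 * C + 1) ^ (n - 1) * n.factorial : ℝ) / m)) atTop (nhds (Λ + 0)) := by
    refine Tendsto.const_add Λ ?_
    have := ENNReal.tendsto_ofReal (tendsto_const_div_atTop_nhds_zero_nat
      (2 ^ n * (4 * C + 1) ^ (n - 1) * n.factorial : ℝ))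
    rwa [ENNReal.ofReal_zero] at this
  calc _ ≤ limsup (fun m : ℕ => Λ + ENNReal.ofReal
      ((2 ^ n * (4 * C + 1) ^ (n - 1) * n.factorial : ℝ) / m)) atTop := by
        refine limsup_le_limsup ?_
        filter_upwards [eventually_gt_atTop 0] with m hm
        exact key m hm
    _ = Λ := by rw [htend2.limsup_eq, add_zero]

end PartB4

section PartB5


/-! ### Integration -/

lemma lintegral_shiftB (h : ℝ → ℝ≥0∞) (δ : ℝ) :
    ∫⁻ t in Set.Ioi δ, h t = ∫⁻ t in Set.Ioi (0 : ℝ), h (t + δ) := by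
  have h1 := (measurePreserving_add_right (volume : Measure ℝ) δ).setLIntegral_comp_preimage_emb
    (measurableEmbedding_addRight δ) h (Set.Ioi δ)
  rw [← h1]
  congr 2
  ext x
  simp

lemma lintegral_le_of_shiftB (h h' : ℝ → ℝ≥0∞) (hh : ∀ t t', 0 ≤ t → t < t' → h t' ≤ h' t) :
    ∫⁻ t in Set.Ioi (0 : ℝ), h t ≤ ∫⁻ t in Set.Ioi (0 : ℝ), h' t := by
  have h1 : Set.Ioi (0 : ℝ) = ⋃ j : ℕ, Set.Ioi (1 / ((j : ℝ) + 1)) := by
    ext x
    rw [Set.mem_iUnion]
    constructor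
    · intro hx
      obtain ⟨j, hj⟩ := exists_nat_one_div_lt (Set.mem_Ioi.1 hx)
      exact ⟨j, hj⟩
    · rintro ⟨j, hj⟩
      exact lt_trans (by positivity) (Set.mem_Ioi.1 hj)
  have h2 : Directed (· ⊆ ·) (fun j : ℕ => Set.Ioi (1 / ((j : ℝ) + 1))) := by
    refine Monotone.directed_le ?_
    intro i j hij
    refine Set.Ioi_subset_Ioi ?_
    exact Nat.one_div_le_one_div hij
  conv_lhs => rw [h1]
  rw [setLIntegral_iUnion_of_directed _ h2]
  refine iSup_le fun j => ?_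
  rw [lintegral_shiftB]
  refine setLIntegral_mono' measurableSet_Ioi fun t ht => ?_
  refine hh t _ (Set.mem_Ioi.1 ht).le ?_
  have : (0 : ℝ) < 1 / ((j : ℝ) + 1) := by positivity
  linarith

lemma lintegral_stepB (G : ℕ → ℝ≥0∞) {m : ℕ} (hm : 0 < m) (N : ℕ) (hG : ∀ k, N < k → G k = 0) :
    ∫⁻ t in Set.Ioi (0 : ℝ), G ⌈(m : ℝ) * t⌉₊ ≤ (∑ k ∈ Finset.Icc 1 N, G k) * (m : ℝ≥0∞)⁻¹ := by
  have hm' : (0 : ℝ) < m := by exact_mod_cast hm
  have h1 : Set.Ioi (0 : ℝ) ⊆ ⋃ k : ℕ, Set.Ioc ((k : ℝ) / m) (((k + 1 : ℕ) : ℝ) / m) := by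
    intro x hx
    rw [Set.mem_iUnion]
    have hpos : 0 < (m : ℝ) * x := mul_pos hm' (Set.mem_Ioi.1 hx)
    have hceil : 0 < ⌈(m : ℝ) * x⌉₊ := Nat.ceil_pos.2 hpos
    refine ⟨⌈(m : ℝ) * x⌉₊ - 1, ?_, ?_⟩
    · rw [div_lt_iff₀ hm', mul_comm x (m : ℝ)]
      exact Nat.lt_ceil.1 (show ⌈(m : ℝ) * x⌉₊ - 1 < ⌈(m : ℝ) * x⌉₊ by omega)
    · rw [le_div_iff₀ hm', Nat.sub_add_cancel hceil, mul_comm x (m : ℝ)]
      exact Nat.le_ceil _
  have h2 : ∀ k : ℕ, ∫⁻ t in Set.Ioc ((k : ℝ) / m) (((k + 1 : ℕ) : ℝ) / m), G ⌈(m : ℝ) * t⌉₊ =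
      G (k + 1) * (m : ℝ≥0∞)⁻¹ := by
    intro k
    rw [setLIntegral_congr_fun (g := fun _ => G (k + 1)) measurableSet_Ioc]
    · rw [setLIntegral_const, Real.volume_Ioc]
      congr 1
      have : ((k + 1 : ℕ) : ℝ) / m - (k : ℝ) / m = (m : ℝ)⁻¹ := by
        push_cast
        field_simp
        ring
      rw [this, ENNReal.ofReal_inv_of_pos hm', ENNReal.ofReal_natCast]
    · intro t ht
      have h3 : ⌈(m : ℝ) * t⌉₊ = k + 1 := by
        rw [Nat.ceil_eq_iff (by omega)]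
        constructor
        · have := (div_lt_iff₀ hm').1 ht.1
          rw [Nat.add_sub_cancel]
          linarith
        · have := (le_div_iff₀ hm').1 ht.2
          linarith
      simp only [h3]
  calc ∫⁻ t in Set.Ioi (0 : ℝ), G ⌈(m : ℝ) * t⌉₊ ≤
      ∫⁻ t in ⋃ k : ℕ, Set.Ioc ((k : ℝ) / m) (((k + 1 : ℕ) : ℝ) / m), G ⌈(m : ℝ) * t⌉₊ :=
        lintegral_mono_set h1
    _ ≤ ∑' k : ℕ, ∫⁻ t in Set.Ioc ((k : ℝ) / m) (((k + 1 : ℕ) : ℝ) / m), G ⌈(m : ℝ) * t⌉₊ :=
        lintegral_iUnion_le _ _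
    _ = ∑' k : ℕ, G (k + 1) * (m : ℝ≥0∞)⁻¹ := tsum_congr h2
    _ = ∑ k ∈ Finset.range N, G (k + 1) * (m : ℝ≥0∞)⁻¹ := by
        refine tsum_eq_sum fun k hk => ?_
        rw [hG (k + 1) (by simp at hk; omega), zero_mul]
    _ = (∑ k ∈ Finset.range N, G (k + 1)) * (m : ℝ≥0∞)⁻¹ := by rw [Finset.sum_mul]
    _ = (∑ k ∈ Finset.Icc 1 N, G k) * (m : ℝ≥0∞)⁻¹ := by
        congr 1
        rw [Finset.range_eq_Ico, Finset.sum_Ico_add' G 0 N 1]
        rfl

theorem integralB (D : ℕ → ℕ → ℕ) (n : ℕ)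
    (hlim : ∀ t t' : ℝ, 0 ≤ t → t < t' →
      limsup (fun m : ℕ => (D m ⌈(m : ℝ) * t'⌉₊ : ℝ≥0∞) /
        ((m : ℝ≥0∞) ^ n / (n.factorial : ℝ≥0∞))) atTop ≤
      liminf (fun m : ℕ => (D m ⌈(m : ℝ) * t⌉₊ : ℝ≥0∞) /
        ((m : ℝ≥0∞) ^ n / (n.factorial : ℝ≥0∞))) atTop)
    (T : ℕ) (hT : ∀ m k, T * m < k → D m k = 0) (a : ℝ≥0∞) (ha : a ≠ ∞)
    (hsum : ∀ m : ℕ, (∑ k ∈ Finset.Icc 1 (T * m), (D m k : ℝ≥0∞)) ≤ a * m * D m 0) :
    ∫⁻ t in Set.Ioi (0 : ℝ), limsup (fun m : ℕ =>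
        (D m ⌈(m : ℝ) * t⌉₊ : ℝ≥0∞) / ((m : ℝ≥0∞) ^ n / (n.factorial : ℝ≥0∞))) atTop ≤
      a * limsup (fun m : ℕ => (D m 0 : ℝ≥0∞) /
        ((m : ℝ≥0∞) ^ n / (n.factorial : ℝ≥0∞))) atTop := by
  have hmeas : ∀ m : ℕ, Measurable (fun t : ℝ => (D m ⌈(m : ℝ) * t⌉₊ : ℝ≥0∞) /
      ((m : ℝ≥0∞) ^ n / (n.factorial : ℝ≥0∞))) := by
    intro m
    have h1 : Measurable (fun k : ℕ => (D m k : ℝ≥0∞) /
      ((m : ℝ≥0∞) ^ n / (n.factorial : ℝ≥0∞))) := measurable_from_top
    exact h1.comp (Nat.measurable_ceil.comp (measurable_const_mul (m : ℝ)))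
  have hint : ∀ m : ℕ, 0 < m → ∫⁻ t in Set.Ioi (0 : ℝ), (D m ⌈(m : ℝ) * t⌉₊ : ℝ≥0∞) /
      ((m : ℝ≥0∞) ^ n / (n.factorial : ℝ≥0∞)) ≤
      a * ((D m 0 : ℝ≥0∞) / ((m : ℝ≥0∞) ^ n / (n.factorial : ℝ≥0∞))) := by
    intro m hm
    set q : ℝ≥0∞ := ((m : ℝ≥0∞) ^ n / (n.factorial : ℝ≥0∞)) with hq
    have hm0 : (m : ℝ≥0∞) ≠ 0 := by exact_mod_cast hm.ne'
    have hmt : (m : ℝ≥0∞) ≠ ∞ := ENNReal.natCast_ne_top m
    refine (lintegral_stepB (fun k => (D m k : ℝ≥0∞) / q) hm (T * m) ?_).trans ?_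
    · intro k hk
      simp only [hT m k hk, Nat.cast_zero, ENNReal.zero_div]
    · simp only [div_eq_mul_inv]
      rw [← Finset.sum_mul]
      calc (∑ k ∈ Finset.Icc 1 (T * m), (D m k : ℝ≥0∞)) * q⁻¹ * (m : ℝ≥0∞)⁻¹ ≤
          (a * m * D m 0) * q⁻¹ * (m : ℝ≥0∞)⁻¹ := by
            gcongr
            exact hsum m
        _ = a * (D m 0 * q⁻¹) * (m * (m : ℝ≥0∞)⁻¹) := by ring
        _ = a * (D m 0 * q⁻¹) := by rw [ENNReal.mul_inv_cancel hm0 hmt, mul_one]
  calc _ ≤ ∫⁻ t in Set.Ioi (0 : ℝ), liminf (fun m : ℕ => (D m ⌈(m : ℝ) * t⌉₊ : ℝ≥0∞) /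
        ((m : ℝ≥0∞) ^ n / (n.factorial : ℝ≥0∞))) atTop :=
        lintegral_le_of_shiftB _ _ hlim
    _ ≤ liminf (fun m : ℕ => ∫⁻ t in Set.Ioi (0 : ℝ), (D m ⌈(m : ℝ) * t⌉₊ : ℝ≥0∞) /
        ((m : ℝ≥0∞) ^ n / (n.factorial : ℝ≥0∞))) atTop := lintegral_liminf_le hmeas
    _ ≤ liminf (fun m : ℕ => a * ((D m 0 : ℝ≥0∞) /
        ((m : ℝ≥0∞) ^ n / (n.factorial : ℝ≥0∞)))) atTop := by
        refine liminf_le_liminf ?_
        filter_upwards [eventually_gt_atTop 0] with m hm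
        exact hint m hm
    _ ≤ limsup (fun m : ℕ => a * ((D m 0 : ℝ≥0∞) /
        ((m : ℝ≥0∞) ^ n / (n.factorial : ℝ≥0∞)))) atTop := liminf_le_limsup
    _ = _ := ENNReal.limsup_const_mul_of_ne_top ha

variable {n r : ℕ} (ℓ : Fin r → ((Fin n → ℤ) →+ ℤ))

theorem volume_integral_le (hn : 0 < n) (C : ℕ)
    (hbox : ∀ (m : ℕ) (u : Fin n → ℤ), (∀ i, -(m : ℤ) ≤ ℓ i u) → ∀ j, |u j| ≤ C * m)
    (F : ℕ → ℕ → Submodule ℂ (AddMonoidAlgebra ℂ (Fin n → ℤ)))
    (hF0 : ∀ m, F m 0 = polyV ℓ m)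
    (hanti : ∀ m k k', k ≤ k' → F m k' ≤ F m k)
    (hmul : ∀ m m' k k' f g, f ∈ F m k → g ∈ F m' k' → f * g ∈ F (m + m') (k + k'))
    (T : ℕ) (hT : ∀ m k, T * m < k → F m k = ⊥)
    (a : ℝ≥0∞) (ha : a ≠ ∞)
    (hsum : ∀ m : ℕ, (∑ k ∈ Finset.Icc 1 (T * m), (Module.finrank ℂ (F m k) : ℝ≥0∞)) ≤
      a * m * Module.finrank ℂ (F m 0)) :
    ∫⁻ t in Set.Ioi (0 : ℝ), limsup (fun m : ℕ =>
        (Module.finrank ℂ (F m ⌈(m : ℝ) * t⌉₊) : ℝ≥0∞) / ((m : ℝ≥0∞) ^ n / (n.factorial : ℝ≥0∞))) atTop ≤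
      a * limsup (fun m : ℕ => (Module.finrank ℂ (F m 0) : ℝ≥0∞) /
        ((m : ℝ≥0∞) ^ n / (n.factorial : ℝ≥0∞))) atTop := by
  refine integralB (fun m k => Module.finrank ℂ (F m k)) n ?_ T ?_ a ha hsum
  · intro t t' ht htt
    exact limsup_le_liminfB hn C (fun m k => Module.finrank ℂ (F m k))
      (fun m K => core_countB C hbox hF0 hanti hmul m K) ht htt
  · intro m k hk
    show Module.finrank ℂ (F m k) = 0
    rw [hT m k hk]
    exact finrank_bot ℂ _

end PartB5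

end ModuleB

end Pool.Agent.H23
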