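import Pool.Agent.H23.Defs

open AlgebraicGeometry CategoryTheory CategoryTheory.Limits
open scoped ENNReal

noncomputable section

namespace Pool.Agent.H23

/-! ## Module G: gluing affine charts inside a ring -/

/-- A finite family of charts inside a domain. -/
structure ChartSystem where
  /-- index set -/
  J : Type
  [semi : SemilatticeInf J]
  [fin : Finite J]
  [ne : Nonempty J]
  /-- ambient ring -/
  R : Type
  [ring : CommRing R]
  [dom : IsDomain R]
  [alg : Algebra ℂ R]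
  /-- coordinate rings -/
  A : J → Subalgebra ℂ R
  anti : ∀ i j, i ≤ j → A j ≤ A i
  loc : ∀ i j, i ≤ j → ∃ s ∈ A j, (∃ s' ∈ A i, s * s' = 1) ∧ ∀ a ∈ A i, ∃ n : ℕ, a * s ^ n ∈ A j
  sup : ∀ i j, A (i ⊓ j) = A i ⊔ A j

namespace ChartSystem

attribute [instance] semi fin ne ring dom alg

/-- inclusion of coordinate rings, as a morphism of charts -/
def chartMap (C : ChartSystem) {i j : C.J} (h : i ≤ j) :
    Spec (.of (C.A i)) ⟶ Spec (.of (C.A j)) :=
  Spec.map (CommRingCat.ofHom (Subalgebra.inclusion (C.anti i j h)).toRingHom)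

/-- The localisation statement for an abstract pair of subalgebras. -/
theorem isLocalization_of {R : Type} [CommRing R] [IsDomain R] [Algebra ℂ R]
    (A B : Subalgebra ℂ R) (h : B ≤ A) (s : R) (hs : s ∈ B) (hu : ∃ s' ∈ A, s * s' = 1)
    (hn : ∀ a ∈ A, ∃ n : ℕ, a * s ^ n ∈ B) :
    letI := (Subalgebra.inclusion h).toRingHom.toAlgebra
    IsLocalization.Away (⟨s, hs⟩ : B) A := by
  let _ := (Subalgebra.inclusion h).toRingHom.toAlgebra
  obtain ⟨s', hs', hss'⟩ := hu
  have hval : ∀ b : B, ((algebraMap B A b : A) : R) = b := fun b => rfl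
  refine ⟨?_, ?_, ?_⟩
  · rintro ⟨y, n, rfl⟩
    refine IsUnit.of_mul_eq_one (⟨s', hs'⟩ ^ n : A) ?_
    apply Subtype.ext
    simp only [map_pow, MulMemClass.coe_mul, SubmonoidClass.coe_pow, OneMemClass.coe_one, hval]
    rw [← mul_pow, hss', one_pow]
  · rintro ⟨a, ha⟩
    obtain ⟨n, hn'⟩ := hn a ha
    refine ⟨⟨⟨a * s ^ n, hn'⟩, ⟨⟨s, hs⟩ ^ n, n, rfl⟩⟩, ?_⟩
    apply Subtype.ext
    simp only [MulMemClass.coe_mul, hval, SubmonoidClass.coe_pow]
  · intro a b hab
    refine ⟨1, ?_⟩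
    have h1 := congrArg (Subtype.val) hab
    rw [hval, hval] at h1
    rw [Subtype.ext h1]


theorem isOpenImmersion_incl {R : Type} [CommRing R] [IsDomain R] [Algebra ℂ R]
    (A B : Subalgebra ℂ R) (h : B ≤ A) (s : R) (hs : s ∈ B) (hu : ∃ s' ∈ A, s * s' = 1)
    (hn : ∀ a ∈ A, ∃ n : ℕ, a * s ^ n ∈ B) :
    IsOpenImmersion (Spec.map (CommRingCat.ofHom (Subalgebra.inclusion h).toRingHom)) := by
  let _ := (Subalgebra.inclusion h).toRingHom.toAlgebra
  have := isLocalization_of A B h s hs hu hn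
  exact IsOpenImmersion.of_isLocalization (R := B) (S := A) ⟨s, hs⟩

theorem range_incl {R : Type} [CommRing R] [IsDomain R] [Algebra ℂ R]
    (A B : Subalgebra ℂ R) (h : B ≤ A) (s : R) (hs : s ∈ B) (hu : ∃ s' ∈ A, s * s' = 1)
    (hn : ∀ a ∈ A, ∃ n : ℕ, a * s ^ n ∈ B) (x : Spec (.of B)) :
    (∃ w : Spec (.of A),
      Spec.map (CommRingCat.ofHom (Subalgebra.inclusion h).toRingHom) w = x) ↔
      (⟨s, hs⟩ : B) ∉ PrimeSpectrum.asIdeal x := by
  let _ := (Subalgebra.inclusion h).toRingHom.toAlgebra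
  have := isLocalization_of A B h s hs hu hn
  have h1 := PrimeSpectrum.localization_away_comap_range A (⟨s, hs⟩ : B)
  constructor
  · rintro ⟨w, hw⟩
    have h2 : x ∈ Set.range (PrimeSpectrum.comap (algebraMap B A)) := ⟨w, hw⟩
    rw [h1] at h2
    exact h2
  · intro hx
    have h2 : x ∈ Set.range (PrimeSpectrum.comap (algebraMap B A)) := by
      rw [h1]
      exact hx
    obtain ⟨w, hw⟩ := h2
    exact ⟨w, hw⟩

variable (C : ChartSystem)

instance isOpenImmersion_chartMap {i j : C.J} (h : i ≤ j) : IsOpenImmersion (C.chartMap h) := by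
  obtain ⟨s, hs, hu, hn⟩ := C.loc i j h
  exact isOpenImmersion_incl _ _ (C.anti i j h) s hs hu hn

lemma chartMap_comp {i j k : C.J} (h : i ≤ j) (h' : j ≤ k) :
    C.chartMap h ≫ C.chartMap h' = C.chartMap (h.trans h') := by
  unfold chartMap
  rw [← Spec.map_comp]
  rfl

lemma chartMap_id (i : C.J) : C.chartMap (le_refl i) = 𝟙 _ := by
  unfold chartMap
  have h : (CommRingCat.ofHom (Subalgebra.inclusion (C.anti i i (le_refl i))).toRingHom) =
      𝟙 (CommRingCat.of (C.A i)) := rfl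
  rw [h, Spec.map_id]

/-- the diagram of charts -/
def diag : C.J ⥤ Scheme.{0} where
  obj i := Spec (.of (C.A i))
  map f := C.chartMap (leOfHom f)
  map_id i := C.chartMap_id i
  map_comp f g := (C.chartMap_comp (leOfHom f) (leOfHom g)).symm

instance {i j : C.J} (f : i ⟶ j) : IsOpenImmersion (C.diag.map f) :=
  C.isOpenImmersion_chartMap (leOfHom f)

/-- elements of the smallest subalgebra containing two localisations -/
theorem exists_pow_mul_mem {R : Type} [CommRing R] [IsDomain R] [Algebra ℂ R]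
    (A A' B : Subalgebra ℂ R) (s s' : R) (hs : s ∈ B) (hs' : s' ∈ B)
    (hn : ∀ a ∈ A, ∃ n : ℕ, a * s ^ n ∈ B) (hn' : ∀ a ∈ A', ∃ n : ℕ, a * s' ^ n ∈ B) (a : R)
    (ha : a ∈ A ⊔ A') : ∃ n : ℕ, a * (s * s') ^ n ∈ B := by
  rw [Algebra.sup_def] at ha
  have hmono : ∀ (a : R) (n m : ℕ), n ≤ m → a * (s * s') ^ n ∈ B → a * (s * s') ^ m ∈ B := by
    intro a n m hnm h
    obtain ⟨k, rfl⟩ := Nat.exists_eq_add_of_le hnm
    rw [pow_add, ← mul_assoc]
    exact B.mul_mem h (B.pow_mem (B.mul_mem hs hs') k)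
  induction ha using Algebra.adjoin_induction with
  | mem x hx =>
    rcases hx with hx | hx
    · obtain ⟨n, h⟩ := hn x hx
      refine ⟨n, ?_⟩
      rw [mul_pow, ← mul_assoc]
      exact B.mul_mem h (B.pow_mem hs' n)
    · obtain ⟨n, h⟩ := hn' x hx
      refine ⟨n, ?_⟩
      rw [mul_pow, mul_comm (s ^ n), ← mul_assoc]
      exact B.mul_mem h (B.pow_mem hs n)
  | algebraMap c => exact ⟨0, B.mul_mem (B.algebraMap_mem c) (by simp)⟩
  | add x y _ _ hx hy =>
    obtain ⟨n, hn⟩ := hx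
    obtain ⟨m, hm⟩ := hy
    refine ⟨max n m, ?_⟩
    rw [add_mul]
    exact B.add_mem (hmono _ _ _ (le_max_left _ _) hn) (hmono _ _ _ (le_max_right _ _) hm)
  | mul x y _ _ hx hy =>
    obtain ⟨n, hn⟩ := hx
    obtain ⟨m, hm⟩ := hy
    refine ⟨n + m, ?_⟩
    have h : x * y * (s * s') ^ (n + m) = (x * (s * s') ^ n) * (y * (s * s') ^ m) := by
      rw [pow_add]; ring
    rw [h]
    exact B.mul_mem hn hm

/-- points with the same image come from the chart of the infimum -/
theorem exists_inf {i j k : C.J} (hi : i ≤ k) (hj : j ≤ k) (x : Spec (.of (C.A i)))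
    (y : Spec (.of (C.A j))) (hxy : C.chartMap hi x = C.chartMap hj y) :
    ∃ w, C.chartMap (inf_le_left : i ⊓ j ≤ i) w = x ∧
      C.chartMap (inf_le_right : i ⊓ j ≤ j) w = y := by
  obtain ⟨s, hs, ⟨t, ht, hst⟩, hn⟩ := C.loc i k hi
  obtain ⟨s', hs', ⟨t', ht', hst'⟩, hn'⟩ := C.loc j k hj
  have hle : i ⊓ j ≤ k := inf_le_left.trans hi
  have hu : ∃ u ∈ C.A (i ⊓ j), (s * s') * u = 1 := by
    refine ⟨t * t', ?_, ?_⟩
    · exact (C.A _).mul_mem (C.anti _ _ inf_le_left ht) (C.anti _ _ inf_le_right ht')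
    · calc s * s' * (t * t') = (s * t) * (s' * t') := by ring
        _ = 1 := by rw [hst, hst', one_mul]
  have hn'' : ∀ a ∈ C.A (i ⊓ j), ∃ n : ℕ, a * (s * s') ^ n ∈ C.A k := by
    intro a ha
    rw [C.sup] at ha
    exact exists_pow_mul_mem _ _ _ s s' hs hs' hn hn' a ha
  have h1 := (range_incl _ _ (C.anti i k hi) s hs ⟨t, ht, hst⟩ hn (C.chartMap hi x)).1 ⟨x, rfl⟩
  have h2 := (range_incl _ _ (C.anti j k hj) s' hs' ⟨t', ht', hst'⟩ hn'
    (C.chartMap hi x)).1 ⟨y, hxy.symm⟩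
  have h3 : (⟨s * s', (C.A k).mul_mem hs hs'⟩ : C.A k) ∉
      PrimeSpectrum.asIdeal (C.chartMap hi x) := by
    intro h
    rcases (PrimeSpectrum.isPrime (C.chartMap hi x)).mem_or_mem
      (show (⟨s, hs⟩ : C.A k) * ⟨s', hs'⟩ ∈ _ from h) with h | h
    · exact h1 h
    · exact h2 h
  obtain ⟨w, hw⟩ := (range_incl _ _ (C.anti _ k hle) (s * s') _ hu hn'' (C.chartMap hi x)).2 h3
  change C.chartMap hle w = C.chartMap hi x at hw
  refine ⟨w, ?_, ?_⟩
  · apply (C.chartMap hi).isOpenEmbedding.injective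
    rw [← Scheme.Hom.comp_apply, chartMap_comp]
    exact hw
  · apply (C.chartMap hj).isOpenEmbedding.injective
    rw [← Scheme.Hom.comp_apply, chartMap_comp, ← hxy]
    exact hw

instance : (C.diag ⋙ Scheme.forget).IsLocallyDirected where
  cond {i j k} fi fj xi xj h := by
    obtain ⟨w, h1, h2⟩ := C.exists_inf (leOfHom fi) (leOfHom fj) xi xj h
    exact ⟨i ⊓ j, homOfLE inf_le_left, homOfLE inf_le_right, w, h1, h2⟩

/-- the glued scheme -/
def glued (C : ChartSystem) : Scheme.{0} := colimit C.diag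

/-- the charts -/
def ι (C : ChartSystem) (i : C.J) : Spec (.of (C.A i)) ⟶ C.glued := colimit.ι C.diag i

instance (i : C.J) : IsOpenImmersion (C.ι i) :=
  inferInstanceAs (IsOpenImmersion (colimit.ι C.diag i))

lemma chartMap_ι {i j : C.J} (h : i ≤ j) : C.chartMap h ≫ C.ι j = C.ι i :=
  colimit.w C.diag (homOfLE h)

lemma ι_jointly_surjective (x : C.glued) : ∃ i, ∃ y, C.ι i y = x :=
  Scheme.IsLocallyDirected.ι_jointly_surjective C.diag x

/-- two charts meet exactly in the chart of the infimum -/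
lemma ι_eq_ι_iff {i j : C.J} (x : Spec (.of (C.A i))) (y : Spec (.of (C.A j))) :
    C.ι i x = C.ι j y ↔ ∃ w, C.chartMap (inf_le_left : i ⊓ j ≤ i) w = x ∧
      C.chartMap (inf_le_right : i ⊓ j ≤ j) w = y := by
  constructor
  · intro h
    obtain ⟨k, fi, fj, z, h1, h2⟩ :=
      (Scheme.IsLocallyDirected.ι_eq_ι_iff C.diag (xi := x) (xj := y)).1 h
    refine ⟨C.chartMap (le_inf (leOfHom fi) (leOfHom fj)) z, ?_, ?_⟩
    · rw [← Scheme.Hom.comp_apply, chartMap_comp]
      exact h1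
    · rw [← Scheme.Hom.comp_apply, chartMap_comp]
      exact h2
  · rintro ⟨w, rfl, rfl⟩
    rw [← Scheme.Hom.comp_apply, ← Scheme.Hom.comp_apply, chartMap_ι, chartMap_ι]

lemma isPullback_ι (i j : C.J) :
    IsPullback (C.chartMap (inf_le_left : i ⊓ j ≤ i)) (C.chartMap (inf_le_right : i ⊓ j ≤ j))
      (C.ι i) (C.ι j) := by
  apply IsOpenImmersion.isPullback
  · rw [chartMap_ι, chartMap_ι]
  · ext y
    constructor
    · rintro ⟨x, hx⟩
      obtain ⟨w, -, hw⟩ := (C.ι_eq_ι_iff x y).1 hx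
      exact ⟨w, hw⟩
    · rintro ⟨w, rfl⟩
      refine ⟨C.chartMap (inf_le_left : i ⊓ j ≤ i) w, ?_⟩
      rw [ι_eq_ι_iff]
      exact ⟨w, rfl, rfl⟩

/-- morphisms out of the glued scheme -/
def desc (C : ChartSystem) {W : Scheme.{0}} (f : ∀ i, Spec (.of (C.A i)) ⟶ W)
    (hf : ∀ i j (h : i ≤ j), C.chartMap h ≫ f j = f i) : C.glued ⟶ W :=
  colimit.desc C.diag
    { pt := W
      ι := { app := f
             naturality := fun i j g => by
              change C.chartMap (leOfHom g) ≫ f j = f i ≫ 𝟙 _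
              rw [hf, Category.comp_id] } }

lemma ι_desc {W : Scheme.{0}} (f : ∀ i, Spec (.of (C.A i)) ⟶ W)
    (hf : ∀ i j (h : i ≤ j), C.chartMap h ≫ f j = f i) (i : C.J) : C.ι i ≫ C.desc f hf = f i :=
  colimit.ι_desc _ _

lemma hom_ext {W : Scheme.{0}} {f g : C.glued ⟶ W} (h : ∀ i, C.ι i ≫ f = C.ι i ≫ g) : f = g :=
  colimit.hom_ext h

/-- the structure morphism -/
def str (C : ChartSystem) : C.glued ⟶ Spec (.of ℂ) :=
  C.desc (fun i => Spec.map (CommRingCat.ofHom (algebraMap ℂ (C.A i)))) (by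
    intro i j h
    unfold chartMap
    rw [← Spec.map_comp]
    rfl)

lemma ι_str (i : C.J) :
    C.ι i ≫ C.str = Spec.map (CommRingCat.ofHom (algebraMap ℂ (C.A i))) :=
  C.ι_desc _ _ i

/-- the cover by the charts -/
def cover (C : ChartSystem) : C.glued.OpenCover := Scheme.IsLocallyDirected.openCover C.diag

theorem range_le_of_comp {A : Type} [CommRing A] {Z : Scheme.{0}}
    (f : Spec (.of A) ⟶ Z) {B : Type} [CommRing B]
    (p : Z ⟶ Spec (.of B)) (φ : B →+* A) (hp : f ≫ p = Spec.map (CommRingCat.ofHom φ)) :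
    φ.range ≤ (f.appTop ≫ (Scheme.ΓSpecIso (.of A)).hom).hom.range := by
  rintro _ ⟨b, rfl⟩
  refine ⟨(p.appTop).hom ((Scheme.ΓSpecIso (.of B)).inv.hom b), ?_⟩
  have h1 : (Scheme.ΓSpecIso (.of B)).inv ≫ p.appTop ≫ f.appTop ≫ (Scheme.ΓSpecIso (.of A)).hom =
      CommRingCat.ofHom φ := by
    rw [← Scheme.Hom.comp_appTop_assoc, hp, Scheme.ΓSpecIso_naturality, Iso.inv_hom_id_assoc]
  have h2 := congrArg (fun g => g.hom b) h1
  exact h2

theorem isClosedImmersion_of_ranges {A : Type} [CommRing A] {Z : Scheme.{0}} [IsAffine Z]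
    (f : Spec (.of A) ⟶ Z) {B B' : Type} [CommRing B] [CommRing B']
    (p : Z ⟶ Spec (.of B)) (q : Z ⟶ Spec (.of B')) (φ : B →+* A) (ψ : B' →+* A)
    (hp : f ≫ p = Spec.map (CommRingCat.ofHom φ)) (hq : f ≫ q = Spec.map (CommRingCat.ofHom ψ))
    (hAB : φ.range ⊔ ψ.range = ⊤) : IsClosedImmersion f := by
  apply IsClosedImmersion.of_surjective_of_isAffine
  have h1 : (f.appTop ≫ (Scheme.ΓSpecIso (.of A)).hom).hom.range = ⊤ := by
    rw [eq_top_iff, ← hAB]
    exact sup_le (range_le_of_comp f p φ hp) (range_le_of_comp f q ψ hq)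
  rw [RingHom.range_eq_top] at h1
  have hinj : Function.Injective (Scheme.ΓSpecIso (.of A)).hom.hom :=
    ((ConcreteCategory.bijective_of_isIso (Scheme.ΓSpecIso (.of A)).hom)).1
  intro x
  obtain ⟨y, hy⟩ := h1 ((Scheme.ΓSpecIso (.of A)).hom.hom x)
  exact ⟨y, hinj hy⟩

theorem range_sup_eq_top (i j : C.J) :
    (Subalgebra.inclusion (C.anti (i ⊓ j) i inf_le_left)).toRingHom.range ⊔
      (Subalgebra.inclusion (C.anti (i ⊓ j) j inf_le_right)).toRingHom.range = ⊤ := by
  rw [eq_top_iff]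
  rintro ⟨a, ha⟩ -
  have ha' := ha
  rw [C.sup, Algebra.sup_def] at ha'
  -- the image of the supremum of the ranges in `R`
  have key : ∀ b, b ∈ Algebra.adjoin ℂ (C.A i ∪ C.A j : Set C.R) →
      ∃ c ∈ ((Subalgebra.inclusion (C.anti (i ⊓ j) i inf_le_left)).toRingHom.range ⊔
      (Subalgebra.inclusion (C.anti (i ⊓ j) j inf_le_right)).toRingHom.range),
        (c : C.R) = b := by
    intro b hb
    induction hb using Algebra.adjoin_induction with
    | mem x hx =>
      rcases hx with hx | hx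
      · exact ⟨⟨x, C.anti (i ⊓ j) i inf_le_left hx⟩,
          (le_sup_left : _ ≤ _ ⊔ (Subalgebra.inclusion
            (C.anti (i ⊓ j) j inf_le_right)).toRingHom.range) ⟨⟨x, hx⟩, rfl⟩, rfl⟩
      · exact ⟨⟨x, C.anti (i ⊓ j) j inf_le_right hx⟩,
          (le_sup_right : _ ≤ (Subalgebra.inclusion
            (C.anti (i ⊓ j) i inf_le_left)).toRingHom.range ⊔ _) ⟨⟨x, hx⟩, rfl⟩, rfl⟩
    | algebraMap c =>
      exact ⟨algebraMap ℂ _ c, (le_sup_left : _ ≤ _ ⊔ (Subalgebra.inclusion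
            (C.anti (i ⊓ j) j inf_le_right)).toRingHom.range) ⟨algebraMap ℂ _ c, rfl⟩, rfl⟩
    | add x y _ _ hx hy =>
      obtain ⟨c, hc, rfl⟩ := hx
      obtain ⟨d, hd, rfl⟩ := hy
      exact ⟨c + d, add_mem hc hd, rfl⟩
    | mul x y _ _ hx hy =>
      obtain ⟨c, hc, rfl⟩ := hx
      obtain ⟨d, hd, rfl⟩ := hy
      exact ⟨c * d, mul_mem hc hd, rfl⟩
  obtain ⟨c, hc, hca⟩ := key a ha'
  have : c = ⟨a, ha⟩ := Subtype.ext hca
  rw [← this]
  exact hc

theorem isSeparated_str : IsSeparated C.str := by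
  refine ⟨IsZariskiLocalAtTarget.of_openCover (Scheme.Pullback.openCoverOfLeftRight
    C.cover C.cover _ _) ?_⟩
  rintro ⟨i, j⟩
  have hP := pullback_map_diagonal_isPullback (C.ι i) (C.ι j) C.str
  have hP2 := C.isPullback_ι i j
  refine (MorphismProperty.cancel_left_of_respectsIso (P := @IsClosedImmersion)
    (f := hP.isoPullback.hom) _).mp ?_
  refine (MorphismProperty.cancel_left_of_respectsIso (P := @IsClosedImmersion)
    (f := hP2.isoPullback.hom) _).mp ?_
  have h1 : hP.isoPullback.hom ≫ pullback.snd (pullback.diagonal C.str)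
      (pullback.map (C.ι i ≫ C.str) (C.ι j ≫ C.str) C.str C.str (C.ι i) (C.ι j) (𝟙 _)
        (Category.comp_id _) (Category.comp_id _)) = _ := hP.isoPullback_hom_snd
  change IsClosedImmersion (hP2.isoPullback.hom ≫ hP.isoPullback.hom ≫
    pullback.snd (pullback.diagonal C.str)
      (pullback.map (C.ι i ≫ C.str) (C.ι j ≫ C.str) C.str C.str (C.ι i) (C.ι j) (𝟙 _)
        (Category.comp_id _) (Category.comp_id _)))
  rw [h1]
  refine isClosedImmersion_of_ranges _ (pullback.fst _ _) (pullback.snd _ _) _ _ ?_ ?_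
    (C.range_sup_eq_top i j)
  · rw [Category.assoc, pullback.map, pullback.lift_fst, IsPullback.isoPullback_hom_fst_assoc,
      Category.comp_id]
    rfl
  · rw [Category.assoc, pullback.map, pullback.lift_snd, IsPullback.isoPullback_hom_snd_assoc,
      Category.comp_id]
    rfl

instance : CompactSpace C.glued := by
  have h1 : Finite C.cover.I₀ := C.fin
  have h2 : ∀ i, CompactSpace (C.cover.X i) := fun i =>
    inferInstanceAs (CompactSpace (Spec (.of (C.A i))))
  exact C.cover.compactSpace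

instance : QuasiCompact C.str :=
  (HasAffineProperty.iff_of_isAffine (P := @QuasiCompact)).2 inferInstance

theorem locallyOfFiniteType_str (hft : ∀ i, Algebra.FiniteType ℂ (C.A i)) :
    LocallyOfFiniteType C.str := by
  refine IsZariskiLocalAtSource.of_openCover (P := @LocallyOfFiniteType) C.cover ?_
  intro i
  change LocallyOfFiniteType (C.ι i ≫ C.str)
  rw [ι_str]
  rw [HasRingHomProperty.Spec_iff (P := @LocallyOfFiniteType)]
  exact RingHom.finiteType_algebraMap.2 (hft i)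

/-- a morphism from the spectrum of a field factors through a chart -/
theorem exists_factor {L : Type} [Field L] (f : Spec (.of L) ⟶ C.glued) :
    ∃ (i : C.J) (φ : C.A i →+* L), f = Spec.map (CommRingCat.ofHom φ) ≫ C.ι i := by
  let x : Spec (.of L) := (⊥ : PrimeSpectrum L)
  obtain ⟨i, y, hy⟩ := C.ι_jointly_surjective (f x)
  have hsub : ∀ z : Spec (.of L), z = x := fun z => (Subsingleton.elim (α := PrimeSpectrum L) _ _)
  have hr : Set.range f ⊆ Set.range (C.ι i) := by
    rintro _ ⟨z, rfl⟩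
    rw [hsub z]
    exact ⟨y, hy⟩
  refine ⟨i, (Spec.preimage (IsOpenImmersion.lift (C.ι i) f hr)).hom, ?_⟩
  rw [CommRingCat.ofHom_hom, Spec.map_preimage, IsOpenImmersion.lift_fac]

/-- a coordinate ring of a smaller chart is a localisation -/
theorem exists_isLocalization {i j : C.J} (h : i ≤ j) : ∃ s : C.A j,
    letI := (Subalgebra.inclusion (C.anti i j h)).toRingHom.toAlgebra
    IsLocalization.Away s (C.A i) := by
  obtain ⟨s, hs, hu, hn⟩ := C.loc i j h
  exact ⟨⟨s, hs⟩, isLocalization_of _ _ (C.anti i j h) s hs hu hn⟩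

/-- `M` is a set of charts (the maximal ones) which covers everything -/
theorem isProper_str (hft : ∀ i, Algebra.FiniteType ℂ (C.A i))
    (M : Set C.J) (hM : ∀ i, ∃ j ∈ M, i ≤ j)
    (hex : ∀ (O : Type) [CommRing O] [IsDomain O] [ValuationRing O] (L : Type) [Field L]
      [Algebra O L] [IsFractionRing O L] (i : C.J) (_ : i ∈ M) (φ : C.A i →+* L),
      (∀ c : ℂ, φ (algebraMap ℂ (C.A i) c) ∈ (algebraMap O L).range) →
      ∃ j, ∃ ψ : C.A (i ⊓ j) →+* L,
        (∀ a : C.A i, ψ (Subalgebra.inclusion (C.anti _ _ inf_le_left) a) = φ a) ∧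
        ∀ a : C.A j, ψ (Subalgebra.inclusion (C.anti _ _ inf_le_right) a) ∈ (algebraMap O L).range) :
    IsProper C.str := by
  have hsep := C.isSeparated_str
  have hlft := C.locallyOfFiniteType_str hft
  have huc : UniversallyClosed C.str := by
    apply UniversallyClosed.of_valuativeCriterion
    rintro ⟨O, L, i₁, i₂, ⟨hw⟩⟩
    obtain ⟨i, hiM, φ, rfl⟩ : ∃ (i : C.J) (_ : i ∈ M) (φ : C.A i →+* L),
        i₁ = Spec.map (CommRingCat.ofHom φ) ≫ C.ι i := by
      obtain ⟨i₀, φ₀, h₀⟩ := C.exists_factor i₁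
      obtain ⟨i, hi, hle⟩ := hM i₀
      refine ⟨i, hi, φ₀.comp (Subalgebra.inclusion (C.anti i₀ i hle)).toRingHom, ?_⟩
      rw [h₀, CommRingCat.ofHom_comp, Spec.map_comp, Category.assoc, ← C.chartMap_ι hle]
      rfl
    obtain ⟨γ, rfl⟩ : ∃ γ : ℂ →+* O, i₂ = Spec.map (CommRingCat.ofHom γ) :=
      ⟨(Spec.preimage i₂).hom, by rw [CommRingCat.ofHom_hom, Spec.map_preimage]⟩
    rw [Category.assoc, ι_str, ← Spec.map_comp, ← Spec.map_comp] at hw
    have hγ : ∀ c : ℂ, φ (algebraMap ℂ (C.A i) c) = algebraMap O L (γ c) := by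
      intro c
      have h1 := congrArg (fun g => g.hom c) (Spec.map_injective hw)
      exact h1
    have hinj : Function.Injective (algebraMap O L) := IsFractionRing.injective O L
    obtain ⟨j, ψ, hψ1, hψ2⟩ := hex O L i hiM φ (fun c => ⟨γ c, (hγ c).symm⟩)
    choose g hg using hψ2
    let ψ' : C.A j →+* O :=
      { toFun := g
        map_one' := hinj (by rw [hg, map_one, map_one, map_one])
        map_zero' := hinj (by rw [hg, map_zero, map_zero, map_zero])
        map_mul' := fun a b => hinj (by rw [hg, map_mul, map_mul, map_mul, hg, hg])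
        map_add' := fun a b => hinj (by rw [hg, map_add, map_add, map_add, hg, hg]) }
    have hψ' : (algebraMap O L).comp ψ' =
        ψ.comp (Subalgebra.inclusion (C.anti (i ⊓ j) j inf_le_right)).toRingHom := by
      ext a
      exact hg a
    have hφ : φ = ψ.comp (Subalgebra.inclusion (C.anti (i ⊓ j) i inf_le_left)).toRingHom := by
      ext a
      exact (hψ1 a).symm
    refine ⟨⟨⟨Spec.map (CommRingCat.ofHom ψ') ≫ C.ι j, ?_, ?_⟩⟩⟩
    · rw [← Category.assoc, ← Spec.map_comp, ← CommRingCat.ofHom_comp, hψ',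
        CommRingCat.ofHom_comp, Spec.map_comp, Category.assoc]
      change Spec.map (CommRingCat.ofHom ψ) ≫ C.chartMap (inf_le_right : i ⊓ j ≤ j) ≫ C.ι j =
        Spec.map (CommRingCat.ofHom φ) ≫ C.ι i
      rw [chartMap_ι, ← C.chartMap_ι (inf_le_left : i ⊓ j ≤ i), hφ, CommRingCat.ofHom_comp,
        Spec.map_comp, Category.assoc]
      rfl
    · rw [Category.assoc, ι_str, ← Spec.map_comp, ← CommRingCat.ofHom_comp]
      congr 2
      ext c
      apply hinj
      change algebraMap O L (g (algebraMap ℂ (C.A j) c)) = algebraMap O L (γ c)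
      rw [hg, ← hγ, ← hψ1]
      rfl
  exact { }

end ChartSystem
end Pool.Agent.H23
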