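import Pool.Agent.H23.ModW

/-!
# Module T2: the main inequality
-/

set_option linter.style.haveILetI false

noncomputable section

namespace Pool.Agent.H23

section T2

variable {K : Type} [Field K] [Algebra ℂ K] (v : AddValuation K (WithTop ℤ))

omit [Algebra ℂ K] in
theorem T2.exists_int {f : K} (h : f ≠ 0) : ∃ k : ℤ, v f = k := by
  have := (v.ne_top_iff).2 h
  exact ⟨(v f).untop this, by simp⟩

omit [Algebra ℂ K] in
theorem T2.ne_zero_of_coe {f : K} {k : ℤ} (h : v f = k) : f ≠ 0 := by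
  rintro rfl
  rw [v.map_zero] at h
  exact WithTop.top_ne_coe h

omit [Algebra ℂ K] in
theorem T2.map_prod {ι : Type*} (s : Finset ι) (f : ι → K) :
    v (∏ i ∈ s, f i) = ∑ i ∈ s, v (f i) := by
  classical
  induction s using Finset.induction_on with
  | empty => simp
  | insert a s ha ih => rw [Finset.prod_insert ha, Finset.sum_insert ha, v.map_mul, ih]

omit [Algebra ℂ K] in
/-- the determinant estimate -/
theorem T2.det_le {ι : Type*} [Fintype ι] [DecidableEq ι] (M : Matrix ι ι K) (wt loss : ι → ℤ)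
    (hM : ∀ u w, ((wt w - loss u : ℤ) : WithTop ℤ) ≤ v (M u w)) (hdet : v M.det = 0) :
    ∑ w, wt w ≤ ∑ u, loss u := by
  have h1 : (((∑ w, wt w) - ∑ u, loss u : ℤ) : WithTop ℤ) ≤ v M.det := by
    rw [Matrix.det_apply]
    refine v.map_le_sum fun σ _ => ?_
    have h2 : v (Equiv.Perm.sign σ • ∏ i, M (σ i) i) = v (∏ i, M (σ i) i) := by
      rcases Int.units_eq_one_or (Equiv.Perm.sign σ) with h | h
      · rw [h, one_smul]
      · rw [h, Units.neg_smul, one_smul, v.map_neg]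
    rw [h2, T2.map_prod]
    have h3 : (((∑ w, wt w) - ∑ u, loss u : ℤ) : WithTop ℤ)
        = ∑ w, ((wt w - loss (σ w) : ℤ) : WithTop ℤ) := by
      rw [← Equiv.sum_comp σ loss, ← Finset.sum_sub_distrib]
      push_cast
      rfl
    rw [h3]
    exact Finset.sum_le_sum fun w _ => hM (σ w) w
  rw [hdet] at h1
  have h4 : (∑ w, wt w) - ∑ u, loss u ≤ 0 := by exact_mod_cast h1
  linarith

theorem T2.map_const (hc : ∀ c : ℂ, 0 ≤ v (algebraMap ℂ K c)) {c : ℂ} (h : c ≠ 0) :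
    v (algebraMap ℂ K c) = 0 := by
  apply le_antisymm _ (hc c)
  have h1 := hc c⁻¹
  have h2 : v (algebraMap ℂ K c) + v (algebraMap ℂ K c⁻¹) = 0 := by
    rw [← v.map_mul, ← map_mul, mul_inv_cancel₀ h, map_one, v.map_one]
  rw [← h2]
  exact le_add_of_nonneg_right h1

theorem T2.iterate_le (D : Derivation ℂ K K) (l : ℤ) (h : ∀ f, v f ≤ v (D f) + l) (n : ℕ) :
    ∀ f, v f ≤ v (D^[n] f) + ((n * l : ℤ) : WithTop ℤ) := by
  induction n with
  | zero => intro f; simp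
  | succ n ih =>
    intro f
    rw [Function.iterate_succ_apply]
    calc v f ≤ v (D f) + l := h f
      _ ≤ (v (D^[n] (D f)) + ((n * l : ℤ) : WithTop ℤ)) + l := by gcongr; exact ih _
      _ = v (D^[n] (D f)) + (((n + 1 : ℕ) * l : ℤ) : WithTop ℤ) := by
          rw [add_assoc]
          congr 1
          have : (((n + 1 : ℕ) : ℤ) * l : ℤ) = n * l + l := by push_cast; ring
          rw [this]
          push_cast
          rfl

/-- lossless derivations -/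
def T2.LL (D : Derivation ℂ K K) : Prop := ∀ f, v f ≤ v (D f)

theorem T2.LL_comb {A B : Derivation ℂ K K} (hA : T2.LL v A) (hB : T2.LL v B) {c : K}
    (hc : 0 ≤ v c) : T2.LL v (A - c • B) := by
  intro f
  have h1 : (A - c • B) f = A f - c * B f := by simp
  rw [h1]
  refine v.map_le_sub (hA f) ?_
  rw [v.map_mul]
  exact (hB f).trans (le_add_of_nonneg_left hc)

omit [Algebra ℂ K] in
theorem T2.div_nonneg {a b : K} (hb : b ≠ 0) (h : v b ≤ v a) : 0 ≤ v (a / b) := by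
  obtain ⟨k, hk⟩ := T2.exists_int v hb
  by_cases ha : a = 0
  · simp [ha]
  obtain ⟨l, hl⟩ := T2.exists_int v ha
  obtain ⟨r, hr⟩ := T2.exists_int v (div_ne_zero ha hb)
  have h1 : v (a / b) + v b = v a := by rw [← v.map_mul, div_mul_cancel₀ _ hb]
  rw [hk, hl] at h
  rw [hk, hl, hr] at h1
  rw [hr]
  have h2 : k ≤ l := by exact_mod_cast h
  have h3 : r + k = l := by exact_mod_cast h1
  have h4 : 0 ≤ r := by omega
  exact_mod_cast h4

/-- the determinant of three derivations at three elements -/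
def T2.DD (x y z : K) (α β γ : Derivation ℂ K K) : K :=
  α x * β y * γ z - α x * γ y * β z - β x * α y * γ z + β x * γ y * α z + γ x * α y * β z
    - γ x * β y * α z

theorem T2.exists_min (x y z : K) (lam : Fin 3 → Derivation ℂ K K) (hlam : ∀ i, T2.LL v (lam i))
    (e : ℤ) (he : v (T2.DD x y z (lam 0) (lam 1) (lam 2)) = e) :
    ∃ α β γ : Derivation ℂ K K, T2.LL v α ∧ T2.LL v β ∧ T2.LL v γ ∧
      v (T2.DD x y z α β γ) = e ∧ v (α x) ≤ v (β x) ∧ v (α x) ≤ v (γ x) := by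
  have h01 : T2.DD x y z (lam 1) (lam 0) (lam 2) = - T2.DD x y z (lam 0) (lam 1) (lam 2) := by
    unfold T2.DD; ring
  have h02 : T2.DD x y z (lam 2) (lam 1) (lam 0) = - T2.DD x y z (lam 0) (lam 1) (lam 2) := by
    unfold T2.DD; ring
  rcases le_total (v (lam 0 x)) (v (lam 1 x)) with h1 | h1
  · rcases le_total (v (lam 0 x)) (v (lam 2 x)) with h2 | h2
    · exact ⟨lam 0, lam 1, lam 2, hlam 0, hlam 1, hlam 2, he, h1, h2⟩
    · exact ⟨lam 2, lam 1, lam 0, hlam 2, hlam 1, hlam 0, by rw [h02, v.map_neg, he],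
        h2.trans h1, h2⟩
  · rcases le_total (v (lam 1 x)) (v (lam 2 x)) with h2 | h2
    · exact ⟨lam 1, lam 0, lam 2, hlam 1, hlam 0, hlam 2, by rw [h01, v.map_neg, he], h1, h2⟩
    · exact ⟨lam 2, lam 1, lam 0, hlam 2, hlam 1, hlam 0, by rw [h02, v.map_neg, he],
        h2, h2.trans h1⟩

/-- Gaussian elimination -/
theorem T2.eliminate (x y z : K) (hz : z ≠ 0) (lam : Fin 3 → Derivation ℂ K K)
    (hlam : ∀ i, T2.LL v (lam i))
    (e : ℤ) (he : v (T2.DD x y z (lam 0) (lam 1) (lam 2)) = e) (ez : ℤ) (hez : v z = ez) :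
    ∃ (D₁ D₂ D₃ : Derivation ℂ K K) (l₁ l₂ l₃ : ℤ),
      D₁ x = 1 ∧ D₂ x = 0 ∧ D₂ y = 1 ∧ D₃ x = 0 ∧ D₃ y = 0 ∧ D₃ z = z ∧
      (∀ f, v f ≤ v (D₁ f) + l₁) ∧ (∀ f, v f ≤ v (D₂ f) + l₂) ∧ (∀ f, v f ≤ v (D₃ f) + l₃) ∧
      0 ≤ l₃ ∧ l₁ + l₂ + l₃ + ez = e := by
  obtain ⟨α, β, γ, hα, hβ, hγ, hDD, hmin1, hmin2⟩ := T2.exists_min v x y z lam hlam e he
  have hDD0 : T2.DD x y z α β γ ≠ 0 := T2.ne_zero_of_coe v hDD
  -- first pivot
  have hαx : α x ≠ 0 := by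
    intro h0
    rw [h0, v.map_zero, top_le_iff, v.top_iff] at hmin1 hmin2
    apply hDD0
    unfold T2.DD
    rw [h0, hmin1, hmin2]; ring
  have hloss : ∀ (A : Derivation ℂ K K), T2.LL v A → ∀ (a : K), a ≠ 0 → ∀ l : ℤ, v a = l →
      ∀ f, v f ≤ v ((a⁻¹ • A) f) + l := by
    intro A hA a ha l hl f
    have h1 : (a⁻¹ • A) f = a⁻¹ * A f := by simp
    rw [h1, ← hl, ← v.map_mul]
    have h2 : a⁻¹ * A f * a = A f := by field_simp
    rw [h2]
    exact hA f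
  obtain ⟨l₁, hl₁⟩ := T2.exists_int v hαx
  -- eliminate x
  set β₁ : Derivation ℂ K K := β - (β x / α x) • α with hβ₁
  set γ₁ : Derivation ℂ K K := γ - (γ x / α x) • α with hγ₁
  have hβ₁L : T2.LL v β₁ := T2.LL_comb v hβ hα (T2.div_nonneg v hαx hmin1)
  have hγ₁L : T2.LL v γ₁ := T2.LL_comb v hγ hα (T2.div_nonneg v hαx hmin2)
  have hβ₁x : β₁ x = 0 := by
    simp only [hβ₁, Derivation.sub_apply, Derivation.smul_apply, smul_eq_mul]
    field_simp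
    ring
  have hγ₁x : γ₁ x = 0 := by
    simp only [hγ₁, Derivation.sub_apply, Derivation.smul_apply, smul_eq_mul]
    field_simp
    ring
  have hdet1 : T2.DD x y z α β γ = α x * (β₁ y * γ₁ z - γ₁ y * β₁ z) := by
    simp only [hβ₁, hγ₁, T2.DD, Derivation.sub_apply, Derivation.smul_apply, smul_eq_mul]
    field_simp
    ring
  -- second pivot: possibly swap
  obtain ⟨β₂, γ₂, hβ₂L, hγ₂L, hβ₂x, hγ₂x, hdet2, hmin3⟩ :
      ∃ β₂ γ₂ : Derivation ℂ K K, T2.LL v β₂ ∧ T2.LL v γ₂ ∧ β₂ x = 0 ∧ γ₂ x = 0 ∧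
        v (α x * (β₂ y * γ₂ z - γ₂ y * β₂ z)) = e ∧ v (β₂ y) ≤ v (γ₂ y) := by
    rcases le_total (v (β₁ y)) (v (γ₁ y)) with h | h
    · exact ⟨β₁, γ₁, hβ₁L, hγ₁L, hβ₁x, hγ₁x, by rw [← hdet1, hDD], h⟩
    · refine ⟨γ₁, β₁, hγ₁L, hβ₁L, hγ₁x, hβ₁x, ?_, h⟩
      have : α x * (γ₁ y * β₁ z - β₁ y * γ₁ z) = - T2.DD x y z α β γ := by rw [hdet1]; ring
      rw [this, v.map_neg, hDD]
  have hne2 : α x * (β₂ y * γ₂ z - γ₂ y * β₂ z) ≠ 0 := T2.ne_zero_of_coe v hdet2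
  have hβ₂y : β₂ y ≠ 0 := by
    intro h0
    rw [h0, v.map_zero, top_le_iff, v.top_iff] at hmin3
    apply hne2
    rw [h0, hmin3]; ring
  obtain ⟨l₂, hl₂⟩ := T2.exists_int v hβ₂y
  set γ₃ : Derivation ℂ K K := γ₂ - (γ₂ y / β₂ y) • β₂ with hγ₃
  have hγ₃L : T2.LL v γ₃ := T2.LL_comb v hγ₂L hβ₂L (T2.div_nonneg v hβ₂y hmin3)
  have hγ₃x : γ₃ x = 0 := by
    simp only [hγ₃, Derivation.sub_apply, Derivation.smul_apply, smul_eq_mul, hβ₂x, hγ₂x]
    ring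
  have hγ₃y : γ₃ y = 0 := by
    simp only [hγ₃, Derivation.sub_apply, Derivation.smul_apply, smul_eq_mul]
    field_simp
    ring
  have hdet3 : α x * (β₂ y * γ₂ z - γ₂ y * β₂ z) = α x * β₂ y * γ₃ z := by
    simp only [hγ₃, Derivation.sub_apply, Derivation.smul_apply, smul_eq_mul]
    field_simp
  rw [hdet3] at hdet2 hne2
  have hγ₃z : γ₃ z ≠ 0 := right_ne_zero_of_mul hne2
  have ha : γ₃ z / z ≠ 0 := div_ne_zero hγ₃z hz
  obtain ⟨l₃, hl₃⟩ := T2.exists_int v ha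
  have hl₃0 : 0 ≤ l₃ := by
    have h1 := T2.div_nonneg v hz (hγ₃L z)
    rw [hl₃] at h1
    exact_mod_cast h1
  refine ⟨(α x)⁻¹ • α, (β₂ y)⁻¹ • β₂, (γ₃ z / z)⁻¹ • γ₃, l₁, l₂, l₃, ?_, ?_, ?_, ?_, ?_, ?_,
    hloss α hα _ hαx l₁ hl₁, hloss β₂ hβ₂L _ hβ₂y l₂ hl₂, hloss γ₃ hγ₃L _ ha l₃ hl₃, hl₃0, ?_⟩
  · simp [hαx]
  · simp [hβ₂x]
  · simp [hβ₂y]
  · simp [hγ₃x]
  · simp [hγ₃y]
  · simp only [Derivation.smul_apply, smul_eq_mul]
    field_simp
  · have h1 : v (α x * β₂ y * γ₃ z) = v (α x) + v (β₂ y) + (v (γ₃ z / z) + v z) := by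
      rw [← v.map_mul (γ₃ z / z), div_mul_cancel₀ _ hz, ← v.map_mul, ← v.map_mul]
    rw [hdet2, hl₁, hl₂, hl₃, hez] at h1
    have h2 : e = l₁ + l₂ + (l₃ + ez) := by exact_mod_cast h1
    omega

end T2

theorem ord_sum_le {K : Type} [Field K] [Algebra ℂ K] (v : AddValuation K (WithTop ℤ))
    (hc : ∀ c : ℂ, 0 ≤ v (algebraMap ℂ K c)) (x y z : K) (hz : z ≠ 0)
    (lam : Fin 3 → Derivation ℂ K K) (hlam : ∀ i f, v f ≤ v (lam i f)) (ex ey d : ℤ)
    (hex : v x = ex) (hey : v y = ey)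
    (hd : v (Matrix.of fun i j => lam i (![x, y, z] j) / ![x, y, z] j).det = d) (m : ℕ)
    (coef : Matrix (Mon m) (Mon m) ℂ) (hcoef : coef.det ≠ 0) (wt : Mon m → ℤ)
    (hwt : ∀ w, (wt w : WithTop ℤ) ≤
      v (∑ u : Mon m, algebraMap ℂ K (coef u w) * (x ^ u.1.1 * y ^ u.1.2.1 * z ^ u.1.2.2))) :
    ∑ w, wt w ≤ m * (Mon m).card * (ex + ey + d) := by
  have hx : x ≠ 0 := T2.ne_zero_of_coe v hex
  have hy : y ≠ 0 := T2.ne_zero_of_coe v hey
  obtain ⟨ez, hez⟩ := T2.exists_int v hz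
  -- the determinant
  have hDD : T2.DD x y z (lam 0) (lam 1) (lam 2)
      = (Matrix.of fun i j => lam i (![x, y, z] j) / ![x, y, z] j).det * x * y * z := by
    rw [Matrix.det_fin_three]
    simp only [Matrix.of_apply, Matrix.cons_val_zero, Matrix.cons_val_one, Matrix.cons_val]
    unfold T2.DD
    field_simp
    ring
  have he : v (T2.DD x y z (lam 0) (lam 1) (lam 2)) = ((d + ex + ey + ez : ℤ) : WithTop ℤ) := by
    rw [hDD, v.map_mul, v.map_mul, v.map_mul, hd, hex, hey, hez]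
    push_cast
    rfl
  obtain ⟨D₁, D₂, D₃, l₁, l₂, l₃, h1x, h2x, h2y, h3x, h3y, h3z, hL1, hL2, hL3, hl3, hsum⟩ :=
    T2.eliminate v x y z hz lam hlam _ he ez hez
  obtain ⟨c, hc0, hW⟩ := wronskian_det x y z hz D₁ D₂ D₃ h1x h2x h2y h3x h3y h3z m
  -- the operators
  set P : Mon m → K → K := fun u f => D₁^[u.1.1] (D₂^[u.1.2.1] (D₃^[cExp m u.1] f)) with hP
  have hPlin : ∀ u, ∃ Q : K →ₗ[ℂ] K, ∀ f, P u f = Q f := by
    intro u
    refine ⟨(((D₁ : K →ₗ[ℂ] K) ^ u.1.1) ∘ₗ (((D₂ : K →ₗ[ℂ] K) ^ u.1.2.1) ∘ₗ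
      ((D₃ : K →ₗ[ℂ] K) ^ cExp m u.1))), fun f => ?_⟩
    simp only [hP, LinearMap.comp_apply, Module.End.pow_apply]
    rfl
  set g : Mon m → K := fun w =>
    ∑ u : Mon m, algebraMap ℂ K (coef u w) * (x ^ u.1.1 * y ^ u.1.2.1 * z ^ u.1.2.2) with hg
  have hdet : v (Matrix.of fun (u w : Mon m) => P u (g w)).det = 0 := by
    have h1 : (Matrix.of fun (u w : Mon m) => P u (g w))
        = (Matrix.of fun (u w : Mon m) =>
            (D₁^[u.1.1] (D₂^[u.1.2.1] (D₃^[cExp m u.1] (x ^ w.1.1 * y ^ w.1.2.1 * z ^ w.1.2.2)))))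
          * coef.map (algebraMap ℂ K) := by
      ext u w
      rw [Matrix.mul_apply, Matrix.of_apply]
      obtain ⟨Q, hQ⟩ := hPlin u
      rw [hQ, hg]
      simp only [Matrix.of_apply, Matrix.map_apply]
      rw [map_sum]
      refine Finset.sum_congr rfl fun t _ => ?_
      have h2 := hQ (x ^ t.1.1 * y ^ t.1.2.1 * z ^ t.1.2.2)
      simp only [hP] at h2
      rw [h2, ← Algebra.smul_def, map_smul, Algebra.smul_def, mul_comm]
    have h3 : (coef.map (algebraMap ℂ K)).det = algebraMap ℂ K coef.det := by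
      rw [RingHom.map_det]; rfl
    rw [h1, Matrix.det_mul, hW, h3, ← map_mul]
    exact T2.map_const v hc (mul_ne_zero hc0 hcoef)
  have hle : ∀ (u : Mon m) (f : K), v f ≤ v (P u f)
      + ((u.1.1 * l₁ + u.1.2.1 * l₂ + cExp m u.1 * l₃ : ℤ) : WithTop ℤ) := by
    intro u f
    have h1 := T2.iterate_le v D₃ l₃ hL3 (cExp m u.1) f
    have h2 := T2.iterate_le v D₂ l₂ hL2 u.1.2.1 (D₃^[cExp m u.1] f)
    have h3 := T2.iterate_le v D₁ l₁ hL1 u.1.1 (D₂^[u.1.2.1] (D₃^[cExp m u.1] f))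
    calc v f ≤ v (D₃^[cExp m u.1] f) + ((cExp m u.1 * l₃ : ℤ) : WithTop ℤ) := h1
      _ ≤ (v (D₂^[u.1.2.1] (D₃^[cExp m u.1] f)) + ((u.1.2.1 * l₂ : ℤ) : WithTop ℤ))
          + ((cExp m u.1 * l₃ : ℤ) : WithTop ℤ) := by gcongr
      _ ≤ ((v (P u f) + ((u.1.1 * l₁ : ℤ) : WithTop ℤ)) + ((u.1.2.1 * l₂ : ℤ) : WithTop ℤ))
          + ((cExp m u.1 * l₃ : ℤ) : WithTop ℤ) := by gcongr
      _ = v (P u f) + ((u.1.1 * l₁ + u.1.2.1 * l₂ + cExp m u.1 * l₃ : ℤ) : WithTop ℤ) := by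
          rw [add_assoc, add_assoc]
          congr 1
          norm_cast
          ring_nf
  have hmain := T2.det_le v (Matrix.of fun (u w : Mon m) => P u (g w)) wt
    (fun u => u.1.1 * l₁ + u.1.2.1 * l₂ + cExp m u.1 * l₃) (fun u w => by
      rw [Matrix.of_apply]
      have h1 := (hwt w).trans (hle u (g w))
      by_cases h0 : P u (g w) = 0
      · rw [h0, v.map_zero]; exact le_top
      · obtain ⟨k, hk⟩ := T2.exists_int v h0
        rw [hk] at h1 ⊢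
        have h2 : wt w ≤ k + (u.1.1 * l₁ + u.1.2.1 * l₂ + cExp m u.1 * l₃) := by
          exact_mod_cast h1
        have h3 : wt w - (u.1.1 * l₁ + u.1.2.1 * l₂ + cExp m u.1 * l₃) ≤ k := by linarith
        exact_mod_cast h3) hdet
  refine hmain.trans ?_
  rw [Finset.sum_add_distrib, Finset.sum_add_distrib, ← Finset.sum_mul, ← Finset.sum_mul,
    ← Finset.sum_mul]
  have s1 : ∑ u : Mon m, (u.1.1 : ℤ) = m * (Mon m).card := by
    have := sum_Mon_fst m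
    rw [← Finset.sum_coe_sort (Mon m)] at this
    exact_mod_cast this
  have s2 : ∑ u : Mon m, (u.1.2.1 : ℤ) = m * (Mon m).card := by
    have := sum_Mon_snd m
    rw [← Finset.sum_coe_sort (Mon m)] at this
    exact_mod_cast this
  have s3 : ∑ u : Mon m, (cExp m u.1 : ℤ) ≤ m * (Mon m).card := by
    have := sum_cExp_le m
    rw [← Finset.sum_coe_sort (Mon m)] at this
    exact_mod_cast this
  rw [s1, s2]
  have h5 : (∑ u : Mon m, (cExp m u.1 : ℤ)) * l₃ ≤ m * (Mon m).card * l₃ :=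
    mul_le_mul_of_nonneg_right s3 hl3
  have h6 : ex + ey + d = l₁ + l₂ + l₃ := by linarith
  rw [h6]
  linarith

end Pool.Agent.H23
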