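import Mathlib

noncomputable section

namespace Pool.Agent.H23

universe u

lemma sum_Icc_shift (f : ℕ → ℕ) (N : ℕ) :
    ∑ k ∈ Finset.Icc 1 (N + 1), f k = ∑ k ∈ Finset.Icc 1 N, f (k + 1) + f 1 := by
  induction N with
  | zero => simp
  | succ N ih =>
    rw [Finset.sum_Icc_succ_top (by omega), ih, Finset.sum_Icc_succ_top (by omega)]
    ring

theorem exists_adapted_basis_aux (N : ℕ) : ∀ {V : Type u} [AddCommGroup V] [Module ℂ V]
    [FiniteDimensional ℂ V] (G : ℕ → Submodule ℂ V) (_ : G 0 = ⊤)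
    (_ : ∀ k k', k ≤ k' → G k' ≤ G k) (_ : ∀ k, N < k → G k = ⊥),
    ∃ (ι : Type) (_ : Fintype ι) (b : Module.Basis ι ℂ V) (w : ι → ℕ),
      (∀ i, b i ∈ G (w i)) ∧ ∑ k ∈ Finset.Icc 1 N, Module.finrank ℂ (G k) = ∑ i, w i := by
  induction N with
  | zero =>
    intro V _ _ _ G h0 _ _
    refine ⟨_, inferInstance, Module.finBasis ℂ V, fun _ => 0, fun i => ?_, ?_⟩
    · rw [h0]; exact Submodule.mem_top
    · simp
  | succ N ih =>
    intro V _ _ _ G h0 hanti hN
    obtain ⟨ι, _, b, w, hb, hw⟩ := ih (V := G 1) (fun k => (G (k + 1)).comap (G 1).subtype)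
      (by simp) (fun k k' hkk' => Submodule.comap_mono (hanti _ _ (by omega)))
      (fun k hk => by
        rw [hN (k + 1) (by omega), Submodule.comap_bot, Submodule.ker_subtype])
    obtain ⟨C, hC⟩ := Submodule.exists_isCompl (G 1)
    let bC := Module.finBasis ℂ C
    let e := Submodule.prodEquivOfIsCompl (G 1) C hC
    refine ⟨ι ⊕ Fin (Module.finrank ℂ C), inferInstance, (b.prod bC).map e,
      Sum.elim (fun i => w i + 1) (fun _ => 0), ?_, ?_⟩
    · rintro (i | i)
      · have h1 := hb i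
        rw [Module.Basis.map_apply, Module.Basis.prod_apply]
        simp only [Sum.elim_inl, Function.comp, LinearMap.inl_apply, e,
          Submodule.coe_prodEquivOfIsCompl', ZeroMemClass.coe_zero, add_zero]
        exact h1
      · simp only [Sum.elim_inr]
        rw [h0]; exact Submodule.mem_top
    · rw [Fintype.sum_sum_type]
      simp only [Sum.elim_inl, Sum.elim_inr, Finset.sum_const_zero, add_zero,
        Finset.sum_add_distrib, Finset.sum_const, Finset.card_univ, smul_eq_mul, mul_one]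
      rw [← hw, ← Module.finrank_eq_card_basis b]
      have h1 : ∀ k, Module.finrank ℂ ((G (k + 1)).comap (G 1).subtype) =
          Module.finrank ℂ (G (k + 1)) := fun k =>
        (Submodule.comapSubtypeEquivOfLe (hanti 1 (k + 1) (by omega))).finrank_eq
      simp only [h1]
      exact sum_Icc_shift (fun k => Module.finrank ℂ (G k)) N

theorem exists_adapted_basis {V : Type*} [AddCommGroup V] [Module ℂ V] [FiniteDimensional ℂ V]
    (G : ℕ → Submodule ℂ V) (h0 : G 0 = ⊤) (hanti : ∀ k k', k ≤ k' → G k' ≤ G k) (N : ℕ)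
    (hN : ∀ k, N < k → G k = ⊥) :
    ∃ (b : Module.Basis (Fin (Module.finrank ℂ V)) ℂ V) (w : Fin (Module.finrank ℂ V) → ℕ),
      (∀ i, b i ∈ G (w i)) ∧ ∑ k ∈ Finset.Icc 1 N, Module.finrank ℂ (G k) = ∑ i, w i := by
  obtain ⟨ι, _, b, w, hb, hw⟩ := exists_adapted_basis_aux N G h0 hanti hN
  let e : ι ≃ Fin (Module.finrank ℂ V) :=
    Fintype.equivFinOfCardEq (Module.finrank_eq_card_basis b).symm
  refine ⟨b.reindex e, w ∘ e.symm, fun i => ?_, ?_⟩
  · rw [Module.Basis.reindex_apply]
    exact hb _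
  · rw [hw, ← Equiv.sum_comp e.symm]
    rfl

end Pool.Agent.H23
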