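import Pool.Agent.H23.Model

noncomputable section

namespace Pool.Agent.H23

open AddMonoidAlgebra

section loss

variable {K : Type} [Field K] [Algebra ℂ K]

omit [Algebra ℂ K] in
lemma val_pow (v : AddValuation K (WithTop ℤ)) {t : K} (ht : v t = 1) (k : ℕ) :
    v (t ^ k) = ((k : ℤ) : WithTop ℤ) := by
  rw [AddValuation.map_pow, ht]
  simp

omit [Algebra ℂ K] in
lemma val_zpow (v : AddValuation K (WithTop ℤ)) {t : K} (ht : v t = 1) (k : ℤ) :
    v (t ^ k) = (k : WithTop ℤ) := by
  obtain ⟨n, rfl | rfl⟩ := k.eq_nat_or_neg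
  · rw [zpow_natCast, val_pow v ht]
  · rw [zpow_neg, zpow_natCast, AddValuation.map_inv, val_pow v ht]
    rfl

lemma loss_of_nonneg (v : AddValuation K (WithTop ℤ)) {t : K} (ht : v t = 1)
    (hc : ∀ k : ℤ, 0 ≤ v (k : K))
    (D : Derivation ℂ K K) (hD : ∀ f, 0 ≤ v f → 0 ≤ v (D f)) (f : K) :
    v f ≤ v (D f) + 1 := by
  by_cases hf : f = 0
  · subst hf
    rw [Derivation.map_zero, AddValuation.map_zero]
    simp
  obtain ⟨k, hk⟩ := exists_int v hf
  have ht0 : t ≠ 0 := by
    rintro rfl
    rw [AddValuation.map_zero] at ht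
    exact absurd ht (by decide)
  obtain ⟨u, hu⟩ : ∃ u, u = f * t ^ (-k) := ⟨_, rfl⟩
  have hvu : v u = 0 := by
    rw [hu, AddValuation.map_mul, hk, val_zpow v ht]
    norm_cast
    simp
  have hfu : f = t ^ k * u := by
    rw [hu, zpow_neg]
    field_simp
  have h1 : D f = t ^ (k - 1) * (t * D u + u * ((k : K) * D t)) := by
    rw [hfu, Derivation.leibniz, Derivation.leibniz_zpow, zsmul_eq_mul]
    simp only [smul_eq_mul]
    have : t ^ k = t ^ (k - 1) * t := by
      rw [← zpow_add_one₀ ht0]; congr 1; ring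
    rw [this]
    ring
  have h2 : 0 ≤ v (t * D u + u * ((k : K) * D t)) := by
    refine le_trans (le_min ?_ ?_) (v.map_add _ _)
    · rw [AddValuation.map_mul, ht]
      exact add_nonneg (by norm_num) (hD _ hvu.ge)
    · rw [AddValuation.map_mul, AddValuation.map_mul, hvu, zero_add]
      exact add_nonneg (hc k) (hD _ (by rw [ht]; norm_num))
  rw [h1, AddValuation.map_mul, val_zpow v ht, hk]
  generalize v (t * D u + u * ((k : K) * D t)) = X at h2
  induction X using WithTop.recTopCoe with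
  | top => simp
  | coe X =>
    have h3 : (0 : ℤ) ≤ X := by exact_mod_cast h2
    have h4 : k ≤ k - 1 + X + 1 := by omega
    exact_mod_cast h4

lemma eq_sum_dualDer {σ : Type*} [Fintype σ] {g : σ → K} (b : Module.Basis σ K Ω[K⁄ℂ])
    (hb : ∀ i, b i = KaehlerDifferential.D ℂ K (g i)) (δ : Derivation ℂ K K) (f : K) :
    δ f = ∑ i, dualDer b i f * δ (g i) := by
  have h1 : δ f = δ.liftKaehlerDifferential (KaehlerDifferential.D ℂ K f) := by simp
  rw [h1, ← b.sum_repr (KaehlerDifferential.D ℂ K f), map_sum]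
  refine Finset.sum_congr rfl fun i _ => ?_
  rw [map_smul, hb, Derivation.liftKaehlerDifferential_comp_D, smul_eq_mul]
  rfl

omit [Algebra ℂ K] in
/-- A bound for a finite sum. -/
lemma val_sum_ge (v : AddValuation K (WithTop ℤ)) {σ : Type*} (s : Finset σ) (F : σ → K)
    (a : WithTop ℤ) (h : ∀ i ∈ s, a ≤ v (F i)) : a ≤ v (∑ i ∈ s, F i) := by
  classical
  induction s using Finset.induction_on with
  | empty => simp
  | insert i s hi ih =>
    rw [Finset.sum_insert hi]
    refine le_trans (le_min ?_ ?_) (v.map_add _ _)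
    · exact h i (Finset.mem_insert_self _ _)
    · exact ih fun j hj => h j (Finset.mem_insert_of_mem hj)

theorem exists_loss {K : Type} [Field K] [Algebra ℂ K] [Algebra.EssFiniteType ℂ K] {k : ℕ}
    {z : Fin (k + 1) → K} (hz : IsTranscendenceBasis ℂ z) (E : PrimeDivisorOver K (k + 1))
    (δ : Derivation ℂ K K) : ∃ c : ℕ, ∀ f, E.ord f ≤ E.ord (δ f) + (c : ℤ) := by
  obtain ⟨g, b, hb, hg0, hg, hD⟩ := exists_divisorCoords hz E
  have hc : ∀ k : ℤ, 0 ≤ E.ord (k : K) := fun k => by
    have := E.ord_const (k : ℂ)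
    rwa [map_intCast] at this
  have h1 : ∀ i, ∃ c : ℕ, (-(c : ℤ) : ℤ) ≤ E.ord (δ (g i)) := by
    intro i
    by_cases h0 : δ (g i) = 0
    · exact ⟨0, by rw [h0, AddValuation.map_zero]; exact le_top⟩
    · obtain ⟨k, hk⟩ := exists_int E.ord h0
      refine ⟨k.natAbs, ?_⟩
      rw [hk]
      have : -((k.natAbs : ℕ) : ℤ) ≤ k := by omega
      exact_mod_cast this
  choose c hcb using h1
  refine ⟨1 + ∑ i, c i, fun f => ?_⟩
  have h2 : ∀ i, E.ord f ≤ E.ord (dualDer b i f) + 1 :=
    fun i => loss_of_nonneg E.ord hg0 hc (dualDer b i) (hD i) f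
  by_cases hf : f = 0
  · subst hf
    rw [Derivation.map_zero, AddValuation.map_zero]
    simp
  obtain ⟨k, hk⟩ := exists_int E.ord hf
  have h3 : ((k - 1 - ∑ i, (c i : ℤ) : ℤ) : WithTop ℤ) ≤ E.ord (δ f) := by
    rw [eq_sum_dualDer b hb δ f]
    apply val_sum_ge
    intro i _
    rw [AddValuation.map_mul]
    have h4 := h2 i
    have h5 := hcb i
    rw [hk] at h4
    have h6 : (c i : ℤ) ≤ ∑ i, (c i : ℤ) :=
      Finset.single_le_sum (f := fun i => (c i : ℤ)) (fun i _ => by positivity) (Finset.mem_univ i)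
    generalize E.ord (dualDer b i f) = X at h4 ⊢
    generalize E.ord (δ (g i)) = Y at h5 ⊢
    induction X using WithTop.recTopCoe with
    | top => simp
    | coe X =>
      induction Y using WithTop.recTopCoe with
      | top => simp
      | coe Y =>
        have h4' : k ≤ X + 1 := by exact_mod_cast h4
        have h5' : -(c i : ℤ) ≤ Y := by exact_mod_cast h5
        have : k - 1 - ∑ i, (c i : ℤ) ≤ X + Y := by omega
        exact_mod_cast this
  rw [hk]
  generalize E.ord (δ f) = X at h3 ⊢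
  induction X using WithTop.recTopCoe with
  | top => simp
  | coe X =>
    have h4 : k - 1 - ∑ i, (c i : ℤ) ≤ X := by exact_mod_cast h3
    have h5 : k ≤ X + ((1 + ∑ i, c i : ℕ) : ℤ) := by push_cast; omega
    exact_mod_cast h5

end loss

section bound

variable {n : ℕ} {K : Type} [Field K] [Algebra ℂ K]

/-- The operator `∏ (D_i - a)`. -/
def prodOp (D : Fin n → Derivation ℂ K K) (L : List (Fin n × ℤ)) : K →ₗ[ℂ] K :=
  L.foldr (fun p T => ((D p.1 : K →ₗ[ℂ] K) - (p.2 : ℤ) • LinearMap.id).comp T) LinearMap.id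

lemma prodOp_cons (D : Fin n → Derivation ℂ K K) (p : Fin n × ℤ) (L : List (Fin n × ℤ)) (f : K) :
    prodOp D (p :: L) f = D p.1 (prodOp D L f) - (p.2 : K) * prodOp D L f := by
  simp [prodOp]

lemma val_prodOp (v : AddValuation K (WithTop ℤ)) (hv : ∀ c : ℂ, 0 ≤ v (algebraMap ℂ K c))
    (D : Fin n → Derivation ℂ K K) (c : ℕ) (hD : ∀ i f, v f ≤ v (D i f) + (c : ℤ))
    (L : List (Fin n × ℤ)) (f : K) : v f ≤ v (prodOp D L f) + ((c * L.length : ℕ) : ℤ) := by
  induction L with
  | nil => simp [prodOp]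
  | cons p L ih =>
    have h1 : v (prodOp D L f) ≤ v (prodOp D (p :: L) f) + (c : ℤ) := by
      rw [prodOp_cons]
      by_cases h0 : prodOp D L f = 0
      · rw [h0]; simp
      obtain ⟨k, hk⟩ := exists_int v h0
      have h2 := hD p.1 (prodOp D L f)
      have h3 : v (prodOp D L f) ≤ v ((p.2 : K) * prodOp D L f) := by
        rw [AddValuation.map_mul]
        have := hv (p.2 : ℂ)
        rw [map_intCast] at this
        exact le_add_of_nonneg_left this
      have h4 : ((k - c : ℤ) : WithTop ℤ) ≤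
          v (D p.1 (prodOp D L f) - (p.2 : K) * prodOp D L f) := by
        refine le_trans (le_min ?_ ?_) (v.map_sub _ _)
        · rw [hk] at h2
          generalize v (D p.1 (prodOp D L f)) = X at h2 ⊢
          induction X using WithTop.recTopCoe with
          | top => simp
          | coe X =>
            have : k ≤ X + c := by exact_mod_cast h2
            have : k - c ≤ X := by omega
            exact_mod_cast this
        · refine le_trans ?_ h3
          rw [hk]
          have : k - (c : ℤ) ≤ k := by omega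
          exact_mod_cast this
      rw [hk]
      generalize v (D p.1 (prodOp D L f) - (p.2 : K) * prodOp D L f) = X at h4 ⊢
      induction X using WithTop.recTopCoe with
      | top => simp
      | coe X =>
        have : k - c ≤ X := by exact_mod_cast h4
        have : k ≤ X + c := by omega
        exact_mod_cast this
    refine ih.trans ((add_le_add h1 le_rfl).trans (le_of_eq ?_))
    rw [add_assoc]
    congr 1
    rw [List.length_cons]
    have : (c : ℤ) + ((c * L.length : ℕ) : ℤ) = ((c * (L.length + 1) : ℕ) : ℤ) := by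
      push_cast; ring
    exact_mod_cast this

lemma prodOp_chi (P : TorusModel n K) (D : Fin n → Derivation ℂ K K)
    (hDz : ∀ i u, D i (P.chi u) = (u i : K) * P.chi u) (L : List (Fin n × ℤ)) (u : Fin n → ℤ) :
    prodOp D L (P.chi u) = ((L.map fun p => u p.1 - p.2).prod : K) * P.chi u := by
  induction L with
  | nil => simp [prodOp]
  | cons p L ih =>
    rw [prodOp_cons, ih, Derivation.leibniz, hDz]
    simp only [smul_eq_mul, Derivation.map_intCast, mul_zero, add_zero, List.map_cons,
      List.prod_cons]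
    push_cast
    ring

lemma exists_additive (P : TorusModel n K) (v : AddValuation K (WithTop ℤ)) :
    ∃ d : (Fin n → ℤ) →+ ℤ, ∀ u, v (P.chi u) = d u := by
  choose d hd using fun u => exists_int v (P.chi_ne_zero u)
  refine ⟨⟨⟨d, ?_⟩, ?_⟩, hd⟩
  · have h := hd 0
    rw [P.chi_zero, AddValuation.map_one] at h
    exact_mod_cast h.symm
  · intro a b
    have h := hd (a + b)
    rw [P.chi_add, AddValuation.map_mul, hd, hd] at h
    exact_mod_cast h.symm

lemma additive_bound (d : (Fin n → ℤ) →+ ℤ) (u : Fin n → ℤ) (b : ℕ) (hu : ∀ j, |u j| ≤ b) :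
    d u ≤ b * ∑ j, |d (Pi.single j 1)| := by
  have h1 : u = ∑ j, u j • (Pi.single j 1 : Fin n → ℤ) := by
    ext i
    simp [Finset.sum_apply, Pi.single_apply]
  rw [h1, map_sum, Finset.mul_sum]
  refine Finset.sum_le_sum fun j _ => ?_
  rw [map_zsmul, smul_eq_mul]
  calc u j * d (Pi.single j 1) ≤ |u j * d (Pi.single j 1)| := le_abs_self _
    _ = |u j| * |d (Pi.single j 1)| := abs_mul _ _
    _ ≤ b * |d (Pi.single j 1)| := mul_le_mul_of_nonneg_right (hu j) (abs_nonneg _)

theorem exists_linear_bound {n : ℕ} {K : Type} [Field K] [Algebra ℂ K] (P : TorusModel n K)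
    (v : AddValuation K (WithTop ℤ)) (hv : ∀ c : ℂ, 0 ≤ v (algebraMap ℂ K c))
    (D : Fin n → Derivation ℂ K K) (c : ℕ) (hD : ∀ i f, v f ≤ v (D i f) + (c : ℤ))
    (hDz : ∀ i u, D i (P.chi u) = (u i : K) * P.chi u) (B : ℕ) :
    ∃ C : ℕ, ∀ (m : ℕ) (f : LP n), f ≠ 0 → (∀ u, f.coeff u ≠ 0 → ∀ j, |u j| ≤ B * m) →
      v (P.ψ f) ≤ ((C * m : ℕ) : ℤ) := by
  classical
  obtain ⟨d, hd⟩ := exists_additive P v
  refine ⟨c * (n * (2 * B)) + B * ∑ j, (d (Pi.single j 1)).natAbs, fun m f hf hsupp => ?_⟩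
  obtain ⟨u, hu⟩ : ∃ u, f.coeff u ≠ 0 := by
    by_contra h
    push Not at h
    apply hf
    ext u
    simp [h u]
  have huj := hsupp u hu
  -- the set of pairs
  let S : Finset (Fin n × ℤ) := (Finset.univ.sigma
    (fun i : Fin n => (Finset.Icc (-(B * m : ℤ)) (B * m)).erase (u i))).map
      (Equiv.sigmaEquivProd _ _).toEmbedding
  have hS : ∀ p : Fin n × ℤ, p ∈ S ↔ p.2 ≠ u p.1 ∧ |p.2| ≤ B * m := by
    rintro ⟨i, a⟩
    simp only [S, Finset.mem_map_equiv, Finset.mem_sigma, Finset.mem_univ, true_and,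
      Finset.mem_erase, Finset.mem_Icc, abs_le]
    rfl
  have hScard : S.card = n * (2 * B * m) := by
    rw [Finset.card_map, Finset.card_sigma]
    rw [Finset.sum_congr rfl (g := fun _ => 2 * B * m)]
    · simp
    · intro i _
      rw [Finset.card_erase_of_mem (Finset.mem_Icc.2 (abs_le.1 (huj i))), Int.card_Icc]
      have : ((B : ℤ) * m + 1 - -(B * m)) = ((2 * B * m + 1 : ℕ) : ℤ) := by push_cast; ring
      rw [this, Int.toNat_natCast]
      omega
  have h1 := val_prodOp v hv D c hD S.toList (P.ψ f)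
  rw [Finset.length_toList, hScard] at h1
  have h2 : prodOp D S.toList (P.ψ f) =
      algebraMap ℂ K (f.coeff u * ∏ p ∈ S, ((u p.1 - p.2 : ℤ) : ℂ)) * P.chi u := by
    conv_lhs => rw [sum_mono f]
    rw [map_sum, map_sum, Finset.sum_eq_single u]
    · rw [map_smul, map_smul]
      have := prodOp_chi P D hDz S.toList u
      rw [TorusModel.chi] at this
      rw [this, Finset.prod_map_toList, Algebra.smul_def, map_mul, map_prod]
      simp only [map_intCast]
      rw [TorusModel.chi, mul_assoc]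
      push_cast
      rfl
    · intro w hw hwu
      rw [map_smul, map_smul]
      have := prodOp_chi P D hDz S.toList w
      rw [TorusModel.chi] at this
      rw [this, Finset.prod_map_toList]
      obtain ⟨j, hj⟩ : ∃ j, w j ≠ u j := Function.ne_iff.1 hwu
      rw [Finset.prod_eq_zero (i := (j, w j)), Int.cast_zero, zero_mul, smul_zero]
      · rw [hS]
        exact ⟨hj, hsupp w (Finsupp.mem_support_iff.1 hw) j⟩
      · simp
    · intro h
      exact absurd (Finsupp.mem_support_iff.2 hu) h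
  have h3 : v (algebraMap ℂ K (f.coeff u * ∏ p ∈ S, ((u p.1 - p.2 : ℤ) : ℂ))) = 0 := by
    have h0 : f.coeff u * ∏ p ∈ S, ((u p.1 - p.2 : ℤ) : ℂ) ≠ 0 := by
      apply mul_ne_zero hu
      rw [Finset.prod_ne_zero_iff]
      intro p hp
      rw [hS] at hp
      exact_mod_cast sub_ne_zero.2 hp.1.symm
    generalize f.coeff u * ∏ p ∈ S, ((u p.1 - p.2 : ℤ) : ℂ) = x at h0
    apply le_antisymm
    · have h4 := hv x⁻¹
      have h5 : v (algebraMap ℂ K x) + v (algebraMap ℂ K x⁻¹) = 0 := by
        rw [← AddValuation.map_mul, ← map_mul, mul_inv_cancel₀ h0, map_one, AddValuation.map_one]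
      calc v (algebraMap ℂ K x) ≤ v (algebraMap ℂ K x) + v (algebraMap ℂ K x⁻¹) :=
            le_add_of_nonneg_right h4
        _ = 0 := h5
    · exact hv x
  rw [h2, AddValuation.map_mul, h3, zero_add, hd u] at h1
  refine h1.trans ?_
  have h4 := additive_bound d u (B * m) (fun j => by exact_mod_cast huj j)
  have h5 : d u + ((c * (n * (2 * B * m)) : ℕ) : ℤ) ≤
      (((c * (n * (2 * B)) + B * ∑ j, (d (Pi.single j 1)).natAbs) * m : ℕ) : ℤ) := by
    push_cast at h4 ⊢
    nlinarith [h4]
  exact_mod_cast h5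

end bound

end Pool.Agent.H23
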