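import Mathlib

open TensorProduct

noncomputable section

namespace Pool.Agent.H23

/-! ## Module W: a Wronskian type determinant -/

/-- exponents `(a, b, s)` of the monomials `x^a y^b z^s` in the `m`-th graded piece:
`|s| ≤ m`, `0 ≤ a ≤ 2m - s`, `0 ≤ b ≤ 2m + s` -/
def Mon (m : ℕ) : Finset (ℕ × ℕ × ℤ) :=
  ((Finset.range (3 * m + 1)) ×ˢ (Finset.range (3 * m + 1)) ×ˢ (Finset.Icc (-(m : ℤ)) m)).filter
    fun u => (u.1 : ℤ) ≤ 2 * m - u.2.2 ∧ (u.2.1 : ℤ) ≤ 2 * m + u.2.2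

/-- the order of the third derivation -/
def cExp (m : ℕ) (u : ℕ × ℕ × ℤ) : ℕ := (u.2.2 - max (-(m : ℤ)) ((u.2.1 : ℤ) - 2 * m)).toNat

theorem mem_Mon {m : ℕ} {u : ℕ × ℕ × ℤ} : u ∈ Mon m ↔
    -(m : ℤ) ≤ u.2.2 ∧ u.2.2 ≤ m ∧ (u.1 : ℤ) ≤ 2 * m - u.2.2 ∧ (u.2.1 : ℤ) ≤ 2 * m + u.2.2 := by
  unfold Mon
  rw [Finset.mem_filter, Finset.mem_product, Finset.mem_product, Finset.mem_range,
    Finset.mem_range, Finset.mem_Icc]
  constructor
  · rintro ⟨⟨-, -, h1, h2⟩, h3, h4⟩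
    exact ⟨h1, h2, h3, h4⟩
  · rintro ⟨h1, h2, h3, h4⟩
    refine ⟨⟨?_, ?_, h1, h2⟩, h3, h4⟩ <;> omega

/-! ### The three sums -/

theorem sum_Mon_s (m : ℕ) : ∑ u ∈ Mon m, u.2.2 = 0 := by
  have h : ∑ u ∈ Mon m, u.2.2 = ∑ u ∈ Mon m, -u.2.2 := by
    refine Finset.sum_nbij' (fun u => (u.2.1, u.1, -u.2.2)) (fun u => (u.2.1, u.1, -u.2.2))
      ?_ ?_ ?_ ?_ ?_
    · intro u hu
      rw [mem_Mon] at hu ⊢
      simp only
      omega
    · intro u hu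
      rw [mem_Mon] at hu ⊢
      simp only
      omega
    · intro u _
      simp
    · intro u _
      simp
    · intro u _
      simp
  rw [Finset.sum_neg_distrib] at h
  omega

/-- the total orders of the three derivations -/
theorem sum_Mon_fst (m : ℕ) : ∑ u ∈ Mon m, u.1 = m * (Mon m).card := by
  have h : ∑ u ∈ Mon m, (u.1 : ℤ) = ∑ u ∈ Mon m, (2 * (m : ℤ) - u.2.2 - u.1) := by
    refine Finset.sum_nbij' (fun u => ((2 * (m : ℤ) - u.2.2 - u.1).toNat, u.2.1, u.2.2))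
      (fun u => ((2 * (m : ℤ) - u.2.2 - u.1).toNat, u.2.1, u.2.2)) ?_ ?_ ?_ ?_ ?_
    · intro u hu
      rw [mem_Mon] at hu ⊢
      simp only
      omega
    · intro u hu
      rw [mem_Mon] at hu ⊢
      simp only
      omega
    · rintro ⟨a, b, s⟩ hu
      rw [mem_Mon] at hu
      simp only at hu ⊢
      rw [Prod.mk.injEq]
      refine ⟨?_, rfl⟩
      omega
    · rintro ⟨a, b, s⟩ hu
      rw [mem_Mon] at hu
      simp only at hu ⊢
      rw [Prod.mk.injEq]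
      refine ⟨?_, rfl⟩
      omega
    · rintro ⟨a, b, s⟩ hu
      rw [mem_Mon] at hu
      simp only at hu ⊢
      omega
  rw [Finset.sum_sub_distrib, Finset.sum_sub_distrib, sum_Mon_s, Finset.sum_const, nsmul_eq_mul]
    at h
  have h2 : ((∑ u ∈ Mon m, u.1 : ℕ) : ℤ) = ((m * (Mon m).card : ℕ) : ℤ) := by
    push_cast
    linarith
  exact_mod_cast h2

theorem sum_Mon_snd (m : ℕ) : ∑ u ∈ Mon m, u.2.1 = m * (Mon m).card := by
  have h : ∑ u ∈ Mon m, (u.2.1 : ℤ) = ∑ u ∈ Mon m, (2 * (m : ℤ) + u.2.2 - u.2.1) := by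
    refine Finset.sum_nbij' (fun u => (u.1, (2 * (m : ℤ) + u.2.2 - u.2.1).toNat, u.2.2))
      (fun u => (u.1, (2 * (m : ℤ) + u.2.2 - u.2.1).toNat, u.2.2)) ?_ ?_ ?_ ?_ ?_
    · intro u hu
      rw [mem_Mon] at hu ⊢
      simp only
      omega
    · intro u hu
      rw [mem_Mon] at hu ⊢
      simp only
      omega
    · rintro ⟨a, b, s⟩ hu
      rw [mem_Mon] at hu
      simp only at hu ⊢
      rw [Prod.mk.injEq, Prod.mk.injEq]
      refine ⟨rfl, ?_, rfl⟩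
      omega
    · rintro ⟨a, b, s⟩ hu
      rw [mem_Mon] at hu
      simp only at hu ⊢
      rw [Prod.mk.injEq, Prod.mk.injEq]
      refine ⟨rfl, ?_, rfl⟩
      omega
    · rintro ⟨a, b, s⟩ hu
      rw [mem_Mon] at hu
      simp only at hu ⊢
      omega
  rw [Finset.sum_sub_distrib, Finset.sum_add_distrib, sum_Mon_s, Finset.sum_const, nsmul_eq_mul]
    at h
  have h2 : ((∑ u ∈ Mon m, u.2.1 : ℕ) : ℤ) = ((m * (Mon m).card : ℕ) : ℤ) := by
    push_cast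
    linarith
  exact_mod_cast h2

theorem sum_cExp_le (m : ℕ) : ∑ u ∈ Mon m, cExp m u ≤ m * (Mon m).card := by
  have h : ∑ u ∈ Mon m, (cExp m u : ℤ) ≤ ∑ u ∈ Mon m, ((m : ℤ) + u.2.2) := by
    refine Finset.sum_le_sum fun u hu => ?_
    rw [mem_Mon] at hu
    unfold cExp
    omega
  rw [Finset.sum_add_distrib, sum_Mon_s, Finset.sum_const, nsmul_eq_mul, add_zero, mul_comm] at h
  exact_mod_cast h

/-! ### Derivations and powers -/

section Deriv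

variable {K A : Type*} [CommRing K] [CommRing A] [Algebra K A] (δ : Derivation K A A)

/-- Iterated derivatives of `W ^ n * G` at a zero of `W`. -/
theorem iterate_pow_mul {B : Type*} [CommRing B] (μ : A →+* B) (W G : A) (hW : μ W = 0) (n : ℕ) :
    ∀ k, k ≤ n → ∃ R, (⇑δ)^[k] (W ^ n * G) = W ^ (n - k) * R ∧
      μ R = n.descFactorial k * μ (δ W) ^ k * μ G := by
  intro k
  induction k with
  | zero =>
    intro _
    exact ⟨G, by simp, by simp⟩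
  | succ k ih =>
    intro hk
    obtain ⟨R, h1, h2⟩ := ih (by omega)
    obtain ⟨j, hj⟩ : ∃ j, n - k = j + 1 := ⟨n - k - 1, by omega⟩
    refine ⟨(j + 1 : ℕ) * δ W * R + W * δ R, ?_, ?_⟩
    · rw [Function.iterate_succ_apply', h1, hj, Derivation.leibniz, Derivation.leibniz_pow,
        show n - (k + 1) = j by omega, Nat.add_sub_cancel]
      simp only [smul_eq_mul, nsmul_eq_mul]
      ring
    · rw [map_add, map_mul, map_mul, map_mul, hW, h2, Nat.descFactorial_succ, hj, map_natCast]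
      push_cast
      ring

theorem iterate_pow_mul_lt {B : Type*} [CommRing B] (μ : A →+* B) (W G : A) (hW : μ W = 0)
    {n k : ℕ} (h : k < n) : μ ((⇑δ)^[k] (W ^ n * G)) = 0 := by
  obtain ⟨R, h1, h2⟩ := iterate_pow_mul δ μ W G hW n k h.le
  rw [h1, map_mul, map_pow, hW, zero_pow (by omega), zero_mul]

theorem iterate_pow_mul_eq {B : Type*} [CommRing B] (μ : A →+* B) (W G : A) (hW : μ W = 0)
    (n : ℕ) : μ ((⇑δ)^[n] (W ^ n * G)) = n.factorial * μ (δ W) ^ n * μ G := by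
  obtain ⟨R, h1, h2⟩ := iterate_pow_mul δ μ W G hW n n le_rfl
  rw [h1, map_mul, map_pow, Nat.sub_self, pow_zero, one_mul, h2, Nat.descFactorial_self]

/-- Constants come out of iterated derivatives. -/
theorem iterate_const_mul (W G : A) (hW : δ W = 0) (k : ℕ) :
    (⇑δ)^[k] (W * G) = W * (⇑δ)^[k] G := by
  induction k with
  | zero => rfl
  | succ k ih =>
    rw [Function.iterate_succ_apply', ih, Function.iterate_succ_apply', Derivation.leibniz, hW,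
      smul_zero, add_zero, smul_eq_mul]

end Deriv

/-- Triangular determinants, for an injective map to a linear order. -/
theorem det_triangular {ι α R : Type*} [Fintype ι] [DecidableEq ι] [LinearOrder α] [CommRing R]
    (b : ι → α) (hb : Function.Injective b) (M : Matrix ι ι R)
    (h : ∀ i j, b j < b i → M i j = 0) : M.det = ∏ i, M i i := by
  let L : LinearOrder ι := LinearOrder.lift' b hb
  have h1 : M.IsUpperTriangular := fun i j hij => h i j hij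
  have h2 := Matrix.det_of_isUpperTriangular h1
  rw [← h2]

/-! ### The base change of a derivation -/

section BaseChange

variable {K : Type} [Field K] [Algebra ℂ K]

/-- `1 ⊗ D` on `K ⊗ K`, linear over the left factor. -/
def bc (D : Derivation ℂ K K) : Derivation K (K ⊗[ℂ] K) (K ⊗[ℂ] K) :=
  Derivation.mk' (D.toLinearMap.baseChange K) (by
    intro a b
    induction a with
    | zero => simp
    | add a a' ha ha' =>
      rw [add_mul, map_add, ha, ha', map_add, add_smul, smul_add]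
      abel
    | tmul k f =>
      induction b with
      | zero => simp
      | add b b' hb hb' =>
        rw [mul_add, map_add, hb, hb', map_add, add_smul, smul_add]
        abel
      | tmul k' g =>
        rw [Algebra.TensorProduct.tmul_mul_tmul, LinearMap.baseChange_tmul,
          LinearMap.baseChange_tmul, LinearMap.baseChange_tmul, smul_eq_mul, smul_eq_mul,
          Algebra.TensorProduct.tmul_mul_tmul, Algebra.TensorProduct.tmul_mul_tmul]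
        change (k * k') ⊗ₜ[ℂ] D (f * g) = _
        rw [Derivation.leibniz, TensorProduct.tmul_add, smul_eq_mul, smul_eq_mul, mul_comm k' k]
        rfl)

theorem bc_tmul (D : Derivation ℂ K K) (k g : K) : bc D (k ⊗ₜ[ℂ] g) = k ⊗ₜ[ℂ] D g := rfl

theorem bc_iterate_tmul (D : Derivation ℂ K K) (k g : K) (n : ℕ) :
    (⇑(bc D))^[n] (k ⊗ₜ[ℂ] g) = k ⊗ₜ[ℂ] ((⇑D)^[n] g) := by
  induction n with
  | zero => rfl
  | succ n ih => rw [Function.iterate_succ_apply', ih, bc_tmul, Function.iterate_succ_apply']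

end BaseChange

/-! ### The determinant -/

section Det

variable {K : Type} [Field K] [Algebra ℂ K] (x y z : K) (hz : z ≠ 0)

/-- `1 ⊗ x - x ⊗ 1` -/
def dX : K ⊗[ℂ] K := 1 ⊗ₜ[ℂ] x - x ⊗ₜ[ℂ] 1

/-- the unit `z⁻¹ ⊗ z` -/
def uZ : (K ⊗[ℂ] K)ˣ where
  val := z⁻¹ ⊗ₜ[ℂ] z
  inv := z ⊗ₜ[ℂ] z⁻¹
  val_inv := by
    rw [Algebra.TensorProduct.tmul_mul_tmul, inv_mul_cancel₀ hz, mul_inv_cancel₀ hz]
    rfl
  inv_val := by
    rw [Algebra.TensorProduct.tmul_mul_tmul, inv_mul_cancel₀ hz, mul_inv_cancel₀ hz]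
    rfl

theorem uZ_zpow (k : ℤ) : ((uZ z hz ^ k : (K ⊗[ℂ] K)ˣ) : K ⊗[ℂ] K) = (z ^ (-k)) ⊗ₜ[ℂ] (z ^ k) := by
  have hpow : ∀ n : ℕ, ((uZ z hz ^ n : (K ⊗[ℂ] K)ˣ) : K ⊗[ℂ] K) =
      (z⁻¹ ^ n) ⊗ₜ[ℂ] (z ^ n) := by
    intro n
    rw [Units.val_pow_eq_pow_val]
    exact Algebra.TensorProduct.tmul_pow _ _ _
  have hpow' : ∀ n : ℕ, (((uZ z hz)⁻¹ ^ n : (K ⊗[ℂ] K)ˣ) : K ⊗[ℂ] K) =
      (z ^ n) ⊗ₜ[ℂ] (z⁻¹ ^ n) := by
    intro n
    rw [Units.val_pow_eq_pow_val]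
    exact Algebra.TensorProduct.tmul_pow _ _ _
  rcases Int.eq_nat_or_neg k with ⟨n, rfl | rfl⟩
  · rw [zpow_natCast, hpow, zpow_neg, zpow_natCast, inv_pow]
  · rw [zpow_neg, zpow_natCast, ← inv_pow, hpow', neg_neg, zpow_natCast, zpow_neg, zpow_natCast,
      inv_pow]

/-- the lower end of the range of the third exponent -/
def sMin (m : ℕ) (u : ℕ × ℕ × ℤ) : ℤ := max (-(m : ℤ)) ((u.2.1 : ℤ) - 2 * m)

/-- the elements `X^a Y^b Z^smin (Z-1)^c` -/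
def eW (m : ℕ) (w : ℕ × ℕ × ℤ) : K ⊗[ℂ] K :=
  dX x ^ w.1 * (dX y ^ w.2.1 * (((uZ z hz : (K ⊗[ℂ] K)) - 1) ^ cExp m w *
    ((uZ z hz ^ sMin m w : (K ⊗[ℂ] K)ˣ) : K ⊗[ℂ] K)))

/-- the coefficients of `eW` -/
def cW (m : ℕ) (v w : ℕ × ℕ × ℤ) : K :=
  if sMin m w ≤ v.2.2 then
    (w.1.choose v.1 * (-x) ^ (w.1 - v.1)) * ((w.2.1.choose v.2.1 * (-y) ^ (w.2.1 - v.2.1)) *
      ((cExp m w).choose (v.2.2 - sMin m w).toNat * (-1) ^ (cExp m w - (v.2.2 - sMin m w).toNat) *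
        z ^ (-v.2.2)))
  else 0

/-- the monomials -/
def gV (v : ℕ × ℕ × ℤ) : K := x ^ v.1 * y ^ v.2.1 * z ^ v.2.2

theorem dX_pow (n : ℕ) : dX x ^ n = ∑ i ∈ Finset.range (n + 1),
    (n.choose i * (-x) ^ (n - i)) ⊗ₜ[ℂ] (x ^ i) := by
  have h : dX x = (1 : K) ⊗ₜ[ℂ] x + (-x) ⊗ₜ[ℂ] (1 : K) := by
    rw [dX, TensorProduct.neg_tmul, sub_eq_add_neg]
  rw [h, add_pow]
  refine Finset.sum_congr rfl fun i _ => ?_
  rw [Algebra.TensorProduct.tmul_pow, Algebra.TensorProduct.tmul_pow,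
    Algebra.TensorProduct.tmul_mul_tmul, one_pow, one_pow, one_mul, mul_one]
  have h2 : ((n.choose i : ℕ) : K ⊗[ℂ] K) = ((n.choose i : ℕ) : K) ⊗ₜ[ℂ] (1 : K) := by
    rw [← nsmul_one, ← nsmul_one, ← TensorProduct.smul_tmul']
    rfl
  rw [h2, Algebra.TensorProduct.tmul_mul_tmul, mul_one, mul_comm]

theorem uZ_sub_one_pow (n : ℕ) (k : ℤ) : ((uZ z hz : (K ⊗[ℂ] K)) - 1) ^ n *
    ((uZ z hz ^ k : (K ⊗[ℂ] K)ˣ) : K ⊗[ℂ] K) = ∑ i ∈ Finset.range (n + 1),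
    (n.choose i * (-1) ^ (n - i) * z ^ (-(k + i))) ⊗ₜ[ℂ] (z ^ (k + i)) := by
  rw [sub_eq_add_neg, add_pow, Finset.sum_mul]
  refine Finset.sum_congr rfl fun i _ => ?_
  have h1 : ((uZ z hz : (K ⊗[ℂ] K))) ^ i * (-1) ^ (n - i) * (n.choose i : ℕ) *
      ((uZ z hz ^ k : (K ⊗[ℂ] K)ˣ) : K ⊗[ℂ] K) =
      ((n.choose i : ℕ) * (-1) ^ (n - i)) *
        (((uZ z hz ^ (k + i) : (K ⊗[ℂ] K)ˣ) : K ⊗[ℂ] K)) := by
    rw [zpow_add, zpow_natCast, Units.val_mul, Units.val_pow_eq_pow_val]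
    ring
  rw [h1, uZ_zpow]
  have h2 : ((n.choose i : ℕ) : K ⊗[ℂ] K) * (-1) ^ (n - i) =
      ((n.choose i : ℕ) * (-1) ^ (n - i) : K) ⊗ₜ[ℂ] (1 : K) := by
    have h3 : ∀ k : K, k ⊗ₜ[ℂ] (1 : K) = (Algebra.TensorProduct.includeLeft (S := ℂ) :
      K →ₐ[ℂ] K ⊗[ℂ] K) k := fun k => rfl
    rw [h3, map_mul, map_natCast, map_pow, map_neg, map_one]
  rw [h2, Algebra.TensorProduct.tmul_mul_tmul, one_mul]

end Det

section Det2

variable {K : Type} [Field K] [Algebra ℂ K] (x y z : K) (hz : z ≠ 0)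

theorem cExp_eq {m : ℕ} {w : ℕ × ℕ × ℤ} (hw : w ∈ Mon m) :
    sMin m w + cExp m w = w.2.2 := by
  rw [mem_Mon] at hw
  unfold sMin cExp
  omega

theorem sum_mul_sum_prod {R ι κ : Type*} [CommRing R] (s : Finset ι) (t : Finset κ) (f : ι → R)
    (g : κ → R) : (∑ i ∈ s, f i) * ∑ j ∈ t, g j = ∑ p ∈ s ×ˢ t, f p.1 * g p.2 := by
  rw [Finset.sum_mul_sum, ← Finset.sum_product']

theorem eW_eq {m : ℕ} {w : ℕ × ℕ × ℤ} (hw : w ∈ Mon m) :
    eW x y z hz m w = ∑ v ∈ Mon m, cW x y z m v w ⊗ₜ[ℂ] gV x y z v := by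
  have hs := cExp_eq hw
  have hs1 : -(m : ℤ) ≤ sMin m w := by unfold sMin; omega
  have hs2 : (w.2.1 : ℤ) - 2 * m ≤ sMin m w := by unfold sMin; omega
  rw [mem_Mon] at hw
  unfold eW
  rw [dX_pow, dX_pow, uZ_sub_one_pow, sum_mul_sum_prod, sum_mul_sum_prod]
  refine Finset.sum_of_injOn (fun q : ℕ × ℕ × ℕ => ((q.1, q.2.1, sMin m w + q.2.2) : ℕ × ℕ × ℤ))
    ?_ ?_ ?_ ?_
  · rintro ⟨i, j, k⟩ _ ⟨i', j', k'⟩ _ h
    simp only [Prod.mk.injEq] at h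
    obtain ⟨h1, h2, h3⟩ := h
    simp only [Prod.mk.injEq]
    omega
  · rintro ⟨i, j, k⟩ h
    rw [Finset.mem_coe, Finset.mem_product, Finset.mem_product, Finset.mem_range,
      Finset.mem_range, Finset.mem_range] at h
    rw [Finset.mem_coe, mem_Mon]
    simp only at h ⊢
    omega
  · rintro ⟨i, j, s⟩ hv h
    rw [mem_Mon] at hv
    simp only at hv
    have : cW x y z m (i, j, s) w = 0 := by
      unfold cW
      split_ifs with h1
      · simp only at h1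
        by_cases hi : w.1 < i
        · simp only [Nat.choose_eq_zero_of_lt hi, Nat.cast_zero, zero_mul]
        by_cases hj : w.2.1 < j
        · simp only [Nat.choose_eq_zero_of_lt hj, Nat.cast_zero, zero_mul, mul_zero]
        by_cases hk : cExp m w < (s - sMin m w).toNat
        · simp only [Nat.choose_eq_zero_of_lt hk, Nat.cast_zero, zero_mul, mul_zero]
        exfalso
        apply h
        refine ⟨(i, j, (s - sMin m w).toNat), ?_, ?_⟩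
        · rw [Finset.mem_coe, Finset.mem_product, Finset.mem_product, Finset.mem_range,
            Finset.mem_range, Finset.mem_range]
          simp only
          omega
        · simp only [Prod.mk.injEq, true_and]
          omega
      · rfl
    rw [this, TensorProduct.zero_tmul]
  · rintro ⟨i, j, k⟩ h
    simp only
    rw [Algebra.TensorProduct.tmul_mul_tmul, Algebra.TensorProduct.tmul_mul_tmul]
    unfold cW gV
    simp only
    rw [if_pos (by omega), show (sMin m w + (k : ℤ) - sMin m w).toNat = k by omega, ← mul_assoc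
      (x ^ i)]

/-- The functional `k ⊗ g ↦ k * D₁^a D₂^b D₃^c g`. -/
def Lop (D₁ D₂ D₃ : Derivation ℂ K K) (a b c : ℕ) : K ⊗[ℂ] K →ₗ[K] K :=
  (Algebra.TensorProduct.lmul'' ℂ (S := K)).toLinearMap ∘ₗ
    (((bc D₁).toLinearMap : Module.End K (K ⊗[ℂ] K)) ^ a *
      ((bc D₂).toLinearMap : Module.End K (K ⊗[ℂ] K)) ^ b *
      ((bc D₃).toLinearMap : Module.End K (K ⊗[ℂ] K)) ^ c)

/-- The multiplication map. -/
def mu : K ⊗[ℂ] K →+* K := (Algebra.TensorProduct.lmul'' ℂ (S := K)).toRingHom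

theorem mu_tmul (a b : K) : mu (a ⊗ₜ[ℂ] b) = a * b := Algebra.TensorProduct.lmul'_apply_tmul a b

theorem Lop_apply (D₁ D₂ D₃ : Derivation ℂ K K) (a b c : ℕ) (t : K ⊗[ℂ] K) :
    Lop D₁ D₂ D₃ a b c t =
      mu ((⇑(bc D₁))^[a] ((⇑(bc D₂))^[b] ((⇑(bc D₃))^[c] t))) := by
  unfold Lop
  rw [LinearMap.comp_apply, Module.End.mul_apply, Module.End.mul_apply, Module.End.pow_apply,
    Module.End.pow_apply, Module.End.pow_apply]
  rfl

theorem Lop_tmul (D₁ D₂ D₃ : Derivation ℂ K K) (a b c : ℕ) (k g : K) :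
    Lop D₁ D₂ D₃ a b c (k ⊗ₜ[ℂ] g) = k * D₁^[a] (D₂^[b] (D₃^[c] g)) := by
  rw [Lop_apply, bc_iterate_tmul, bc_iterate_tmul, bc_iterate_tmul, mu_tmul]

theorem mu_dX : mu (dX x) = 0 := by
  unfold dX
  rw [map_sub, mu_tmul, mu_tmul, one_mul, mul_one, sub_self]

theorem bc_dX (D : Derivation ℂ K K) (h : D x = 1) : bc D (dX x) = 1 := by
  unfold dX
  rw [map_sub, bc_tmul, bc_tmul, h, Derivation.map_one_eq_zero, TensorProduct.tmul_zero, sub_zero]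
  rfl

theorem bc_dX' (D : Derivation ℂ K K) (h : D x = 0) : bc D (dX x) = 0 := by
  unfold dX
  rw [map_sub, bc_tmul, bc_tmul, h, Derivation.map_one_eq_zero, TensorProduct.tmul_zero,
    TensorProduct.tmul_zero, sub_zero]

theorem bc_dX_pow (D : Derivation ℂ K K) (h : D x = 0) (n : ℕ) : bc D (dX x ^ n) = 0 := by
  rw [Derivation.leibniz_pow, bc_dX' x D h, smul_zero, smul_zero]

theorem bc_uZ (D : Derivation ℂ K K) (h : D z = z) :
    bc D ((uZ z hz : (K ⊗[ℂ] K)) - 1) = (uZ z hz : (K ⊗[ℂ] K)) := by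
  rw [map_sub, Derivation.map_one_eq_zero, sub_zero]
  change bc D (z⁻¹ ⊗ₜ[ℂ] z) = z⁻¹ ⊗ₜ[ℂ] z
  rw [bc_tmul, h]

theorem mu_uZ : mu (uZ z hz : (K ⊗[ℂ] K)) = 1 := by
  change mu (z⁻¹ ⊗ₜ[ℂ] z) = 1
  rw [mu_tmul, inv_mul_cancel₀ hz]

theorem mu_uZ_zpow (k : ℤ) : mu ((uZ z hz ^ k : (K ⊗[ℂ] K)ˣ) : K ⊗[ℂ] K) = 1 := by
  rw [uZ_zpow, mu_tmul, ← zpow_add₀ hz, neg_add_cancel, zpow_zero]

variable (D₁ D₂ D₃ : Derivation ℂ K K) (h1x : D₁ x = 1) (h2x : D₂ x = 0) (h2y : D₂ y = 1)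
    (h3x : D₃ x = 0) (h3y : D₃ y = 0) (h3z : D₃ z = z)

include h2x h3x h3y in
theorem Lop_eW (a b c m : ℕ) (w : ℕ × ℕ × ℤ) : Lop D₁ D₂ D₃ a b c (eW x y z hz m w) =
    mu ((⇑(bc D₁))^[a] (dX x ^ w.1 * ((⇑(bc D₂))^[b] (dX y ^ w.2.1 * ((⇑(bc D₃))^[c]
      (((uZ z hz : (K ⊗[ℂ] K)) - 1) ^ cExp m w *
        ((uZ z hz ^ sMin m w : (K ⊗[ℂ] K)ˣ) : K ⊗[ℂ] K))))))) := by
  rw [Lop_apply]
  unfold eW
  rw [iterate_const_mul (bc D₃) _ _ (bc_dX_pow x D₃ h3x _),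
    iterate_const_mul (bc D₃) _ _ (bc_dX_pow y D₃ h3y _),
    iterate_const_mul (bc D₂) _ _ (bc_dX_pow x D₂ h2x _)]

include h1x h2x h2y h3x h3y h3z in
theorem Lop_eW_diag (m : ℕ) (w : ℕ × ℕ × ℤ) :
    Lop D₁ D₂ D₃ w.1 w.2.1 (cExp m w) (eW x y z hz m w) =
      (w.1.factorial * w.2.1.factorial * (cExp m w).factorial : ℕ) := by
  rw [Lop_eW x y z hz D₁ D₂ D₃ h2x h3x h3y, iterate_pow_mul_eq _ mu _ _ (mu_dX x),
    iterate_pow_mul_eq _ mu _ _ (mu_dX y), iterate_pow_mul_eq _ mu _ _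
      (by rw [map_sub, mu_uZ, map_one, sub_self]), bc_dX x D₁ h1x, bc_dX y D₂ h2y,
    bc_uZ z hz D₃ h3z, mu_uZ, mu_uZ_zpow, map_one, one_pow, one_pow, one_pow]
  push_cast
  ring

include h2x h3x h3y in
theorem Lop_eW_lt {m : ℕ} {u w : ℕ × ℕ × ℤ} (hu : u ∈ Mon m) (hw : w ∈ Mon m)
    (h : u.1 < w.1 ∨ (u.1 = w.1 ∧ (u.2.1 < w.2.1 ∨ (u.2.1 = w.2.1 ∧ u.2.2 < w.2.2)))) :
    Lop D₁ D₂ D₃ u.1 u.2.1 (cExp m u) (eW x y z hz m w) = 0 := by
  rw [Lop_eW x y z hz D₁ D₂ D₃ h2x h3x h3y]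
  rcases h with h | ⟨h1, h⟩
  · exact iterate_pow_mul_lt _ mu _ _ (mu_dX x) h
  rw [h1, iterate_pow_mul_eq _ mu _ _ (mu_dX x)]
  rcases h with h | ⟨h2, h⟩
  · rw [iterate_pow_mul_lt _ mu _ _ (mu_dX y) h, mul_zero]
  rw [h2, iterate_pow_mul_eq _ mu _ _ (mu_dX y)]
  have hc : cExp m u < cExp m w := by
    have h3 := cExp_eq hu
    have h4 := cExp_eq hw
    have h5 : sMin m u = sMin m w := by unfold sMin; rw [h2]
    omega
  rw [iterate_pow_mul_lt _ mu _ _ (by rw [map_sub, mu_uZ, map_one, sub_self]) hc, mul_zero,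
    mul_zero]

/-- The lexicographic key. -/
def lexKey (u : ℕ × ℕ × ℤ) : ℕ ×ₗ (ℕ ×ₗ ℤ) := toLex (u.1, toLex (u.2.1, u.2.2))

theorem lexKey_injective : Function.Injective lexKey := by
  rintro ⟨a, b, c⟩ ⟨a', b', c'⟩ h
  have h1 := congrArg (fun k : ℕ ×ₗ (ℕ ×ₗ ℤ) => (ofLex k).1) h
  have h2 := congrArg (fun k : ℕ ×ₗ (ℕ ×ₗ ℤ) => (ofLex (ofLex k).2).1) h
  have h3 := congrArg (fun k : ℕ ×ₗ (ℕ ×ₗ ℤ) => (ofLex (ofLex k).2).2) h
  simp only [lexKey, ofLex_toLex] at h1 h2 h3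
  rw [h1, h2, h3]

theorem lexKey_lt {u w : ℕ × ℕ × ℤ} : lexKey u < lexKey w ↔
    (u.1 < w.1 ∨ (u.1 = w.1 ∧ (u.2.1 < w.2.1 ∨ (u.2.1 = w.2.1 ∧ u.2.2 < w.2.2)))) := by
  unfold lexKey
  rw [Prod.Lex.toLex_lt_toLex, Prod.Lex.toLex_lt_toLex]

theorem cW_eq_zero {m : ℕ} {v w : ℕ × ℕ × ℤ} (hw : w ∈ Mon m)
    (h : lexKey w < lexKey v) : cW x y z m v w = 0 := by
  have hs := cExp_eq hw
  rw [lexKey_lt] at h
  unfold cW
  split_ifs with h1
  · rcases h with h | ⟨-, h⟩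
    · rw [Nat.choose_eq_zero_of_lt h, Nat.cast_zero, zero_mul, zero_mul]
    rcases h with h | ⟨-, h⟩
    · rw [Nat.choose_eq_zero_of_lt h, Nat.cast_zero, zero_mul, zero_mul, mul_zero]
    have hk : cExp m w < (v.2.2 - sMin m w).toNat := by omega
    rw [Nat.choose_eq_zero_of_lt hk, Nat.cast_zero, zero_mul, zero_mul, mul_zero, mul_zero]
  · rfl

theorem cW_diag {m : ℕ} {w : ℕ × ℕ × ℤ} (hw : w ∈ Mon m) : cW x y z m w w = z ^ (-w.2.2) := by
  have hs := cExp_eq hw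
  unfold cW
  rw [if_pos (by omega), show (w.2.2 - sMin m w).toNat = cExp m w by omega, Nat.choose_self,
    Nat.choose_self, Nat.choose_self, Nat.sub_self, Nat.sub_self, Nat.sub_self]
  simp

theorem prod_zpow (m : ℕ) (hz : z ≠ 0) : ∏ w : Mon m, z ^ (-w.1.2.2) = 1 := by
  have h : ∀ s : Finset (ℕ × ℕ × ℤ), ∏ w ∈ s, z ^ (-w.2.2) = z ^ (-∑ w ∈ s, w.2.2) := by
    intro s
    induction s using Finset.induction_on with
    | empty => simp
    | insert a s ha ih =>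
      rw [Finset.prod_insert ha, ih, Finset.sum_insert ha, neg_add, zpow_add₀ hz]
  rw [Finset.prod_coe_sort (Mon m) (fun w => z ^ (-w.2.2)), h, sum_Mon_s, neg_zero, zpow_zero]

end Det2

theorem wronskian_det {K : Type} [Field K] [Algebra ℂ K] (x y z : K) (hz : z ≠ 0)
    (D₁ D₂ D₃ : Derivation ℂ K K) (h1x : D₁ x = 1) (h2x : D₂ x = 0) (h2y : D₂ y = 1)
    (h3x : D₃ x = 0) (h3y : D₃ y = 0) (h3z : D₃ z = z) (m : ℕ) :
    ∃ c : ℂ, c ≠ 0 ∧
      (Matrix.of fun (u w : Mon m) =>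
        (D₁^[u.1.1] (D₂^[u.1.2.1] (D₃^[cExp m u.1] (x ^ w.1.1 * y ^ w.1.2.1 * z ^ w.1.2.2))))).det =
      algebraMap ℂ K c := by
  set M : Matrix (Mon m) (Mon m) K := Matrix.of fun (u w : Mon m) =>
        (D₁^[u.1.1] (D₂^[u.1.2.1] (D₃^[cExp m u.1] (x ^ w.1.1 * y ^ w.1.2.1 * z ^ w.1.2.2)))) with hM
  let C : Matrix (Mon m) (Mon m) K := Matrix.of fun v w => cW x y z m v.1 w.1
  let E : Matrix (Mon m) (Mon m) K := Matrix.of fun u w =>
    Lop D₁ D₂ D₃ u.1.1 u.1.2.1 (cExp m u.1) (eW x y z hz m w.1)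
  have hME : M * C = E := by
    ext u w
    rw [Matrix.mul_apply]
    change _ = Lop D₁ D₂ D₃ u.1.1 u.1.2.1 (cExp m u.1) (eW x y z hz m w.1)
    rw [eW_eq x y z hz w.2, map_sum, ← Finset.sum_coe_sort (Mon m)]
    refine Finset.sum_congr rfl fun v _ => ?_
    rw [Lop_tmul, mul_comm]
    rfl
  have hC : C.det = 1 := by
    rw [det_triangular (fun u : Mon m => lexKey u.1)
      (lexKey_injective.comp Subtype.val_injective) C fun i j hij => cW_eq_zero x y z j.2 hij]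
    rw [← prod_zpow z m hz]
    exact Finset.prod_congr rfl fun w _ => cW_diag x y z w.2
  have hE : E.det = ∏ u : Mon m,
      ((u.1.1.factorial * u.1.2.1.factorial * (cExp m u.1).factorial : ℕ) : K) := by
    rw [← Matrix.det_transpose, det_triangular (fun u : Mon m => lexKey u.1)
      (lexKey_injective.comp Subtype.val_injective) E.transpose fun i j hij => ?_]
    · exact Finset.prod_congr rfl fun w _ =>
        Lop_eW_diag x y z hz D₁ D₂ D₃ h1x h2x h2y h3x h3y h3z m w.1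
    · exact Lop_eW_lt x y z hz D₁ D₂ D₃ h2x h3x h3y j.2 i.2 (lexKey_lt.1 hij)
  refine ⟨∏ u : Mon m, ((u.1.1.factorial * u.1.2.1.factorial * (cExp m u.1).factorial : ℕ) : ℂ),
    ?_, ?_⟩
  · rw [Finset.prod_ne_zero_iff]
    intro u _
    exact Nat.cast_ne_zero.2 (mul_ne_zero (mul_ne_zero (Nat.factorial_ne_zero _)
      (Nat.factorial_ne_zero _)) (Nat.factorial_ne_zero _))
  · rw [map_prod]
    simp only [map_natCast]
    rw [← hE, ← hME, Matrix.det_mul, hC, mul_one]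

end Pool.Agent.H23
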