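import Pool.Agent.H23.TData
import Pool.Agent.H23.Forms

/-!
# Function fields of toric varieties: coordinates, differentials
-/

set_option linter.style.haveILetI false

noncomputable section

namespace Pool.Agent.H23

open AddMonoidAlgebra TData

/-- A field with a dense torus embedding: the field of fractions of Laurent polynomials. -/
structure TorusModel (n : ℕ) (K : Type) [Field K] [Algebra ℂ K] where
  /-- the embedding of Laurent polynomials -/
  ψ : LP n →ₐ[ℂ] K
  inj : Function.Injective ψ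
  frac : ∀ k : K, ∃ a b : LP n, b ≠ 0 ∧ k * ψ b = ψ a

namespace TorusModel

variable {n : ℕ} {K : Type} [Field K] [Algebra ℂ K] (P : TorusModel n K)

/-- the value of a monomial in the function field -/
def chi (u : Fin n → ℤ) : K := P.ψ (mono u)

lemma chi_add (u v : Fin n → ℤ) : P.chi (u + v) = P.chi u * P.chi v := by
  simp [chi, mono_add]

@[simp] lemma chi_zero : P.chi 0 = 1 := by simp [chi]

lemma chi_nsmul (k : ℕ) (u : Fin n → ℤ) : P.chi (k • u) = P.chi u ^ k := by
  rw [chi, mono_nsmul, map_pow, chi]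

lemma chi_mul_neg (u : Fin n → ℤ) : P.chi u * P.chi (-u) = 1 := by
  rw [← chi_add, add_neg_cancel, chi_zero]

lemma chi_ne_zero (u : Fin n → ℤ) : P.chi u ≠ 0 :=
  left_ne_zero_of_mul_eq_one (P.chi_mul_neg u)

lemma chi_neg (u : Fin n → ℤ) : P.chi (-u) = (P.chi u)⁻¹ :=
  eq_inv_of_mul_eq_one_right (P.chi_mul_neg u)

lemma chi_sum {ι : Type*} (s : Finset ι) (u : ι → (Fin n → ℤ)) :
    P.chi (∑ i ∈ s, u i) = ∏ i ∈ s, P.chi (u i) := by
  classical
  induction s using Finset.induction_on with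
  | empty => simp
  | insert a s ha ih => rw [Finset.sum_insert ha, Finset.prod_insert ha, chi_add, ih]

lemma ψ_ne_zero {f : LP n} (hf : f ≠ 0) : P.ψ f ≠ 0 := fun h =>
  hf (P.inj (by rw [h, map_zero]))

/-- logarithmic derivative of monomials -/
def lder (D : Derivation ℂ K K) : (Fin n → ℤ) →+ K where
  toFun u := D (P.chi u) / P.chi u
  map_zero' := by simp
  map_add' u v := by
    have hu := P.chi_ne_zero u
    have hv := P.chi_ne_zero v
    rw [chi_add, Derivation.leibniz]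
    simp only [smul_eq_mul]
    field_simp
    ring

lemma der_chi (D : Derivation ℂ K K) (u : Fin n → ℤ) : D (P.chi u) = P.chi u * P.lder D u := by
  have hu := P.chi_ne_zero u
  change _ = P.chi u * (D (P.chi u) / P.chi u)
  field_simp

variable (T : TData n)

lemma lder_span (D : Derivation ℂ K K) (ε : Fin n → Bool) (u : Fin n → ℤ) :
    P.lder D u = ∑ k, (T.ℓ k (ε k) u : K) * P.lder D (T.w ε k) := by
  conv_lhs => rw [T.span ε u, map_sum]
  apply Finset.sum_congr rfl
  intro k _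
  rw [map_zsmul, zsmul_eq_mul]

include P in
lemma essFiniteType : Algebra.EssFiniteType ℂ K := by
  letI : Algebra (LP n) K := P.ψ.toRingHom.toAlgebra
  haveI : IsScalarTower ℂ (LP n) K := IsScalarTower.of_algebraMap_eq fun c => (P.ψ.commutes c).symm
  haveI : IsFractionRing (LP n) K := by
    refine (isLocalization_iff _ _).2 ⟨?_, ?_, ?_⟩
    · rintro ⟨b, hb⟩
      have hb' : b ≠ 0 := nonZeroDivisors.ne_zero hb
      change IsUnit (P.ψ b)
      exact isUnit_iff_ne_zero.2 (P.ψ_ne_zero hb')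
    · intro k
      obtain ⟨a, b, hb, h⟩ := P.frac k
      exact ⟨(a, ⟨b, mem_nonZeroDivisors_of_ne_zero hb⟩), h⟩
    · intro a b h
      exact ⟨1, by rw [P.inj h]⟩
  haveI : Algebra.FiniteType ℂ (LP n) := inferInstance
  haveI : Algebra.EssFiniteType (LP n) K :=
    Algebra.EssFiniteType.of_isLocalization K (nonZeroDivisors (LP n))
  exact Algebra.EssFiniteType.comp ℂ (LP n) K

lemma aeval_chi (ε : Fin n → Bool) :
    (MvPolynomial.aeval fun k => P.chi (T.w ε k)) = P.ψ.comp (T.polyHom ε) := by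
  apply MvPolynomial.algHom_ext
  intro k
  rw [MvPolynomial.aeval_X, AlgHom.comp_apply, polyHom_X, chi]

lemma algebraicIndependent_chi (ε : Fin n → Bool) :
    AlgebraicIndependent ℂ (fun k => P.chi (T.w ε k)) := by
  rw [algebraicIndependent_iff_injective_aeval, P.aeval_chi]
  exact P.inj.comp (T.polyHom_injective ε)

lemma mem_adjoin_of_mem_A (ε : Fin n → Bool) {f : LP n} (hf : f ∈ T.A (full ε)) :
    P.ψ f ∈ Algebra.adjoin ℂ (Set.range fun k => P.chi (T.w ε k)) := by
  rw [← T.polyHom_range ε] at hf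
  obtain ⟨p, rfl⟩ := hf
  rw [Algebra.adjoin_range_eq_range_aeval]
  refine ⟨p, ?_⟩
  change (MvPolynomial.aeval fun k => P.chi (T.w ε k)) p = _
  rw [P.aeval_chi]
  rfl

lemma frac_A (ε : Fin n → Bool) (k : K) :
    ∃ a b : T.A (full ε), b ≠ 0 ∧ k * P.ψ b = P.ψ a := by
  obtain ⟨a, b, hb, h⟩ := P.frac k
  have hnone : ∀ (k : Fin n) (b : Bool), (fun _ => none : Fin n → Option Bool) k = some b →
      full ε k = some b := by simp
  have htop : ∀ f : LP n, f ∈ T.A (fun _ => none) := by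
    intro f u _ k b hb
    simp at hb
  obtain ⟨M, hM⟩ := T.exists_mul_mem (j := full ε) hnone (htop a)
  obtain ⟨N, hN⟩ := T.exists_mul_mem (j := full ε) hnone (htop b)
  set s := T.locExp (fun _ => none) (full ε) with hs
  have hsm : mono s ∈ T.A (full ε) := mono_mem_suppAlg.2 T.locExp_mem
  refine ⟨⟨a * mono s ^ (M + N), ?_⟩, ⟨b * mono s ^ (M + N), ?_⟩, ?_, ?_⟩
  · rw [pow_add, ← mul_assoc]
    exact mul_mem hM (pow_mem hsm _)
  · rw [add_comm M N, pow_add, ← mul_assoc]
    exact mul_mem hN (pow_mem hsm _)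
  · intro h0
    have h1 : b * mono s ^ (M + N) = 0 := congrArg Subtype.val h0
    rcases mul_eq_zero.1 h1 with h2 | h2
    · exact hb h2
    · exact pow_ne_zero _ (mono_ne_zero s) h2
  · change k * P.ψ (b * mono s ^ (M + N)) = P.ψ (a * mono s ^ (M + N))
    rw [map_mul, map_mul, ← mul_assoc, h]

lemma isTranscendenceBasis_chi (ε : Fin n → Bool) :
    IsTranscendenceBasis ℂ (fun k => P.chi (T.w ε k)) := by
  rw [isTranscendenceBasis_iff_algebraicIndependent_isAlgebraic]
  refine ⟨P.algebraicIndependent_chi T ε, ⟨fun k => ?_⟩⟩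
  obtain ⟨a, b, hb, h⟩ := P.frac_A T ε k
  have ha' := P.mem_adjoin_of_mem_A T ε a.2
  have hb' := P.mem_adjoin_of_mem_A T ε b.2
  have hb0 : (b : LP n) ≠ 0 := fun h0 => hb (Subtype.ext h0)
  refine ⟨Polynomial.C ⟨_, hb'⟩ * Polynomial.X - Polynomial.C ⟨_, ha'⟩, ?_, ?_⟩
  · intro h0
    have h1 := congrArg (fun q => Polynomial.coeff q 1) h0
    simp only [Polynomial.coeff_sub, Polynomial.coeff_C_mul, Polynomial.coeff_X_one, mul_one,
      Polynomial.coeff_C_succ, sub_zero, Polynomial.coeff_zero] at h1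
    exact P.ψ_ne_zero hb0 (congrArg Subtype.val h1)
  · rw [map_sub, map_mul, Polynomial.aeval_C, Polynomial.aeval_C, Polynomial.aeval_X]
    change P.ψ b * k - P.ψ a = 0
    rw [← h]
    ring

/-- the differentials of the coordinates of a maximal chart -/
def bas (ε : Fin n → Bool) : Module.Basis (Fin n) K Ω[K⁄ℂ] :=
  Classical.choose (exists_basis_kaehler (P.isTranscendenceBasis_chi T ε))

lemma bas_apply (ε : Fin n → Bool) (k : Fin n) :
    P.bas T ε k = KaehlerDifferential.D ℂ K (P.chi (T.w ε k)) :=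
  Classical.choose_spec (exists_basis_kaehler (P.isTranscendenceBasis_chi T ε)) k

lemma dualDer_w (ε : Fin n → Bool) (j k : Fin n) :
    dualDer (P.bas T ε) j (P.chi (T.w ε k)) = if j = k then 1 else 0 :=
  dualDer_coord (a := fun k => P.chi (T.w ε k)) _ (fun i => P.bas_apply T ε i) j k

lemma dualDer_chi (ε : Fin n → Bool) (j : Fin n) (u : Fin n → ℤ) :
    dualDer (P.bas T ε) j (P.chi u) = (T.ℓ j (ε j) u : K) * P.chi (u - T.w ε j) := by
  rw [der_chi, P.lder_span T _ ε]
  have h1 : ∀ k, P.lder (dualDer (P.bas T ε) j) (T.w ε k) =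
      if j = k then P.chi (- T.w ε j) else 0 := by
    intro k
    change dualDer (P.bas T ε) j (P.chi (T.w ε k)) / P.chi (T.w ε k) = _
    rw [dualDer_w]
    split_ifs with h
    · subst h; rw [chi_neg, one_div]
    · simp
  simp only [h1, mul_ite, mul_zero, Finset.sum_ite_eq, Finset.mem_univ, if_true]
  rw [sub_eq_add_neg, chi_add]
  ring

lemma dualDer_mem_A (ε : Fin n → Bool) (j : Fin n) (f : T.A (full ε)) :
    ∃ g : T.A (full ε), dualDer (P.bas T ε) j (P.ψ f) = P.ψ g := by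
  induction f using suppAlg_induction with
  | hadd f g hf hg =>
    obtain ⟨a, ha⟩ := hf
    obtain ⟨b, hb⟩ := hg
    refine ⟨a + b, ?_⟩
    have h1 : ((f + g : T.A (full ε)) : LP n) = f + g := rfl
    have h2 : ((a + b : T.A (full ε)) : LP n) = a + b := rfl
    rw [h1, h2, map_add, map_add, map_add, ha, hb]
  | hsmul c f hf =>
    obtain ⟨a, ha⟩ := hf
    refine ⟨c • a, ?_⟩
    have h1 : ((c • f : T.A (full ε)) : LP n) = c • (f : LP n) := rfl
    have h2 : ((c • a : T.A (full ε)) : LP n) = c • (a : LP n) := rfl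
    rw [h1, h2, map_smul, Derivation.map_smul, ha, map_smul]
  | h0 => exact ⟨0, by simp⟩
  | hm u hu =>
    have hu' := (T.mem_cone_full).1 hu
    have key : (T.ℓ j (ε j) u : ℂ) • mono (u - T.w ε j) ∈ T.A (full ε) := by
      by_cases h0 : T.ℓ j (ε j) u = 0
      · rw [h0]; simp
      · apply Subalgebra.smul_mem
        apply mono_mem_suppAlg.2
        rw [T.mem_cone_full]
        intro k
        rw [map_sub, T.dual]
        have := hu' k
        split_ifs with hkj
        · subst hkj; omega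
        · omega
    refine ⟨⟨_, key⟩, ?_⟩
    change dualDer (P.bas T ε) j (P.chi u) = P.ψ ((T.ℓ j (ε j) u : ℂ) • mono (u - T.w ε j))
    rw [dualDer_chi, map_smul, Algebra.smul_def]
    simp [chi]

/-- the local ring at a prime ideal of a maximal chart -/
def IsLoc (ε : Fin n → Bool) (p : Ideal (T.A (full ε))) (O : Subalgebra ℂ K) : Prop :=
  p.IsPrime ∧ ∀ k, k ∈ O ↔ ∃ a b : T.A (full ε), b ∉ p ∧ k * P.ψ b = P.ψ a

variable {T P}

lemma IsLoc.one_notMem {ε : Fin n → Bool} {p : Ideal (T.A (full ε))} {O : Subalgebra ℂ K}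
    (h : P.IsLoc T ε p O) : (1 : T.A (full ε)) ∉ p := fun h1 => h.1.ne_top ((Ideal.eq_top_iff_one p).2 h1)

lemma IsLoc.ψ_mem {ε : Fin n → Bool} {p : Ideal (T.A (full ε))} {O : Subalgebra ℂ K}
    (h : P.IsLoc T ε p O) (a : T.A (full ε)) : P.ψ a ∈ O :=
  (h.2 _).2 ⟨a, 1, h.one_notMem, by simp⟩

lemma IsLoc.ne_zero {ε : Fin n → Bool} {p : Ideal (T.A (full ε))} {O : Subalgebra ℂ K}
    (_ : P.IsLoc T ε p O) {b : T.A (full ε)} (hb : b ∉ p) : P.ψ b ≠ 0 := by
  apply P.ψ_ne_zero
  intro h0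
  apply hb
  have : b = 0 := Subtype.ext h0
  rw [this]
  exact p.zero_mem

lemma IsLoc.inv_mem {ε : Fin n → Bool} {p : Ideal (T.A (full ε))} {O : Subalgebra ℂ K}
    (h : P.IsLoc T ε p O) {b : T.A (full ε)} (hb : b ∉ p) : (P.ψ b)⁻¹ ∈ O := by
  refine (h.2 _).2 ⟨1, b, hb, ?_⟩
  rw [inv_mul_cancel₀ (h.ne_zero hb)]
  simp

lemma IsLoc.dualDer_mem {ε : Fin n → Bool} {p : Ideal (T.A (full ε))} {O : Subalgebra ℂ K}
    (h : P.IsLoc T ε p O) (j : Fin n) {f : K} (hf : f ∈ O) :
    dualDer (P.bas T ε) j f ∈ O := by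
  obtain ⟨a, b, hb, hk⟩ := (h.2 _).1 hf
  obtain ⟨a', ha'⟩ := P.dualDer_mem_A T ε j a
  obtain ⟨b', hb'⟩ := P.dualDer_mem_A T ε j b
  have h1 := congrArg (dualDer (P.bas T ε) j) hk
  rw [Derivation.leibniz, ha', hb', smul_eq_mul, smul_eq_mul] at h1
  have hb0 := h.ne_zero hb
  have h2 : dualDer (P.bas T ε) j f = (P.ψ a' - f * P.ψ b') * (P.ψ b)⁻¹ := by
    field_simp
    linear_combination h1
  rw [h2]
  exact mul_mem (sub_mem (h.ψ_mem a') (mul_mem hf (h.ψ_mem b'))) (h.inv_mem hb)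

lemma IsLoc.mem_regularForms {ε : Fin n → Bool} {p : Ideal (T.A (full ε))} {O : Subalgebra ℂ K}
    (h : P.IsLoc T ε p O) (ω : RatForm K n) :
    ω ∈ regularForms n O ↔ fc (P.bas T ε) ω ∈ O := by
  apply mem_regularForms_iff O (P.bas T ε) (a := fun k => P.chi (T.w ε k)) (P.bas_apply T ε)
  · intro k
    exact h.ψ_mem ⟨mono (T.w ε k), mono_mem_suppAlg.2 (T.w_mem ε k)⟩
  · intro j f hf
    exact h.dualDer_mem j hf

end TorusModel

end Pool.Agent.H23
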