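import Pool.Agent.H23.Sections

/-!
# Bases of monomials
-/

noncomputable section

namespace Pool.Agent.H23

open AddMonoidAlgebra TData

section basis

variable {n : ℕ} {ι : Type*} [Fintype ι] (V : Submodule ℂ (LP n)) (e : ι → (Fin n → ℤ))
  (he : Function.Injective e) (hV : ∀ f, f ∈ V ↔ ∀ u, f.coeff u ≠ 0 → ∃ i, e i = u)

include he in
lemma coeff_sum_mono (c : ι → ℂ) (i : ι) :
    (∑ j, c j • mono (e j) : LP n).coeff (e i) = c i := by
  classical
  rw [coeff_sum, Finsupp.finsetSum_apply, Finset.sum_eq_single i]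
  · simp [mono]
  · intro j _ hj
    simp [mono, he.ne hj]
  · simp

lemma coeff_sum_mono_ne (c : ι → ℂ) (u : Fin n → ℤ) (hu : ∀ i, e i ≠ u) :
    (∑ j, c j • mono (e j) : LP n).coeff u = 0 := by
  classical
  rw [coeff_sum, Finsupp.finsetSum_apply]
  apply Finset.sum_eq_zero
  intro j _
  simp [mono, hu j]

include he hV in
lemma sum_mono_eq {f : LP n} (hf : f ∈ V) : f = ∑ i, f.coeff (e i) • mono (e i) := by
  ext u
  by_cases h : ∃ i, e i = u
  · obtain ⟨i, rfl⟩ := h
    rw [coeff_sum_mono e he]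
  · push Not at h
    rw [coeff_sum_mono_ne e _ u h]
    by_contra h0
    obtain ⟨i, hi⟩ := (hV f).1 hf u h0
    exact h i hi

/-- a space of Laurent polynomials with prescribed exponents has the basis of monomials -/
def monoEquiv : V ≃ₗ[ℂ] (ι → ℂ) where
  toFun f i := (f : LP n).coeff (e i)
  map_add' f g := by
    funext i
    simp [AddMonoidAlgebra.coeff_add]
  map_smul' c f := by
    funext i
    simp [AddMonoidAlgebra.coeff_smul]
  invFun c := ⟨∑ j, c j • mono (e j), by
    rw [hV]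
    intro u hu
    by_contra h
    push Not at h
    exact hu (coeff_sum_mono_ne e c u h)⟩
  left_inv f := Subtype.ext (sum_mono_eq V e he hV f.2).symm
  right_inv c := by
    funext i
    exact coeff_sum_mono e he c i

/-- the basis of monomials -/
def monoBasis : Module.Basis ι ℂ V := Module.Basis.ofEquivFun (monoEquiv V e he hV)

include he hV in
lemma finrank_eq_card : Module.finrank ℂ V = Fintype.card ι :=
  Module.finrank_eq_card_basis (monoBasis V e he hV)

lemma monoBasis_repr (f : V) (i : ι) : (monoBasis V e he hV).repr f i = (f : LP n).coeff (e i) := rfl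

end basis

namespace TorusModel

variable {n : ℕ} {K : Type} [Field K] [Algebra ℂ K] (P : TorusModel n K)

lemma chi_zsmul (k : ℤ) (u : Fin n → ℤ) : P.chi (k • u) = P.chi u ^ k := by
  obtain ⟨m, rfl | rfl⟩ := k.eq_nat_or_neg
  · rw [natCast_zsmul, chi_nsmul, zpow_natCast]
  · rw [neg_smul, natCast_zsmul, chi_neg, chi_nsmul, zpow_neg, zpow_natCast]

lemma chi_eq_prod (u : Fin n → ℤ) : P.chi u = ∏ k, P.chi (Pi.single k 1) ^ (u k) := by
  have h1 : u = ∑ k, (u k) • (Pi.single k 1 : Fin n → ℤ) := by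
    ext j
    simp [Finset.sum_apply, Pi.single_apply]
  conv_lhs => rw [h1]
  rw [chi_sum]
  exact Finset.prod_congr rfl fun k _ => P.chi_zsmul _ _

end TorusModel

section filt

variable {n : ℕ} {K : Type} [Field K] [Algebra ℂ K] (P : TorusModel n K) (T : TData n)
  (v : AddValuation K (WithTop ℤ)) (hv : ∀ c : ℂ, 0 ≤ v (algebraMap ℂ K c)) (h : ℤ)

lemma filt_anti {m k k' : ℕ} (hk : k ≤ k') : P.filt T v hv h m k' ≤ P.filt T v hv h m k := by
  rintro f ⟨h1, h2⟩
  refine ⟨h1, le_trans ?_ h2⟩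
  rw [WithTop.coe_le_coe]
  omega

lemma sec_mul {m m' : ℕ} {f g : LP n} (hf : f ∈ T.sec m) (hg : g ∈ T.sec m') :
    f * g ∈ T.sec (m + m') := by
  rw [T.mem_sec_iff] at *
  intro ε
  have h1 := mul_mem (hf ε) (hg ε)
  have h2 : f * mono (m • T.W ε) * (g * mono (m' • T.W ε)) = f * g * mono ((m + m') • T.W ε) := by
    rw [add_smul, mono_add]
    ring
  rwa [h2] at h1

lemma filt_mul {m m' k k' : ℕ} {f g : LP n} (hf : f ∈ P.filt T v hv h m k)
    (hg : g ∈ P.filt T v hv h m' k') : f * g ∈ P.filt T v hv h (m + m') (k + k') := by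
  refine ⟨sec_mul T hf.1 hg.1, ?_⟩
  rw [map_mul, v.map_mul]
  have h1 := add_le_add hf.2 hg.2
  have h2 : ((((k + k' : ℕ) : ℤ) - ((m + m' : ℕ) : ℤ) * h : ℤ) : WithTop ℤ) =
      (((k : ℤ) - m * h : ℤ) : WithTop ℤ) + (((k' : ℤ) - m' * h : ℤ) : WithTop ℤ) := by
    rw [← WithTop.coe_add, WithTop.coe_inj]
    push_cast
    ring
  rw [h2]
  exact h1

end filt

lemma val_intCast_nonneg {K : Type} [Field K] (v : AddValuation K (WithTop ℤ)) (k : ℤ) :
    0 ≤ v (k : K) := by
  have h1 : ∀ m : ℕ, 0 ≤ v (m : K) := by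
    intro m
    induction m with
    | zero => simp
    | succ m ih =>
      push_cast
      exact v.map_le_add ih (by rw [v.map_one])
  obtain ⟨m, rfl | rfl⟩ := k.eq_nat_or_neg
  · exact_mod_cast h1 m
  · push_cast
    rw [v.map_neg]
    exact h1 m

section zero

open TorusModel

lemma finrank_map_secMap {n : ℕ} {K : Type} [Field K] [Algebra ℂ K] (P : TorusModel n K)
    (T : TData n) (m : ℕ) (V : Submodule ℂ (LP n)) :
    Module.finrank ℂ (V.map (P.secMap T m)) = Module.finrank ℂ V :=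
  (Submodule.equivMapOfInjective _ (P.secMap_injective T m) V).finrank_eq.symm

lemma filt_zero {n : ℕ} {K : Type} [Field K] [Algebra ℂ K] {P : TorusModel n K}
    {T : TData n} {ι : Type} {O : ι → Subalgebra ℂ K} (E : PrimeDivisorOver K n) (x : ι)
    (hc : E.HasCenter O x) {ε : Fin n → Bool} {p : Ideal (T.A (full ε))}
    (hx : P.IsLoc T ε p (O x)) {h : ℤ} (hh : E.ord (P.chi (T.W ε)) = h) (m : ℕ) :
    P.filt T E.ord E.ord_const h m 0 = T.sec m := by
  apply le_antisymm
  · intro f hf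
    exact hf.1
  · intro f hf
    refine ⟨hf, ?_⟩
    rw [shift_le_iff]
    have h1 := (hc _ (hx.ψ_mem ⟨_, T.mem_sec_iff.1 hf ε⟩)).1
    change 0 ≤ E.ord (P.ψ (f * mono (m • T.W ε))) at h1
    rw [map_mul, E.ord.map_mul] at h1
    change 0 ≤ E.ord (P.ψ f) + E.ord (P.chi (m • T.W ε)) at h1
    rw [P.chi_nsmul, E.ord.map_pow, hh, add_comm] at h1
    exact_mod_cast h1

end zero

end Pool.Agent.H23
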