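import Pool.Agent.H23.Model

/-!
# Pluri-anticanonical sections of a toric variety
-/

set_option linter.style.haveILetI false

noncomputable section

namespace Pool.Agent.H23

open AddMonoidAlgebra TData

namespace TData

variable {n : ℕ} (T : TData n)

/-- the sum of the exponents of the coordinates of a maximal chart -/
def W (ε : Fin n → Bool) : Fin n → ℤ := ∑ k, T.w ε k

lemma ℓ_W (ε : Fin n → Bool) (k : Fin n) : T.ℓ k (ε k) (T.W ε) = 1 := by
  rw [W, ℓ_sum_w, if_pos (Finset.mem_univ k)]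

lemma W_mem (ε : Fin n → Bool) : T.W ε ∈ T.cone (full ε) :=
  sum_mem fun k _ => T.w_mem ε k

/-- transition matrix of two maximal charts -/
def trans (ε ε' : Fin n → Bool) : Matrix (Fin n) (Fin n) ℤ :=
  Matrix.of fun j k => T.ℓ j (ε j) (T.w ε' k)

lemma trans_apply (ε ε' : Fin n → Bool) (j k : Fin n) :
    T.trans ε ε' j k = T.ℓ j (ε j) (T.w ε' k) := rfl

lemma trans_mul (ε ε' : Fin n → Bool) : T.trans ε ε' * T.trans ε' ε = 1 := by
  ext j i
  rw [Matrix.mul_apply]
  simp only [trans, Matrix.of_apply]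
  have h1 : T.ℓ j (ε j) (T.w ε i) =
      ∑ k, T.ℓ j (ε j) (T.w ε' k) * T.ℓ k (ε' k) (T.w ε i) := by
    conv_lhs => rw [T.span ε' (T.w ε i), map_sum]
    apply Finset.sum_congr rfl
    intro k _
    rw [map_zsmul, smul_eq_mul, mul_comm]
  rw [← h1, T.dual, Matrix.one_apply]

/-- Laurent polynomials with exponents in the `m`-th multiple of the anticanonical polytope -/
def sec (m : ℕ) : Submodule ℂ (LP n) where
  carrier := {f | ∀ u, f.coeff u ≠ 0 → ∀ k b, -(m : ℤ) ≤ T.ℓ k b u}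
  add_mem' := by
    intro f g hf hg u hu
    by_cases h : f.coeff u = 0
    · exact hg u (fun h' => hu (by simp [AddMonoidAlgebra.coeff_add, h, h']))
    · exact hf u h
  zero_mem' := by intro u hu; simp at hu
  smul_mem' := by
    intro c f hf u hu
    exact hf u (fun h' => hu (by simp [AddMonoidAlgebra.coeff_smul, h']))

lemma mem_sec_iff {m : ℕ} {f : LP n} :
    f ∈ T.sec m ↔ ∀ ε, f * mono (m • T.W ε) ∈ T.A (full ε) := by
  constructor
  · intro h ε u hu
    rw [coeff_mul_mono] at hu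
    rw [T.mem_cone_full]
    intro k
    have h1 := h _ hu k (ε k)
    rw [map_sub, map_nsmul, ℓ_W] at h1
    simp at h1
    omega
  · intro h u hu k b
    have h1 := h (fun _ => b) (u + m • T.W fun _ => b)
    rw [coeff_mul_mono, add_sub_cancel_right] at h1
    have h2 := (T.mem_cone_full).1 (h1 hu) k
    rw [map_add, map_nsmul] at h2
    have h3 := T.ℓ_W (fun _ => b) k
    rw [h3] at h2
    simp at h2
    omega

end TData

namespace TorusModel

variable {n : ℕ} {K : Type} [Field K] [Algebra ℂ K] (P : TorusModel n K) (T : TData n)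

/-- the value of a form in the chart of `ε`, normalised logarithmically -/
def LamAt (ε : Fin n → Bool) : RatForm K n →ₗ[K] K :=
  (fc (P.bas T ε)).smulRight (P.chi (T.W ε))

lemma LamAt_apply (ε : Fin n → Bool) (ω : RatForm K n) :
    P.LamAt T ε ω = fc (P.bas T ε) ω * P.chi (T.W ε) := rfl

lemma LamAt_eq (ε ε' : Fin n → Bool) (ω : RatForm K n) :
    P.LamAt T ε ω = ((T.trans ε ε').det : K) * P.LamAt T ε' ω := by
  have h1 : fc (P.bas T ε) ω = fc (P.bas T ε') ω * (P.bas T ε).det (fun i => P.bas T ε' i) := by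
    conv_lhs => rw [eq_fc_smul (P.bas T ε') ω]
    rw [map_smul, fc_ιMulti, smul_eq_mul]
  have h2 : (P.bas T ε).det (fun i => P.bas T ε' i) =
      (∏ j, P.chi (- T.w ε j)) * ((T.trans ε ε').det : K) * (∏ k, P.chi (T.w ε' k)) := by
    rw [Module.Basis.det_apply]
    have h3 : (P.bas T ε).toMatrix (fun i => P.bas T ε' i) =
        Matrix.diagonal (fun j => P.chi (- T.w ε j)) * (T.trans ε ε').map (Int.cast : ℤ → K) *
          Matrix.diagonal (fun k => P.chi (T.w ε' k)) := by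
      ext j k
      rw [Matrix.mul_diagonal, Matrix.diagonal_mul, Matrix.map_apply, T.trans_apply]
      have h4 : (P.bas T ε).toMatrix (fun i => P.bas T ε' i) j k =
          dualDer (P.bas T ε) j (P.chi (T.w ε' k)) := by
        rw [dualDer_apply, ← P.bas_apply T ε' k, Module.Basis.toMatrix_apply]
      rw [h4, dualDer_chi, sub_eq_add_neg, chi_add]
      ring
    rw [h3, Matrix.det_mul, Matrix.det_mul, Matrix.det_diagonal, Matrix.det_diagonal]
    congr 2
    exact (RingHom.map_det (Int.castRingHom K) (T.trans ε ε')).symm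
  rw [LamAt_apply, LamAt_apply, h1, h2, ← chi_sum, ← chi_sum, Finset.sum_neg_distrib]
  have h5 : P.chi (-∑ j, T.w ε j) * P.chi (T.W ε) = 1 := by
    rw [← chi_add, W, neg_add_cancel, chi_zero]
  change fc (P.bas T ε') ω * (P.chi (-∑ j, T.w ε j) * ((T.trans ε ε').det : K) * P.chi (T.W ε')) *
    P.chi (T.W ε) = _
  linear_combination (fc (P.bas T ε') ω * ((T.trans ε ε').det : K) * P.chi (T.W ε')) * h5

/-- logarithmic coordinate of a rational form -/
def Lam : RatForm K n →ₗ[K] K := P.LamAt T fun _ => true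

lemma Lam_eq (ε : Fin n → Bool) : ∃ s : K, s * s = 1 ∧ (s = 1 ∨ s = -1) ∧ ∀ ω : RatForm K n,
    P.Lam T ω = s * (fc (P.bas T ε) ω * P.chi (T.W ε)) := by
  have h1 : IsUnit (T.trans (fun _ => true) ε).det := by
    have := congrArg Matrix.det (T.trans_mul (fun _ => true) ε)
    rw [Matrix.det_mul, Matrix.det_one] at this
    exact IsUnit.of_mul_eq_one _ this
  rcases Int.isUnit_iff.1 h1 with h2 | h2
  · refine ⟨1, by simp, Or.inl rfl, fun ω => ?_⟩
    rw [Lam, P.LamAt_eq T _ ε, h2, LamAt_apply]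
    simp
  · refine ⟨-1, by simp, Or.inr rfl, fun ω => ?_⟩
    rw [Lam, P.LamAt_eq T _ ε, h2, LamAt_apply]
    simp

/-- the standard logarithmic form -/
def Om : RatForm K n := (P.chi (T.W fun _ => true))⁻¹ •
  exteriorPower.ιMulti K n (fun i => P.bas T (fun _ => true) i)

lemma Lam_Om : P.Lam T (P.Om T) = 1 := by
  rw [Om, map_smul, Lam, LamAt_apply, fc_self, one_mul, smul_eq_mul,
    inv_mul_cancel₀ (P.chi_ne_zero _)]

lemma eq_Lam_smul (ω : RatForm K n) : ω = P.Lam T ω • P.Om T := by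
  conv_lhs => rw [eq_fc_smul (P.bas T fun _ => true) ω]
  rw [Om, smul_smul, Lam, LamAt_apply, mul_assoc, mul_inv_cancel₀ (P.chi_ne_zero _), mul_one]

/-- the section of a pluri-anticanonical bundle given by a Laurent polynomial -/
def secMap (m : ℕ) : LP n →ₗ[ℂ] (RatForm K n → K) where
  toFun f ω := P.Lam T ω ^ m * P.ψ f
  map_add' f g := by
    funext ω
    simp [mul_add]
  map_smul' c f := by
    funext ω
    simp

lemma secMap_apply (m : ℕ) (f : LP n) (ω : RatForm K n) :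
    P.secMap T m f ω = P.Lam T ω ^ m * P.ψ f := rfl

lemma secMap_injective (m : ℕ) : Function.Injective (P.secMap T m) := by
  intro f g h
  have h1 := congrFun h (P.Om T)
  rw [secMap_apply, secMap_apply, Lam_Om, one_pow, one_mul, one_mul] at h1
  exact P.inj h1

/-- A family of local rings is the one of the toric variety. -/
structure IsToric {ι : Type} (O : ι → Subalgebra ℂ K) : Prop where
  pt : ∀ x, ∃ (ε : Fin n → Bool) (p : Ideal (T.A (full ε))), P.IsLoc T ε p (O x)
  surj : ∀ (ε : Fin n → Bool) (p : Ideal (T.A (full ε))), p.IsPrime → ∃ x, P.IsLoc T ε p (O x)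

variable {P T}

lemma IsLoc.chi_W_mem {ε : Fin n → Bool} {p : Ideal (T.A (full ε))} {O : Subalgebra ℂ K}
    (h : P.IsLoc T ε p O) : P.chi (T.W ε) ∈ O :=
  h.ψ_mem ⟨mono (T.W ε), mono_mem_suppAlg.2 (T.W_mem ε)⟩

lemma neg_one_pow_mem {O : Subalgebra ℂ K} {s : K} (hs : s = 1 ∨ s = -1) : s ∈ O := by
  rcases hs with rfl | rfl
  · exact one_mem _
  · exact neg_mem (one_mem _)

lemma IsLoc.forall_mem_iff {ε : Fin n → Bool} {p : Ideal (T.A (full ε))} {O : Subalgebra ℂ K}
    (h : P.IsLoc T ε p O) (m : ℕ) (g : K) :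
    (∀ ω ∈ regularForms n O, P.Lam T ω ^ m * g ∈ O) ↔ g * P.chi (m • T.W ε) ∈ O := by
  obtain ⟨s, hs1, hs2, hs⟩ := P.Lam_eq T ε
  have hsm : s ^ m ∈ O := pow_mem (neg_one_pow_mem hs2) m
  constructor
  · intro h1
    have h2 := h1 (exteriorPower.ιMulti K n (fun i => P.bas T ε i))
      ((h.mem_regularForms _).2 (by rw [fc_self]; exact one_mem _))
    rw [hs, fc_self, one_mul] at h2
    have h3 : g * P.chi (m • T.W ε) = s ^ m * ((s * P.chi (T.W ε)) ^ m * g) := by
      rw [chi_nsmul, mul_pow, ← mul_assoc, ← mul_assoc, ← mul_pow, hs1, one_pow, one_mul, mul_comm]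
    rw [h3]
    exact mul_mem hsm h2
  · intro h1 ω hω
    rw [hs]
    have h2 : (s * (fc (P.bas T ε) ω * P.chi (T.W ε))) ^ m * g =
        s ^ m * fc (P.bas T ε) ω ^ m * (g * P.chi (m • T.W ε)) := by
      rw [chi_nsmul, mul_pow, mul_pow]
      ring
    rw [h2]
    exact mul_mem (mul_mem hsm (pow_mem ((h.mem_regularForms _).1 hω) m)) h1

lemma exists_mem_A {ι : Type} {O : ι → Subalgebra ℂ K} (hO : P.IsToric T O) (ε : Fin n → Bool)
    (g : K) (hg : ∀ (x : ι) (p : Ideal (T.A (full ε))), P.IsLoc T ε p (O x) → g ∈ O x) :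
    ∃ a : T.A (full ε), g = P.ψ a := by
  let I : Ideal (T.A (full ε)) :=
    { carrier := {b | ∃ a : T.A (full ε), g * P.ψ b = P.ψ a}
      add_mem' := by
        rintro b b' ⟨a, ha⟩ ⟨a', ha'⟩
        exact ⟨a + a', by simp [mul_add, ha, ha']⟩
      zero_mem' := ⟨0, by simp⟩
      smul_mem' := by
        rintro c b ⟨a, ha⟩
        refine ⟨c * a, ?_⟩
        simp only [smul_eq_mul, MulMemClass.coe_mul, map_mul]
        rw [← ha]
        ring }
  by_cases hI : I = ⊤
  · have h1 : (1 : T.A (full ε)) ∈ I := by rw [hI]; trivial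
    obtain ⟨a, ha⟩ := h1
    exact ⟨a, by simpa using ha⟩
  · obtain ⟨p, hp, hIp⟩ := Ideal.exists_le_maximal I hI
    obtain ⟨x, hx⟩ := hO.surj ε p hp.isPrime
    obtain ⟨a, b, hb, hab⟩ := (hx.2 g).1 (hg x p hx)
    exact absurd (hIp ⟨a, hab⟩) hb

theorem antiSections_eq {ι : Type} {O : ι → Subalgebra ℂ K} (hO : P.IsToric T O) (m : ℕ) :
    antiSections n O m = (T.sec m).map (P.secMap T m) := by
  ext φ
  constructor
  · rintro ⟨h1, h2⟩
    have h3 : φ = fun ω => P.Lam T ω ^ m * φ (P.Om T) := by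
      funext ω
      conv_lhs => rw [P.eq_Lam_smul T ω]
      rw [h1]
    have h4 : ∀ ε, ∃ a : T.A (full ε), φ (P.Om T) * P.chi (m • T.W ε) = P.ψ a := by
      intro ε
      apply exists_mem_A hO
      intro x p hx
      rw [← hx.forall_mem_iff]
      intro ω hω
      have := h2 x ω hω
      rwa [h3] at this
    obtain ⟨a, ha⟩ := h4 fun _ => true
    set f : LP n := a * mono (-(m • T.W fun _ => true)) with hf
    have h5 : φ (P.Om T) = P.ψ f := by
      rw [hf, map_mul, ← ha]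
      change _ = _ * P.chi (-(m • T.W fun _ => true))
      rw [mul_assoc, chi_mul_neg, mul_one]
    refine ⟨f, ?_, ?_⟩
    · change f ∈ T.sec m
      rw [T.mem_sec_iff]
      intro ε
      obtain ⟨b, hb⟩ := h4 ε
      have h6 : f * mono (m • T.W ε) = b := by
        apply P.inj
        rw [map_mul, ← h5, ← hb]
        rfl
      rw [h6]
      exact b.2
    · rw [h3]
      funext ω
      rw [secMap_apply, h5]
  · rintro ⟨f, hf, rfl⟩
    refine ⟨fun g ω => ?_, fun x ω hω => ?_⟩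
    · rw [secMap_apply, secMap_apply, map_smul, smul_eq_mul, mul_pow, mul_assoc]
    · obtain ⟨ε, p, hx⟩ := hO.pt x
      have h1 := (T.mem_sec_iff.1 hf) ε
      exact (hx.forall_mem_iff m (P.ψ f)).2 (by
        have := hx.ψ_mem ⟨_, h1⟩
        change P.ψ (f * mono (m • T.W ε)) ∈ O x at this
        rwa [map_mul] at this) ω hω

variable (P T)

/-- the filtration of the section ring by order of vanishing along a divisor, shifted by the
order `h` of the generator of the canonical forms at the centre -/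
def filt (v : AddValuation K (WithTop ℤ)) (hv : ∀ c : ℂ, 0 ≤ v (algebraMap ℂ K c)) (h : ℤ)
    (m k : ℕ) : Submodule ℂ (LP n) where
  carrier := {f | f ∈ T.sec m ∧ (((k : ℤ) - m * h : ℤ) : WithTop ℤ) ≤ v (P.ψ f)}
  add_mem' := by
    rintro f g ⟨h1, h2⟩ ⟨h3, h4⟩
    exact ⟨add_mem h1 h3, by rw [map_add]; exact le_trans (le_min h2 h4) (v.map_add _ _)⟩
  zero_mem' := ⟨zero_mem _, by simp⟩
  smul_mem' := by
    rintro c f ⟨h1, h2⟩
    refine ⟨Submodule.smul_mem _ c h1, ?_⟩
    rw [map_smul, Algebra.smul_def, AddValuation.map_mul]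
    exact le_trans (by simpa using h2) (add_le_add (hv c) le_rfl)

lemma mem_filt {v : AddValuation K (WithTop ℤ)} {hv : ∀ c : ℂ, 0 ≤ v (algebraMap ℂ K c)} {h : ℤ}
    {m k : ℕ} {f : LP n} : f ∈ P.filt T v hv h m k ↔
      f ∈ T.sec m ∧ (((k : ℤ) - m * h : ℤ) : WithTop ℤ) ≤ v (P.ψ f) := Iff.rfl

lemma shift_le_iff {a : WithTop ℤ} (k m : ℕ) (h : ℤ) :
    (((k : ℤ) - m * h : ℤ) : WithTop ℤ) ≤ a ↔ ((k : ℤ) : WithTop ℤ) ≤ m • (h : WithTop ℤ) + a := by
  induction a using WithTop.recTopCoe with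
  | top => simp
  | coe a =>
    have h1 : (m • (h : WithTop ℤ) + (a : WithTop ℤ)) = ((m * h + a : ℤ) : WithTop ℤ) := by
      rw [← WithTop.coe_nsmul, ← WithTop.coe_add, nsmul_eq_mul]
    rw [h1, WithTop.coe_le_coe, WithTop.coe_le_coe]
    omega

variable {P T}

theorem antiSectionsGE_eq {ι : Type} {O : ι → Subalgebra ℂ K} (hO : P.IsToric T O)
    (E : PrimeDivisorOver K n) (x : ι) (hc : E.HasCenter O x) {ε : Fin n → Bool}
    {p : Ideal (T.A (full ε))} (hx : P.IsLoc T ε p (O x)) {h : ℤ}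
    (hh : E.ord (P.chi (T.W ε)) = h) (m k : ℕ) :
    antiSectionsGE O E x m k = (P.filt T E.ord E.ord_const h m k).map (P.secMap T m) := by
  obtain ⟨s, hs1, hs2, hs⟩ := P.Lam_eq T ε
  have hs0 : E.ord s = 0 := by
    rcases hs2 with rfl | rfl
    · exact E.ord.map_one
    · rw [E.ord.map_neg, E.ord.map_one]
  ext φ
  constructor
  · rintro ⟨h1, h2⟩
    rw [antiSections_eq hO] at h1
    obtain ⟨f, hf, rfl⟩ := h1
    refine ⟨f, ⟨hf, ?_⟩, rfl⟩
    rw [shift_le_iff]
    have h3 := h2 (exteriorPower.ιMulti K n (fun i => P.bas T ε i))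
      ((hx.mem_regularForms _).2 (by rw [fc_self]; exact one_mem _))
    rw [secMap_apply, hs, fc_self, one_mul, E.ord.map_mul, E.ord.map_pow, E.ord.map_mul, hs0, hh,
      zero_add] at h3
    exact_mod_cast h3
  · rintro ⟨f, ⟨hf, hfk⟩, rfl⟩
    refine ⟨?_, fun ω hω => ?_⟩
    · rw [antiSections_eq hO]
      exact ⟨f, hf, rfl⟩
    · rw [shift_le_iff] at hfk
      have h3 := (hx.mem_regularForms _).1 hω
      have h4 := (hc _ h3).1
      rw [secMap_apply, hs, E.ord.map_mul, E.ord.map_pow, E.ord.map_mul, E.ord.map_mul, hs0, hh,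
        zero_add]
      have h5 : ((k : ℤ) : WithTop ℤ) = (k : WithTop ℤ) := by push_cast; rfl
      rw [h5] at hfk
      refine le_trans hfk (add_le_add ?_ le_rfl)
      apply nsmul_le_nsmul_right
      exact le_add_of_nonneg_left h4

/-- The log discrepancy in terms of coordinates adapted to the divisor. -/
theorem logDiscrepancy_eq {ι : Type} {O : ι → Subalgebra ℂ K}
    (E : PrimeDivisorOver K n) (x : ι) (hc : E.HasCenter O x) {ε : Fin n → Bool}
    {p : Ideal (T.A (full ε))} (hx : P.IsLoc T ε p (O x)) {h : ℤ}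
    (hh : E.ord (P.chi (T.W ε)) = h)
    {g : Fin n → K} {b : Module.Basis (Fin n) K Ω[K⁄ℂ]}
    (hb : ∀ i, b i = KaehlerDifferential.D ℂ K (g i)) (hg : ∀ i, 0 ≤ E.ord (g i))
    (hD : ∀ i f, 0 ≤ E.ord f → 0 ≤ E.ord (dualDer b i f)) :
    ∃ κ : ℤ, E.ord (fc b (P.Om T)) = κ ∧ 0 ≤ h + κ ∧
      ((logDiscrepancy O E x : ℕ) : ℤ) = 1 + h + κ := by
  obtain ⟨s, hs1, hs2, hs⟩ := P.Lam_eq T ε
  have hs0 : E.ord s = 0 := by
    rcases hs2 with rfl | rfl
    · exact E.ord.map_one
    · rw [E.ord.map_neg, E.ord.map_one]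
  have hsne : s ≠ 0 := by
    rintro rfl
    simp at hs1
  set ω₀ := exteriorPower.ιMulti K n (fun i => P.bas T ε i) with hω₀
  have hE : ∀ ω : RatForm K n, ω ∈ regularForms n E.localRing ↔ 0 ≤ E.ord (fc b ω) :=
    fun ω => mem_regularForms_iff E.localRing b hb hg hD ω
  have h1 : ω₀ = (s * P.chi (T.W ε)) • P.Om T := by
    conv_lhs => rw [P.eq_Lam_smul T ω₀, hs, hω₀, fc_self, one_mul]
  have h2 : fc b ω₀ = s * P.chi (T.W ε) * fc b (P.Om T) := by
    rw [h1, map_smul, smul_eq_mul]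
  have hne : fc b ω₀ ≠ 0 := by
    intro h0
    have h3 := eq_fc_smul b ω₀
    rw [h0, zero_smul] at h3
    have h4 := fc_self (P.bas T ε)
    rw [← hω₀, h3, map_zero] at h4
    exact zero_ne_one h4
  have hne' : fc b (P.Om T) ≠ 0 := by
    intro h0
    rw [h2, h0, mul_zero] at hne
    exact hne rfl
  obtain ⟨κ, hκ⟩ := exists_int E.ord hne'
  have h3 : E.ord (fc b ω₀) = ((h + κ : ℤ) : WithTop ℤ) := by
    rw [h2, E.ord.map_mul, E.ord.map_mul, hs0, zero_add, hh, hκ]
    push_cast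
    rfl
  have hreg : ω₀ ∈ regularForms n (O x) :=
    (hx.mem_regularForms _).2 (by rw [fc_self]; exact one_mem _)
  have h4 : 0 ≤ h + κ := by
    have h5 : ω₀ ∈ regularForms n E.localRing := by
      apply AddSubgroup.closure_mono _ hreg
      rintro ω ⟨c, a, h6, h7, h8⟩
      exact ⟨c, a, (hc c h6).1, fun i => (hc _ (h7 i)).1, h8⟩
    have h6 := (hE ω₀).1 h5
    rw [h3] at h6
    exact_mod_cast h6
  refine ⟨κ, hκ, h4, ?_⟩
  obtain ⟨N, hN⟩ := Int.eq_ofNat_of_zero_le h4
  have h5 : IsGreatest {k : ℕ | ∀ ω ∈ regularForms n (O x), ∃ t : K,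
      ∃ η ∈ regularForms n E.localRing, E.ord t = k ∧ ω = t • η} N := by
    constructor
    · intro ω hω
      refine ⟨fc b ω₀, (fc b ω₀)⁻¹ • ω, ?_, ?_, ?_⟩
      · rw [hE, map_smul, smul_eq_mul]
        have h6 : ω = fc (P.bas T ε) ω • ω₀ := eq_fc_smul _ _
        have h7 : fc b ω = fc (P.bas T ε) ω * fc b ω₀ := by
          conv_lhs => rw [h6]
          rw [map_smul, smul_eq_mul]
        rw [h7, mul_comm (fc (P.bas T ε) ω), ← mul_assoc, inv_mul_cancel₀ hne, one_mul]
        exact (hc _ ((hx.mem_regularForms _).1 hω)).1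
      · rw [h3, hN]
        push_cast
        rfl
      · rw [smul_smul, mul_inv_cancel₀ hne, one_smul]
    · intro k hk
      obtain ⟨t, η, hη, ht, h6⟩ := hk ω₀ hreg
      have h7 : fc b ω₀ = t * fc b η := by
        conv_lhs => rw [h6]
        rw [map_smul, smul_eq_mul]
      rw [h7, E.ord.map_mul, ht, hN] at h3
      have h8 := (hE η).1 hη
      have h9 : ((k : ℕ) : WithTop ℤ) ≤ (((N : ℕ) : ℤ) : WithTop ℤ) := by
        rw [← show (k : WithTop ℤ) + E.ord (fc b η) = (((N : ℕ) : ℤ) : WithTop ℤ) from h3]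
        exact le_add_of_nonneg_right h8
      have h10 : (((k : ℕ) : ℤ) : WithTop ℤ) ≤ (((N : ℕ) : ℤ) : WithTop ℤ) := by
        exact_mod_cast h9
      have h11 : ((k : ℕ) : ℤ) ≤ N := WithTop.coe_le_coe.1 h10
      exact_mod_cast h11
  rw [logDiscrepancy, h5.csSup_eq]
  push_cast
  rw [add_assoc, hN]

lemma fc_Om (b : Module.Basis (Fin n) K Ω[K⁄ℂ]) :
    fc b (P.Om T) =
      (Matrix.of fun i j => P.lder (dualDer b i) (T.w (fun _ => true) j)).det := by
  set ε : Fin n → Bool := fun _ => true with hε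
  rw [Om, map_smul, fc_ιMulti, smul_eq_mul, Module.Basis.det_apply]
  have h3 : b.toMatrix (fun i => P.bas T ε i) =
      (Matrix.of fun i j => P.lder (dualDer b i) (T.w ε j)) *
        Matrix.diagonal (fun k => P.chi (T.w ε k)) := by
    ext j k
    rw [Matrix.mul_diagonal, Module.Basis.toMatrix_apply, bas_apply]
    change dualDer b j (P.chi (T.w ε k)) = P.lder (dualDer b j) (T.w ε k) * P.chi (T.w ε k)
    rw [der_chi, mul_comm]
  rw [← hε, h3, Matrix.det_mul, Matrix.det_diagonal, ← chi_sum]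
  have h4 := P.chi_ne_zero (T.W ε)
  change (P.chi (T.W ε))⁻¹ * (_ * P.chi (T.W ε)) = _
  field_simp

end TorusModel

end Pool.Agent.H23
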