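import Pool.Agent.H23.MonoBasis
import Pool.Agent.H23.ModB
import Pool.Agent.H23.ModT2
import Pool.Agent.H23.ModT3
import Pool.Agent.H23.ModT4
import Pool.Agent.H23.ModT6

/-!
# K-semistability of the blow-up of `P³` in two disjoint lines
-/

open Filter MeasureTheory
open scoped ENNReal

set_option linter.style.haveILetI false

noncomputable section

namespace Pool.Agent.H23

open AddMonoidAlgebra TData TorusModel

/-- the toric data of the blow-up of `P³` in two disjoint lines -/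
def TX : TData 3 := bott 2 ![-1, 1]

section functionals

variable {n : ℕ} (T : TData n)

/-- the functionals of a toric datum as one family -/
def flatℓ (i : Fin (n * 2)) : (Fin n → ℤ) →+ ℤ :=
  T.ℓ (finProdFinEquiv.symm i).1 (finTwoEquiv (finProdFinEquiv.symm i).2)

lemma forall_flatℓ {P : ((Fin n → ℤ) →+ ℤ) → Prop} :
    (∀ i, P (flatℓ T i)) ↔ ∀ k b, P (T.ℓ k b) := by
  constructor
  · intro h k b
    have := h (finProdFinEquiv (k, finTwoEquiv.symm b))
    simpa [flatℓ] using this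
  · intro h i
    exact h _ _

lemma polyV_flatℓ (m : ℕ) : polyV (flatℓ T) m = T.sec m := by
  ext f
  change (∀ u, f.coeff u ≠ 0 → ∀ i, -(m : ℤ) ≤ flatℓ T i u) ↔
    (∀ u, f.coeff u ≠ 0 → ∀ k b, -(m : ℤ) ≤ T.ℓ k b u)
  constructor
  · intro h u hu
    exact (forall_flatℓ T (P := fun l => -(m : ℤ) ≤ l u)).1 (h u hu)
  · intro h u hu
    exact (forall_flatℓ T (P := fun l => -(m : ℤ) ≤ l u)).2 (h u hu)

end functionals

lemma TX_ℓ (u : Fin 3 → ℤ) (m : ℕ) : (∀ k b, -(m : ℤ) ≤ TX.ℓ k b u) ↔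
    (-(m : ℤ) ≤ u 0 ∧ u 0 ≤ m - u 2) ∧ (-(m : ℤ) ≤ u 1 ∧ u 1 ≤ m + u 2) ∧
      (-(m : ℤ) ≤ u 2 ∧ u 2 ≤ m) := by
  have h0t : TX.ℓ 0 true u = u 0 := by
    change (if true then u 0 else -u 0) + (if true then 0 else _) = _
    simp
  have h0f : TX.ℓ 0 false u = - u 0 - u 2 := by
    change (if false then u 0 else -u 0) +
      (if false then 0 else Fin.snoc (α := fun _ => ℤ) ![-1, 1] 0 0 * u (Fin.last 2)) = _
    have : Fin.snoc (α := fun _ => ℤ) ![-1, 1] 0 (0 : Fin 3) = -1 := rfl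
    rw [this]
    simp
    rfl
  have h1t : TX.ℓ 1 true u = u 1 := by
    change (if true then u 1 else -u 1) + (if true then 0 else _) = _
    simp
  have h1f : TX.ℓ 1 false u = - u 1 + u 2 := by
    change (if false then u 1 else -u 1) +
      (if false then 0 else Fin.snoc (α := fun _ => ℤ) ![-1, 1] 0 1 * u (Fin.last 2)) = _
    have : Fin.snoc (α := fun _ => ℤ) ![-1, 1] 0 (1 : Fin 3) = 1 := rfl
    rw [this]
    simp
  have h2t : TX.ℓ 2 true u = u 2 := by
    change (if true then u 2 else -u 2) + (if true then 0 else _) = _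
    simp
  have h2f : TX.ℓ 2 false u = - u 2 := by
    change (if false then u 2 else -u 2) +
      (if false then 0 else Fin.snoc (α := fun _ => ℤ) ![-1, 1] 0 2 * u (Fin.last 2)) = _
    have : Fin.snoc (α := fun _ => ℤ) ![-1, 1] 0 (2 : Fin 3) = 0 := rfl
    rw [this]
    simp
  constructor
  · intro h
    have a1 := h 0 true
    have a2 := h 0 false
    have a3 := h 1 true
    have a4 := h 1 false
    have a5 := h 2 true
    have a6 := h 2 false
    rw [h0t] at a1
    rw [h0f] at a2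
    rw [h1t] at a3
    rw [h1f] at a4
    rw [h2t] at a5
    rw [h2f] at a6
    omega
  · rintro ⟨⟨a1, a2⟩, ⟨a3, a4⟩, a5, a6⟩ k b
    fin_cases k <;> cases b
    · change -(m : ℤ) ≤ TX.ℓ 0 false u
      rw [h0f]; omega
    · change -(m : ℤ) ≤ TX.ℓ 0 true u
      rw [h0t]; omega
    · change -(m : ℤ) ≤ TX.ℓ 1 false u
      rw [h1f]; omega
    · change -(m : ℤ) ≤ TX.ℓ 1 true u
      rw [h1t]; omega
    · change -(m : ℤ) ≤ TX.ℓ 2 false u
      rw [h2f]; omega
    · change -(m : ℤ) ≤ TX.ℓ 2 true u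
      rw [h2t]; omega

/-- exponents of sections in terms of `Mon` -/
def expX (m : ℕ) (u : Mon m) : Fin 3 → ℤ := ![(u.1.1 : ℤ) - m, (u.1.2.1 : ℤ) - m, u.1.2.2]

lemma expX_injective (m : ℕ) : Function.Injective (expX m) := by
  rintro ⟨⟨a, b, s⟩, hu⟩ ⟨⟨a', b', s'⟩, hu'⟩ h
  have h0 := congrFun h 0
  have h1 := congrFun h 1
  have h2 := congrFun h 2
  simp [expX] at h0 h1 h2
  simp only [Subtype.mk.injEq, Prod.mk.injEq]
  exact ⟨h0, h1, h2⟩

lemma mem_Mon_iff {m a b : ℕ} {s : ℤ} : (a, b, s) ∈ Mon m ↔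
    (-(m : ℤ) ≤ s ∧ s ≤ m) ∧ (a : ℤ) ≤ 2 * m - s ∧ (b : ℤ) ≤ 2 * m + s := by
  simp only [Mon, Finset.mem_filter, Finset.mem_product, Finset.mem_range, Finset.mem_Icc]
  constructor
  · rintro ⟨⟨h1, h2, h3⟩, h4⟩
    exact ⟨h3, h4⟩
  · rintro ⟨h1, h2, h3⟩
    refine ⟨⟨?_, ?_, h1⟩, h2, h3⟩ <;> omega

lemma mem_sec_TX (m : ℕ) (f : LP 3) :
    f ∈ TX.sec m ↔ ∀ u, f.coeff u ≠ 0 → ∃ i, expX m i = u := by
  change (∀ u, f.coeff u ≠ 0 → ∀ k b, -(m : ℤ) ≤ TX.ℓ k b u) ↔ _
  refine forall_congr' fun u => imp_congr_right fun _ => ?_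
  rw [TX_ℓ]
  constructor
  · rintro ⟨⟨a1, a2⟩, ⟨a3, a4⟩, a5, a6⟩
    refine ⟨⟨((u 0 + m).toNat, (u 1 + m).toNat, u 2), ?_⟩, ?_⟩
    · rw [mem_Mon_iff]
      omega
    · ext k
      fin_cases k
      · simp [expX]; omega
      · simp [expX]; omega
      · simp [expX]
  · rintro ⟨⟨⟨a, b, s⟩, hu⟩, rfl⟩
    rw [mem_Mon_iff] at hu
    simp [expX]
    omega

section loss

lemma val_zpow_H {K : Type} [Field K] (v : AddValuation K (WithTop ℤ)) {t : K} (ht : v t = 1) (k : ℤ) :
    v (t ^ k) = k := by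
  have h1 : ∀ m : ℕ, v (t ^ m) = ((m : ℤ) : WithTop ℤ) := by
    intro m
    rw [v.map_pow, ht]
    simp
  obtain ⟨m, rfl | rfl⟩ := k.eq_nat_or_neg
  · rw [zpow_natCast, h1]
  · rw [zpow_neg, zpow_natCast, v.map_inv, h1]
    rfl

variable {K : Type} [Field K] [Algebra ℂ K] (v : AddValuation K (WithTop ℤ)) (D : Derivation ℂ K K)
  (hD : ∀ f, 0 ≤ v f → 0 ≤ v (D f)) {t : K} (ht : v t = 1)

omit [Algebra ℂ K] in
include ht in
lemma exists_unit_mul {f : K} (hf : f ≠ 0) : ∃ (k : ℤ) (u : K), v f = k ∧ v u = 0 ∧ f = t ^ k * u := by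
  have ht0 : t ≠ 0 := by
    rintro rfl
    simp at ht
  obtain ⟨k, hk⟩ := exists_int v hf
  have h1 : v (t ^ k) = k := val_zpow_H v ht k
  refine ⟨k, f / t ^ k, hk, ?_, ?_⟩
  · rw [v.map_div, hk, h1]
    norm_cast
    simp
  · rw [mul_div_cancel₀]
    exact zpow_ne_zero k ht0

include hD ht in
lemma der_loss (f : K) : v f ≤ v (t * D f) := by
  by_cases hf : f = 0
  · simp [hf]
  have ht0 : t ≠ 0 := by
    rintro rfl
    simp at ht
  obtain ⟨k, u, hk, hu, h1⟩ := exists_unit_mul v ht hf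
  have h2 : t * D f = t ^ k * (k * D t * u + t * D u) := by
    rw [h1, D.leibniz, D.leibniz_zpow, smul_eq_mul, smul_eq_mul, zsmul_eq_mul, smul_eq_mul,
      zpow_sub_one₀ ht0]
    field_simp
    ring
  rw [h2, v.map_mul, val_zpow_H v ht k, hk]
  have h3 : 0 ≤ v (k * D t * u + t * D u) := by
    apply v.map_le_add
    · rw [v.map_mul, v.map_mul, hu, add_zero]
      have h4 : 0 ≤ v ((k : ℤ) : K) := val_intCast_nonneg v k
      exact add_nonneg h4 (hD t (by rw [ht]; norm_num))
    · rw [v.map_mul, ht]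
      exact add_nonneg (by norm_num) (hD u (by rw [hu]))
  exact le_add_of_nonneg_right h3

include hD ht in
lemma der_lossless (hDt : D t = 0) (f : K) : v f ≤ v (D f) := by
  by_cases hf : f = 0
  · simp [hf]
  have ht0 : t ≠ 0 := by
    rintro rfl
    simp at ht
  obtain ⟨k, u, hk, hu, h1⟩ := exists_unit_mul v ht hf
  have h2 : D f = t ^ k * D u := by
    rw [h1, D.leibniz, D.leibniz_zpow, hDt]
    simp
  rw [h2, v.map_mul, val_zpow_H v ht k, hk]
  exact le_add_of_nonneg_right (hD u (by rw [hu]))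

end loss

lemma TorusModel.chi_add' {n : ℕ} {K : Type} [Field K] [Algebra ℂ K] (P : TorusModel n K)
    (i : Fin n) (u : Fin n → ℤ) :
    P.chi (Pi.single i 1) * ((u i : K) * P.chi (u - Pi.single i 1)) = (u i : K) * P.chi u := by
  have h3 : P.chi u = P.chi (Pi.single i 1) * P.chi (u - Pi.single i 1) := by
    rw [← P.chi_add]
    congr 1
    abel
  rw [h3]
  ring

section sums

variable {K : Type} [Field K] [Algebra ℂ K] (P : TorusModel 3 K)

lemma chi_expX (m : ℕ) (u : Mon m) :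
    P.chi (Pi.single 0 1) ^ u.1.1 * P.chi (Pi.single 1 1) ^ u.1.2.1 *
      P.chi (Pi.single 2 1) ^ u.1.2.2 =
    (P.chi (Pi.single 0 1) ^ m * P.chi (Pi.single 1 1) ^ m) * P.chi (expX m u) := by
  rw [P.chi_eq_prod (expX m u), Fin.prod_univ_three]
  have h0 : P.chi (Pi.single 0 1) ≠ 0 := P.chi_ne_zero _
  have h1 : P.chi (Pi.single 1 1) ≠ 0 := P.chi_ne_zero _
  have e0 : expX m u 0 = (u.1.1 : ℤ) - m := rfl
  have e1 : expX m u 1 = (u.1.2.1 : ℤ) - m := rfl
  have e2 : expX m u 2 = u.1.2.2 := rfl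
  rw [e0, e1, e2, zpow_sub₀ h0, zpow_sub₀ h1, zpow_natCast, zpow_natCast, zpow_natCast,
    zpow_natCast]
  field_simp

lemma sum_finrank_le (E : PrimeDivisorOver K 3) {g : Fin 3 → K}
    {b : Module.Basis (Fin 3) K Ω[K⁄ℂ]} (hb : ∀ i, b i = KaehlerDifferential.D ℂ K (g i))
    (hg0 : E.ord (g 0) = 1) (hD : ∀ i f, 0 ≤ E.ord f → 0 ≤ E.ord (dualDer b i f)) {κ : ℤ}
    (hκ : E.ord (fc b (P.Om TX)) = κ) (h : ℤ) (m : ℕ)
    (hF0 : P.filt TX E.ord E.ord_const h m 0 = TX.sec m) (N : ℕ)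
    (hN : ∀ k, N < k → P.filt TX E.ord E.ord_const h m k = ⊥) :
    ((∑ k ∈ Finset.Icc 1 N, Module.finrank ℂ (P.filt TX E.ord E.ord_const h m k) : ℕ) : ℤ) ≤
      m * Fintype.card (Mon m) * (1 + h + κ) := by
  classical
  set V := TX.sec m with hV
  set F : ℕ → Submodule ℂ (LP 3) := fun k => P.filt TX E.ord E.ord_const h m k with hF
  have hmb := mem_sec_TX m
  have hcard : Module.finrank ℂ V = Fintype.card (Mon m) :=
    finrank_eq_card V (expX m) (expX_injective m) hmb
  haveI : FiniteDimensional ℂ V :=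
    Module.Basis.finiteDimensional_of_finite (monoBasis V (expX m) (expX_injective m) hmb)
  have hFV : ∀ k, F k ≤ V := fun k f hf => hf.1
  have hfr : ∀ k, Module.finrank ℂ ((F k).comap V.subtype) = Module.finrank ℂ (F k) := fun k =>
    (Submodule.comapSubtypeEquivOfLe (hFV k)).finrank_eq
  obtain ⟨b', w, hw1, hw2⟩ := exists_adapted_basis (fun k => (F k).comap V.subtype)
    (by
      change (F 0).comap V.subtype = ⊤
      rw [hF]
      dsimp only
      rw [hF0]
      exact Submodule.comap_subtype_self V)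
    (fun k k' hk => Submodule.comap_mono (filt_anti P TX E.ord E.ord_const h hk)) N
    (fun k hk => by
      change (F k).comap V.subtype = ⊥
      rw [hF]
      dsimp only
      rw [hN k hk, Submodule.comap_bot, Submodule.ker_subtype])
  simp only [hfr] at hw2
  let e' : Fin (Module.finrank ℂ V) ≃ Mon m := Fintype.equivOfCardEq (by simp [hcard])
  let bb : Module.Basis (Mon m) ℂ V := b'.reindex e'
  let mb := monoBasis V (expX m) (expX_injective m) hmb
  have hdet : (mb.toMatrix bb).det ≠ 0 := by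
    rw [← Module.Basis.det_apply]
    exact (mb.isUnit_det bb).ne_zero
  have hbb : ∀ i, bb (e' i) = b' i := fun i => by simp [bb]
  set x := P.chi (Pi.single 0 1) with hx
  set y := P.chi (Pi.single 1 1) with hy
  set z := P.chi (Pi.single 2 1) with hz
  have hx0 : x ≠ 0 := P.chi_ne_zero _
  have hy0 : y ≠ 0 := P.chi_ne_zero _
  have hz0 : z ≠ 0 := P.chi_ne_zero _
  obtain ⟨ex, hex⟩ := exists_int E.ord hx0
  obtain ⟨ey, hey⟩ := exists_int E.ord hy0
  let lam : Fin 3 → Derivation ℂ K K := ![g 0 • dualDer b 0, dualDer b 1, dualDer b 2]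
  have hlam : ∀ i f, E.ord f ≤ E.ord (lam i f) := by
    intro i f
    fin_cases i
    · exact der_loss E.ord (dualDer b 0) (hD 0) hg0 f
    · apply der_lossless E.ord (dualDer b 1) (hD 1) hg0
      rw [dualDer_coord b hb]
      simp
    · apply der_lossless E.ord (dualDer b 2) (hD 2) hg0
      rw [dualDer_coord b hb]
      simp
  have hd : E.ord (Matrix.of fun i j => lam i (![x, y, z] j) / ![x, y, z] j).det =
      ((1 + κ : ℤ) : WithTop ℤ) := by
    have h1 : (Matrix.of fun i j => lam i (![x, y, z] j) / ![x, y, z] j).det =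
        g 0 * fc b (P.Om TX) := by
      rw [fc_Om, Matrix.det_fin_three, Matrix.det_fin_three]
      have hw : ∀ k, TX.w (fun _ => true) k = Pi.single k 1 := fun k => bott_w_true 2 ![-1, 1] k
      simp only [Matrix.of_apply, hw]
      change g 0 * dualDer b 0 x / x * (dualDer b 1 y / y) * (dualDer b 2 z / z) -
        g 0 * dualDer b 0 x / x * (dualDer b 1 z / z) * (dualDer b 2 y / y) -
        g 0 * dualDer b 0 y / y * (dualDer b 1 x / x) * (dualDer b 2 z / z) +
        g 0 * dualDer b 0 y / y * (dualDer b 1 z / z) * (dualDer b 2 x / x) +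
        g 0 * dualDer b 0 z / z * (dualDer b 1 x / x) * (dualDer b 2 y / y) -
        g 0 * dualDer b 0 z / z * (dualDer b 1 y / y) * (dualDer b 2 x / x) =
        g 0 * (dualDer b 0 x / x * (dualDer b 1 y / y) * (dualDer b 2 z / z) -
        dualDer b 0 x / x * (dualDer b 1 z / z) * (dualDer b 2 y / y) -
        dualDer b 0 y / y * (dualDer b 1 x / x) * (dualDer b 2 z / z) +
        dualDer b 0 y / y * (dualDer b 1 z / z) * (dualDer b 2 x / x) +
        dualDer b 0 z / z * (dualDer b 1 x / x) * (dualDer b 2 y / y) -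
        dualDer b 0 z / z * (dualDer b 1 y / y) * (dualDer b 2 x / x))
      ring
    rw [h1, E.ord.map_mul, hg0, hκ]
    push_cast
    rfl
  have hwt : ∀ q : Mon m, (((w (e'.symm q) : ℤ) - m * h + m * (ex + ey) : ℤ) : WithTop ℤ) ≤
      E.ord (∑ u : Mon m, algebraMap ℂ K (mb.toMatrix bb u q) *
        (x ^ u.1.1 * y ^ u.1.2.1 * z ^ u.1.2.2)) := by
    intro q
    have h1 : (∑ u : Mon m, algebraMap ℂ K (mb.toMatrix bb u q) *
        (x ^ u.1.1 * y ^ u.1.2.1 * z ^ u.1.2.2)) = (x ^ m * y ^ m) * P.ψ (bb q : LP 3) := by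
      conv_rhs => rw [sum_mono_eq V (expX m) (expX_injective m) hmb (bb q).2]
      rw [map_sum, Finset.mul_sum]
      apply Finset.sum_congr rfl
      intro u _
      rw [map_smul, hx, hy, hz, chi_expX, Module.Basis.toMatrix_apply, Algebra.smul_def,
        monoBasis_repr]
      change _ = _ * (_ * P.chi (expX m u))
      ring
    have h2 : (((w (e'.symm q) : ℤ) - m * h : ℤ) : WithTop ℤ) ≤ E.ord (P.ψ (bb q : LP 3)) := by
      have h3 := hw1 (e'.symm q)
      have h4 : b' (e'.symm q) = bb q := by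
        rw [← hbb, Equiv.apply_symm_apply]
      rw [h4] at h3
      exact h3.2
    rw [h1, E.ord.map_mul, E.ord.map_mul, E.ord.map_pow, E.ord.map_pow, hex, hey]
    have h5 : (((w (e'.symm q) : ℤ) - m * h + m * (ex + ey) : ℤ) : WithTop ℤ) =
        (m • (ex : WithTop ℤ) + m • (ey : WithTop ℤ)) +
          (((w (e'.symm q) : ℤ) - m * h : ℤ) : WithTop ℤ) := by
      rw [← WithTop.coe_nsmul, ← WithTop.coe_nsmul, ← WithTop.coe_add, ← WithTop.coe_add,
        WithTop.coe_inj, nsmul_eq_mul, nsmul_eq_mul]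
      ring
    rw [h5]
    exact add_le_add le_rfl h2
  have key := ord_sum_le E.ord E.ord_const x y z hz0 lam hlam ex ey (1 + κ) hex hey hd m
    (mb.toMatrix bb) hdet (fun q => (w (e'.symm q) : ℤ) - m * h + m * (ex + ey)) hwt
  have h6 : ∑ q : Mon m, ((w (e'.symm q) : ℤ) - m * h + m * (ex + ey)) =
      (∑ i, (w i : ℤ)) + Fintype.card (Mon m) * (- m * h + m * (ex + ey)) := by
    rw [← Equiv.sum_comp e'.symm (fun i => (w i : ℤ))]
    simp only [sub_eq_add_neg, add_assoc]
    rw [Finset.sum_add_distrib, Finset.sum_const, Finset.card_univ, nsmul_eq_mul]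
    ring
  rw [h6] at key
  have h7 : ((Mon m).card : ℤ) = Fintype.card (Mon m) := by simp
  rw [h7] at key
  rw [hw2]
  push_cast
  linarith

end sums

/-- The valuative criterion holds for every variety whose local rings are those of `TX`. -/
theorem valuativelySemistable_TX {K : Type} [Field K] [Algebra ℂ K] (P : TorusModel 3 K)
    {ι : Type} {O : ι → Subalgebra ℂ K} (hO : P.IsToric TX O) : ValuativelySemistable 3 O := by
  intro E x hc
  haveI := P.essFiniteType
  obtain ⟨ε, p, hx⟩ := hO.pt x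
  obtain ⟨h, hh⟩ := exists_int E.ord (P.chi_ne_zero (TX.W ε))
  have hz := P.isTranscendenceBasis_chi TX (fun _ => true)
  obtain ⟨g, b, hb, hg0, hg, hD⟩ := exists_divisorCoords (k := 2) hz E
  obtain ⟨κ, hκ, hnn, hA⟩ := logDiscrepancy_eq (T := TX) E x hc hx hh hb hg hD
  set A := logDiscrepancy O E x with hAdef
  set F : ℕ → ℕ → Submodule ℂ (LP 3) := fun m k => P.filt TX E.ord E.ord_const h m k with hF
  have hfr0 : ∀ m, Module.finrank ℂ (F m 0) = Module.finrank ℂ (TX.sec m) := fun m =>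
    LinearEquiv.finrank_eq (LinearEquiv.ofEq _ _ (filt_zero E x hc hx hh m))
  have hvol : antiVolume 3 O = limsup (fun m : ℕ => (Module.finrank ℂ
      (F m 0) : ℝ≥0∞) / ((m : ℝ≥0∞) ^ 3 / ((3 : ℕ).factorial : ℝ≥0∞)))
      atTop := by
    rw [antiVolume]
    congr 1
    funext m
    rw [antiSections_eq hO, finrank_map_secMap, hfr0]
  have hvolE : ∀ t : ℝ, volAlong O E x t = limsup (fun m : ℕ => (Module.finrank ℂ
      (F m ⌈(m : ℝ) * t⌉₊) : ℝ≥0∞) /
        ((m : ℝ≥0∞) ^ 3 / ((3 : ℕ).factorial : ℝ≥0∞))) atTop := by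
    intro t
    rw [volAlong]
    congr 1
    funext m
    rw [antiSectionsGE_eq hO E x hc hx hh, finrank_map_secMap]
  -- linear bound
  have hloss : ∀ i : Fin 3, ∃ c : ℕ, ∀ f, E.ord f ≤
      E.ord ((P.chi (Pi.single i 1) • dualDer (P.bas TX fun _ => true) i) f) + (c : ℤ) :=
    fun i => exists_loss hz E _
  choose cl hcl using hloss
  obtain ⟨C, hC⟩ := exists_linear_bound P E.ord E.ord_const
    (fun i => P.chi (Pi.single i 1) • dualDer (P.bas TX fun _ => true) i) (∑ i, cl i)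
    (by
      intro i f
      refine le_trans (hcl i f) (add_le_add le_rfl ?_)
      rw [WithTop.coe_le_coe]
      exact_mod_cast Finset.single_le_sum (fun _ _ => Nat.zero_le _) (Finset.mem_univ i))
    (by
      intro i u
      change P.chi (Pi.single i 1) * dualDer (P.bas TX fun _ => true) i (P.chi u) = _
      rw [P.dualDer_chi]
      have h1 : TX.w (fun _ => true) i = Pi.single i 1 := bott_w_true 2 ![-1, 1] i
      have h2 : TX.ℓ i true u = u i := by
        change (if true then u i else -u i) + (if true then 0 else _) = _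
        simp
      rw [h1, h2, P.chi_add' i u])
    2
  have hbox : ∀ (m : ℕ) (u : Fin 3 → ℤ), (∀ i, -(m : ℤ) ≤ flatℓ TX i u) →
      ∀ j, |u j| ≤ (2 : ℕ) * m := by
    intro m u hu j
    rw [forall_flatℓ TX (P := fun l => -(m : ℤ) ≤ l u), TX_ℓ] at hu
    rw [abs_le]
    fin_cases j
    · simp only [Fin.zero_eta]; omega
    · simp only [Fin.mk_one]; omega
    · simp only [Fin.reduceFinMk]; omega
  have hT : ∀ m k, (C + h.toNat) * m < k → F m k = ⊥ := by
    intro m k hk
    rw [Submodule.eq_bot_iff]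
    rintro f ⟨hf1, hf2⟩
    by_contra hf0
    have h1 := hC m f hf0 (fun u hu j => by
      have h3 : f ∈ polyV (flatℓ TX) m := by rw [polyV_flatℓ]; exact hf1
      exact_mod_cast hbox m u (h3 u hu) j)
    have h2 := WithTop.coe_le_coe.1 (le_trans hf2 h1)
    have h3 : (h : ℤ) ≤ h.toNat := Int.self_le_toNat h
    have h4 : (m : ℤ) * h ≤ m * h.toNat := mul_le_mul_of_nonneg_left h3 (by positivity)
    have h5 : (((C + h.toNat) * m : ℕ) : ℤ) < k := by exact_mod_cast hk
    push_cast at h5 h2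
    nlinarith
  have hsum : ∀ m : ℕ, (∑ k ∈ Finset.Icc 1 ((C + h.toNat) * m),
      (Module.finrank ℂ (F m k) : ℝ≥0∞)) ≤ (A : ℝ≥0∞) * m * Module.finrank ℂ (F m 0) := by
    intro m
    have h1 := sum_finrank_le P E hb hg0 hD hκ h m (filt_zero E x hc hx hh m)
      ((C + h.toNat) * m) (fun k hk => hT m k hk)
    rw [← hA] at h1
    have h2 : Module.finrank ℂ (F m 0) = Fintype.card (Mon m) := by
      rw [hfr0]
      exact finrank_eq_card _ (expX m) (expX_injective m) (mem_sec_TX m)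
    rw [h2]
    have h3 : (∑ k ∈ Finset.Icc 1 ((C + h.toNat) * m), Module.finrank ℂ (F m k)) ≤
        A * m * Fintype.card (Mon m) := by
      have h4 : ((∑ k ∈ Finset.Icc 1 ((C + h.toNat) * m), Module.finrank ℂ (F m k) : ℕ) : ℤ) ≤
          ((A * m * Fintype.card (Mon m) : ℕ) : ℤ) := by
        refine le_trans h1 (le_of_eq ?_)
        push_cast
        ring
      exact_mod_cast h4
    exact_mod_cast h3
  rw [sInvariant]
  apply ENNReal.div_le_of_le_mul
  simp only [hvolE]
  rw [hvol]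
  exact volume_integral_le (flatℓ TX) (by norm_num) 2 hbox F
    (fun m => by rw [polyV_flatℓ]; exact filt_zero E x hc hx hh m)
    (fun m k k' hk => filt_anti P TX E.ord E.ord_const h hk)
    (fun m m' k k' f g hf hg => filt_mul P TX E.ord E.ord_const h hf hg)
    (C + h.toNat) hT A (ENNReal.natCast_ne_top A) hsum

end Pool.Agent.H23
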