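import Pool.Agent.H23.Laurent

/-!
# Smooth toric data and their affine charts
-/

noncomputable section

namespace Pool.Agent.H23

open AddMonoidAlgebra

/-- The fan of a smooth toric variety with rays indexed by `Fin n × Bool` and maximal cones by
sign vectors `ε : Fin n → Bool`; `w ε` is the dual basis of the cone of `ε`. -/
structure TData (n : ℕ) where
  /-- the primitive vectors of the rays, as functionals on exponents -/
  ℓ : Fin n → Bool → ((Fin n → ℤ) →+ ℤ)
  /-- exponents of the coordinates of the chart of a maximal cone -/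
  w : (Fin n → Bool) → Fin n → (Fin n → ℤ)
  dual : ∀ ε j k, ℓ k (ε k) (w ε j) = if k = j then 1 else 0
  span : ∀ ε u, u = ∑ k, ℓ k (ε k) u • w ε k

variable {n : ℕ} (T : TData n)

namespace TData

/-- the dual cone of a chart; charts are indexed by partial sign vectors -/
def cone (i : Fin n → Option Bool) : AddSubmonoid (Fin n → ℤ) where
  carrier := {u | ∀ k b, i k = some b → 0 ≤ T.ℓ k b u}
  zero_mem' := by intro k b _; simp
  add_mem' := by
    intro u v hu hv k b h
    rw [map_add]
    exact add_nonneg (hu k b h) (hv k b h)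

lemma mem_cone {i : Fin n → Option Bool} {u : Fin n → ℤ} :
    u ∈ T.cone i ↔ ∀ k b, i k = some b → 0 ≤ T.ℓ k b u := Iff.rfl

/-- a full sign vector as a chart index -/
abbrev full (ε : Fin n → Bool) : Fin n → Option Bool := fun k => some (ε k)

lemma mem_cone_full {ε : Fin n → Bool} {u : Fin n → ℤ} :
    u ∈ T.cone (full ε) ↔ ∀ k, 0 ≤ T.ℓ k (ε k) u := by
  rw [mem_cone]
  constructor
  · intro h k
    exact h k _ rfl
  · intro h k b hb
    simp only [full, Option.some.injEq] at hb
    rw [← hb]
    exact h k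

lemma cone_anti {i j : Fin n → Option Bool} (h : ∀ k b, i k = some b → j k = some b) :
    T.cone j ≤ T.cone i := fun _ hu k b hb => hu k b (h k b hb)

/-- the coordinate ring of a chart -/
abbrev A (i : Fin n → Option Bool) : Subalgebra ℂ (LP n) := suppAlg (T.cone i)

lemma w_mem (ε : Fin n → Bool) (k : Fin n) : T.w ε k ∈ T.cone (full ε) := by
  rw [mem_cone_full]
  intro j
  rw [T.dual]
  split_ifs <;> simp

lemma ℓ_sum_w (ε : Fin n → Bool) (s : Finset (Fin n)) (k : Fin n) :
    T.ℓ k (ε k) (∑ j ∈ s, T.w ε j) = if k ∈ s then 1 else 0 := by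
  rw [map_sum]
  simp only [T.dual]
  rw [Finset.sum_ite_eq]

lemma mono_span (ε : Fin n → Bool) {u : Fin n → ℤ} (hu : u ∈ T.cone (full ε)) :
    mono u = ∏ k, mono (T.w ε k) ^ (T.ℓ k (ε k) u).toNat := by
  rw [mem_cone_full] at hu
  have h1 : ∀ s : Finset (Fin n), mono (∑ k ∈ s, T.ℓ k (ε k) u • T.w ε k) =
      ∏ k ∈ s, mono (T.w ε k) ^ (T.ℓ k (ε k) u).toNat := by
    classical
    intro s
    induction s using Finset.induction_on with
    | empty => simp
    | insert a s ha ih =>
      rw [Finset.sum_insert ha, Finset.prod_insert ha, mono_add, ih]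
      congr 1
      rw [← mono_nsmul]
      congr 1
      rw [← natCast_zsmul, Int.toNat_of_nonneg (hu a)]
  conv_lhs => rw [T.span ε u]
  exact h1 _

/-- generators of the dual cone of a chart -/
def gens (ε : Fin n → Bool) (i : Fin n → Option Bool) : Set (Fin n → ℤ) :=
  {v | (∃ k, v = T.w ε k) ∨ ∃ k, i k = none ∧ v = - T.w ε k}

lemma finite_gens (ε : Fin n → Bool) (i : Fin n → Option Bool) : (T.gens ε i).Finite := by
  apply Set.Finite.subset (Set.finite_range
    (fun p : Fin n × Bool => if p.2 then T.w ε p.1 else - T.w ε p.1))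
  rintro v (⟨k, rfl⟩ | ⟨k, _, rfl⟩)
  · exact ⟨(k, true), rfl⟩
  · exact ⟨(k, false), rfl⟩

lemma cone_eq_closure {i : Fin n → Option Bool} {ε : Fin n → Bool}
    (h : ∀ k b, i k = some b → ε k = b) :
    T.cone i = AddSubmonoid.closure (T.gens ε i) := by
  apply le_antisymm
  · intro u hu
    rw [T.span ε u]
    apply AddSubmonoid.sum_mem
    intro k _
    by_cases hk : 0 ≤ T.ℓ k (ε k) u
    · obtain ⟨m, hm⟩ := Int.eq_ofNat_of_zero_le hk
      rw [hm, natCast_zsmul]
      have hmem : T.w ε k ∈ AddSubmonoid.closure (T.gens ε i) :=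
        AddSubmonoid.subset_closure (show T.w ε k ∈ T.gens ε i from Or.inl ⟨k, rfl⟩)
      exact nsmul_mem hmem _
    · have h1 : i k = none := by
        rcases hik : i k with _ | b
        · rfl
        · exfalso
          apply hk
          have := hu k b hik
          rwa [← h k b hik] at this
      obtain ⟨m, hm⟩ := Int.eq_ofNat_of_zero_le (show 0 ≤ -T.ℓ k (ε k) u by omega)
      have h2 : T.ℓ k (ε k) u • T.w ε k = m • (- T.w ε k) := by
        rw [← natCast_zsmul, smul_neg, ← neg_smul, ← hm, neg_neg]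
      rw [h2]
      have hmem : - T.w ε k ∈ AddSubmonoid.closure (T.gens ε i) :=
        AddSubmonoid.subset_closure (show - T.w ε k ∈ T.gens ε i from Or.inr ⟨k, h1, rfl⟩)
      exact nsmul_mem hmem _
  · rw [AddSubmonoid.closure_le]
    rintro v (⟨k, rfl⟩ | ⟨k, hk, rfl⟩)
    · intro j b hj
      rw [← h j b hj, T.dual]
      split_ifs <;> simp
    · intro j b hj
      have hjk : j ≠ k := by
        rintro rfl
        rw [hk] at hj
        exact absurd hj (by simp)
      rw [map_neg, ← h j b hj, T.dual, if_neg hjk]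
      simp

/-- a full sign vector extending a partial one -/
def ext (i : Fin n → Option Bool) : Fin n → Bool := fun k => (i k).getD true

lemma ext_spec (i : Fin n → Option Bool) : ∀ k b, i k = some b → ext i k = b := by
  intro k b h
  simp [ext, h]

lemma A_eq_adjoin {i : Fin n → Option Bool} {ε : Fin n → Bool}
    (h : ∀ k b, i k = some b → ε k = b) :
    T.A i = Algebra.adjoin ℂ (mono '' T.gens ε i) := by
  rw [A, T.cone_eq_closure h, suppAlg_closure]

lemma finiteType_A (i : Fin n → Option Bool) : Algebra.FiniteType ℂ (T.A i) := by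
  rw [T.A_eq_adjoin (ext_spec i)]
  rw [← Subalgebra.fg_iff_finiteType, Subalgebra.fg_def]
  exact ⟨_, (T.finite_gens (ext i) i).image _, rfl⟩

/-- the difference of two charts -/
def locExp (i j : Fin n → Option Bool) : Fin n → ℤ :=
  ∑ k ∈ Finset.univ.filter (fun k => i k = none), T.w (ext j) k

lemma ℓ_locExp {i j : Fin n → Option Bool} {k : Fin n} {b : Bool}
    (hb : j k = some b) : T.ℓ k b (T.locExp i j) = if i k = none then 1 else 0 := by
  rw [← ext_spec j k b hb, locExp, ℓ_sum_w]
  simp

lemma locExp_mem {i j : Fin n → Option Bool} : T.locExp i j ∈ T.cone j := by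
  intro k b hb
  rw [T.ℓ_locExp hb]
  split_ifs <;> simp

lemma neg_locExp_mem {i j : Fin n → Option Bool} (h : ∀ k b, i k = some b → j k = some b) :
    - T.locExp i j ∈ T.cone i := by
  intro k b hb
  rw [map_neg, T.ℓ_locExp (h k b hb), if_neg (by simp [hb])]
  simp

/-- lattice points of a smaller chart move into a bigger one -/
lemma exists_add_mem {i j : Fin n → Option Bool} (h : ∀ k b, i k = some b → j k = some b)
    {u : Fin n → ℤ} (hu : u ∈ T.cone i) :
    ∃ N : ℕ, ∀ M, N ≤ M → u + M • T.locExp i j ∈ T.cone j := by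
  refine ⟨∑ k, (|T.ℓ k true u| + |T.ℓ k false u|).toNat, fun M hM => ?_⟩
  intro k b hb
  rw [map_add, map_nsmul, T.ℓ_locExp hb]
  by_cases hk : i k = none
  · rw [if_pos hk]
    have h1 : (|T.ℓ k true u| + |T.ℓ k false u|).toNat ≤ M :=
      le_trans (Finset.single_le_sum (f := fun k => (|T.ℓ k true u| + |T.ℓ k false u|).toNat)
        (fun _ _ => Nat.zero_le _) (Finset.mem_univ k)) hM
    have h2 : |T.ℓ k b u| ≤ |T.ℓ k true u| + |T.ℓ k false u| := by
      cases b
      · have := abs_nonneg (T.ℓ k true u); omega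
      · have := abs_nonneg (T.ℓ k false u); omega
    have h3 := neg_abs_le (T.ℓ k b u)
    simp only [nsmul_eq_mul, mul_one]
    have h4 : (|T.ℓ k true u| + |T.ℓ k false u|) ≤ M := by
      have := Int.toNat_le.1 h1
      exact this
    omega
  · rw [if_neg hk]
    obtain ⟨b', hb'⟩ := Option.ne_none_iff_exists'.1 hk
    have h1 := h k b' hb'
    rw [hb] at h1
    have h2 : b = b' := by simpa using h1
    subst h2
    have := hu k b hb'
    simpa using this

lemma exists_mul_mem {i j : Fin n → Option Bool} (h : ∀ k b, i k = some b → j k = some b)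
    {f : LP n} (hf : f ∈ T.A i) : ∃ N : ℕ, f * mono (T.locExp i j) ^ N ∈ T.A j := by
  classical
  have h1 : ∀ u ∈ f.coeff.support, ∃ N : ℕ, ∀ M, N ≤ M → u + M • T.locExp i j ∈ T.cone j :=
    fun u hu => T.exists_add_mem h (hf u (Finsupp.mem_support_iff.1 hu))
  choose! N hN using h1
  refine ⟨∑ u ∈ f.coeff.support, N u, ?_⟩
  rw [← mono_nsmul]
  intro v hv
  rw [coeff_mul_mono] at hv
  have hv' := Finsupp.mem_support_iff.2 hv
  have := hN _ hv' (∑ u ∈ f.coeff.support, N u)
    (Finset.single_le_sum (f := N) (fun _ _ => Nat.zero_le _) hv')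
  simpa using this

/-! ### Polynomial coordinates on a maximal chart -/

/-- the polynomial ring of a maximal chart -/
def polyHom (ε : Fin n → Bool) : MvPolynomial (Fin n) ℂ →ₐ[ℂ] LP n :=
  MvPolynomial.aeval fun k => mono (T.w ε k)

lemma polyHom_X (ε : Fin n → Bool) (k : Fin n) :
    T.polyHom ε (MvPolynomial.X k) = mono (T.w ε k) := by
  simp [polyHom]

lemma polyHom_range (ε : Fin n → Bool) : (T.polyHom ε).range = T.A (full ε) := by
  rw [T.A_eq_adjoin (ε := ε) (by intro k b h; simpa [full] using h), polyHom,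
    ← Algebra.adjoin_range_eq_range_aeval]
  congr 1
  ext v
  constructor
  · rintro ⟨k, rfl⟩
    exact ⟨_, Or.inl ⟨k, rfl⟩, rfl⟩
  · rintro ⟨_, ⟨k, rfl⟩ | ⟨k, hk, rfl⟩, rfl⟩
    · exact ⟨k, rfl⟩
    · simp [full] at hk

lemma polyHom_injective (ε : Fin n → Bool) : Function.Injective (T.polyHom ε) := by
  let g : (Fin n →₀ ℕ) →+ (Fin n → ℤ) :=
    { toFun := fun m => ∑ k, m k • T.w ε k
      map_zero' := by simp
      map_add' := by
        intro a b
        simp only [Finsupp.coe_add, Pi.add_apply, add_smul, Finset.sum_add_distrib] }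
  have hg0 : ∀ m, g m = ∑ k, m k • T.w ε k := fun _ => rfl
  have hg : Function.Injective g := by
    intro a b hab
    ext k
    have h1 := congrArg (T.ℓ k (ε k)) hab
    rw [hg0, hg0, map_sum, map_sum] at h1
    simp only [map_nsmul, T.dual, smul_ite,
      smul_zero, Finset.sum_ite_eq, Finset.mem_univ, if_true] at h1
    simpa using h1
  have h2 : T.polyHom ε = AddMonoidAlgebra.mapDomainAlgHom ℂ ℂ g := by
    apply MvPolynomial.algHom_ext
    intro k
    rw [polyHom_X]
    change _ = AddMonoidAlgebra.mapDomain g (AddMonoidAlgebra.single (Finsupp.single k 1) 1)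
    rw [AddMonoidAlgebra.mapDomain_single, mono, hg0]
    congr 1
    rw [Finset.sum_eq_single k]
    · simp
    · intro j _ hj
      simp [hj.symm]
    · simp
  rw [h2]
  exact AddMonoidAlgebra.mapDomain_injective hg

/-- a maximal chart is an affine space -/
def polyEquiv (ε : Fin n → Bool) : MvPolynomial (Fin n) ℂ ≃ₐ[ℂ] T.A (full ε) :=
  (AlgEquiv.ofInjective (T.polyHom ε) (T.polyHom_injective ε)).trans
    (Subalgebra.equivOfEq _ _ (T.polyHom_range ε))

lemma polyEquiv_X (ε : Fin n → Bool) (k : Fin n) :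
    (T.polyEquiv ε (MvPolynomial.X k) : LP n) = mono (T.w ε k) :=
  T.polyHom_X ε k

end TData

end Pool.Agent.H23
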